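import Pool.Agent.Lib.MP_1a91b9_ntH.C.Curve
import Pool.Agent.Lib.MP_1a91b9_ntT.S5.Heights
import Pool.Agent.Lib.MP_1a91b9_ntT.S9.GD

/-!
# MP_1a91b9_nt (TwistDensity), part C-fin: if `W(N) = W[2] + 2 W(N)` then `W(N)` is finite

`W : y² = x³ + d³` over a number field.  The naive height satisfies `h(2P) ≥ 4 h(P) - C`; the group
`H = 2 W(N)` is 2-divisible, hence finitely generated (descent) and finite, of odd order.
-/

set_option autoImplicit false

namespace Pool.Agent.Lib.MP_1a91b9_ntH.C

open WeierstrassCurve MvPolynomial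

section Heights

variable {N : Type*} [Field N] [NumberField N] {W : Affine N} {d : N}

/-- naive height -/
private noncomputable def FN_h : W.Point → ℝ
  | .zero => 0
  | .some x _ _ => Height.logHeight₁ x

/-- the abscissa -/
private def FN_x : W.Point → Option N
  | .zero => none
  | .some x _ _ => some x

omit [NumberField N] in
private theorem FN_fiber (o : Option N) : ((FN_x : W.Point → Option N) ⁻¹' {o}).Finite := by
  rcases Set.eq_empty_or_nonempty ((FN_x : W.Point → Option N) ⁻¹' {o}) with h | h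
  · rw [h]
    exact Set.finite_empty
  · obtain ⟨P₀, hP₀⟩ := h
    refine (Set.toFinite {P₀, -P₀}).subset fun P hP => ?_
    have he : FN_x P = FN_x P₀ := hP.trans hP₀.symm
    rcases P with _ | ⟨x, y, hxy⟩
    · rcases P₀ with _ | ⟨x₀, y₀, h₀⟩
      · exact Or.inl rfl
      · simp [FN_x] at he
    · rcases P₀ with _ | ⟨x₀, y₀, h₀⟩
      · simp [FN_x] at he
      · have hx : x = x₀ := by simpa [FN_x] using he
        exact (Affine.Point.X_eq_iff (h₁ := hxy) (h₂ := h₀)).1 hx

private theorem FN_northcott : Northcott (FN_h : W.Point → ℝ) := by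
  refine ⟨fun B => ?_⟩
  have h1 : {x : N | Height.logHeight₁ x ≤ B}.Finite := NumberField.finite_setOfPred_logHeight₁_le N B
  have h2 : (insert none (Option.some '' {x : N | Height.logHeight₁ x ≤ B})).Finite :=
    (h1.image _).insert _
  refine (h2.preimage' (f := (FN_x : W.Point → Option N)) (fun o _ => FN_fiber o)).subset
    fun P hP => ?_
  rcases P with _ | ⟨x, y, hxy⟩
  · exact Set.mem_insert _ _
  · exact Set.mem_insert_of_mem _ ⟨x, hP, rfl⟩

/-- the cubic coefficients -/
private noncomputable def FN_q (B : N) (a : Fin 2 × Fin 2) : MvPolynomial (Fin 2) N :=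
  (![![X 0 ^ 3 + C (8 / 9 * B) * X 1 ^ 3, C (16 / 9 * B) * (X 0 * X 1 ^ 2)],
    ![C (1 / (9 * B ^ 2)) * (X 0 ^ 2 * X 1), C (1 / (4 * B)) * X 1 ^ 3 - C (1 / (36 * B ^ 2)) * X 0 ^ 3]] :
      Fin 2 → Fin 2 → MvPolynomial (Fin 2) N) a.1 a.2

omit [NumberField N] in
private theorem FN_q_hom (B : N) (a : Fin 2 × Fin 2) : (FN_q B a).IsHomogeneous 3 := by
  obtain ⟨i, j⟩ := a
  fin_cases i <;> fin_cases j
  · exact (isHomogeneous_X_pow 0 3).add ((isHomogeneous_X_pow 1 3).C_mul _)
  · exact ((isHomogeneous_X N 0).mul (isHomogeneous_X_pow 1 2)).C_mul _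
  · exact ((isHomogeneous_X_pow 0 2).mul (isHomogeneous_X N 1)).C_mul _
  · exact ((isHomogeneous_X_pow 1 3).C_mul _).sub ((isHomogeneous_X_pow 0 3).C_mul _)

private theorem FN_quot {B : N} (hB : B ≠ 0) : ∃ C₁ : ℝ, ∀ t : N,
    C₁ + 4 * Height.logHeight₁ t ≤
      Height.logHeight₁ ((t ^ 4 - 8 * B * t) / (4 * t ^ 3 + 4 * B)) := by
  obtain ⟨C₁, hC⟩ := Height.logHeight_eval_ge' (K := N) (M := 3) (N := 4) (FN_q_hom B)
  refine ⟨C₁, fun t => ?_⟩
  have h1 := hC (fun j => C ((![t ^ 4 - 8 * B * t, 4 * t ^ 3 + 4 * B] : Fin 2 → N) j))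
    (x := ![t, 1]) (by
    intro k
    fin_cases k
    · simp [FN_q, Fin.sum_univ_two]
      ring
    · simp [FN_q, Fin.sum_univ_two]
      field_simp
      ring)
  rw [Height.logHeight₁_div_eq_logHeight, Height.logHeight₁_eq_logHeight]
  have h2 : (fun j => (C ((![t ^ 4 - 8 * B * t, 4 * t ^ 3 + 4 * B] : Fin 2 → N) j) :
      MvPolynomial (Fin 2) N).eval ![t, 1]) = ![t ^ 4 - 8 * B * t, 4 * t ^ 3 + 4 * B] := by
    funext j
    rw [eval_C]
  rw [h2] at h1
  exact_mod_cast h1

private theorem FN_dbl [DecidableEq N] (hd : d ≠ 0) (hW : W = cv d) : ∃ c : ℝ, 0 ≤ c ∧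
    ∀ P : W.Point, 4 * FN_h P - c ≤ FN_h (P + P) := by
  have hB : d ^ 3 ≠ 0 := pow_ne_zero 3 hd
  obtain ⟨C₁, hC⟩ := FN_quot hB
  refine ⟨max 0 (max (-C₁) (4 / 3 * Height.logHeight₁ (-d ^ 3))), le_max_left _ _, fun P => ?_⟩
  have hm0 : (0 : ℝ) ≤ max 0 (max (-C₁) (4 / 3 * Height.logHeight₁ (-d ^ 3))) := le_max_left _ _
  have hm1 : -C₁ ≤ max 0 (max (-C₁) (4 / 3 * Height.logHeight₁ (-d ^ 3))) :=
    (le_max_left _ _).trans (le_max_right _ _)
  have hm2 : 4 / 3 * Height.logHeight₁ (-d ^ 3) ≤
      max 0 (max (-C₁) (4 / 3 * Height.logHeight₁ (-d ^ 3))) :=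
    (le_max_right _ _).trans (le_max_right _ _)
  rcases P with _ | ⟨x, y, hxy⟩
  · have h0 : (Affine.Point.zero + Affine.Point.zero : W.Point) = Affine.Point.zero :=
      add_zero (0 : W.Point)
    rw [h0]
    change 4 * (0 : ℝ) - _ ≤ 0
    linarith
  · have heq : y ^ 2 = x ^ 3 + d ^ 3 := (eqn_iff hW x y).1 hxy.1
    have hneg : W.negY x y = -y := by
      rw [Affine.negY, hW]
      simp [cv]
    by_cases hy : y = W.negY x y
    · rw [Affine.Point.add_self_of_Y_eq hy]
      change 4 * Height.logHeight₁ x - _ ≤ 0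
      have h2 : y = 0 := by
        rw [hneg] at hy
        have : 2 * y = 0 := by linear_combination hy
        simpa using this
      have h3 : x ^ 3 = -d ^ 3 := by
        rw [h2] at heq
        linear_combination -heq
      have h4 := Height.logHeight₁_pow x 3
      rw [h3] at h4
      push_cast at h4
      linarith
    · rw [Affine.Point.add_self_of_Y_ne hy]
      change 4 * Height.logHeight₁ x - _ ≤ Height.logHeight₁ (W.addX x x (W.slope x x y y))
      have h2 : y ≠ 0 := by
        intro h
        apply hy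
        rw [hneg, h, neg_zero]
      have h3 : W.addX x x (W.slope x x y y) = (x ^ 4 - 8 * d ^ 3 * x) / (4 * x ^ 3 + 4 * d ^ 3) := by
        have h6 : W.slope x x y y = 3 * x ^ 2 / (2 * y) := by
          rw [Affine.slope_of_Y_ne rfl hy, hneg, hW]
          simp [cv]
          ring
        have h5 : 4 * x ^ 3 + 4 * d ^ 3 = 4 * y ^ 2 := by
          rw [heq]
          ring
        rw [h6, Affine.addX, h5, hW]
        simp only [cv]
        field_simp
        linear_combination (-32 * x) * heq
      rw [h3]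
      have h4 := hC x
      linarith

/-- a 2-divisible subgroup is finite -/
theorem finite_sub_of_div [DecidableEq N] (hd : d ≠ 0) (hW : W = cv d) (H : AddSubgroup W.Point)
    (h : ∀ P : H, ∃ Q : H, Q + Q = P) : Finite H := by
  obtain ⟨c, hc0, hc⟩ := FN_dbl hd hW
  have hN : Northcott (fun P : H => FN_h (P : W.Point)) := by
    refine ⟨fun B => ?_⟩
    have h1 : {P : W.Point | FN_h P ≤ B}.Finite := (FN_northcott (W := W)).finite_le B
    exact h1.preimage Subtype.val_injective.injOn
  let f : H →+ H :=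
    { toFun := fun P => P + P
      map_zero' := add_zero 0
      map_add' := fun P Q => by abel }
  refine MP_1a91b9_ntT.S5.finite_of_fg_of_div (AddGroup.fg_of_descent (f := f) (s := {0})
    (h := fun P : H => FN_h (P : W.Point)) (a := 1)
    (b := 4) (c := c) ?_ (by norm_num) (by norm_num) (Set.finite_singleton _) ?_ ?_ ?_) h
  · rintro U _ ⟨P, hP, rfl⟩
    exact U.add_mem hP hP
  · rw [Set.eq_univ_iff_forall]
    intro P
    obtain ⟨Q, hQ⟩ := h P
    exact Set.mem_add.2 ⟨0, rfl, P, ⟨Q, hQ⟩, zero_add P⟩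
  · rintro g rfl P
    rw [zero_add, one_mul]
    linarith
  · intro P
    exact hc P

/-- the points of order dividing two -/
theorem two_zero_iff [DecidableEq N] (hd : d ≠ 0) (hW : W = cv d) {z : N} (hz : z ^ 2 + z + 1 = 0)
    (T : W.Point) : T + T = 0 ↔ T = 0 ∨ ∃ i : Fin 3, T = tp hd hW (ee z d i) (ee_cube hz i) := by
  have hneg : ∀ x y : N, W.negY x y = -y := by
    intro x y
    rw [Affine.negY, hW]
    simp [cv]
  constructor
  · intro h
    rcases T with _ | ⟨x, y, hxy⟩
    · exact Or.inl rfl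
    · right
      have heq : y ^ 2 = x ^ 3 + d ^ 3 := (eqn_iff hW x y).1 hxy.1
      have h1 : (Affine.Point.some x y hxy : W.Point) = -Affine.Point.some x y hxy :=
        eq_neg_of_add_eq_zero_left h
      rw [Affine.Point.neg_some] at h1
      have h2 : y = W.negY x y := (Affine.Point.some.inj h1).2
      rw [hneg] at h2
      have h3 : y = 0 := by
        have : 2 * y = 0 := by linear_combination h2
        simpa using this
      subst h3
      have h4 : (x - ee z d 0) * ((x - ee z d 1) * (x - ee z d 2)) = 0 := by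
        simp only [ee, Fin.val_zero, Fin.val_one, Fin.val_two]
        linear_combination -heq + (x ^ 2 * d + x * d ^ 2 * z + d ^ 3 * (z - 1)) * hz
      rcases mul_eq_zero.1 h4 with h5 | h5
      · exact ⟨0, by rw [tp]; congr 1; exact sub_eq_zero.1 h5⟩
      · rcases mul_eq_zero.1 h5 with h5 | h5
        · exact ⟨1, by rw [tp]; congr 1; exact sub_eq_zero.1 h5⟩
        · exact ⟨2, by rw [tp]; congr 1; exact sub_eq_zero.1 h5⟩
  · rintro (rfl | ⟨i, rfl⟩)
    · exact add_zero 0
    · rw [tp]
      exact Affine.Point.add_self_of_Y_eq (by rw [hneg, neg_zero])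

/-- doubling -/
private def FN_f [DecidableEq N] : W.Point →+ W.Point where
  toFun := fun P => P + P
  map_zero' := add_zero 0
  map_add' := fun P Q => by abel

omit [NumberField N] in
private theorem FN_range_div [DecidableEq N]
    (h : ∀ P : W.Point, ∃ T Q : W.Point, T + T = 0 ∧ P = T + (Q + Q))
    (P : (FN_f (W := W)).range) : ∃ Q : (FN_f (W := W)).range, Q + Q = P := by
  obtain ⟨_, R, rfl⟩ := P
  obtain ⟨T, Q, hT, hR⟩ := h R
  refine ⟨⟨Q + Q, Q, rfl⟩, ?_⟩
  apply Subtype.ext
  change Q + Q + (Q + Q) = R + R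
  calc Q + Q + (Q + Q) = (T + T) + (Q + Q + (Q + Q)) := by rw [hT, zero_add]
    _ = R + R := by rw [hR]; abel

private theorem FN_ker_finite [DecidableEq N] (hW : W = cv d) :
    Finite (FN_f (W := W)).ker := by
  have h1 : {x : N | x ^ 3 = -d ^ 3}.Finite := by
    have h2 : {x : N | x ^ 3 = -d ^ 3} ⊆ ((Polynomial.X ^ 3 - Polynomial.C (-d ^ 3) :
        Polynomial N).roots.toFinset : Set N) := by
      intro x hx
      have hx' : x ^ 3 = -d ^ 3 := hx
      simp only [Finset.mem_coe, Multiset.mem_toFinset]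
      rw [Polynomial.mem_roots (Polynomial.X_pow_sub_C_ne_zero (by norm_num) _)]
      simp [hx']
    exact (Finset.finite_toSet _).subset h2
  have h2 : (insert none (Option.some '' {x : N | x ^ 3 = -d ^ 3})).Finite := (h1.image _).insert _
  refine ((h2.preimage' (f := (FN_x : W.Point → Option N)) (fun o _ => FN_fiber o)).subset
    fun P hP => ?_).to_subtype
  rcases P with _ | ⟨x, y, hxy⟩
  · exact Set.mem_insert _ _
  · refine Set.mem_insert_of_mem _ ⟨x, ?_, rfl⟩
    have h : (Affine.Point.some x y hxy : W.Point) + Affine.Point.some x y hxy = 0 := hP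
    have heq : y ^ 2 = x ^ 3 + d ^ 3 := (eqn_iff hW x y).1 hxy.1
    have h1 : (Affine.Point.some x y hxy : W.Point) = -Affine.Point.some x y hxy :=
      eq_neg_of_add_eq_zero_left h
    rw [Affine.Point.neg_some] at h1
    have h2 : y = W.negY x y := (Affine.Point.some.inj h1).2
    have hneg : W.negY x y = -y := by
      rw [Affine.negY, hW]
      simp [cv]
    rw [hneg] at h2
    have h3 : y = 0 := by
      have : 2 * y = 0 := by linear_combination h2
      simpa using this
    rw [h3] at heq
    change x ^ 3 = -d ^ 3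
    linear_combination -heq

/-- If every point is twice a point up to a point of order dividing two, then there are only
finitely many points. -/
theorem fin_of_half [DecidableEq N] (hd : d ≠ 0) (hW : W = cv d)
    (h : ∀ P : W.Point, ∃ T Q : W.Point, T + T = 0 ∧ P = T + (Q + Q)) : Finite W.Point := by
  have h1 : Finite (FN_f (W := W)).range := finite_sub_of_div hd hW _ (FN_range_div h)
  have h2 : Finite (FN_f (W := W)).ker := FN_ker_finite hW
  have h3 : Finite (W.Point ⧸ (FN_f (W := W)).ker) :=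
    Finite.of_equiv _ (QuotientAddGroup.quotientKerEquivRange (FN_f (W := W))).symm.toEquiv
  exact Finite.of_equiv _ (AddSubgroup.addGroupEquivQuotientProdAddSubgroup
    (s := (FN_f (W := W)).ker)).symm

private theorem FN_ker_card [DecidableEq N] (hd : d ≠ 0) (hW : W = cv d) {z : N}
    (hz : z ^ 2 + z + 1 = 0) : Nat.card (FN_f (W := W)).ker = 4 := by
  have h3 : (3 : N) ≠ 0 := by norm_num
  have hz1 : z ≠ 1 := by
    rintro rfl
    apply h3
    linear_combination hz
  have hz0 : z ≠ 0 := by
    rintro rfl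
    simp at hz
  have h01 : ee z d 0 ≠ ee z d 1 := by
    intro h
    simp only [ee, Fin.val_zero, Fin.val_one] at h
    have : (z - 1) * d = 0 := by linear_combination h
    rcases mul_eq_zero.1 this with h | h
    · exact hz1 (sub_eq_zero.1 h)
    · exact hd h
  have h12 : ee z d 1 ≠ ee z d 2 := by
    intro h
    simp only [ee, Fin.val_one, Fin.val_two] at h
    have : z * ((z - 1) * d) = 0 := by linear_combination h
    rcases mul_eq_zero.1 this with h | h
    · exact hz0 h
    · rcases mul_eq_zero.1 h with h | h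
      · exact hz1 (sub_eq_zero.1 h)
      · exact hd h
  have h02 : ee z d 0 ≠ ee z d 2 := by
    intro h
    simp only [ee, Fin.val_zero, Fin.val_two] at h
    have h4 : (z - 1) * d * (z + 1) = 0 := by linear_combination h
    have hz2 : z + 1 ≠ 0 := by
      intro h5
      have : z * z = 0 := by linear_combination hz - h5
      exact hz0 (mul_self_eq_zero.1 this)
    rcases mul_eq_zero.1 h4 with h | h
    · rcases mul_eq_zero.1 h with h | h
      · exact hz1 (sub_eq_zero.1 h)
      · exact hd h
    · exact hz2 h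
  have hset : ((FN_f (W := W)).ker : Set W.Point) =
      {0, tp hd hW (ee z d 0) (ee_cube hz 0), tp hd hW (ee z d 1) (ee_cube hz 1),
        tp hd hW (ee z d 2) (ee_cube hz 2)} := by
    ext P
    change P + P = 0 ↔ _
    rw [two_zero_iff hd hW hz]
    simp only [Set.mem_insert_iff, Set.mem_singleton_iff]
    constructor
    · rintro (h | ⟨i, h⟩)
      · exact Or.inl h
      · fin_cases i
        · exact Or.inr (Or.inl h)
        · exact Or.inr (Or.inr (Or.inl h))
        · exact Or.inr (Or.inr (Or.inr h))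
    · rintro (h | h | h | h)
      · exact Or.inl h
      · exact Or.inr ⟨0, h⟩
      · exact Or.inr ⟨1, h⟩
      · exact Or.inr ⟨2, h⟩
  have hne : ∀ i j : Fin 3, ee z d i ≠ ee z d j →
      tp hd hW (ee z d i) (ee_cube hz i) ≠ tp hd hW (ee z d j) (ee_cube hz j) := by
    intro i j hij h
    exact hij (Affine.Point.some.inj h).1
  have h0 : ∀ i : Fin 3, (0 : W.Point) ≠ tp hd hW (ee z d i) (ee_cube hz i) := by
    intro i h
    have h' : (Affine.Point.zero : W.Point) = Affine.Point.some (ee z d i) 0 _ := h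
    cases h'
  change Nat.card ((FN_f (W := W)).ker : Set W.Point) = 4
  rw [hset, Nat.card_coe_set_eq, Set.ncard_insert_of_notMem, Set.ncard_insert_of_notMem,
    Set.ncard_pair (hne 1 2 h12)]
  · simp only [Set.mem_insert_iff, Set.mem_singleton_iff, not_or]
    exact ⟨hne 0 1 h01, hne 0 2 h02⟩
  · simp only [Set.mem_insert_iff, Set.mem_singleton_iff, not_or]
    exact ⟨h0 0, h0 1, h0 2⟩

/-- The number of points is four times an odd number. -/
theorem card_of_half [DecidableEq N] (hd : d ≠ 0) (hW : W = cv d) {z : N} (hz : z ^ 2 + z + 1 = 0)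
    (h : ∀ P : W.Point, ∃ T Q : W.Point, T + T = 0 ∧ P = T + (Q + Q)) :
    ∃ m : ℕ, Odd m ∧ Nat.card W.Point = 4 * m := by
  have h1 : Finite (FN_f (W := W)).range := finite_sub_of_div hd hW _ (FN_range_div h)
  refine ⟨Nat.card (FN_f (W := W)).range,
    MP_1a91b9_ntT.S9.odd_card_of_div (FN_range_div h), ?_⟩
  rw [AddSubgroup.card_eq_card_quotient_mul_card_addSubgroup (FN_f (W := W)).ker,
    FN_ker_card hd hW hz, mul_comm,
    Nat.card_congr (QuotientAddGroup.quotientKerEquivRange (FN_f (W := W))).toEquiv]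

/-- The form of the statement used in the assembly. -/
theorem finite_of_desc [DecidableEq N] {d : N} (hd : d ≠ 0)
    (h : ∀ P : (cv d).toAffine.Point, ∃ Q T : (cv d).toAffine.Point, T + T = 0 ∧ P = Q + Q + T) :
    Finite (cv d).toAffine.Point := by
  refine fin_of_half hd rfl fun P => ?_
  obtain ⟨Q, T, hT, hP⟩ := h P
  exact ⟨T, Q, hT, by rw [hP, add_comm]⟩

/-- The form of the statement used in the assembly. -/
theorem card_of_desc [DecidableEq N] {d : N} (hd : d ≠ 0) {z : N} (hz : z ^ 2 + z + 1 = 0)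
    (h : ∀ P : (cv d).toAffine.Point, ∃ Q T : (cv d).toAffine.Point, T + T = 0 ∧ P = Q + Q + T) :
    ∃ m : ℕ, Odd m ∧ Nat.card (cv d).toAffine.Point = 4 * m := by
  refine card_of_half hd rfl hz fun P => ?_
  obtain ⟨Q, T, hT, hP⟩ := h P
  exact ⟨T, Q, hT, by rw [hP, add_comm]⟩

end Heights

end Pool.Agent.Lib.MP_1a91b9_ntH.C
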