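import Pool.Agent.Lib.MP_1a91b9_ntH.C.LocDefs

/-!
# From the completion to the field

The local condition over the completion implies the local condition over the field with its valuation: approximate
the square roots and the abscissa by elements of the field.
-/

set_option autoImplicit false

namespace Pool.Agent.Lib.MP_1a91b9_ntH.C

open WeierstrassCurve WithZero NumberField IsDedekindDomain
open Pool.Agent.Lib.MP_1a91b9_ntT.S9 (pr pr_comm pr_map pr_add eq_zero_of_pr Pts Gal coc cob trivOver
  shaCoc Sha up actP)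
open scoped Classical

private theorem Dens_val {N : Type*} [Field N] [NumberField N] (v : HeightOneSpectrum (𝓞 N))
    (x : N) : Valued.v (algebraMap N (v.adicCompletion N) x) = v.valuation N x :=
  HeightOneSpectrum.valuedAdicCompletion_eq_valuation' v _

private theorem Dens_dense {N : Type*} [Field N] [NumberField N] (v : HeightOneSpectrum (𝓞 N))
    (x : v.adicCompletion N) (γ : ℤᵐ⁰) (hγ : γ ≠ 0) :
    ∃ X : N, Valued.v (x - algebraMap N (v.adicCompletion N) X) < γ := by
  have hn1 : exp (-(1 : ℤ)) < (1 : ℤᵐ⁰) := by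
    rw [← exp_zero, exp_lt_exp]
    omega
  have hlt : exp (-(1 : ℤ)) * γ < γ := by
    have h := mul_lt_mul_of_pos_right hn1 (zero_lt_iff.2 hγ)
    rwa [one_mul] at h
  obtain ⟨c, hc⟩ := HeightOneSpectrum.valuedAdicCompletion_surjective N v (exp (-(1 : ℤ)) * γ)
  have hcr : Valued.v.restrict c ≠ 0 := by
    rw [Ne, Valuation.restrict_eq_zero_iff, hc]
    exact mul_ne_zero exp_ne_zero hγ
  have hO : IsOpen ((fun y : v.adicCompletion N => x - y) ⁻¹'
      {z : v.adicCompletion N | Valued.v.restrict z ≤ Valued.v.restrict c}) :=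
    (Valued.isOpen_closedBall _ hcr).preimage (continuous_const.sub continuous_id)
  obtain ⟨z, hz⟩ := (HeightOneSpectrum.denseRange_algebraMap N v).exists_mem_open hO
    ⟨x, by
      rw [Set.mem_preimage, sub_self, Set.mem_ofPred_eq, map_zero]
      exact zero_le⟩
  rw [Set.mem_preimage, Set.mem_ofPred_eq, Valuation.restrict_le_iff, hc] at hz
  exact ⟨z, hz.trans_lt hlt⟩

/-- if `p` and `q` are close to `1`, so is `p q` -/
private theorem Dens_mul {F : Type*} [Field F] (ν : Valuation F ℤᵐ⁰) {t : ℤᵐ⁰} (ht : t ≤ 1)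
    {p q : F} (hp : ν (p - 1) < t) (hq : ν (q - 1) < t) : ν (p * q - 1) < t := by
  have hq1 : ν q ≤ 1 := by
    have e : q = (q - 1) + 1 := by ring
    rw [e]
    exact Valuation.map_add_le _ (hq.le.trans ht) (by rw [map_one])
  have e : p * q - 1 = (p - 1) * q + (q - 1) := by ring
  rw [e]
  refine Valuation.map_add_lt _ ?_ hq
  rw [map_mul]
  exact (mul_le_of_le_one_right' hq1).trans_lt hp

/-- if `w` is close to `1`, so is `1 / w ^ 2` -/
private theorem Dens_inv {F : Type*} [Field F] (ν : Valuation F ℤᵐ⁰) {t : ℤᵐ⁰} (ht : t ≤ 1)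
    {w : F} (hw : ν (w - 1) < t) : ν ((w ^ 2)⁻¹ - 1) < t := by
  have h1 : ν (w - 1) < ν 1 := by
    rw [map_one]
    exact hw.trans_le ht
  have hw1 : ν w = 1 := by
    have e : w = (w - 1) + 1 := by ring
    rw [e, Valuation.map_add_eq_of_lt_right _ h1, map_one]
  have hw0 : w ≠ 0 := by
    intro h
    rw [h, map_zero] at hw1
    exact zero_ne_one hw1
  have h2 : ν (w ^ 2 - 1) < t := by
    rw [pow_two]
    exact Dens_mul ν ht hw hw
  have e : (w ^ 2)⁻¹ - 1 = -((w ^ 2 - 1) * (w ^ 2)⁻¹) := by
    field_simp
    ring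
  rw [e, Valuation.map_neg, map_mul, map_inv₀, map_pow, hw1, one_pow, inv_one, mul_one]
  exact h2

private theorem Dens_sq {N : Type*} [Field N] [NumberField N] (v : HeightOneSpectrum (𝓞 N))
    (u : N) (β : v.adicCompletion N) (hβ : β ≠ 0)
    (h : Valued.v (algebraMap N (v.adicCompletion N) u / β ^ 2 - 1) < v.valuation N 4) :
    Sq (v.valuation N) u := by
  have ht0 : v.valuation N 4 ≠ 0 := by
    rw [Ne, Valuation.zero_iff]
    norm_num
  have ht1 : v.valuation N 4 ≤ 1 := by
    have h4 : v.valuation N (algebraMap (𝓞 N) N 4) ≤ 1 :=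
      HeightOneSpectrum.valuation_le_one (K := N) v (4 : 𝓞 N)
    rwa [map_ofNat (algebraMap (𝓞 N) N) 4] at h4
  have hβv : (Valued.v β : ℤᵐ⁰) ≠ 0 := by
    rw [Ne, Valuation.zero_iff]
    exact hβ
  obtain ⟨b, hb⟩ := Dens_dense v β (Valued.v β * v.valuation N 4) (mul_ne_zero hβv ht0)
  have hw : Valued.v (algebraMap N (v.adicCompletion N) b / β - 1) < v.valuation N 4 := by
    have e : algebraMap N (v.adicCompletion N) b / β - 1 =
        -((β - algebraMap N (v.adicCompletion N) b) / β) := by
      field_simp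
      ring
    rw [e, Valuation.map_neg, map_div₀, div_lt_iff₀ (zero_lt_iff.2 hβv), mul_comm]
    exact hb
  have hw0 : algebraMap N (v.adicCompletion N) b / β ≠ 0 := by
    intro hc
    rw [hc, zero_sub, Valuation.map_neg, map_one] at hw
    exact absurd ht1 (not_le.2 hw)
  have hb0 : algebraMap N (v.adicCompletion N) b ≠ 0 := by
    intro hc
    rw [hc, zero_div] at hw0
    exact hw0 rfl
  refine ⟨b, fun hc => hb0 (by rw [hc, map_zero]), ?_⟩
  rw [← Dens_val v, map_sub, map_div₀, map_pow, map_one]
  have e : algebraMap N (v.adicCompletion N) u / algebraMap N (v.adicCompletion N) b ^ 2 =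
      (algebraMap N (v.adicCompletion N) u / β ^ 2) *
        ((algebraMap N (v.adicCompletion N) b / β) ^ 2)⁻¹ := by
    field_simp
  rw [e]
  exact Dens_mul _ ht1 h (Dens_inv _ ht1 hw)

private theorem Dens_sq' {N : Type*} [Field N] [NumberField N] (v : HeightOneSpectrum (𝓞 N))
    (u : N) (hu : u ≠ 0) (h : IsSquare (algebraMap N (v.adicCompletion N) u)) :
    Sq (v.valuation N) u := by
  obtain ⟨r, hr⟩ := h
  have hu' : algebraMap N (v.adicCompletion N) u ≠ 0 := (map_ne_zero _).2 hu
  have hr0 : r ≠ 0 := by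
    intro hc
    rw [hc, mul_zero] at hr
    exact hu' hr
  refine Dens_sq v u r hr0 ?_
  rw [hr, ← pow_two, div_self (pow_ne_zero 2 hr0), sub_self, map_zero, zero_lt_iff, Ne,
    Valuation.zero_iff]
  norm_num

private theorem Dens_ee {F : Type*} [Field F] [CharZero F] {z d : F} (hz : z ^ 2 + z + 1 = 0)
    (hd : d ≠ 0) {i j : Fin 3} (hij : i ≠ j) : ee z d i ≠ ee z d j := by
  have h1 : z ≠ 1 := by
    intro h
    rw [h] at hz
    norm_num at hz
  have h0 : z ≠ 0 := by
    intro h
    rw [h] at hz
    norm_num at hz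
  have h2 : z ^ 2 ≠ 1 := by
    intro h
    have h3 : z = -2 := by linear_combination hz - h
    rw [h3] at hz
    norm_num at hz
  have h3 : z ^ 2 ≠ z := by
    intro h
    have h4 : z * (z - 1) = 0 := by linear_combination h
    rcases mul_eq_zero.1 h4 with h5 | h5
    · exact h0 h5
    · exact h1 (sub_eq_zero.1 h5)
  have key : ∀ i j : Fin 3, i ≠ j → z ^ (i : ℕ) ≠ z ^ (j : ℕ) := by
    have e01 : z ^ 0 ≠ z ^ 1 := by
      rw [pow_zero, pow_one]
      exact h1.symm
    have e02 : z ^ 0 ≠ z ^ 2 := by
      rw [pow_zero]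
      exact h2.symm
    have e12 : z ^ 1 ≠ z ^ 2 := by
      rw [pow_one]
      exact h3.symm
    intro i j hij
    fin_cases i <;> fin_cases j
    · exact absurd rfl hij
    · exact e01
    · exact e02
    · exact e01.symm
    · exact absurd rfl hij
    · exact e12
    · exact e02.symm
    · exact e12.symm
    · exact absurd rfl hij
  intro h
  unfold ee at h
  exact key i j hij (mul_right_cancel₀ hd (neg_injective h))

/-- passage from the completion to the field -/
theorem gloc_of_locAt {N : Type*} [Field N] [NumberField N] (v : HeightOneSpectrum (𝓞 N)) {z d : N}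
    (hz : z ^ 2 + z + 1 = 0) (hd : d ≠ 0) (a : Fin 3 → N) (ha : ∀ i, a i ≠ 0)
    (h : LocAt z d a (v.adicCompletion N)) : GLoc (v.valuation N) z d a := by
  rcases h with h | ⟨x, y, hxy, hsq⟩
  · exact Or.inl fun i => Dens_sq' v _ (ha i) (h i)
  refine Or.inr ?_
  by_cases hx : ∃ j, x = algebraMap N (v.adicCompletion N) (ee z d j)
  · obtain ⟨j, hj⟩ := hx
    refine Or.inl ⟨j, fun i hij => ?_⟩
    refine Dens_sq' v _ (mul_ne_zero (ha i) (sub_ne_zero.2 (Dens_ee hz hd hij.symm))) ?_
    rw [map_mul, map_sub, ← hj]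
    exact hsq i
  · push Not at hx
    refine Or.inr ?_
    have ht0 : v.valuation N 4 ≠ 0 := by
      rw [Ne, Valuation.zero_iff]
      norm_num
    have ht1 : v.valuation N 4 ≤ 1 := by
      have h4 : v.valuation N (algebraMap (𝓞 N) N 4) ≤ 1 :=
        HeightOneSpectrum.valuation_le_one (K := N) v (4 : 𝓞 N)
      rwa [map_ofNat (algebraMap (𝓞 N) N) 4] at h4
    have hx0 : ∀ i, x - algebraMap N (v.adicCompletion N) (ee z d i) ≠ 0 := fun i =>
      sub_ne_zero.2 (hx i)
    have hxv : ∀ i, (Valued.v (x - algebraMap N (v.adicCompletion N) (ee z d i)) : ℤᵐ⁰) ≠ 0 :=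
      fun i => by
        rw [Ne, Valuation.zero_iff]
        exact hx0 i
    obtain ⟨γ, hγ0, hγ⟩ : ∃ γ : ℤᵐ⁰, γ ≠ 0 ∧
        ∀ i, γ ≤ Valued.v (x - algebraMap N (v.adicCompletion N) (ee z d i)) := by
      obtain ⟨i₀, -, hi₀⟩ := Finset.exists_min_image Finset.univ
        (fun i => (Valued.v (x - algebraMap N (v.adicCompletion N) (ee z d i)) : ℤᵐ⁰))
        ⟨(0 : Fin 3), Finset.mem_univ _⟩
      exact ⟨_, hxv i₀, fun i => hi₀ i (Finset.mem_univ _)⟩
    obtain ⟨X, hX⟩ := Dens_dense v x (γ * v.valuation N 4) (mul_ne_zero hγ0 ht0)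
    have hη : ∀ i, Valued.v ((algebraMap N (v.adicCompletion N) X -
        algebraMap N (v.adicCompletion N) (ee z d i)) /
        (x - algebraMap N (v.adicCompletion N) (ee z d i)) - 1) < v.valuation N 4 := by
      intro i
      have e : (algebraMap N (v.adicCompletion N) X -
          algebraMap N (v.adicCompletion N) (ee z d i)) /
          (x - algebraMap N (v.adicCompletion N) (ee z d i)) - 1 =
          -((x - algebraMap N (v.adicCompletion N) X) /
            (x - algebraMap N (v.adicCompletion N) (ee z d i))) := by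
        rw [div_sub_one (hx0 i), ← neg_div]
        congr 1
        ring
      rw [e, Valuation.map_neg, map_div₀, div_lt_iff₀ (zero_lt_iff.2 (hxv i)), mul_comm]
      exact hX.trans_le (mul_le_mul_left (hγ i) _)
    refine ⟨X, ?_, fun i => ?_⟩
    · have hprod : ∀ w : v.adicCompletion N, w ^ 3 + algebraMap N (v.adicCompletion N) d ^ 3 =
          (w - algebraMap N (v.adicCompletion N) (ee z d 0)) *
          (w - algebraMap N (v.adicCompletion N) (ee z d 1)) *
          (w - algebraMap N (v.adicCompletion N) (ee z d 2)) := by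
        intro w
        have hz' : (algebraMap N (v.adicCompletion N) z) ^ 2 +
            algebraMap N (v.adicCompletion N) z + 1 = 0 := by
          rw [← map_pow, ← map_add, ← map_one (algebraMap N (v.adicCompletion N)), ← map_add, hz,
            map_zero]
        unfold ee
        simp only [map_neg, map_mul, map_pow, Fin.val_zero, Fin.val_one, Fin.val_two, pow_zero,
          pow_one, one_mul]
        linear_combination (-(w ^ 2 * algebraMap N (v.adicCompletion N) d) -
          algebraMap N (v.adicCompletion N) z * w * algebraMap N (v.adicCompletion N) d ^ 2 -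
          (algebraMap N (v.adicCompletion N) z - 1) *
            algebraMap N (v.adicCompletion N) d ^ 3) * hz'
      have hy0 : y ≠ 0 := by
        intro hc
        rw [hc, hprod, zero_pow two_ne_zero] at hxy
        exact (mul_ne_zero (mul_ne_zero (hx0 0) (hx0 1)) (hx0 2)) hxy.symm
      refine Dens_sq v _ y hy0 ?_
      have e : algebraMap N (v.adicCompletion N) (X ^ 3 + d ^ 3) / y ^ 2 =
          ((algebraMap N (v.adicCompletion N) X -
            algebraMap N (v.adicCompletion N) (ee z d 0)) /
            (x - algebraMap N (v.adicCompletion N) (ee z d 0))) *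
          ((algebraMap N (v.adicCompletion N) X -
            algebraMap N (v.adicCompletion N) (ee z d 1)) /
            (x - algebraMap N (v.adicCompletion N) (ee z d 1))) *
          ((algebraMap N (v.adicCompletion N) X -
            algebraMap N (v.adicCompletion N) (ee z d 2)) /
            (x - algebraMap N (v.adicCompletion N) (ee z d 2))) := by
        rw [map_add, map_pow, map_pow, hprod, hxy, hprod, div_mul_div_comm, div_mul_div_comm]
      rw [e]
      exact Dens_mul _ ht1 (Dens_mul _ ht1 (hη 0) (hη 1)) (hη 2)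
    · obtain ⟨r, hr⟩ := hsq i
      have hai : algebraMap N (v.adicCompletion N) (a i) ≠ 0 := (map_ne_zero _).2 (ha i)
      have hr0 : r ≠ 0 := by
        intro hc
        rw [hc, mul_zero] at hr
        exact (mul_ne_zero hai (hx0 i)) hr
      refine Dens_sq v _ r hr0 ?_
      have e : algebraMap N (v.adicCompletion N) (a i * (X - ee z d i)) / r ^ 2 =
          (algebraMap N (v.adicCompletion N) X -
            algebraMap N (v.adicCompletion N) (ee z d i)) /
            (x - algebraMap N (v.adicCompletion N) (ee z d i)) := by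
        rw [map_mul, map_sub, pow_two, ← hr, mul_div_mul_left _ _ hai]
      rw [e]
      exact hη i

end Pool.Agent.Lib.MP_1a91b9_ntH.C
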