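import Pool.Agent.Lib.MP_1a91b9_ntH.C.Curve

/-!
# MP_1a91b9_nt (TwistDensity), part C: the local conditions over a field with a valuation
-/

set_option autoImplicit false

namespace Pool.Agent.Lib.MP_1a91b9_ntH.C

open WithZero

/-- `u` is a square up to a factor `= 1` modulo (more than) `4`. -/
def Sq {L : Type*} [Field L] (ν : Valuation L ℤᵐ⁰) (u : L) : Prop :=
  ∃ b : L, b ≠ 0 ∧ ν (u / b ^ 2 - 1) < ν 4

/-- The local condition for a triple `a`, over a field with a valuation: the class of `a` is trivial, or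
the class of the point `(e j, 0)`, or the class of a point with abscissa `x`. -/
def GLoc {L : Type*} [Field L] (ν : Valuation L ℤᵐ⁰) (z d : L) (a : Fin 3 → L) : Prop :=
  (∀ i, Sq ν (a i)) ∨ (∃ j, ∀ i, i ≠ j → Sq ν (a i * (ee z d j - ee z d i))) ∨
    ∃ x : L, Sq ν (x ^ 3 + d ^ 3) ∧ ∀ i, Sq ν (a i * (x - ee z d i))

end Pool.Agent.Lib.MP_1a91b9_ntH.C
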