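import Pool.Agent.Lib.MP_1a91b9_ntH.C.Tp
import Pool.Agent.Lib.MP_1a91b9_ntH.C.LocDefs

/-!
# JOB SfAdd: the sign of `sfn e` under translation by a point of order two

Adapt `ed2_sfn`, `sfn_add` of Pool/Agent/Lib/MP_1a91b9_ntT/S9/ED.lean. `T = 0` trivial. `T = (f, 0)` (`two_tors_tp`), `f³ = -d³`,
`P = (X, Y)`, `Y ≠ 0`, `X ≠ f` (else `Y² = X³ + d³ = 0`). `P + T = (X', Y')`, `X' = f + 3f²/(X - f)`,
`Y' = -3f² Y/(X - f)²` (slope `l = Y/(X - f)`, `l² (X - f) = (X³ - f³)/(X - f) = X² + fX + f²`).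
`f = e`: `(X'² - 2eX' - 2e²) / (2Y') = ((X' - e)² - 3e²)/(2Y') = ((X - e)² - 3e²)/(2Y)`, sign `+1`.
`f ≠ e`: `e² + ef + f² = 0` and `((f-e)(X-f) + 3f²)² - 3e²(X-f)² = 3f²((X-e)² - 3e²)`, sign `-1`.
-/

set_option autoImplicit false

namespace Pool.Agent.Lib.MP_1a91b9_ntH.C

open WeierstrassCurve WithZero NumberField IsDedekindDomain
open Pool.Agent.Lib.MP_1a91b9_ntT.S9 (pr pr_comm pr_map pr_add eq_zero_of_pr Pts Gal coc cob trivOver
  shaCoc Sha up actP)
open scoped Classical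



/-- The value of `sfn` at the sum of `P = (X, Y)` and the point `(f, 0)` of order two. -/
private theorem sfAdd_val {F : Type*} [Field F] [CharZero F] {d : F} (hd : d ≠ 0) {W : Affine F}
    (hW : W = cv d) (e f : F) (hf : f ^ 3 = -d ^ 3) (X Y : F)
    (h : W.Nonsingular X Y) (hY : Y ≠ 0) (ε : F)
    (hε : (f * (X - f) + 3 * f ^ 2) ^ 2 - 2 * e * (f * (X - f) + 3 * f ^ 2) * (X - f) -
        2 * e ^ 2 * (X - f) ^ 2 =
        -(3 * f ^ 2) * (ε * (X ^ 2 - 2 * e * X - 2 * e ^ 2))) :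
    sfn e (Affine.Point.some X Y h + tp hd hW f hf) =
      ε * sfn e (Affine.Point.some X Y h) := by
  have hE : Y ^ 2 = X ^ 3 + d ^ 3 := (nons_iff hd hW X Y).1 h
  have hx : X ≠ f := by
    intro h0
    apply hY
    have h2 : Y ^ 2 = 0 := by
      rw [h0] at hE
      linear_combination hE + hf
    exact (pow_eq_zero_iff two_ne_zero).1 h2
  have hD : X - f ≠ 0 := sub_ne_zero.2 hx
  have hf0 : f ≠ 0 := by
    rintro rfl
    apply hd
    have h3 : d ^ 3 = 0 := by linear_combination hf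
    exact (pow_eq_zero_iff three_ne_zero).1 h3
  subst hW
  unfold tp
  rw [Affine.Point.add_of_X_ne hx]
  simp only [sfn, Affine.slope_of_X_ne hx, Affine.addX, Affine.addY, Affine.negAddY, Affine.negY, cv]
  set D : F := X - f with hDdef
  set l : F := (Y - 0) / D with hl
  have hlD : l * D = Y := by
    rw [hl, div_mul_cancel₀ _ hD, sub_zero]
  have hl2 : l ^ 2 * D = X ^ 2 + f * X + f ^ 2 := by
    apply mul_right_cancel₀ hD
    have e1 : l ^ 2 * D * D = (l * D) ^ 2 := by ring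
    rw [e1, hlD, hDdef]
    linear_combination hE + hf
  clear_value l D
  obtain ⟨A, hA⟩ : ∃ A : F, A = l ^ 2 + 0 * l - 0 - X - f := ⟨_, rfl⟩
  rw [← hA]
  obtain ⟨B, hB⟩ : ∃ B : F, B = -(l * (A - X) + Y) - 0 * A - 0 := ⟨_, rfl⟩
  rw [← hB]
  have hAD : A * D = f * D + 3 * f ^ 2 := by
    rw [hA]
    linear_combination hl2 - (X + 2 * f) * hDdef
  have hBD : B * D ^ 2 = -(3 * f ^ 2) * Y := by
    rw [hB]
    linear_combination (-l * D) * hAD - (f * D + 3 * f ^ 2 - X * D) * hlD - Y * D * hDdef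
  have h2 : (2 : F) ≠ 0 := two_ne_zero
  have h3 : (3 : F) ≠ 0 := three_ne_zero
  have hB0 : B ≠ 0 := by
    intro h0
    rw [h0, zero_mul] at hBD
    have h4 : -(3 * f ^ 2) * Y ≠ 0 :=
      mul_ne_zero (neg_ne_zero.2 (mul_ne_zero h3 (pow_ne_zero 2 hf0))) hY
    exact h4 hBD.symm
  rw [← mul_div_assoc, div_eq_div_iff (mul_ne_zero h2 hB0) (mul_ne_zero h2 hY)]
  apply mul_right_cancel₀ (pow_ne_zero 2 hD)
  linear_combination (2 * Y) * hε +
    (2 * Y) * (A * D + f * D + 3 * f ^ 2 - 2 * e * D) * hAD -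
    2 * ε * (X ^ 2 - 2 * e * X - 2 * e ^ 2) * hBD

theorem sfn_add {F : Type*} [Field F] [CharZero F] {d : F} (hd : d ≠ 0) {W : Affine F}
    (hW : W = cv d) (e : F) (he : e ^ 3 = -d ^ 3) (P T : W.Point) (hP : P + P ≠ 0)
    (hT : T + T = 0) :
    sfn e (P + T) = (((pr T (tp hd hW e he) : ℤˣ) : ℤ) : F) * sfn e P := by
  by_cases hT0 : T = 0
  · subst hT0
    simp [pr]
  obtain ⟨f, hf, rfl⟩ := two_tors_tp hd hW T hT hT0
  cases P with
  | zero => exact absurd (show (0 : W.Point) + 0 = 0 from add_zero 0) hP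
  | some X Y h =>
    have hY : Y ≠ 0 := by
      intro h0
      apply hP
      apply Affine.Point.add_self_of_Y_eq
      rw [hW]
      simp only [Affine.negY, cv]
      rw [h0]
      ring
    apply sfAdd_val hd hW e f hf X Y h hY
    by_cases hfe : f = e
    · subst hfe
      rw [pr, if_pos (Or.inr (Or.inr rfl))]
      push_cast
      ring
    · have hne : tp hd hW f hf ≠ tp hd hW e he := fun h0 => hfe ((tp_inj hd hW f e hf he).1 h0)
      rw [pr, if_neg (by simp only [tp_ne, hne, or_self, not_false_eq_true])]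
      have hq : f ^ 2 + f * e + e ^ 2 = 0 := by
        have h1 : (f - e) * (f ^ 2 + f * e + e ^ 2) = 0 := by
          linear_combination hf - he
        exact (mul_eq_zero.1 h1).resolve_left (sub_ne_zero.2 hfe)
      push_cast
      linear_combination (-2 * ((X - f) ^ 2 - 3 * f ^ 2)) * hq

end Pool.Agent.Lib.MP_1a91b9_ntH.C
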