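import Pool.Agent.Lib.MP_1a91b9_ntH.C.LocDefs

/-!
# JOB SfSq: `sfn e P ^ 2 = x(2P) - e`

Adapt `sfn_sq` of Pool/Agent/Lib/MP_1a91b9_ntT/S9/ED.lean. `P = (X, Y)`, `Y ≠ 0`, slope `l = 3X²/(2Y)`,
`x = l² - 2X`, `Y² = X³ + d³`, `e³ = -d³`:
`(x - e) (2Y)² = 9X⁴ - (2X + e) 4 (X³ - e³) = (X² - 2eX - 2e²)²`.
-/

set_option autoImplicit false

namespace Pool.Agent.Lib.MP_1a91b9_ntH.C

open WeierstrassCurve WithZero NumberField IsDedekindDomain
open Pool.Agent.Lib.MP_1a91b9_ntT.S9 (pr pr_comm pr_map pr_add eq_zero_of_pr Pts Gal coc cob trivOver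
  shaCoc Sha up actP)
open scoped Classical

theorem sfn_sq {F : Type*} [Field F] [CharZero F] {d : F} (hd : d ≠ 0) {W : Affine F}
    (hW : W = cv d) (e : F) (he : e ^ 3 = -d ^ 3) (P : W.Point) {x y : F}
    (h : W.Nonsingular x y) (hP : P + P = Affine.Point.some x y h) :
    sfn e P ^ 2 = x - e := by
  cases P with
  | zero =>
    exfalso
    have h1 : (Affine.Point.zero : W.Point) + Affine.Point.zero = 0 := add_zero _
    rw [h1] at hP
    exact Affine.Point.some_ne_zero h hP.symm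
  | some X Y hXY =>
    have hY : Y ≠ W.negY X Y := by
      intro hY
      rw [Affine.Point.add_self_of_Y_eq hY] at hP
      exact Affine.Point.some_ne_zero h hP.symm
    rw [Affine.Point.add_self_of_Y_ne hY] at hP
    injection hP with hx hy
    have hEq : Y ^ 2 = X ^ 3 + d ^ 3 := (nons_iff hd hW X Y).1 hXY
    have hneg : W.negY X Y = -Y := by
      subst hW
      simp [Affine.negY, cv]
    have hd2 : 2 * Y ≠ 0 := by
      intro h0
      apply hY
      rw [hneg]
      linear_combination h0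
    have hY0 : Y ≠ 0 := fun h0 => hd2 (by rw [h0, mul_zero])
    rw [Affine.slope_of_Y_ne rfl hY, hneg] at hx
    have ha1 : W.a₁ = 0 := by rw [hW]; rfl
    have ha2 : W.a₂ = 0 := by rw [hW]; rfl
    have ha4 : W.a₄ = 0 := by rw [hW]; rfl
    simp only [Affine.addX, ha1, ha2, ha4] at hx
    have hx2 : x * (2 * Y) ^ 2 = 9 * X ^ 4 - 2 * X * (2 * Y) ^ 2 := by
      rw [← hx]
      have h3 : Y - -Y = 2 * Y := by ring
      rw [h3]
      field_simp
      ring
    show ((X ^ 2 - 2 * e * X - 2 * e ^ 2) / (2 * Y)) ^ 2 = x - e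
    rw [div_pow, div_eq_iff (pow_ne_zero 2 hd2)]
    linear_combination (-1 : F) * hx2 + (8 * X + 4 * e) * hEq + (8 * X + 4 * e) * he

end Pool.Agent.Lib.MP_1a91b9_ntH.C
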