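import Pool.Agent.Lib.MP_1a91b9_ntH.C.LocDefs

/-!
# JOB Tp: the 2-torsion of `y² = x³ + d³`

Adapt Pool/Agent/Lib/MP_1a91b9_ntT/S9/EB.lean (the curve `y² + y = x³`), almost literally: `P + P = 0` and `P = (x, y)`
give `y = -y` (`Affine.negY`), so `y = 0` and `x³ = -d³`. (tp_add) the slope of the line through `(e, 0)`, `(z e, 0)` is `0`,
`addX = -e - z e = z² e`. (`e ≠ 0` because `d ≠ 0`; `z ≠ 1` since `3 ≠ 0`.)
-/

set_option autoImplicit false

namespace Pool.Agent.Lib.MP_1a91b9_ntH.C

open WeierstrassCurve WithZero NumberField IsDedekindDomain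
open Pool.Agent.Lib.MP_1a91b9_ntT.S9 (pr pr_comm pr_map pr_add eq_zero_of_pr Pts Gal coc cob trivOver
  shaCoc Sha up actP)
open scoped Classical

theorem tp_ne {F : Type*} [Field F] [CharZero F] {d : F} (hd : d ≠ 0) {W : Affine F}
    (hW : W = cv d) (e : F) (he : e ^ 3 = -d ^ 3) : tp hd hW e he ≠ 0 := by
  exact Affine.Point.some_ne_zero _

theorem tp_two {F : Type*} [Field F] [CharZero F] {d : F} (hd : d ≠ 0) {W : Affine F}
    (hW : W = cv d) (e : F) (he : e ^ 3 = -d ^ 3) : tp hd hW e he + tp hd hW e he = 0 := by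
  rw [tp]
  apply Affine.Point.add_self_of_Y_eq
  subst hW
  simp [Affine.negY, cv]

theorem tp_inj {F : Type*} [Field F] [CharZero F] {d : F} (hd : d ≠ 0) {W : Affine F}
    (hW : W = cv d) (e e' : F) (he : e ^ 3 = -d ^ 3) (he' : e' ^ 3 = -d ^ 3) :
    tp hd hW e he = tp hd hW e' he' ↔ e = e' := by
  rw [tp, tp, Affine.Point.some.injEq]
  constructor
  · rintro ⟨h, -⟩
    exact h
  · rintro rfl
    exact ⟨rfl, rfl⟩

theorem two_tors_tp {F : Type*} [Field F] [CharZero F] {d : F} (hd : d ≠ 0) {W : Affine F}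
    (hW : W = cv d) (P : W.Point) (hP : P + P = 0) (h0 : P ≠ 0) :
    ∃ (e : F) (he : e ^ 3 = -d ^ 3), P = tp hd hW e he := by
  rcases P with _ | ⟨x, y, h⟩
  · exact absurd rfl h0
  · have hy : y = W.negY x y := by
      by_contra hne
      have := Affine.Point.add_self_of_Y_ne hne (h₁ := h)
      rw [hP] at this
      exact Affine.Point.some_ne_zero _ this.symm
    have hy2 : y = 0 := by
      rw [Affine.negY] at hy
      subst hW
      simp only [cv, zero_mul, sub_zero] at hy
      have h2 : 2 * y = 0 := by linear_combination hy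
      simpa using h2
    have he := (eqn_iff hW x y).1 h.1
    refine ⟨x, ?_, ?_⟩
    · rw [hy2] at he
      linear_combination -he
    · rw [tp, Affine.Point.some.injEq]
      exact ⟨rfl, hy2⟩

theorem tp_add {F : Type*} [Field F] [CharZero F] {d : F} (hd : d ≠ 0) {W : Affine F}
    (hW : W = cv d) (z : F) (hz : z ^ 2 + z + 1 = 0) (e : F) (he : e ^ 3 = -d ^ 3)
    (h1 : (z * e) ^ 3 = -d ^ 3) (h2 : (z ^ 2 * e) ^ 3 = -d ^ 3) :
    tp hd hW e he + tp hd hW (z * e) h1 = tp hd hW (z ^ 2 * e) h2 := by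
  have hz1 : z ≠ 1 := by
    rintro rfl
    norm_num at hz
  have he0 : e ≠ 0 := by
    rintro rfl
    apply hd
    have h3 : d ^ 3 = 0 := by linear_combination he
    simpa using h3
  have hx : e ≠ z * e := by
    intro h
    apply hz1
    have h3 : e * (z - 1) = 0 := by linear_combination -h
    rcases mul_eq_zero.1 h3 with h | h
    · exact absurd h he0
    · linear_combination h
  rw [tp, tp, tp, Affine.Point.add_of_X_ne hx, Affine.Point.some.injEq]
  have hs : W.slope e (z * e) 0 0 = 0 := by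
    rw [Affine.slope_of_X_ne hx, sub_self, zero_div]
  rw [hs]
  subst hW
  constructor
  · simp only [Affine.addX, cv]
    linear_combination (-e) * hz
  · simp only [Affine.addY, Affine.negAddY, Affine.negY, Affine.addX, cv]
    ring

end Pool.Agent.Lib.MP_1a91b9_ntH.C
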