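import Pool.Agent.Lib.MP_1a91b9_ntH.C.Tp
import Pool.Agent.Lib.MP_1a91b9_ntH.C.LocDefs

/-!
# JOB Tpt: the three points of order two and the pairing `pr`

`tpt hd hz F i = tp .. (algebraMap k F (ee z d i))`, `ee z d i = - z ^ i d`. The three abscissas are distinct (`z ≠ 1`, `z² ≠ 1`, `d ≠ 0`
in characteristic zero) and are all the cube roots of `-d³` (`z³ = 1`, `x³ + d³ = (x - e 0)(x - e 1)(x - e 2)`).
`tp_add` with `e = e 0`: `T₀ + T₁ = T₂` (`z * e 0 = e 1`, `z² * e 0 = e 2`). `pr_add`, `pr_comm`, `eq_zero_of_pr` of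
Pool/Agent/Lib/MP_1a91b9_ntT/S9/GA.lean with `T₀ = tpt 0`, `T₁ = tpt 1`. (pr_prod) `P = 0`: all 1; `P = T_i`: one 1 and two `-1`.
(pr_ext) `P + Q`: both pairings are `1`, so by `pr_prod` the third one too, `eq_zero_of_pr`, `P = -Q = Q`.
(tpt_map) `Affine.Point.map_some`, `f.commutes` (compare `lc_tp_map` in S9/LB.lean).
-/

set_option autoImplicit false

namespace Pool.Agent.Lib.MP_1a91b9_ntH.C

open WeierstrassCurve WithZero NumberField IsDedekindDomain
open Pool.Agent.Lib.MP_1a91b9_ntT.S9 (pr pr_comm pr_map pr_add eq_zero_of_pr Pts Gal coc cob trivOver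
  shaCoc Sha up actP)
open scoped Classical



private theorem Tpt_w {k F : Type*} [Field k] {z : k} (hz : z ^ 2 + z + 1 = 0)
    [Field F] [Algebra k F] :
    (algebraMap k F z) ^ 2 + algebraMap k F z + 1 = 0 := by
  rw [← map_pow, ← map_add, ← map_one (algebraMap k F), ← map_add, hz, map_zero]

private theorem Tpt_ee {k F : Type*} [Field k] (z d : k) [Field F] [Algebra k F] (i : Fin 3) :
    algebraMap k F (ee z d i) = -((algebraMap k F z) ^ (i : ℕ) * algebraMap k F d) := by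
  rw [ee, map_neg, map_mul, map_pow]

private theorem Tpt_w1 {F : Type*} [Field F] [CharZero F] {w : F} (hw : w ^ 2 + w + 1 = 0) : w ≠ 1 := by
  rintro rfl
  have h : (3 : F) = 0 := by linear_combination hw
  exact three_ne_zero h

private theorem Tpt_w2 {F : Type*} [Field F] [CharZero F] {w : F} (hw : w ^ 2 + w + 1 = 0) :
    w ^ 2 ≠ 1 := by
  intro h1
  have h2 : w = -2 := by linear_combination hw - h1
  rw [h2] at h1
  have h : (3 : F) = 0 := by linear_combination h1
  exact three_ne_zero h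

private theorem Tpt_w3 {F : Type*} [Field F] [CharZero F] {w : F} (hw : w ^ 2 + w + 1 = 0) :
    w ^ 2 ≠ w := by
  intro h1
  have h0 : w ≠ 0 := by
    rintro rfl
    norm_num at hw
  apply Tpt_w1 hw
  apply mul_left_cancel₀ h0
  linear_combination h1

private theorem Tpt_ee_inj {k F : Type*} [Field k] {d : k} (hd : d ≠ 0) {z : k}
    (hz : z ^ 2 + z + 1 = 0) [Field F] [CharZero F] [Algebra k F] {i j : Fin 3}
    (h : algebraMap k F (ee z d i) = algebraMap k F (ee z d j)) : i = j := by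
  have hD : algebraMap k F d ≠ 0 := (map_ne_zero (algebraMap k F)).2 hd
  have hw := Tpt_w (F := F) hz
  rw [Tpt_ee, Tpt_ee, neg_inj] at h
  have h1 := mul_right_cancel₀ hD h
  have a1 := Tpt_w1 hw
  have a2 := Tpt_w2 hw
  have a3 := Tpt_w3 hw
  fin_cases i <;> fin_cases j
  · rfl
  · exact absurd (by simpa using h1.symm) a1
  · exact absurd (by simpa using h1.symm) a2
  · exact absurd (by simpa using h1) a1
  · rfl
  · exact absurd (by simpa using h1.symm) a3
  · exact absurd (by simpa using h1) a2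
  · exact absurd (by simpa using h1) a3
  · rfl

private theorem Tpt_ne {k F : Type*} [Field k] {d : k} (hd : d ≠ 0) {z : k} (hz : z ^ 2 + z + 1 = 0)
    [Field F] [CharZero F] [Algebra k F] (i : Fin 3) : tpt hd hz F i ≠ 0 := by
  unfold tpt
  exact tp_ne _ _ _ _

private theorem Tpt_inj {k F : Type*} [Field k] {d : k} (hd : d ≠ 0) {z : k} (hz : z ^ 2 + z + 1 = 0)
    [Field F] [CharZero F] [Algebra k F] (i j : Fin 3) : tpt hd hz F i = tpt hd hz F j ↔ i = j := by
  refine ⟨fun h => ?_, fun h => by rw [h]⟩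
  unfold tpt at h
  exact Tpt_ee_inj hd hz ((tp_inj _ _ _ _ _ _).1 h)

private theorem Tpt_sum {k F : Type*} [Field k] {d : k} (hd : d ≠ 0) {z : k} (hz : z ^ 2 + z + 1 = 0)
    [Field F] [CharZero F] [Algebra k F] :
    tpt hd hz F 0 + tpt hd hz F 1 = tpt hd hz F 2 := by
  have hw := Tpt_w (F := F) hz
  have h0 : (algebraMap k F (ee z d 0)) ^ 3 = -(algebraMap k F d) ^ 3 := by
    rw [← map_pow, ee_cube hz, map_neg, map_pow]
  have h1 : (algebraMap k F z * algebraMap k F (ee z d 0)) ^ 3 = -(algebraMap k F d) ^ 3 := by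
    rw [mul_pow, h0]
    linear_combination (-(algebraMap k F d) ^ 3) * (algebraMap k F z - 1) * hw
  have h2 : ((algebraMap k F z) ^ 2 * algebraMap k F (ee z d 0)) ^ 3 = -(algebraMap k F d) ^ 3 := by
    rw [mul_pow, h0]
    linear_combination (-(algebraMap k F d) ^ 3) * (algebraMap k F z - 1) *
      ((algebraMap k F z) ^ 3 + 1) * hw
  have e1 : tpt hd hz F 1 = tp ((map_ne_zero (algebraMap k F)).2 hd) (cv_bc F d) _ h1 := by
    unfold tpt
    rw [tp_inj, Tpt_ee, Tpt_ee]
    simp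
  have e2 : tpt hd hz F 2 = tp ((map_ne_zero (algebraMap k F)).2 hd) (cv_bc F d) _ h2 := by
    unfold tpt
    rw [tp_inj, Tpt_ee, Tpt_ee]
    simp
  rw [e1, e2]
  exact tp_add _ _ _ hw _ h0 h1 h2

theorem tpt_map {k F F' : Type*} [Field k] {d : k} (hd : d ≠ 0) {z : k} (hz : z ^ 2 + z + 1 = 0)
    [Field F] [CharZero F] [Algebra k F] [Field F'] [CharZero F'] [Algebra k F'] (f : F →ₐ[k] F')
    (i : Fin 3) : Affine.Point.map f (tpt hd hz F i) = tpt hd hz F' i := by
  unfold tpt tp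
  rw [Affine.Point.map_some]
  congr 1
  · exact f.commutes _
  · exact map_zero f

theorem tpt_two {k F : Type*} [Field k] {d : k} (hd : d ≠ 0) {z : k} (hz : z ^ 2 + z + 1 = 0)
    [Field F] [CharZero F] [Algebra k F] (i : Fin 3) :
    tpt hd hz F i + tpt hd hz F i = 0 := by
  unfold tpt
  exact tp_two _ _ _ _

theorem tpt_all {k F : Type*} [Field k] {d : k} (hd : d ≠ 0) {z : k} (hz : z ^ 2 + z + 1 = 0)
    [Field F] [CharZero F] [Algebra k F] (P : Pts (cv d) F) (hP : P + P = 0) :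
    P = 0 ∨ ∃ i, P = tpt hd hz F i := by
  by_cases h0 : P = 0
  · exact Or.inl h0
  · right
    have hw := Tpt_w (F := F) hz
    obtain ⟨e, he, rfl⟩ := two_tors_tp ((map_ne_zero (algebraMap k F)).2 hd) (cv_bc F d) P hP h0
    have h1 : (e - algebraMap k F (ee z d 0)) * (e - algebraMap k F (ee z d 1)) *
        (e - algebraMap k F (ee z d 2)) = 0 := by
      rw [Tpt_ee, Tpt_ee, Tpt_ee]
      have c0 : ((0 : Fin 3) : ℕ) = 0 := rfl
      have c1 : ((1 : Fin 3) : ℕ) = 1 := rfl
      have c2 : ((2 : Fin 3) : ℕ) = 2 := rfl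
      rw [c0, c1, c2]
      linear_combination he + (e ^ 2 * algebraMap k F d + e * (algebraMap k F d) ^ 2 *
        (algebraMap k F z) + (algebraMap k F d) ^ 3 * (algebraMap k F z - 1)) * hw
    rcases mul_eq_zero.1 h1 with h2 | h2
    · rcases mul_eq_zero.1 h2 with h3 | h3
      · refine ⟨0, ?_⟩
        unfold tpt
        exact (tp_inj _ _ _ _ _ _).2 (sub_eq_zero.1 h3)
      · refine ⟨1, ?_⟩
        unfold tpt
        exact (tp_inj _ _ _ _ _ _).2 (sub_eq_zero.1 h3)
    · refine ⟨2, ?_⟩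
      unfold tpt
      exact (tp_inj _ _ _ _ _ _).2 (sub_eq_zero.1 h2)

theorem pr_tpt {k F : Type*} [Field k] {d : k} (hd : d ≠ 0) {z : k} (hz : z ^ 2 + z + 1 = 0)
    [Field F] [CharZero F] [Algebra k F] (i j : Fin 3) :
    pr (tpt hd hz F i) (tpt hd hz F j) = if i = j then 1 else -1 := by
  unfold pr
  simp only [Tpt_ne, Tpt_inj, false_or]

private theorem Tpt_all {k F : Type*} [Field k] {d : k} (hd : d ≠ 0) {z : k} (hz : z ^ 2 + z + 1 = 0)
    [Field F] [CharZero F] [Algebra k F] (x : Pts (cv d) F) (hx : x + x = 0) :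
    x = 0 ∨ x = tpt hd hz F 0 ∨ x = tpt hd hz F 1 ∨ x = tpt hd hz F 0 + tpt hd hz F 1 := by
  rw [Tpt_sum]
  rcases tpt_all hd hz x hx with h | ⟨i, h⟩
  · exact Or.inl h
  · right
    fin_cases i
    · exact Or.inl h
    · exact Or.inr (Or.inl h)
    · exact Or.inr (Or.inr h)

/-- bilinearity -/
theorem pr_add_tpt {k F : Type*} [Field k] {d : k} (hd : d ≠ 0) {z : k} (hz : z ^ 2 + z + 1 = 0)
    [Field F] [CharZero F] [Algebra k F] (P Q : Pts (cv d) F) (hP : P + P = 0) (hQ : Q + Q = 0)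
    (i : Fin 3) : pr (P + Q) (tpt hd hz F i) = pr P (tpt hd hz F i) * pr Q (tpt hd hz F i) := by
  have h01 : tpt hd hz F 0 ≠ tpt hd hz F 1 := fun h => by
    have h1 := (Tpt_inj hd hz 0 1).1 h
    exact absurd h1 (by decide)
  exact pr_add (Tpt_ne hd hz 0) (Tpt_ne hd hz 1) h01 (tpt_two hd hz 0) (tpt_two hd hz 1)
    (Tpt_all hd hz) hP hQ (tpt_two hd hz i)

theorem pr_prod {k F : Type*} [Field k] {d : k} (hd : d ≠ 0) {z : k} (hz : z ^ 2 + z + 1 = 0)
    [Field F] [CharZero F] [Algebra k F] (P : Pts (cv d) F) (hP : P + P = 0) :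
    pr P (tpt hd hz F 0) * pr P (tpt hd hz F 1) * pr P (tpt hd hz F 2) = 1 := by
  rcases tpt_all hd hz P hP with rfl | ⟨i, rfl⟩
  · unfold pr
    simp
  · rw [pr_tpt, pr_tpt, pr_tpt]
    fin_cases i <;> decide

/-- a point of order two is determined by two of the three pairings -/
theorem pr_ext {k F : Type*} [Field k] {d : k} (hd : d ≠ 0) {z : k} (hz : z ^ 2 + z + 1 = 0)
    [Field F] [CharZero F] [Algebra k F] (P Q : Pts (cv d) F) (hP : P + P = 0) (hQ : Q + Q = 0)
    (j : Fin 3) (h : ∀ i, i ≠ j → pr P (tpt hd hz F i) = pr Q (tpt hd hz F i)) : P = Q := by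
  have h01 : tpt hd hz F 0 ≠ tpt hd hz F 1 := fun h => by
    have h1 := (Tpt_inj hd hz 0 1).1 h
    exact absurd h1 (by decide)
  have hPQ : (P + Q) + (P + Q) = 0 := by
    rw [add_add_add_comm, hP, hQ, add_zero]
  have h1 : ∀ i, i ≠ j → pr (P + Q) (tpt hd hz F i) = 1 := by
    intro i hi
    rw [pr_add_tpt hd hz P Q hP hQ, h i hi]
    exact Int.units_mul_self _
  have h2 := pr_prod hd hz (P + Q) hPQ
  have h3 : ∀ i, pr (P + Q) (tpt hd hz F i) = 1 := by
    intro i
    by_cases hi : i = j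
    · subst hi
      fin_cases i
      · have a1 := h1 1 (by decide)
        have a2 := h1 2 (by decide)
        rw [a1, a2, mul_one, mul_one] at h2
        exact h2
      · have a1 := h1 0 (by decide)
        have a2 := h1 2 (by decide)
        rw [a1, a2, mul_one, one_mul] at h2
        exact h2
      · have a1 := h1 0 (by decide)
        have a2 := h1 1 (by decide)
        rw [a1, a2, mul_one, one_mul] at h2
        exact h2
    · exact h1 i hi
  have h4 : P + Q = 0 := by
    refine eq_zero_of_pr (Tpt_ne hd hz 0) (Tpt_ne hd hz 1) h01 (tpt_two hd hz 0) (tpt_two hd hz 1)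
      (Tpt_all hd hz) hPQ fun T hT hT2 => ?_
    rcases tpt_all hd hz T hT2 with h5 | ⟨i, rfl⟩
    · exact absurd h5 hT
    · exact h3 i
  have h5 : P + Q = Q + Q := by rw [h4, hQ]
  exact add_right_cancel h5

end Pool.Agent.Lib.MP_1a91b9_ntH.C
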