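import Pool.Agent.Lib.MP_1a91b9_ntH.C.Half
import Pool.Agent.Lib.MP_1a91b9_ntH.C.SfAdd
import Pool.Agent.Lib.MP_1a91b9_ntH.C.SfSq
import Pool.Agent.Lib.MP_1a91b9_ntH.C.Tp
import Pool.Agent.Lib.MP_1a91b9_ntH.C.Tpt
import Pool.Agent.Lib.MP_1a91b9_ntH.C.LocDefs

/-!
# JOB KCob: the classes of the points of order two are coboundaries

`exists_half_closed`: `S + S = tpt j`. `R σ = actP (cv d) σ S - S` satisfies `R σ + R σ = 0` (`tpt_map` with `f = σ`). For `i ≠ j` put `s i = sfn (e i) S`:
`s i ^ 2 = e j - e i` (`sfn_sq`, `tpt j = (e j, 0)`), `σ (s i) = sfn (e i) (σ S) = sfn (e i) (S + R σ) = pr (R σ) (tpt i) * s i` (`sfn_add`; compare `lc_sfn_map` in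
S9/LB.lean). `a i (e j - e i) = κ²` in `k`, so `(b i * s i)² = κ²`, `b i * s i = ± κ` is fixed by `σ`: `pr (c σ) (tpt i) * pr (R σ) (tpt i) = 1` (`b i s i ≠ 0` as `b i ≠ 0` and `e j ≠ e i`),
so the two signs are equal, and `c σ = R σ` by `pr_ext` with this `j`.
-/

set_option autoImplicit false

namespace Pool.Agent.Lib.MP_1a91b9_ntH.C

open WeierstrassCurve WithZero NumberField IsDedekindDomain
open Pool.Agent.Lib.MP_1a91b9_ntT.S9 (pr pr_comm pr_map pr_add eq_zero_of_pr Pts Gal coc cob trivOver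
  shaCoc Sha up actP)
open scoped Classical



private theorem kCob_sfn_map {k F F' : Type*} [Field k] [Field F] [Field F'] [Algebra k F]
    [Algebra k F'] (W : WeierstrassCurve k) (f : F →ₐ[k] F') (e : F) (P : Pts W F) :
    sfn (f e) (Affine.Point.map (W' := W) f P) = f (sfn e P) := by
  cases P with
  | zero => exact (map_zero f).symm
  | some X Y h =>
    rw [Affine.Point.map_some]
    show (f X ^ 2 - 2 * f e * f X - 2 * f e ^ 2) / (2 * f Y) =
      f ((X ^ 2 - 2 * e * X - 2 * e ^ 2) / (2 * Y))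
    simp only [map_div₀, map_sub, map_mul, map_pow, map_ofNat]

private theorem kCob_unit {F : Type*} [Field F] [CharZero F] (u v : ℤˣ) (x : F) (hx : x ≠ 0)
    (h : ((u : ℤ) : F) * ((v : ℤ) : F) * x = x) : u = v := by
  rcases Int.units_eq_one_or u with rfl | rfl <;> rcases Int.units_eq_one_or v with rfl | rfl
  · rfl
  · exfalso
    simp at h
    apply hx
    have : (2 : F) * x = 0 := by linear_combination -h
    simpa using this
  · exfalso
    simp at h
    apply hx
    have : (2 : F) * x = 0 := by linear_combination -h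
    simpa using this
  · rfl

private theorem kCob_ee_ne {F : Type*} [Field F] [CharZero F] {z d : F} (hd : d ≠ 0)
    (hz : z ^ 2 + z + 1 = 0) (i j : Fin 3) (hij : i ≠ j) : ee z d j - ee z d i ≠ 0 := by
  have hz1 : z ≠ 1 := by
    rintro rfl
    norm_num at hz
  have hz0 : z ≠ 0 := by
    rintro rfl
    norm_num at hz
  have hz2 : z ^ 2 ≠ 1 := by
    intro h
    have : z = -2 := by linear_combination hz - h
    rw [this] at hz
    norm_num at hz
  have hz3 : z ^ 2 ≠ z := by
    intro h
    have : z * (z - 1) = 0 := by linear_combination h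
    rcases mul_eq_zero.1 this with h | h
    · exact hz0 h
    · exact hz1 (by linear_combination h)
  intro h
  have h1 : (z ^ (j : ℕ) - z ^ (i : ℕ)) * d = 0 := by
    unfold ee at h
    linear_combination -h
  rcases mul_eq_zero.1 h1 with h2 | h2
  · fin_cases i <;> fin_cases j <;> simp at hij h2
    · exact hz1 (by linear_combination h2)
    · exact hz2 (by linear_combination h2)
    · exact hz1 (by linear_combination -h2)
    · exact hz3 (by linear_combination h2)
    · exact hz2 (by linear_combination -h2)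
    · exact hz3 (by linear_combination -h2)
  · exact hd h2

theorem kdata_cob {k : Type*} [Field k] [CharZero k] {d : k} (hd : d ≠ 0) {z : k}
    (hz : z ^ 2 + z + 1 = 0) (c : Gal k → Pts (cv d) (AlgebraicClosure k))
    (h2 : ∀ σ, c σ + c σ = 0) (a : Fin 3 → k) (b : Fin 3 → AlgebraicClosure k)
    (hk : KData hd hz c a b) (j : Fin 3)
    (ha : ∀ i, i ≠ j → IsSquare (a i * (ee z d j - ee z d i))) :
    ∃ S : Pts (cv d) (AlgebraicClosure k), S + S = tpt hd hz (AlgebraicClosure k) j ∧
      ∀ σ, c σ = actP (cv d) σ S - S := by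
  have hdA : algebraMap k (AlgebraicClosure k) d ≠ 0 := (map_ne_zero _).2 hd
  obtain ⟨S, hS⟩ := exists_half_closed hdA (cv_bc (AlgebraicClosure k) d)
    (tpt hd hz (AlgebraicClosure k) j)
  refine ⟨S, hS, fun σ => ?_⟩
  have hact : ∀ i, actP (cv d) σ (tpt hd hz (AlgebraicClosure k) i) =
      tpt hd hz (AlgebraicClosure k) i := fun i =>
    tpt_map hd hz (σ : AlgebraicClosure k →ₐ[k] AlgebraicClosure k) i
  set R := actP (cv d) σ S - S with hR
  have hR2 : R + R = 0 := by
    have h1 : actP (cv d) σ (S + S) = S + S := by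
      rw [hS]
      exact hact j
    rw [map_add] at h1
    have h3 : R + R = (actP (cv d) σ S + actP (cv d) σ S) - (S + S) := by
      rw [hR]; abel
    rw [h3, h1, sub_self]
  have hne : S + S ≠ 0 := by
    rw [hS]
    intro h0
    exact Affine.Point.some_ne_zero _ h0
  refine pr_ext hd hz _ _ (h2 σ) hR2 j fun i hij => ?_
  set e := algebraMap k (AlgebraicClosure k) (ee z d i) with he
  have he3 : e ^ 3 = -(algebraMap k (AlgebraicClosure k) d) ^ 3 := by
    rw [he, ← map_pow, ee_cube hz, map_neg, map_pow]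
  have hsq := sfn_sq hdA (cv_bc (AlgebraicClosure k) d) e he3 S _ hS
  obtain ⟨κ, hκ⟩ := ha i hij
  have hs : σ (sfn e S) =
      (((pr R (tpt hd hz (AlgebraicClosure k) i) : ℤˣ) : ℤ) : AlgebraicClosure k) * sfn e S := by
    have h1 := kCob_sfn_map (cv d) (σ : AlgebraicClosure k →ₐ[k] AlgebraicClosure k) e S
    have h3 : (σ : AlgebraicClosure k →ₐ[k] AlgebraicClosure k) e = e := by
      rw [he]
      exact AlgHom.commutes _ _
    rw [h3] at h1
    have h4 := sfn_add hdA (cv_bc (AlgebraicClosure k) d) e he3 S R hne hR2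
    have h5 : S + R = actP (cv d) σ S := by rw [hR]; abel
    rw [h5] at h4
    have h6 : pr R (tp hdA (cv_bc (AlgebraicClosure k) d) e he3) =
      pr R (tpt hd hz (AlgebraicClosure k) i) := rfl
    rw [h6] at h4
    rw [← h4]
    exact h1.symm
  have hx2 : (b i * sfn e S) ^ 2 = algebraMap k (AlgebraicClosure k) κ ^ 2 := by
    rw [mul_pow, ← hk.sq i, hsq, he, ← map_sub, ← map_mul, hκ, map_mul, sq]
  have hs0 : sfn e S ≠ 0 := by
    intro h0
    rw [h0] at hsq
    have h3 : algebraMap k (AlgebraicClosure k) (ee z d j - ee z d i) = 0 := by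
      rw [map_sub, ← he, ← hsq]
      norm_num
    rw [map_eq_zero] at h3
    exact kCob_ee_ne hd hz i j hij h3
  have hx0 : b i * sfn e S ≠ 0 := mul_ne_zero (hk.ne i) hs0
  have hfix : σ (b i * sfn e S) = b i * sfn e S := by
    rcases sq_eq_sq_iff_eq_or_eq_neg.1 hx2 with h | h
    · rw [h]
      exact σ.commutes κ
    · rw [h, map_neg]
      rw [σ.commutes κ]
  refine kCob_unit _ _ (b i * sfn e S) hx0 ?_
  rw [map_mul, hs, hk.act i σ] at hfix
  linear_combination hfix

end Pool.Agent.Lib.MP_1a91b9_ntH.C
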