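import Pool.Agent.Lib.MP_1a91b9_ntH.C.SfAdd
import Pool.Agent.Lib.MP_1a91b9_ntH.C.SfSq
import Pool.Agent.Lib.MP_1a91b9_ntH.C.Tp
import Pool.Agent.Lib.MP_1a91b9_ntH.C.Tpt
import Pool.Agent.Lib.MP_1a91b9_ntH.C.LocDefs

/-!
# JOB KLoc: the local condition

Adapt `local_main` (JOB LC) in Pool/Agent/Lib/MP_1a91b9_ntT/S9/LB.lean with `L' = L`, `A = k`; NO shift by a point of order 3 is needed.
`j : kbar →ₐ[k] Lbar` (`IsAlgClosed.lift`), `S9.transfer` (S9/TA.lean, with `L' = L`): `P`, `Q`, `P + P = up Q`, `j (c τ) = σ P - P` whenever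
`j (τ x) = σ (j x)`. (1) `Q = 0`: `P + P = 0`, so `P = 0` or `P = tpt i` (`tpt_all`), `σ P = P` (`tpt_map`), `j (c τ) = 0`, `c τ = 0`, so `σ (j (b i)) = j (τ (b i)) = j (b i)`
for all `σ` (`S9.exists_comp` gives `τ`), so `j (b i)` comes from `L` (`S9.fixed_elem`) and `a i` is a square in `L`: first alternative.
(2) `Q = (x, y)`: `s i = sfn (e i) P`, `s i ^ 2 = x - e i` (`sfn_sq`; the curve over `Lbar` is `cv (algebraMap k Lbar d)`), `P + P ≠ 0`,
`σ (s i) = sfn (e i) (σ P) = sfn (e i) (P + j (c τ)) = pr (j (c τ)) (tpt i) * s i = pr (c τ) (tpt i) * s i` (`sfn_add`, `pr_map`, `tpt_map`), so `j (b i) * s i` is fixed,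
`= β`, `β² = a i (x - e i)`: second alternative (`y² = x³ + d³` from `nons_iff`).
-/

set_option autoImplicit false

namespace Pool.Agent.Lib.MP_1a91b9_ntH.C

open WeierstrassCurve WithZero NumberField IsDedekindDomain
open Pool.Agent.Lib.MP_1a91b9_ntT.S9 (pr pr_comm pr_map pr_add eq_zero_of_pr Pts Gal coc cob trivOver
  shaCoc Sha up actP)
open scoped Classical



private theorem kLoc_sfn_map {k F F' : Type*} [Field k] [Field F] [Field F'] [Algebra k F]
    [Algebra k F'] (W : WeierstrassCurve k) (f : F →ₐ[k] F') (e : F) (P : Pts W F) :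
    sfn (f e) (Affine.Point.map (W' := W) f P) = f (sfn e P) := by
  cases P with
  | zero => exact (map_zero f).symm
  | some X Y h =>
    rw [Affine.Point.map_some]
    show (f X ^ 2 - 2 * f e * f X - 2 * f e ^ 2) / (2 * f Y) =
      f ((X ^ 2 - 2 * e * X - 2 * e ^ 2) / (2 * Y))
    simp only [map_div₀, map_sub, map_mul, map_pow, map_ofNat]

private theorem kLoc_unit_sq {F : Type*} [Field F] (u : ℤˣ) :
    ((u : ℤ) : F) * ((u : ℤ) : F) = 1 := by
  rcases Int.units_eq_one_or u with h | h <;> simp [h]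

theorem kdata_loc {k L : Type*} [Field k] [CharZero k] {d : k} (hd : d ≠ 0) {z : k}
    (hz : z ^ 2 + z + 1 = 0) (c : Gal k → Pts (cv d) (AlgebraicClosure k))
    (h2 : ∀ σ, c σ + c σ = 0) (a : Fin 3 → k) (b : Fin 3 → AlgebraicClosure k)
    (hk : KData hd hz c a b) [Field L] [CharZero L] [Algebra k L]
    (hc : c ∈ trivOver (cv d) L) : LocAt z d a L := by
  obtain ⟨j⟩ : Nonempty (AlgebraicClosure k →ₐ[k] AlgebraicClosure L) := ⟨IsAlgClosed.lift⟩
  obtain ⟨P, Q, hPQ, hP⟩ := Pool.Agent.Lib.MP_1a91b9_ntT.S9.transfer (L := L) (L' := L) (cv d) c hc h2 j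
  have hja : ∀ x : k, j (algebraMap k (AlgebraicClosure k) x) =
      algebraMap L (AlgebraicClosure L) (algebraMap k L x) := by
    intro x
    rw [j.commutes, ← IsScalarTower.algebraMap_apply]
  have hup : up (cv d) L L Q = Q := by
    have h1 : IsScalarTower.toAlgHom k L L = AlgHom.id k L := AlgHom.ext fun x => rfl
    show Affine.Point.map (IsScalarTower.toAlgHom k L L) Q = Q
    rw [h1]
    cases Q <;> rfl
  rw [hup] at hPQ
  set A : L → AlgebraicClosure L := fun x => algebraMap L (AlgebraicClosure L) x with hA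
  have htau : ∀ σ : Gal L, ∃ τ : Gal k, ∀ x, j (τ x) = σ (j x) := by
    intro σ
    obtain ⟨τ, hτ⟩ := Pool.Agent.Lib.MP_1a91b9_ntT.S9.exists_comp j
      ((((σ : AlgebraicClosure L →ₐ[L] AlgebraicClosure L)).restrictScalars k).comp j)
    exact ⟨τ, fun x => (hτ x).symm⟩
  have hjinj : Function.Injective (Affine.Point.map (W' := cv d) j) := Affine.Point.map_injective j
  cases Q with
  | zero =>
    -- the point `P` is of order two
    left
    have hP2 : P + P = 0 := by
      rw [hPQ]
      rfl
    have hfixP : ∀ σ : Gal L, Affine.Point.map (W' := cv d)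
        ((σ : AlgebraicClosure L →ₐ[L] AlgebraicClosure L).restrictScalars k) P = P := by
      intro σ
      rcases tpt_all hd hz P hP2 with h | ⟨i, h⟩
      · rw [h, map_zero]
      · rw [h]
        exact tpt_map hd hz _ i
    intro i
    obtain ⟨β, hβ⟩ := Pool.Agent.Lib.MP_1a91b9_ntT.S9.fixed_elem (k := L) (j (b i)) (by
      intro σ
      obtain ⟨τ, hτ⟩ := htau σ
      have h1 := hP σ τ hτ
      rw [hfixP σ, sub_self] at h1
      have h3 : c τ = 0 := hjinj (by rw [h1, map_zero])
      have h4 := hk.act i τ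
      rw [h3] at h4
      have h5 : pr (0 : Pts (cv d) (AlgebraicClosure k)) (tpt hd hz (AlgebraicClosure k) i) = 1 := by
        simp [pr]
      rw [h5] at h4
      rw [← hτ, h4]
      simp)
    refine ⟨β, ?_⟩
    apply (algebraMap L (AlgebraicClosure L)).injective
    rw [map_mul, hβ, ← hja, hk.sq i, map_pow, sq]
  | some x y h =>
    right
    obtain ⟨hn2, hUV⟩ : ∃ hn2, up (cv d) L (AlgebraicClosure L) (Affine.Point.some x y h) =
      Affine.Point.some (algebraMap L (AlgebraicClosure L) x)
        (algebraMap L (AlgebraicClosure L) y) hn2 := ⟨_, rfl⟩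
    rw [hUV] at hPQ
    have hne : P + P ≠ 0 := by
      rw [hPQ]
      intro h0
      exact Affine.Point.some_ne_zero _ h0
    refine ⟨x, y, ?_, ?_⟩
    · have hdL : algebraMap k L d ≠ 0 := (map_ne_zero _).2 hd
      exact (nons_iff hdL (cv_bc L d) x y).1 h
    intro i
    set e := algebraMap k (AlgebraicClosure L) (ee z d i) with he
    have hdA : algebraMap k (AlgebraicClosure L) d ≠ 0 := (map_ne_zero _).2 hd
    have he3 : e ^ 3 = -(algebraMap k (AlgebraicClosure L) d) ^ 3 := by
      rw [he, ← map_pow, ee_cube hz, map_neg, map_pow]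
    have hsq := sfn_sq hdA (cv_bc (AlgebraicClosure L) d) e he3 P _ hPQ
    have hfix : ∀ σ : Gal L, σ (j (b i) * sfn e P) = j (b i) * sfn e P := by
      intro σ
      obtain ⟨τ, hτ⟩ := htau σ
      have hcτ := hP σ τ hτ
      set S := Affine.Point.map (W' := cv d)
        ((σ : AlgebraicClosure L →ₐ[L] AlgebraicClosure L).restrictScalars k) with hS
      have hSP : S P = P + Affine.Point.map (W' := cv d) j (c τ) := by
        rw [hcτ]
        abel
      have hTT : Affine.Point.map (W' := cv d) j (c τ) + Affine.Point.map (W' := cv d) j (c τ) = 0 := by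
        rw [← map_add, h2, map_zero]
      have hpr : pr (Affine.Point.map (W' := cv d) j (c τ)) (tpt hd hz (AlgebraicClosure L) i) =
          pr (c τ) (tpt hd hz (AlgebraicClosure k) i) := by
        rw [← tpt_map hd hz j i]
        exact pr_map _ hjinj _ _
      have hs : σ (sfn e P) =
          (((pr (c τ) (tpt hd hz (AlgebraicClosure k) i) : ℤˣ) : ℤ) :
            AlgebraicClosure L) * sfn e P := by
        have h1 := kLoc_sfn_map (cv d)
          ((σ : AlgebraicClosure L →ₐ[L] AlgebraicClosure L).restrictScalars k) e P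
        have h3 : ((σ : AlgebraicClosure L →ₐ[L] AlgebraicClosure L).restrictScalars k) e = e := by
          rw [he]
          exact AlgHom.commutes _ _
        rw [h3] at h1
        have h4 := sfn_add hdA (cv_bc (AlgebraicClosure L) d) e he3 P
          (Affine.Point.map (W' := cv d) j (c τ)) hne hTT
        have h5 : pr (Affine.Point.map (W' := cv d) j (c τ))
            (tp hdA (cv_bc (AlgebraicClosure L) d) e he3) =
            pr (c τ) (tpt hd hz (AlgebraicClosure k) i) := hpr
        rw [h5] at h4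
        rw [← h4, ← hSP]
        exact h1.symm
      have hb' : σ (j (b i)) = (((pr (c τ) (tpt hd hz (AlgebraicClosure k) i) : ℤˣ) : ℤ) :
            AlgebraicClosure L) * j (b i) := by
        rw [← hτ, hk.act i τ, map_mul, map_intCast]
      rw [map_mul, hs, hb']
      have hu := kLoc_unit_sq (F := AlgebraicClosure L)
        (pr (c τ) (tpt hd hz (AlgebraicClosure k) i))
      linear_combination (j (b i) * sfn e P) * hu
    obtain ⟨β, hβ⟩ := Pool.Agent.Lib.MP_1a91b9_ntT.S9.fixed_elem _ hfix
    refine ⟨β, ?_⟩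
    apply (algebraMap L (AlgebraicClosure L)).injective
    have h7 : j (b i) ^ 2 = algebraMap L (AlgebraicClosure L) (algebraMap k L (a i)) := by
      rw [← map_pow, ← hk.sq i, hja]
    have h8 : e = algebraMap L (AlgebraicClosure L) (algebraMap k L (ee z d i)) := by
      rw [he, ← IsScalarTower.algebraMap_apply]
    rw [map_mul (algebraMap L (AlgebraicClosure L)) β β, hβ, map_mul, map_sub, ← h7, ← h8, ← hsq]
    ring

end Pool.Agent.Lib.MP_1a91b9_ntH.C
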