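import Pool.Agent.Lib.MP_1a91b9_ntH.C.Tpt
import Pool.Agent.Lib.MP_1a91b9_ntH.C.LocDefs

/-!
# JOB KPr: the product of the `a i`; all `a i` squares

(prod) `β = b 0 * b 1 * b 2` is fixed by all `σ` (`pr_prod (c σ)`), so `β` comes from `k` (`S9.fixed_elem` in S9/KB.lean) and `a 0 * a 1 * a 2 = β²`
(injectivity of `algebraMap k kbar`). (zero) `a i = s²`: `b i = ± s`, so `σ (b i) = b i`, `b i ≠ 0`, so `pr (c σ) (tpt i) = 1` (a sign `u` with
`u * b i = b i`) for all `i`, `= pr 0 (tpt i)`, and `c σ = 0` by `pr_ext` with `Q = 0`.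
-/

set_option autoImplicit false

namespace Pool.Agent.Lib.MP_1a91b9_ntH.C

open WeierstrassCurve WithZero NumberField IsDedekindDomain
open Pool.Agent.Lib.MP_1a91b9_ntT.S9 (pr pr_comm pr_map pr_add eq_zero_of_pr Pts Gal coc cob trivOver
  shaCoc Sha up actP)
open scoped Classical



theorem kdata_prod {k : Type*} [Field k] [CharZero k] {d : k} (hd : d ≠ 0) {z : k}
    (hz : z ^ 2 + z + 1 = 0) (c : Gal k → Pts (cv d) (AlgebraicClosure k))
    (h2 : ∀ σ, c σ + c σ = 0) (a : Fin 3 → k) (b : Fin 3 → AlgebraicClosure k)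
    (hk : KData hd hz c a b) : IsSquare (a 0 * a 1 * a 2) := by
  have hfix : ∀ σ : Gal k, σ (b 0 * b 1 * b 2) = b 0 * b 1 * b 2 := by
    intro σ
    have h1 := pr_prod hd hz (c σ) (h2 σ)
    have h3 : (((pr (c σ) (tpt hd hz (AlgebraicClosure k) 0) : ℤˣ) : ℤ) : AlgebraicClosure k) *
        (((pr (c σ) (tpt hd hz (AlgebraicClosure k) 1) : ℤˣ) : ℤ) : AlgebraicClosure k) *
        (((pr (c σ) (tpt hd hz (AlgebraicClosure k) 2) : ℤˣ) : ℤ) : AlgebraicClosure k) = 1 := by
      rw [← Int.cast_mul, ← Int.cast_mul, ← Units.val_mul, ← Units.val_mul, h1]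
      simp
    rw [map_mul, map_mul, hk.act, hk.act, hk.act]
    linear_combination (b 0 * b 1 * b 2) * h3
  obtain ⟨y, hy⟩ := Pool.Agent.Lib.MP_1a91b9_ntT.S9.fixed_elem _ hfix
  refine ⟨y, ?_⟩
  apply (algebraMap k (AlgebraicClosure k)).injective
  rw [map_mul, map_mul, map_mul, hk.sq, hk.sq, hk.sq, hy]
  ring

theorem kdata_zero {k : Type*} [Field k] [CharZero k] {d : k} (hd : d ≠ 0) {z : k}
    (hz : z ^ 2 + z + 1 = 0) (c : Gal k → Pts (cv d) (AlgebraicClosure k))
    (h2 : ∀ σ, c σ + c σ = 0) (a : Fin 3 → k) (b : Fin 3 → AlgebraicClosure k)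
    (hk : KData hd hz c a b) (ha : ∀ i, IsSquare (a i)) (σ : Gal k) : c σ = 0 := by
  refine pr_ext hd hz (c σ) 0 (h2 σ) (add_zero 0) 0 fun i _ => ?_
  have h0 : pr (0 : Pts (cv d) (AlgebraicClosure k)) (tpt hd hz (AlgebraicClosure k) i) = 1 :=
    if_pos (Or.inl rfl)
  rw [h0]
  obtain ⟨s, hs⟩ := ha i
  have hb : b i ^ 2 = (algebraMap k (AlgebraicClosure k) s) ^ 2 := by
    rw [← hk.sq i, hs, map_mul]
    ring
  have hfix : σ (b i) = b i := by
    rcases sq_eq_sq_iff_eq_or_eq_neg.1 hb with h | h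
    · rw [h]
      exact σ.commutes s
    · rw [h, map_neg]
      exact congrArg _ (σ.commutes s)
  have hact := hk.act i σ
  rw [hfix] at hact
  rcases Int.units_eq_one_or (pr (c σ) (tpt hd hz (AlgebraicClosure k) i)) with h | h
  · exact h
  · exfalso
    rw [h] at hact
    have h3 : 2 * b i = 0 := by
      simp only [Units.val_neg, Units.val_one, Int.cast_neg, Int.cast_one] at hact
      linear_combination hact
    rcases mul_eq_zero.1 h3 with h4 | h4
    · exact two_ne_zero h4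
    · exact hk.ne i h4

end Pool.Agent.Lib.MP_1a91b9_ntH.C
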