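import Pool.Agent.Lib.MP_1a91b9_ntH.C.SelC

/-!
# MP_1a91b9_nt (TwistDensity), part C: the Selmer group, conclusion

`sel_class`: if the matrix `M_S` is invertible, a triple `a` of elements of `K` whose product is a square
and which satisfies the local conditions is the class of a point of order two.
-/

set_option autoImplicit false
set_option linter.unusedSectionVars false
set_option linter.unusedVariables false

namespace Pool.Agent.Lib.MP_1a91b9_ntH.C.Sel

open NumberField Finset WithZero IsDedekindDomain Pool.Agent.Lib.MP_1a91b9_ntT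
open Pool.Agent.Lib.MP_1a91b9_ntH (wO s3 Pq qd DD dl red half qs sgz)

noncomputable section

/-! ### the equations at the primes of `S` -/

theorem id_a (a A c : F4) : (F4.cj a * c).a = c.a * (A.a * F4.tr a + (A.b + 1) * F4.tr (F4.w * a) +
    F4.tr ((A + a) * a)) + (F4.w * F4.w * c).a * F4.tr a := by
  revert a A c
  decide

theorem id_b (a A c : F4) : (F4.cj a * c).b = c.b * (A.a * F4.tr a + (A.b + 1) * F4.tr (F4.w * a) +
    F4.tr ((A + a) * a)) + (F4.w * F4.w * c).b * F4.tr a := by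
  revert a A c
  decide

theorem mul_add_a (s : ZMod 2) (a c : F4) : ((F4.of s + F4.cj a) * c).a = s * c.a + (F4.cj a * c).a := by
  revert s a c
  decide

theorem mul_add_b (s : ZMod 2) (a c : F4) : ((F4.of s + F4.cj a) * c).b = s * c.b + (F4.cj a * c).b := by
  revert s a c
  decide

theorem sum_rec (S : Finset Pq) {q : Pq} (hq : q ∈ S) :
    ∑ p ∈ S.erase q, qd.s p q = ∑ p ∈ S.erase q, qd.s q p + F4.tr ((qd.A S + qd.a q) * qd.a q) := by
  have h1 : qd.A S + qd.a q = ∑ p ∈ S.erase q, qd.a p := by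
    unfold Dat.A
    rw [← sum_erase_add _ _ hq, add_assoc, F4.add_self, add_zero]
  rw [h1, sum_mul]
  have h2 : F4.tr (∑ p ∈ S.erase q, qd.a p * qd.a q) =
      ∑ p ∈ S.erase q, F4.tr (qd.a p * qd.a q) := sum_b _
  rw [h2, ← sum_add_distrib]
  refine sum_congr rfl fun p hp => ?_
  rw [← qd_rec p q (ne_of_mem_erase hp)]
  generalize qd.s p q = x
  generalize qd.s q p = y
  revert x y
  decide

theorem Eq_of (S : Finset Pq) {q : Pq} (hq : q ∈ S) (Vf : Pq → F4) (n k : Fin 3 → ZMod 2)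
    (h : ∀ i : Fin 3, n i * F4.tr (qd.a q) + k i * F4.tr (F4.w * qd.a q) +
      ∑ p ∈ S.erase q, io (Vf p) i * qd.s p q + io (Vf q) i * ((qd.A S).a * F4.tr (qd.a q) +
        ((qd.A S).b + 1) * F4.tr (F4.w * qd.a q) + ∑ p ∈ S.erase q, qd.s p q) +
      io (F4.w * F4.w * Vf q) i * F4.tr (qd.a q) = 0) :
    ∑ p ∈ S.erase q, F4.of (qd.s p q) * Vf p +
      (∑ p ∈ S.erase q, F4.of (qd.s q p) + F4.cj (qd.a q)) * Vf q +
        F4.of (F4.tr (qd.a q)) * ⟨n 1, n 0⟩ +
        F4.of (F4.tr (F4.w * qd.a q)) * ⟨k 1, k 0⟩ = 0 := by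
  obtain ⟨σ, hσ⟩ : ∃ σ : ZMod 2, σ = ∑ p ∈ S.erase q, qd.s q p := ⟨_, rfl⟩
  have h0 := h 0
  have h1 := h 1
  have e0 : ∀ q, io (Vf q) 0 = (Vf q).b := fun q => rfl
  have e1 : ∀ q, io (Vf q) 1 = (Vf q).a := fun q => rfl
  have e0' : io (F4.w * F4.w * Vf q) 0 = (F4.w * F4.w * Vf q).b := rfl
  have e1' : io (F4.w * F4.w * Vf q) 1 = (F4.w * F4.w * Vf q).a := rfl
  rw [sum_rec S hq, ← hσ] at h0 h1
  rw [e0'] at h0
  rw [e1'] at h1
  simp only [e0] at h0
  simp only [e1] at h1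
  rw [← of_sum, ← hσ]
  apply F4.ext
  · rw [add_a, add_a, add_a, of_mul_a, of_mul_a, sum_a, mul_add_a, id_a _ (qd.A S)]
    have e2 : ∑ p ∈ S.erase q, (F4.of (qd.s p q) * Vf p).a = ∑ p ∈ S.erase q, (Vf p).a * qd.s p q :=
      sum_congr rfl fun p _ => by rw [of_mul_a, mul_comm]
    rw [e2]
    have e3 : (0 : F4).a = 0 := rfl
    rw [e3]
    linear_combination h1
  · rw [add_b, add_b, add_b, of_mul_b, of_mul_b, sum_b, mul_add_b, id_b _ (qd.A S)]
    have e2 : ∑ p ∈ S.erase q, (F4.of (qd.s p q) * Vf p).b = ∑ p ∈ S.erase q, (Vf p).b * qd.s p q :=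
      sum_congr rfl fun p _ => by rw [of_mul_b, mul_comm]
    rw [e2]
    have e3 : (0 : F4).b = 0 := rfl
    rw [e3]
    linear_combination h0

/-! ### the products with `V` constant -/

theorem io_n (x : ZMod 2) (c : F4) (i : Fin 3) :
    io ((F4.of x + F4.w * F4.w) * c) i = x * io c i + io (F4.w * F4.w * c) i := by
  revert x c i
  decide

theorem io_k (x : ZMod 2) (c : F4) (i : Fin 3) : io (F4.of x * c) i = x * io c i := by
  revert x c i
  decide

theorem pow_sq2 {M : Type*} [CommMonoid M] (x : M) (a b : ZMod 2) :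
    IsSquare (x ^ (a + b).val * (x ^ a.val * x ^ b.val)) := by
  have h := pow_three_sq x a b
  have e : x ^ (a + b).val * (x ^ a.val * x ^ b.val) = x ^ b.val * x ^ a.val * x ^ (a + b).val := by
    rw [mul_comm (x ^ a.val), mul_comm]
  rw [e]
  exact h

theorem gp_st_sq (S : Finset Pq) (c : F4) (i : Fin 3) :
    IsSquare (gp S (io ((F4.of (qd.A S).a + F4.w * F4.w) * c) i)
      (io (F4.of ((qd.A S).b + 1) * c) i) (fun _ => io c i) * st S c i) := by
  rw [io_n, io_k]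
  unfold st
  rw [dl_gp]
  generalize (qd.A S).a = A0
  generalize (qd.A S).b = B0
  generalize io (F4.w * F4.w * c) i = f
  generalize io c i = e
  have h0 : ∀ x : ZMod 2, x = 0 ∨ x = 1 := by decide
  have h1 : ((1 : ZMod 2)).val = 1 := rfl
  unfold gp
  rcases h0 e with rfl | rfl
  · refine ⟨(-1) ^ f.val, ?_⟩
    simp only [mul_zero, zero_add, ZMod.val_zero, pow_zero, mul_one, one_mul, prod_const_one]
  · simp only [mul_one, h1, pow_one]
    have hn := pow_sq2 (-1 : 𝓞 K) A0 f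
    have hk := pow_sq2 (s3 : 𝓞 K) B0 1
    have hS : IsSquare ((∏ q ∈ S, q.1) * ∏ q ∈ S, q.1) := ⟨_, rfl⟩
    have e : (-1) ^ (A0 + f).val * s3 ^ (B0 + 1).val * (∏ q ∈ S, q.1) *
        ((-1) ^ A0.val * s3 ^ B0.val * (∏ q ∈ S, q.1) * s3 * (-1) ^ f.val) =
        ((-1) ^ (A0 + f).val * ((-1) ^ A0.val * (-1) ^ f.val)) *
        (s3 ^ (B0 + 1).val * (s3 ^ B0.val * s3 ^ (1 : ZMod 2).val)) *
        ((∏ q ∈ S, q.1) * ∏ q ∈ S, q.1) := by
      rw [h1, pow_one]
      ring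
    rw [e]
    exact (hn.mul hk).mul hS

/-! ### the conclusion -/

theorem two_data (S : Finset Pq) (a : Fin 3 → K) (ha : ∀ i, a i ≠ 0)
    (hp : IsSquare (a 0 * a 1 * a 2))
    (hloc : ∀ v : HeightOneSpectrum (𝓞 K), GLoc (v.valuation K) om ((dl S : 𝓞 K) : K) a) :
    ∃ c : K, (pv 2 prime_two).valuation K c ≤ 1 ∧ ∀ i : Fin 3, ∃ b : K, b ≠ 0 ∧
      (pv 2 prime_two).valuation K (a i / b ^ 2 - (1 + 2 * om ^ (2 * (i : ℕ)) * c)) ≤
        (pv 2 prime_two).valuation K 4 := by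
  obtain ⟨h2, hd, hres⟩ := hyp_two S (pv 2 prime_two) (Ideal.mem_span_singleton_self _)
  exact loc_two ((pv 2 prime_two).valuation K) om_quad h2 hd hres a ha hp (hloc _)

theorem two_even (a : K) (c : K) (j : ℕ) (hc : (pv 2 prime_two).valuation K c ≤ 1)
    (h : ∃ b : K, b ≠ 0 ∧ (pv 2 prime_two).valuation K (a / b ^ 2 - (1 + 2 * om ^ j * c)) ≤
        (pv 2 prime_two).valuation K 4) : IsSquare ((pv 2 prime_two).valuation K a) := by
  obtain ⟨b, hb, h⟩ := h
  have h1 : (exp (-1) : ℤᵐ⁰) < 1 := by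
    rw [← exp_zero, exp_lt_exp]
    norm_num
  have h21 : (exp (-2) : ℤᵐ⁰) < 1 := by
    rw [← exp_zero, exp_lt_exp]
    norm_num
  rw [val_four2] at h
  have hu2 : (pv 2 prime_two).valuation K (2 * om ^ j * c) < 1 := by
    rw [map_mul, map_mul, val_two, val_om, mul_one]
    exact (mul_le_of_le_one_right' hc).trans_lt h1
  have hone : (pv 2 prime_two).valuation K (1 + 2 * om ^ j * c) = 1 := by
    have := Valuation.map_add_eq_of_lt_left ((pv 2 prime_two).valuation K) (x := (1 : K))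
      (y := 2 * om ^ j * c) (by rw [map_one]; exact hu2)
    rw [this, map_one]
  have h3 : (pv 2 prime_two).valuation K (a / b ^ 2) = 1 := by
    have h4 := Valuation.map_add_eq_of_lt_right ((pv 2 prime_two).valuation K)
      (x := a / b ^ 2 - (1 + 2 * om ^ j * c)) (y := 1 + 2 * om ^ j * c)
      (by
        rw [hone]
        exact h.trans_lt h21)
    rw [sub_add_cancel, hone] at h4
    exact h4
  refine ⟨(pv 2 prime_two).valuation K b, ?_⟩
  have e : a = b * b * (a / b ^ 2) := by field_simp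
  rw [e, map_mul, map_mul, h3, mul_one]

theorem even_out (S : Finset Pq) (a : Fin 3 → K) (ha : ∀ i, a i ≠ 0)
    (hp : IsSquare (a 0 * a 1 * a 2))
    (hloc : ∀ v : HeightOneSpectrum (𝓞 K), GLoc (v.valuation K) om ((dl S : 𝓞 K) : K) a) (i : Fin 3)
    (π : 𝓞 K) (hπ : Prime π) (h3 : ¬ π ∣ s3) (hS : ∀ q ∈ S, ¬ π ∣ q.1) :
    IsSquare ((pv π hπ).valuation K (a i)) := by
  by_cases h2 : π ∣ 2
  · rw [pv_eq hπ prime_two h2]
    obtain ⟨c, hc, hb⟩ := two_data S a ha hp hloc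
    exact two_even (a i) c _ hc (hb i)
  · obtain ⟨h4, hγ⟩ := hyp_good S (pv π hπ) (fun h => h2 (Ideal.mem_span_singleton.1 h))
      (fun h => h3 (Ideal.mem_span_singleton.1 h))
      (fun q hq h => hS q hq (Ideal.mem_span_singleton.1 h))
    exact loc_even ((pv π hπ).valuation K) om_quad (dlK_ne S) h4 0 hγ a ha hp (hloc _) i

theorem fin_a (A c N : F4) (Kk : F4) (h1 : Kk = if F4.tr A = 1 then 0 else c)
    (h2 : N = F4.w * F4.w * Kk + F4.cj A * c) :
    N = (F4.of A.a + F4.w * F4.w) * c ∧ Kk = F4.of (A.b + 1) * c := by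
  subst h2 h1
  revert A c
  decide

theorem io_of (n : Fin 3 → ZMod 2) (h : n 2 = n 0 + n 1) (i : Fin 3) : n i = io ⟨n 1, n 0⟩ i := by
  fin_cases i
  · rfl
  · rfl
  · show n 2 = n 1 + n 0
    rw [h, add_comm]

theorem exists_pow (c : F4) (h : c ≠ 0) : ∃ j : Fin 3, c = F4.w ^ (j : ℕ) := by
  revert c
  decide

/-- **The Selmer group**: a locally soluble class is the class of a point of order two. -/
theorem sel_class (S : Finset Pq) (hM : (qd.M S).det ≠ 0) (a : Fin 3 → K) (ha : ∀ i, a i ≠ 0)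
    (hp : IsSquare (a 0 * a 1 * a 2))
    (hloc : ∀ v : HeightOneSpectrum (𝓞 K), GLoc (v.valuation K) om ((dl S : 𝓞 K) : K) a) :
    (∀ i, IsSquare (a i)) ∨
      ∃ j, ∀ i, i ≠ j → IsSquare (a i * (ee om ((dl S : 𝓞 K) : K) j - ee om ((dl S : 𝓞 K) : K) i)) := by
  classical
  have hdec : ∀ i, ∃ (n k : ZMod 2) (V : Pq → ZMod 2) (m : K), m ≠ 0 ∧
      a i = m ^ 2 * (gp S n k V : K) := fun i =>
    decomp S (a i) (ha i) fun π hπ h3 hS => even_out S a ha hp hloc i π hπ h3 hS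
  choose n k V m hm ham using hdec
  -- the primes of `S`
  have hq : ∀ q ∈ S, ∃ c : F4, ∀ i, V i q = io c i ∧
      n i * F4.tr (qd.a q) + k i * F4.tr (F4.w * qd.a q) +
        ∑ p ∈ S.erase q, V i p * qd.s p q + io c i * ((qd.A S).a * F4.tr (qd.a q) +
        ((qd.A S).b + 1) * F4.tr (F4.w * qd.a q) + ∑ p ∈ S.erase q, qd.s p q) +
      io (F4.w * F4.w * c) i * F4.tr (qd.a q) = 0 := by
    intro q hq
    obtain ⟨c, hc⟩ := bad_st S hq a ha hp (hloc _)
    refine ⟨c, fun i => eq_at hq (n i) (k i) (V i) c i ?_⟩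
    have h1 := hc i
    have e : a i * ((st S c i : 𝓞 K) : K) = ((gp S (n i) (k i) (V i) * st S c i : 𝓞 K) : K) * m i ^ 2 := by
      rw [ham i]
      have e1 : ((gp S (n i) (k i) (V i) * st S c i : 𝓞 K) : K) =
          ((gp S (n i) (k i) (V i) : 𝓞 K) : K) * ((st S c i : 𝓞 K) : K) := by
        push_cast
        rfl
      rw [e1]
      ring
    rw [e] at h1
    exact Sq.of_mul_sq (hm i) h1
  choose! Vf hVf using hq
  -- the place above `2`
  obtain ⟨z, hz⟩ := at_two (fun i => gp S (n i) (k i) (V i))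
    (fun i => F4.of (n i) * 1 + F4.of (k i) * F4.w + ∑ q ∈ S, F4.of (V i q) * qd.a q)
    (fun i => Cl.gp S _ _ _) a m hm ham (two_data S a ha hp hloc)
  obtain ⟨hE2, hn2, hk2⟩ := E2_of S Vf n k z fun i => by
    rw [← hz i]
    congr 1
    exact sum_congr rfl fun q hq => by rw [(hVf q hq i).1]
  -- linear algebra
  obtain ⟨c, hcV, hcK⟩ := Dat.lin qd qd_rec S (fun v hv => Matrix.eq_zero_of_mulVec_eq_zero hM hv)
    Vf ⟨k 1, k 0⟩ ⟨n 1, n 0⟩ hE2 fun q hq => Eq_of S hq Vf n k fun i => by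
      have h1 := (hVf q hq i).2
      rw [← h1]
      have e : ∑ p ∈ S.erase q, V i p * qd.s p q = ∑ p ∈ S.erase q, io (Vf p) i * qd.s p q :=
        sum_congr rfl fun p hp => by rw [(hVf p (mem_of_mem_erase hp) i).1]
      rw [e]
  have hsum : ∑ q ∈ S, F4.cj (qd.a q) * Vf q = F4.cj (qd.A S) * c := by
    unfold Dat.A
    rw [F4.cj_sum, sum_mul]
    exact sum_congr rfl fun q hq => by rw [hcV q hq]
  rw [hsum] at hE2
  obtain ⟨hN, hK⟩ := fin_a _ _ _ _ hcK hE2
  have hsq : ∀ i, IsSquare (a i * ((st S c i : 𝓞 K) : K)) := by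
    intro i
    obtain ⟨r, hr⟩ := gp_st_sq S c i
    have e : gp S (n i) (k i) (V i) = gp S (io ((F4.of (qd.A S).a + F4.w * F4.w) * c) i)
      (io (F4.of ((qd.A S).b + 1) * c) i) (fun _ => io c i) := by
      rw [← hN, ← hK, ← io_of n hn2 i, ← io_of k hk2 i]
      unfold gp
      congr 1
      exact prod_congr rfl fun q hq => by rw [(hVf q hq i).1, hcV q hq]
    rw [← e] at hr
    refine ⟨m i * (r : K), ?_⟩
    have e1 : ((gp S (n i) (k i) (V i) : 𝓞 K) : K) * ((st S c i : 𝓞 K) : K) = (r : K) * (r : K) := by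
      have := congrArg (fun x : 𝓞 K => (x : K)) hr
      push_cast at this
      exact this
    rw [ham i]
    linear_combination m i ^ 2 * e1
  by_cases hc0 : c = 0
  · left
    intro i
    have h1 := hsq i
    rw [hc0, st_zero] at h1
    have e : ((1 : 𝓞 K) : K) = 1 := rfl
    rw [e, mul_one] at h1
    exact h1
  · right
    obtain ⟨j, rfl⟩ := exists_pow c hc0
    refine ⟨j, fun i hij => ?_⟩
    obtain ⟨r, hr, he⟩ := ee_st S j i hij
    rw [he, ← mul_assoc]
    exact (hsq i).mul ⟨r, by ring⟩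

end

end Pool.Agent.Lib.MP_1a91b9_ntH.C.Sel
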