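import Pool.Agent.Lib.MP_1a91b9_ntH.A.LocDef
import Pool.Agent.Lib.MP_1a91b9_ntH.C.Coc
import Pool.Agent.Lib.MP_1a91b9_ntH.C.Fin
import Pool.Agent.Lib.MP_1a91b9_ntH.C.SelD

/-!
# MP_1a91b9_nt (TwistDensity), part C: the points and the Tate-Shafarevich group of `y² = x³ + δ_S³`
-/

set_option autoImplicit false

namespace Pool.Agent.Lib.MP_1a91b9_ntH.C

open WeierstrassCurve WithZero NumberField IsDedekindDomain Pool.Agent.Lib.MP_1a91b9_ntT
open Pool.Agent.Lib.MP_1a91b9_ntT3.S9 (ShaP)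
open scoped Classical

theorem sel_cl (S : Finset Pq) (hM : (qd.M S).det ≠ 0) : SelCl om ((dl S : 𝓞 K) : K) :=
  fun a ha hp hloc => Sel.sel_class S hM a ha hp hloc

theorem dl_ne (S : Finset Pq) : ((dl S : 𝓞 K) : K) ≠ 0 := by
  exact fun h0 => dl_ne_zero S (RingOfIntegers.ext (h0.trans (_root_.map_zero (algebraMap (𝓞 K) K)).symm))

/-- The group of points is finite, with `4` times an odd number of elements. -/
theorem points_dl (S : Finset Pq) (hM : (qd.M S).det ≠ 0) :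
    Finite (Wd S).toAffine.Point ∧ ∃ m : ℕ, Odd m ∧ Nat.card (Wd S).toAffine.Point = 4 * m :=
  ⟨fin_of_half (dl_ne S) rfl (desc_pts (dl_ne S) om_quad (sel_cl S hM) rfl),
    card_of_half (dl_ne S) rfl om_quad (desc_pts (dl_ne S) om_quad (sel_cl S hM) rfl)⟩

theorem finite_dl (S : Finset Pq) (hM : (qd.M S).det ≠ 0) : Finite (Wd S).toAffine.Point :=
  (points_dl S hM).1

/-- The 2-primary part of the Tate-Shafarevich group is trivial. -/
theorem sha_dl (S : Finset Pq) (hM : (qd.M S).det ≠ 0) : Nat.card (ShaP 2 (Wd S)) = 1 :=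
  card_shaP (dl_ne S) om_quad (sel_cl S hM)

end Pool.Agent.Lib.MP_1a91b9_ntH.C
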