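import Pool.Agent.Lib.MP_1a91b9_ntT3.R3.Defs
import Pool.Agent.Lib.MP_1a91b9_ntT.S9.MA
import Pool.Agent.Lib.MP_1a91b9_ntH.F4

/-!
# MP_1a91b9_nt (TwistDensity), part C: the curve `y² = x³ + d³` and its 2-torsion
-/

set_option autoImplicit false

namespace Pool.Agent.Lib.MP_1a91b9_ntH.C

open WeierstrassCurve
open Pool.Agent.Lib.MP_1a91b9_ntT.S9 (pr pr_comm pr_map pr_add eq_zero_of_pr Pts Gal coc cob trivOver
  shaCoc Sha up actP)
open scoped Classical

/-- The curve `y² = x³ + d³`. -/
def cv {F : Type*} [Field F] (d : F) : WeierstrassCurve F := ⟨0, 0, 0, 0, d ^ 3⟩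

/-- The abscissas of the points of order two: `e i = - z ^ i d`. -/
def ee {F : Type*} [Field F] (z d : F) (i : Fin 3) : F := -(z ^ (i : ℕ) * d)

theorem ee_cube {F : Type*} [Field F] {z d : F} (hz : z ^ 2 + z + 1 = 0) (i : Fin 3) :
    ee z d i ^ 3 = -d ^ 3 := by
  have h3 : z ^ 3 = 1 := by linear_combination (z - 1) * hz
  have h : (z ^ (i : ℕ)) ^ 3 = 1 := by rw [← pow_mul, mul_comm, pow_mul, h3, one_pow]
  rw [ee]
  linear_combination -d ^ 3 * h

theorem cv_bc {k : Type*} (F : Type*) [Field k] [Field F] [Algebra k F] (d : k) :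
    Affine.baseChange (cv d) F = cv (algebraMap k F d) := by
  simp [cv, WeierstrassCurve.map, WeierstrassCurve.baseChange]

theorem eqn_iff {F : Type*} [Field F] {d : F} {W : Affine F} (hW : W = cv d) (x y : F) :
    W.Equation x y ↔ y ^ 2 = x ^ 3 + d ^ 3 := by
  subst hW
  rw [Affine.equation_iff]
  simp [cv]

/-- all points are nonsingular -/
theorem nons_iff {F : Type*} [Field F] [CharZero F] {d : F} (hd : d ≠ 0) {W : Affine F}
    (hW : W = cv d) (x y : F) : W.Nonsingular x y ↔ y ^ 2 = x ^ 3 + d ^ 3 := by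
  rw [Affine.nonsingular_iff, eqn_iff hW]
  subst hW
  simp only [and_iff_left_iff_imp]
  intro h
  by_contra hc
  push Not at hc
  obtain ⟨h1, h2⟩ := hc
  have hx : x = 0 := by
    have : 3 * x ^ 2 = 0 := by simpa [cv] using h1.symm
    simpa using this
  have hy : y = 0 := by
    have h2' : y = -y := by simpa [cv] using h2
    have : 2 * y = 0 := by linear_combination h2'
    simpa using this
  rw [hx, hy] at h
  apply hd
  have : d ^ 3 = 0 := by linear_combination -h
  simpa using this

/-- The point `(e, 0)`. -/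
noncomputable def tp {F : Type*} [Field F] [CharZero F] {d : F} (hd : d ≠ 0) {W : Affine F}
    (hW : W = cv d) (e : F) (he : e ^ 3 = -d ^ 3) : W.Point :=
  Affine.Point.some e 0 ((nons_iff hd hW _ _).2 (by linear_combination -he))

/-- The function `(X² - 2 e X - 2 e²) / (2 Y)`, whose square is `x(2P) - e`. -/
noncomputable def sfn {F : Type*} [Field F] {W : Affine F} (e : F) : W.Point → F
  | .zero => 0
  | .some X Y _ => (X ^ 2 - 2 * e * X - 2 * e ^ 2) / (2 * Y)

/-- The points of order two of `y² = x³ + d³` over an extension `F` of `k`. -/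
noncomputable def tpt {k : Type*} [Field k] {d : k} (hd : d ≠ 0) {z : k}
    (hz : z ^ 2 + z + 1 = 0) (F : Type*) [Field F] [CharZero F] [Algebra k F] (i : Fin 3) :
    Pts (cv d) F :=
  tp ((map_ne_zero (algebraMap k F)).2 hd) (cv_bc F d) (algebraMap k F (ee z d i))
    (by rw [← map_pow, ee_cube hz, map_neg, map_pow])

/-- The local condition over an extension `L` of `k` for a triple `a` of elements of `k`: either all
`a i` are squares in `L` or there is a point `(x, y)` over `L` with `a i (x - e i)` squares. -/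
def LocAt {k : Type*} [Field k] (z d : k) (a : Fin 3 → k) (L : Type*) [Field L] [Algebra k L] :
    Prop :=
  (∀ i, IsSquare (algebraMap k L (a i))) ∨ ∃ x y : L, y ^ 2 = x ^ 3 + algebraMap k L d ^ 3 ∧
    ∀ i, IsSquare (algebraMap k L (a i) * (x - algebraMap k L (ee z d i)))

/-- The Kummer data of a cocycle with values in the 2-torsion. -/
structure KData {k : Type*} [Field k] [CharZero k] {d : k} (hd : d ≠ 0) {z : k}
    (hz : z ^ 2 + z + 1 = 0) (c : Gal k → Pts (cv d) (AlgebraicClosure k)) (a : Fin 3 → k)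
    (b : Fin 3 → AlgebraicClosure k) : Prop where
  ne : ∀ i, b i ≠ 0
  sq : ∀ i, algebraMap k (AlgebraicClosure k) (a i) = b i ^ 2
  act : ∀ i (σ : Gal k), σ (b i) =
    (((pr (c σ) (tpt hd hz (AlgebraicClosure k) i) : ℤˣ) : ℤ) : AlgebraicClosure k) * b i

end Pool.Agent.Lib.MP_1a91b9_ntH.C
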