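import Pool.Agent.Lib.MP_1a91b9_ntT.CT.La
import Pool.Agent.Lib.MP_1a91b9_ntH.C.Curve
import Pool.Agent.Lib.MP_1a91b9_ntH.A.Base

/-!
# MP_1a91b9_nt (TwistDensity), part C, block Per: the finite part of the period of `y² = x³ + δ³`

`δ` is squarefree and congruent to `1` modulo `2`. The equation is minimal at all places except at
`(√-3)` if `√-3` divides `δ`; there `u = √-3` gives `y² = x³ + δ x² - D² x`, `δ = √-3 D`, of
discriminant `16 D⁶`.
-/

set_option autoImplicit false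

namespace Pool.Agent.Lib.MP_1a91b9_ntH.C

open NumberField IsDedekindDomain WeierstrassCurve WithZero Pool.Agent.Lib.MP_1a91b9_ntT
open Pool.Agent.Lib.MP_1a91b9_ntT.S9 (minChange minModel minModel_isMinimal normFactor period)
open scoped Classical

/-- The scaling factor of the change to the minimal model is that of a change to an integral
equation whose discriminant is not divisible by a twelfth power. -/
theorem perb_unique {N : Type*} [Field N] [NumberField N] (W : WeierstrassCurve N)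
    (v : HeightOneSpectrum (𝓞 N)) (D : VariableChange (v.adicCompletion N))
    (I : WeierstrassCurve (v.adicCompletionIntegers N))
    (hI : D • W.baseChange (v.adicCompletion N) = I.baseChange (v.adicCompletion N))
    (hΔ : exp (-12 : ℤ) < Valued.v (D • W.baseChange (v.adicCompletion N)).Δ) :
    Valued.v ((minChange W v).u : v.adicCompletion N) = Valued.v (D.u : v.adicCompletion N) := by
  obtain ⟨C, hC⟩ : ∃ C, C = minChange W v * D⁻¹ := ⟨_, rfl⟩
  obtain ⟨W', hW'⟩ : ∃ W', W' = D • W.baseChange (v.adicCompletion N) := ⟨_, rfl⟩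
  have hCW : C • W' = minModel W v := by
    rw [hC, hW', mul_smul, inv_smul_smul]
    rfl
  have hm : IsMinimal (v.adicCompletionIntegers N) (C • W') := by
    rw [hCW]
    exact minModel_isMinimal W v
  rw [← hW'] at hI hΔ
  have h1 := CT.min_le W' I hI C hm
  have h2 : Valued.v (C • W').Δ ≤ 1 := by
    obtain ⟨r, hr⟩ := Δ_integral_of_isIntegral (v.adicCompletionIntegers N) (C • W')
    rw [← hr]
    exact r.2
  obtain ⟨a, ha⟩ : ∃ a, a = Valued.v ((C.u⁻¹ : (v.adicCompletion N)ˣ) : v.adicCompletion N) :=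
    ⟨_, rfl⟩
  have h3 : Valued.v (C • W').Δ = a ^ 12 * Valued.v W'.Δ := by
    rw [WeierstrassCurve.variableChange_Δ, map_mul, map_pow, ha]
  have ha0 : a ≠ 0 := by
    rw [ha, Valuation.ne_zero_iff]
    exact C.u⁻¹.ne_zero
  have hV0 : Valued.v W'.Δ ≠ 0 := fun h0 => by
    rw [h0] at hΔ
    exact not_lt_zero hΔ
  have e1 : a = exp (log a) := (exp_log ha0).symm
  have e2 : Valued.v W'.Δ = exp (log (Valued.v W'.Δ)) := (exp_log hV0).symm
  have h4 : a = 1 := by
    rw [h3] at h1 h2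
    obtain ⟨k, hk⟩ : ∃ k : ℤ, k = log a := ⟨_, rfl⟩
    obtain ⟨l, hl⟩ : ∃ l : ℤ, l = log (Valued.v W'.Δ) := ⟨_, rfl⟩
    rw [← hk] at e1
    rw [← hl] at e2
    rw [e1, e2, ← exp_nsmul, ← exp_add, exp_le_exp] at h1
    rw [e1, e2, ← exp_nsmul, ← exp_add, ← exp_zero, exp_le_exp] at h2
    rw [e2, exp_lt_exp] at hΔ
    simp only [nsmul_eq_mul] at h1 h2
    push_cast at h1 h2
    have : k = 0 := by omega
    rw [e1, this, exp_zero]
  have h5 : Valued.v (C.u : v.adicCompletion N) = 1 := by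
    have h6 := congrArg Valued.v C.u.mul_inv
    rwa [map_mul, ← ha, h4, mul_one, map_one] at h6
  have h7 : (C.u : v.adicCompletion N) * (D.u : v.adicCompletion N) =
      ((minChange W v).u : v.adicCompletion N) := by
    rw [hC]
    simp [VariableChange.mul_def, VariableChange.inv_def]
  rw [← h7, map_mul, h5, one_mul]

section
variable {v : HeightOneSpectrum (𝓞 K)}

theorem perb_sqf {x : 𝓞 K} (hx : Squarefree x) (v : HeightOneSpectrum (𝓞 K)) :
    exp (-1 : ℤ) ≤ v.valuation K (x : K) := by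
  by_contra h
  rw [not_le] at h
  have h0 : v.valuation K (x : K) ≠ 0 := by
    rw [Valuation.ne_zero_iff]
    intro h1
    exact hx.ne_zero (RingOfIntegers.ext h1)
  have h1 : v.valuation K (x : K) ≤ exp (-((2 : ℕ) : ℤ)) := by
    rw [← exp_log h0] at h ⊢
    rw [exp_lt_exp] at h
    rw [exp_le_exp]
    push_cast
    omega
  have h2 : v.valuation K (x : K) = v.intValuation x := HeightOneSpectrum.valuation_of_algebraMap v x
  rw [h2, HeightOneSpectrum.intValuation_le_pow_iff_mem] at h1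
  obtain ⟨p, hp⟩ := (IsPrincipalIdealRing.principal v.asIdeal).principal
  have hp' : v.asIdeal = Ideal.span {p} := hp
  rw [hp', Ideal.span_singleton_pow, Ideal.mem_span_singleton, pow_two] at h1
  have h3 := hx p h1
  apply v.isPrime.ne_top
  rw [hp', Ideal.span_singleton_eq_top]
  exact h3

theorem perb_le (x : 𝓞 K) : v.valuation K (x : K) ≤ 1 := HeightOneSpectrum.valuation_le_one v x

theorem perb_one {x : 𝓞 K} (h : x ∉ v.asIdeal) : v.valuation K (x : K) = 1 :=
  (HeightOneSpectrum.valuation_eq_one_iff_notMem v).2 h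

theorem Nz_s3 : Nz s3 = 3 := by
  have h := Nz_coords 1 2
  have e : ((1 : ℤ) : 𝓞 K) + ((2 : ℤ) : 𝓞 K) * wO = s3 := by
    rw [s3]
    push_cast
    ring
  rw [e] at h
  norm_num at h
  exact_mod_cast h

theorem s3_prime : Prime s3 := by
  rw [← Ideal.span_singleton_prime s3_ne]
  apply Ideal.isPrime_of_irreducible_absNorm
  rw [Ideal.absNorm_span_singleton]
  change Irreducible (Nz s3)
  rw [Nz_s3]
  exact Nat.prime_three

theorem two_prime : Prime (2 : 𝓞 K) := by
  refine ⟨two_ne_zero, two_not_isUnit, fun a b h => ?_⟩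
  rw [← red_eq_zero, map_mul] at h
  have key : ∀ x y : F4, x * y = 0 → x = 0 ∨ y = 0 := by decide
  rcases key _ _ h with h1 | h1
  · exact Or.inl (red_eq_zero.1 h1)
  · exact Or.inr (red_eq_zero.1 h1)

theorem perb_eq {p : 𝓞 K} (hp : Prime p) (h : p ∈ v.asIdeal) : v.asIdeal = Ideal.span {p} := by
  have h1 : (Ideal.span {p}).IsPrime := (Ideal.span_singleton_prime hp.ne_zero).2 hp
  have h2 : Ideal.span {p} ≠ ⊥ := by
    rw [Ne, Ideal.span_singleton_eq_bot]
    exact hp.ne_zero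
  exact ((h1.isMaximal h2).eq_of_le v.isPrime.ne_top ((Ideal.span_singleton_le_iff_mem _).2 h)).symm

/-- a place containing `2` does not contain `√-3` -/
theorem perb_cop (h : (2 : 𝓞 K) ∈ v.asIdeal) : s3 ∉ v.asIdeal := by
  intro h1
  obtain ⟨a, b, hab⟩ := s3_odd
  apply v.isPrime.ne_top
  rw [Ideal.eq_top_iff_one, ← hab]
  exact v.asIdeal.add_mem (v.asIdeal.mul_mem_left _ h) (v.asIdeal.mul_mem_left _ h1)

theorem perb_odd {δ : 𝓞 K} (h2 : (2 : 𝓞 K) ∣ δ - 1) (h : (2 : 𝓞 K) ∈ v.asIdeal) :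
    δ ∉ v.asIdeal := by
  intro h1
  apply v.isPrime.ne_top
  rw [Ideal.eq_top_iff_one]
  have e : (1 : 𝓞 K) = δ - (δ - 1) := by ring
  rw [e]
  exact v.asIdeal.sub_mem h1 (v.asIdeal.mem_of_dvd h2 h)

theorem cv_Δ {F : Type*} [Field F] (d : F) : (cv d).Δ = -(2 ^ 4 * 3 ^ 3 * d ^ 6) := by
  simp only [WeierstrassCurve.Δ, WeierstrassCurve.b₂, WeierstrassCurve.b₄,
    WeierstrassCurve.b₆, WeierstrassCurve.b₈, cv]
  ring

theorem perb_three : (3 : K) = -((s3 : 𝓞 K) : K) ^ 2 := by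
  have h := congrArg (algebraMap (𝓞 K) K) three_eq
  rw [map_ofNat, map_neg, map_pow] at h
  exact h

/-- the value of the discriminant -/
theorem perb_disc (δ : 𝓞 K) : v.valuation K ((cv (δ : K)).Δ) =
    v.valuation K ((2 : 𝓞 K) : K) ^ 4 * v.valuation K ((s3 : 𝓞 K) : K) ^ 6 *
      v.valuation K (δ : K) ^ 6 := by
  have e : (2 : K) = ((2 : 𝓞 K) : K) := (map_ofNat (algebraMap (𝓞 K) K) 2).symm
  rw [cv_Δ, Valuation.map_neg, perb_three, e, map_mul, map_mul, map_pow, map_pow, map_pow,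
    Valuation.map_neg, map_pow, ← pow_mul]

theorem perb_min {δ : 𝓞 K} (hs : Squarefree δ) (h2 : (2 : 𝓞 K) ∣ δ - 1)
    (h : s3 ∉ v.asIdeal ∨ ¬ s3 ∣ δ) : exp (-12 : ℤ) < v.valuation K ((cv (δ : K)).Δ) := by
  have hpow : ∀ x : ℤᵐ⁰, exp (-1 : ℤ) ≤ x → ∀ n : ℕ, exp (-(n : ℤ)) ≤ x ^ n := by
    intro x hx n
    have h1 := pow_le_pow_left₀ zero_le hx n
    rw [← exp_nsmul] at h1
    simpa using h1
  rw [perb_disc]
  by_cases hv2 : (2 : 𝓞 K) ∈ v.asIdeal
  · rw [perb_one (perb_cop hv2), perb_one (perb_odd h2 hv2), one_pow, mul_one, mul_one]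
    exact lt_of_lt_of_le (exp_lt_exp.2 (by norm_num))
      (hpow _ (perb_sqf two_prime.squarefree v) 4)
  · rw [perb_one hv2, one_pow, one_mul]
    by_cases hv3 : s3 ∈ v.asIdeal
    · have hd : δ ∉ v.asIdeal := by
        rw [perb_eq s3_prime hv3, Ideal.mem_span_singleton]
        exact h.resolve_left (fun h' => h' hv3)
      rw [perb_one hd, one_pow, mul_one]
      exact lt_of_lt_of_le (exp_lt_exp.2 (by norm_num))
        (hpow _ (perb_sqf s3_prime.squarefree v) 6)
    · rw [perb_one hv3, one_pow, one_mul]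
      exact lt_of_lt_of_le (exp_lt_exp.2 (by norm_num)) (hpow _ (perb_sqf hs v) 6)

theorem perb_cvbc (δ : 𝓞 K) (v : HeightOneSpectrum (𝓞 K)) :
    (cv (δ : K)).baseChange (v.adicCompletion K) =
      cv (algebraMap K (v.adicCompletion K) (δ : K)) := cv_bc _ _

theorem perb_bc {R F : Type*} [CommRing R] [Field F] [Algebra R F] (a₁ a₂ a₃ a₄ a₆ : R) :
    (⟨a₁, a₂, a₃, a₄, a₆⟩ : WeierstrassCurve R).baseChange F =
      ⟨algebraMap R F a₁, algebraMap R F a₂, algebraMap R F a₃, algebraMap R F a₄,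
        algebraMap R F a₆⟩ := rfl

/-- an element of `𝓞 K` as an element of the integers of the completion -/
theorem perb_int (v : HeightOneSpectrum (𝓞 K)) (x : 𝓞 K) : ∃ r : v.adicCompletionIntegers K,
    algebraMap (v.adicCompletionIntegers K) (v.adicCompletion K) r =
      algebraMap K (v.adicCompletion K) (x : K) := by
  have h : Valued.v (algebraMap K (v.adicCompletion K) (x : K)) ≤ 1 := by
    rw [MP_1a91b9_nt.valued_algebraMap]
    exact HeightOneSpectrum.valuation_le_one v x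
  exact ⟨⟨_, h⟩, rfl⟩

/-- the places where the equation is minimal -/
theorem perb_nf_one {δ : 𝓞 K} (hs : Squarefree δ) (h2 : (2 : 𝓞 K) ∣ δ - 1)
    (h : s3 ∉ v.asIdeal ∨ ¬ s3 ∣ δ) : normFactor (cv (δ : K)) v = 1 := by
  have hu := perb_unique (cv (δ : K)) v 1
  obtain ⟨r, hr⟩ := perb_int v δ
  have h1 := hu ⟨0, 0, 0, 0, r ^ 3⟩ (by
    rw [one_smul, perb_cvbc, perb_bc, map_zero, map_pow, hr]
    rfl) (by
    rw [one_smul, WeierstrassCurve.baseChange, WeierstrassCurve.map_Δ,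
      MP_1a91b9_nt.valued_algebraMap]
    exact perb_min hs h2 h)
  have h3 : Valued.v (((1 : VariableChange (v.adicCompletion K)).u : (v.adicCompletion K)ˣ) :
      v.adicCompletion K) = 1 := by
    show Valued.v (((1 : (v.adicCompletion K)ˣ)) : v.adicCompletion K) = 1
    rw [Units.val_one, map_one]
  rw [h3] at h1
  rw [normFactor, h1, log_one, neg_zero, zpow_zero]

/-- the place `(√-3)` if `√-3` divides `δ` -/
theorem perb_nf_three {δ : 𝓞 K} (hs : Squarefree δ)
    (h : s3 ∈ v.asIdeal) (h3 : s3 ∣ δ) : normFactor (cv (δ : K)) v = 3 := by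
  obtain ⟨D, rfl⟩ := h3
  have hv := perb_eq s3_prime h
  have hD : D ∉ v.asIdeal := by
    rw [hv, Ideal.mem_span_singleton]
    rintro ⟨c, rfl⟩
    apply s3_not_isUnit
    exact hs s3 ⟨c, by ring⟩
  have h2 : (2 : 𝓞 K) ∉ v.asIdeal := fun h' => perb_cop h' h
  have hs0 : algebraMap K (v.adicCompletion K) ((s3 : 𝓞 K) : K) ≠ 0 := by
    rw [Ne, map_eq_zero]
    intro h0
    exact s3_ne (RingOfIntegers.ext h0)
  obtain ⟨s, hsd⟩ : ∃ s, s = algebraMap K (v.adicCompletion K) ((s3 : 𝓞 K) : K) := ⟨_, rfl⟩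
  obtain ⟨t, htd⟩ : ∃ t, t = algebraMap K (v.adicCompletion K) ((D : 𝓞 K) : K) := ⟨_, rfl⟩
  rw [← hsd] at hs0
  have hs2 : s ^ 2 = -3 := by
    have h4 := congrArg (algebraMap K (v.adicCompletion K)) perb_three
    rw [map_neg, map_pow, ← hsd, map_ofNat] at h4
    linear_combination h4
  obtain ⟨r, hr⟩ := perb_int v (s3 * D)
  obtain ⟨q, hq⟩ := perb_int v D
  have hst : algebraMap K (v.adicCompletion K) ((s3 * D : 𝓞 K) : K) = s * t := by
    rw [hsd, htd, ← map_mul]
    rfl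
  rw [hst] at hr
  rw [← htd] at hq
  have hbc : (cv ((s3 * D : 𝓞 K) : K)).baseChange (v.adicCompletion K) = cv (s * t) := by
    rw [perb_cvbc, hst]
  obtain ⟨C, hC⟩ : ∃ C : VariableChange (v.adicCompletion K), C = ⟨Units.mk0 s hs0, -(s * t), 0, 0⟩ :=
    ⟨_, rfl⟩
  have hCu : (C.u : v.adicCompletion K) = s := by rw [hC]; rfl
  have hmod : C • cv (s * t) = ⟨0, s * t, 0, -t ^ 2, 0⟩ := by
    have hi : ((C.u⁻¹ : (v.adicCompletion K)ˣ) : v.adicCompletion K) = s⁻¹ := by
      rw [Units.val_inv_eq_inv_val, hCu]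
    have hr' : C.r = -(s * t) := by rw [hC]
    have hs' : C.s = 0 := by rw [hC]
    have ht' : C.t = 0 := by rw [hC]
    have e3 : (3 : v.adicCompletion K) = -s ^ 2 := by linear_combination hs2
    have f2 : (s⁻¹) ^ 2 * s ^ 2 = 1 := by
      rw [← mul_pow, inv_mul_cancel₀ hs0, one_pow]
    have f4 : (s⁻¹) ^ 4 * s ^ 4 = 1 := by
      rw [← mul_pow, inv_mul_cancel₀ hs0, one_pow]
    refine WeierstrassCurve.ext ?_ ?_ ?_ ?_ ?_
    · simp [WeierstrassCurve.variableChange_a₁, cv, hs']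
    · rw [WeierstrassCurve.variableChange_a₂, hi, hr', hs']
      simp only [cv]
      linear_combination (-(s⁻¹) ^ 2 * (s * t)) * e3 + s * t * f2
    · simp [WeierstrassCurve.variableChange_a₃, cv, ht']
    · rw [WeierstrassCurve.variableChange_a₄, hi, hr', hs', ht']
      simp only [cv]
      linear_combination ((s⁻¹) ^ 4 * (s * t) ^ 2) * e3 - t ^ 2 * f4
    · rw [WeierstrassCurve.variableChange_a₆, hi, hr', ht']
      simp only [cv]
      ring
  have hΔ : (⟨0, s * t, 0, -t ^ 2, 0⟩ : WeierstrassCurve (v.adicCompletion K)).Δ = 2 ^ 4 * t ^ 6 := by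
    simp only [WeierstrassCurve.Δ, WeierstrassCurve.b₂, WeierstrassCurve.b₄,
      WeierstrassCurve.b₆, WeierstrassCurve.b₈]
    linear_combination 16 * t ^ 6 * hs2
  have hval2 : Valued.v (2 : v.adicCompletion K) = 1 := by
    have h4 := perb_one h2
    rw [← MP_1a91b9_nt.valued_algebraMap] at h4
    have e : algebraMap K (v.adicCompletion K) ((2 : 𝓞 K) : K) = 2 := by
      have e' : ((2 : 𝓞 K) : K) = 2 := map_ofNat (algebraMap (𝓞 K) K) 2
      rw [e', map_ofNat]
    rwa [e] at h4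
  have hvalt : Valued.v t = 1 := by
    have h4 := perb_one hD
    rwa [← MP_1a91b9_nt.valued_algebraMap, ← htd] at h4
  have h1 := perb_unique (cv ((s3 * D : 𝓞 K) : K)) v C ⟨0, r, 0, -q ^ 2, 0⟩ (by
    rw [hbc, hmod, perb_bc, map_zero, map_neg, map_pow, hr, hq]) (by
    rw [hbc, hmod, hΔ, map_mul, map_pow, map_pow, hval2, hvalt, one_pow, one_pow, one_mul,
      ← exp_zero, exp_lt_exp]
    norm_num)
  rw [hCu] at h1
  -- the value of `√-3`
  have hvs : Valued.v s = exp (-1 : ℤ) := by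
    rw [hsd, MP_1a91b9_nt.valued_algebraMap]
    refine le_antisymm ?_ (perb_sqf s3_prime.squarefree v)
    have h5 : v.valuation K ((s3 : 𝓞 K) : K) = v.intValuation s3 :=
      HeightOneSpectrum.valuation_of_algebraMap v s3
    have h6 := (HeightOneSpectrum.intValuation_le_pow_iff_mem v s3 1).2 (by rwa [pow_one])
    rw [h5]
    simpa using h6
  rw [normFactor, h1, hvs, log_exp, neg_neg, zpow_one, hv, Ideal.absNorm_span_singleton]
  have h7 : (Algebra.norm ℤ s3).natAbs = 3 := Nz_s3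
  rw [h7]
  norm_num

end

/-- The finite part of the period. -/
theorem prod_normFactor {δ : 𝓞 K} (hs : Squarefree δ) (h2 : (2 : 𝓞 K) ∣ δ - 1) :
    ∏ᶠ v : HeightOneSpectrum (𝓞 K), normFactor (cv (δ : K)) v = if s3 ∣ δ then 3 else 1 := by
  split_ifs with h
  · have hp : (Ideal.span {s3}).IsPrime := (Ideal.span_singleton_prime s3_ne).2 s3_prime
    have hb : Ideal.span {s3} ≠ ⊥ := by
      rw [Ne, Ideal.span_singleton_eq_bot]
      exact s3_ne
    rw [finprod_eq_single _ (⟨Ideal.span {s3}, hp, hb⟩ : HeightOneSpectrum (𝓞 K))]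
    · exact perb_nf_three hs (Ideal.mem_span_singleton_self _) h
    · intro v hv
      refine perb_nf_one hs h2 (Or.inl fun h3 => hv ?_)
      exact HeightOneSpectrum.ext (perb_eq s3_prime h3)
  · rw [finprod_congr fun v => perb_nf_one hs h2 (Or.inr h), finprod_one]

end Pool.Agent.Lib.MP_1a91b9_ntH.C
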