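import Pool.Agent.Lib.MP_1a91b9_ntH.C.PerA
import Pool.Agent.Lib.MP_1a91b9_ntH.C.PerB
import Pool.Agent.Lib.MP_1a91b9_ntT3.S9.Un

/-!
# MP_1a91b9_nt (TwistDensity), part C, block Per: the period and the 2-adic value of the quotient

`ε³ = 1 / 2`, `L` the value of the L-series of the character, `ν = 6 L / (Om ε 2^r)`, `r = #S`;
`g₁ = (3/4)^e |L|²`, `Ω = 3^e √3 |Om|² |ε|² / |δ|`, `g₁ √3 / Ω = 4^(r - e) |ν|² |δ| / 36`.
-/

set_option autoImplicit false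

namespace Pool.Agent.Lib.MP_1a91b9_ntH.C

open NumberField IsDedekindDomain WeierstrassCurve Pool.Agent.Lib.MP_1a91b9_ntT
open Pool.Agent.Lib.MP_1a91b9_ntT.S9 (tam normFactor period)
open Pool.Agent.Lib.MP_1a91b9_ntT3.S9 (UnitAt ShaP PPart PPartQ unitAt_of_val ppartQ_of)
open scoped Classical

theorem discr_K : discr K = -3 := by
  have h3 : Fact (Nat.Prime 3) := ⟨Nat.prime_three⟩
  have h := IsCyclotomicExtension.Rat.discr_prime 3 K
  norm_num at h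
  exact h

theorem sqrt_discr_K : √|(discr K : ℝ)| = √3 := by
  rw [discr_K]
  norm_num

theorem DD_s3 (S : Finset Pq) : s3 ∣ DD S - 1 := by
  induction S using Finset.induction_on with
  | empty => simp [DD]
  | insert q S hq ih =>
    have h1 : DD (insert q S) = q.1 * DD S := by
      rw [DD, Finset.prod_insert hq]
      rfl
    obtain ⟨a, ha⟩ := (dvd_mul_left s3 (2 : 𝓞 K)).trans q.2.2
    obtain ⟨b, hb⟩ := ih
    refine ⟨a * DD S + b, ?_⟩
    rw [h1]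
    linear_combination DD S * ha + hb

/-- `√-3` divides `δ_S` in the case `e = 1` only. -/
theorem s3_dvd_dl (S : Finset Pq) : s3 ∣ dl S ↔ (qd.A S).b ≠ 0 := by
  constructor
  · intro h hb
    rw [dl, if_pos hb, one_mul] at h
    have h1 : s3 ∣ DD S := by
      split_ifs at h
      · rwa [one_mul] at h
      · rwa [neg_mul, one_mul, dvd_neg] at h
    apply s3_not_isUnit
    rw [isUnit_iff_dvd_one]
    have e : (1 : 𝓞 K) = DD S - (DD S - 1) := by ring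
    rw [e]
    exact dvd_sub h1 (DD_s3 S)
  · intro hb
    rw [dl, if_neg hb, mul_assoc]
    exact dvd_mul_right _ _

/-- The period. -/
theorem period_cv {δ : 𝓞 K} (hs : Squarefree δ) (h2 : (2 : 𝓞 K) ∣ δ - 1) {ε : ℂ}
    (hε : ε ^ 3 = 1 / 2) : period (cv (δ : K)) =
      (if s3 ∣ δ then 3 else 1) * (√3 * (‖Om‖ ^ 2 * ‖ε‖ ^ 2 / ‖em δ‖)) := by
  have hδ : (δ : K) ≠ 0 := fun h => hs.ne_zero (RingOfIntegers.ext h)
  rw [period, prod_normFactor hs h2, prod_perAt_cv hδ hε]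
  rfl

theorem Nz_odd {x : 𝓞 K} (h : (2 : 𝓞 K) ∣ x - 1) : Odd (Nz x) := by
  obtain ⟨y, hy⟩ := h
  obtain ⟨p, q, hpq⟩ := coord y
  have e : x = ((1 + 2 * p : ℤ) : 𝓞 K) + ((2 * q : ℤ) : 𝓞 K) * wO := by
    push_cast
    linear_combination hy + 2 * hpq
  have h1 := Nz_coords (1 + 2 * p) (2 * q)
  rw [← e] at h1
  have h2 : Odd (Nz x : ℤ) := by
    rw [h1]
    exact ⟨2 * p + 2 * p ^ 2 - q - 2 * p * q + 2 * q ^ 2, by ring⟩
  exact_mod_cast h2

section val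
variable {A : ValuationSubring ℂ}

private theorem perc_conj {x : ℂ} (h : (A.comap (starRingEnd ℂ)).valuation x = 1) :
    A.valuation ((starRingEnd ℂ) x) = 1 := by
  have h0 : x ≠ 0 := by
    rintro rfl
    rw [map_zero] at h
    exact zero_ne_one h
  have h1 : x ∈ A.comap (starRingEnd ℂ) := by
    rw [← ValuationSubring.valuation_le_one_iff, h]
  have h2 : x⁻¹ ∈ A.comap (starRingEnd ℂ) := by
    rw [← ValuationSubring.valuation_le_one_iff, map_inv₀, h, inv_one]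
  rw [ValuationSubring.mem_comap] at h1 h2
  rw [map_inv₀] at h2
  have h3 := (A.valuation_le_one_iff _).2 h1
  have h4 := (A.valuation_le_one_iff _).2 h2
  rw [map_inv₀] at h4
  refine le_antisymm h3 ?_
  have h5 : A.valuation ((starRingEnd ℂ) x) ≠ 0 := by
    rw [Valuation.ne_zero_iff]
    exact (map_ne_zero _).2 h0
  exact (inv_le_one₀ (zero_lt_iff.2 h5)).1 h4

private theorem perc_normsq {y : ℂ} (h : A.valuation y = 1)
    (h' : (A.comap (starRingEnd ℂ)).valuation y = 1) :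
    A.valuation ((‖y‖ ^ 2 : ℝ) : ℂ) = 1 := by
  rw [Complex.ofReal_pow, ← Complex.conj_mul', map_mul, perc_conj h', h, one_mul]

private theorem perc_comap (hA : Two A) : Two (A.comap (starRingEnd ℂ)) := by
  intro h
  apply hA
  rw [ValuationSubring.mem_comap, map_inv₀, map_ofNat] at h
  exact h

private theorem perc_pow {y : ℂ} {n : ℕ} (hn : n ≠ 0) (h : A.valuation (y ^ n) = 1) :
    A.valuation y = 1 := by
  rw [map_pow] at h
  exact (pow_eq_one_iff_of_nonneg zero_le hn).1 h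

private theorem perc_odd (hA : Two A) {n : ℕ} (hn : Odd n) : A.valuation (n : ℂ) = 1 := by
  have h := S3.v_odd hA (n := (n : ℤ)) (by exact_mod_cast hn)
  simpa using h

end val

private theorem perc_two {A : ValuationSubring ℂ} (hA : ((2 : ℕ) : ℂ)⁻¹ ∉ A) : Two A := by
  intro h
  exact hA (by simpa using h)

private theorem perc_Lsq {L ε : ℂ} (n : ℕ) (hε0 : ε ≠ 0) :
    ‖L‖ ^ 2 = ‖L * 6 / (Om * ε * 2 ^ n)‖ ^ 2 * (‖Om‖ ^ 2 * ‖ε‖ ^ 2) * 4 ^ n / 36 := by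
  have h1 : ‖Om‖ ≠ 0 := norm_ne_zero_iff.2 Om_ne_zero
  have h2 : ‖ε‖ ≠ 0 := norm_ne_zero_iff.2 hε0
  have h4 : (4 : ℝ) ^ n = 2 ^ n * 2 ^ n := by
    rw [← mul_pow]
    norm_num
  rw [norm_div, norm_mul, norm_mul, norm_mul, norm_pow, h4]
  have h6 : ‖(6 : ℂ)‖ = 6 := by norm_num
  have h7 : ‖(2 : ℂ)‖ = 2 := by norm_num
  rw [h6, h7]
  have h8 : (2 : ℝ) ^ n ≠ 0 := by positivity
  field_simp
  norm_num

private theorem perc_g {g1 L : ℂ} {S : Finset Pq}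
    (hg : g1 * (if (qd.A S).b = 0 then 1 else 4 / 3) = L * (starRingEnd ℂ) L) :
    g1 = ((‖L‖ ^ 2 * (if (qd.A S).b = 0 then 1 else 3 / 4) : ℝ) : ℂ) := by
  have h1 : L * (starRingEnd ℂ) L = ((‖L‖ ^ 2 : ℝ) : ℂ) := by
    rw [Complex.mul_conj, Complex.normSq_eq_norm_sq]
  rw [h1] at hg
  split_ifs at hg ⊢
  · rw [mul_one] at hg
    rw [hg, mul_one]
  · rw [Complex.ofReal_mul, ← hg]
    push_cast
    ring

/-- The 2-part of the formula from the 2-adic value of `L`. -/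
theorem formula_two {S : Finset Pq} (hsq : Squarefree (dl S)) (h2 : (2 : 𝓞 K) ∣ dl S - 1)
    {ε L g1 : ℂ} (hε : ε ^ 3 = 1 / 2)
    (hg : g1 * (if (qd.A S).b = 0 then 1 else 4 / 3) = L * (starRingEnd ℂ) L)
    (hν : ∀ A : ValuationSubring ℂ, Two A → A.valuation (L * 6 / (Om * ε * 2 ^ S.card)) = 1)
    (hL : L ≠ 0) {c t C T : ℕ} (hc : Odd c) (hC : C = 4 * c) (ht : Odd t)
    (hT : T * (if (qd.A S).b = 0 then 1 else 4) = 4 ^ (S.card + 1) * t) :
    ∃ x : ℝ, UnitAt 2 x ∧ g1 * (√|(discr K : ℝ)| : ℝ) / (period (cv ((dl S : 𝓞 K) : K)) : ℝ) =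
      (x * ((1 : ℝ) * (T : ℝ) / (C : ℝ) ^ 2) : ℝ) := by
  have hε0 : ε ≠ 0 := by
    rintro rfl
    norm_num at hε
  have hδ0 : em (dl S) ≠ 0 := by
    rw [em, Ne, map_eq_zero]
    exact fun h => hsq.ne_zero (RingOfIntegers.ext h)
  have hn0 : 0 < ‖em (dl S)‖ := norm_pos_iff.2 hδ0
  have hOm : 0 < ‖Om‖ := norm_pos_iff.2 Om_ne_zero
  have he : 0 < ‖ε‖ := norm_pos_iff.2 hε0
  obtain ⟨ν, hνd⟩ : ∃ ν, ν = L * 6 / (Om * ε * 2 ^ S.card) := ⟨_, rfl⟩
  have hν0 : ν ≠ 0 := by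
    rw [hνd]
    have h3 : (2 : ℂ) ^ S.card ≠ 0 := pow_ne_zero _ two_ne_zero
    exact div_ne_zero (mul_ne_zero hL (by norm_num)) (mul_ne_zero (mul_ne_zero Om_ne_zero hε0) h3)
  have hνn : 0 < ‖ν‖ := norm_pos_iff.2 hν0
  rw [← hνd] at hν
  have hc0 : (c : ℝ) ≠ 0 := by
    rintro h
    have : c = 0 := by exact_mod_cast h
    rw [this] at hc
    exact absurd hc (by decide)
  have ht0 : (t : ℝ) ≠ 0 := by
    rintro h
    have : t = 0 := by exact_mod_cast h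
    rw [this] at ht
    exact absurd ht (by decide)
  refine ⟨‖ν‖ ^ 2 * ‖em (dl S)‖ * (c : ℝ) ^ 2 / (9 * t), ?_, ?_⟩
  · refine unitAt_of_val Nat.prime_two ?_ fun A hA => ?_
    · positivity
    · have hA2 := perc_two hA
      have e1 : A.valuation ((‖ν‖ ^ 2 : ℝ) : ℂ) = 1 :=
        perc_normsq (hν A hA2) (hν _ (perc_comap hA2))
      have e2 : A.valuation ((‖em (dl S)‖ : ℝ) : ℂ) = 1 := by
        refine perc_pow (n := 2) two_ne_zero ?_
        have h3 := Nz_eq (dl S)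
        have h4 : ((‖em (dl S)‖ : ℝ) : ℂ) ^ 2 = ((Nz (dl S) : ℕ) : ℂ) := by
          rw [← Complex.ofReal_pow]
          have h5 : ‖em (dl S)‖ ^ 2 = ((Nz (dl S) : ℕ) : ℝ) := h3.symm
          rw [h5]
          push_cast
          rfl
        rw [h4]
        exact perc_odd hA2 (Nz_odd h2)
      have e3 : A.valuation (9 : ℂ) = 1 := by
        have := perc_odd hA2 (n := 9) (by decide)
        simpa using this
      have e4 : (((‖ν‖ ^ 2 * ‖em (dl S)‖ * (c : ℝ) ^ 2 / (9 * t) : ℝ)) : ℂ) =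
          ((‖ν‖ ^ 2 : ℝ) : ℂ) * ((‖em (dl S)‖ : ℝ) : ℂ) * (c : ℂ) ^ 2 / (9 * (t : ℂ)) := by
        push_cast
        ring
      rw [e4, map_div₀, map_mul, map_mul, map_mul, map_pow, e1, e2, perc_odd hA2 hc,
        perc_odd hA2 ht, e3]
      simp
  · have hper := period_cv hsq h2 hε
    rw [perc_g hg, sqrt_discr_K, hper, ← Complex.ofReal_mul, ← Complex.ofReal_div,
      perc_Lsq S.card hε0, ← hνd, hC]
    congr 1
    have h3 : (√3 : ℝ) ≠ 0 := by positivity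
    have hb := s3_dvd_dl S
    by_cases h : (qd.A S).b = 0
    · have hd : ¬ s3 ∣ dl S := fun h' => (hb.1 h') h
      rw [if_pos h, mul_one] at hT
      have hT' : (T : ℝ) = 4 * 4 ^ S.card * t := by
        rw [hT]
        push_cast
        ring
      rw [if_pos h, if_neg hd, hT']
      push_cast
      field_simp
      norm_num
    · have hd : s3 ∣ dl S := hb.2 h
      rw [if_neg h] at hT
      have hT' : (T : ℝ) = 4 ^ S.card * t := by
        have h5 : T = 4 ^ S.card * t := by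
          have h6 : 4 ^ (S.card + 1) * t = (4 ^ S.card * t) * 4 := by ring
          rw [h6] at hT
          omega
        rw [h5]
        push_cast
        rfl
      rw [if_neg h, if_pos hd, hT']
      push_cast
      field_simp
      norm_num

/-- The rational form. -/
theorem rat_two {S : Finset Pq} (hsq : Squarefree (dl S)) {ε L g1 : ℂ} (hε : ε ^ 3 = 1 / 2)
    (hg : g1 * (if (qd.A S).b = 0 then 1 else 4 / 3) = L * (starRingEnd ℂ) L)
    (hrat : ∃ q : ℚ, ‖L‖ ^ 2 * ‖em (dl S)‖ = (q : ℝ) * (‖Om‖ * ‖ε‖) ^ 2) :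
    ∃ q : ℚ, g1 * (√|(discr K : ℝ)| : ℝ) =
      (q : ℂ) * (∏ v : InfinitePlace K, Per.perAt (cv ((dl S : 𝓞 K) : K)) v : ℝ) := by
  have hε0 : ε ≠ 0 := by
    rintro rfl
    norm_num at hε
  have hδ0 : em (dl S) ≠ 0 := by
    rw [em, Ne, map_eq_zero]
    exact fun h => hsq.ne_zero (RingOfIntegers.ext h)
  have hn0 : 0 < ‖em (dl S)‖ := norm_pos_iff.2 hδ0
  have hOm : 0 < ‖Om‖ := norm_pos_iff.2 Om_ne_zero
  have he : 0 < ‖ε‖ := norm_pos_iff.2 hε0
  have hδK : ((dl S : 𝓞 K) : K) ≠ 0 := fun h => hsq.ne_zero (RingOfIntegers.ext h)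
  obtain ⟨q, hq⟩ := hrat
  have hL : ‖L‖ ^ 2 = (q : ℝ) * (‖Om‖ * ‖ε‖) ^ 2 / ‖em (dl S)‖ := by
    rw [← hq]
    field_simp
  refine ⟨q * (if (qd.A S).b = 0 then 1 else 3 / 4), ?_⟩
  have hem : ‖embK ((dl S : 𝓞 K) : K)‖ = ‖em (dl S)‖ := rfl
  have key : (‖L‖ ^ 2 * (if (qd.A S).b = 0 then 1 else 3 / 4) : ℝ) * √3 =
      ((q * (if (qd.A S).b = 0 then 1 else 3 / 4) : ℚ) : ℝ) *
        (√3 * (‖Om‖ ^ 2 * ‖ε‖ ^ 2 / ‖em (dl S)‖)) := by
    rw [hL]
    split_ifs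
    · push_cast
      field_simp
    · push_cast
      field_simp
  rw [perc_g hg, sqrt_discr_K, prod_perAt_cv hδK hε, hem, ← Complex.ofReal_mul, key,
    Complex.ofReal_mul, Complex.ofReal_ratCast]

/-- **The 2-part, strong form**, from: the L-series and its value (part A), the finiteness and the
number of the points, the Tate-Shafarevich group and the Tamagawa numbers (part C), the rationality. -/
theorem ppartQ_abs {S : Finset Pq} (hsq : Squarefree (dl S)) (h2 : (2 : 𝓞 K) ∣ dl S - 1)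
    {ε L : ℂ} (hε : ε ^ 3 = 1 / 2) {g : ℂ → ℂ} (hgd : Differentiable ℂ g)
    (hgs : ∀ s : ℂ, 3 / 2 < s.re → g s = (cv ((dl S : 𝓞 K) : K)).LSeries s)
    (hg : g 1 * (if (qd.A S).b = 0 then 1 else 4 / 3) = L * (starRingEnd ℂ) L)
    (hν : ∀ A : ValuationSubring ℂ, Two A → A.valuation (L * 6 / (Om * ε * 2 ^ S.card)) = 1)
    (hL : L ≠ 0) (hfin : Finite (cv ((dl S : 𝓞 K) : K)).toAffine.Point) {c t : ℕ} (hc : Odd c)
    (hC : Nat.card (cv ((dl S : 𝓞 K) : K)).toAffine.Point = 4 * c) (ht : Odd t)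
    (hT : (∏ᶠ v : HeightOneSpectrum (𝓞 K), tam (cv ((dl S : 𝓞 K) : K)) v) *
      (if (qd.A S).b = 0 then 1 else 4) = 4 ^ (S.card + 1) * t)
    (hsha : Nat.card (ShaP 2 (cv ((dl S : 𝓞 K) : K))) = 1)
    (hrat : ∃ q : ℚ, ‖L‖ ^ 2 * ‖em (dl S)‖ = (q : ℝ) * (‖Om‖ * ‖ε‖) ^ 2) :
    PPartQ 2 (cv ((dl S : 𝓞 K) : K)) := by
  obtain ⟨x, hx, he⟩ := formula_two hsq h2 hε hg hν hL hc hC ht hT
  have hg0 : g 1 ≠ 0 := by
    intro h0
    rw [h0, zero_mul] at hg
    exact mul_ne_zero hL ((map_ne_zero _).2 hL) hg.symm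
  have hf : Finite (ShaP 2 (cv ((dl S : 𝓞 K) : K))) :=
    Nat.finite_of_card_ne_zero (by rw [hsha]; exact one_ne_zero)
  obtain ⟨q, hq⟩ := rat_two hsq hε hg hrat
  refine ppartQ_of ⟨g, x, hgd, hgs, hg0, hfin, hf, hx, ?_⟩
    ⟨g, q, hgd, fun s hs => hgs s (by linarith), hq⟩
  rw [hsha, Nat.cast_one]
  exact he

end Pool.Agent.Lib.MP_1a91b9_ntH.C
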