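import Pool.Agent.Lib.MP_1a91b9_ntH.A.Top
import Pool.Agent.Lib.MP_1a91b9_ntH.R.Bij
import Pool.Agent.Lib.MP_1a91b9_ntH.C.PerC

/-!
# MP_1a91b9_nt (TwistDensity), part C, block Per: the 2-part for `y² = x³ + δ_S³`
-/

set_option autoImplicit false

namespace Pool.Agent.Lib.MP_1a91b9_ntH.C

open NumberField IsDedekindDomain WeierstrassCurve Pool.Agent.Lib.MP_1a91b9_ntT
open Pool.Agent.Lib.MP_1a91b9_ntT.S9 (tam)
open Pool.Agent.Lib.MP_1a91b9_ntT3.S9 (ShaP PPartQ)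
open scoped Classical

/-- **The 2-part for `y² = x³ + δ_S³`**; `hC`: number of the points, `hT`: Tamagawa numbers,
`hsha`: the Tate-Shafarevich group, `hrat`: the rationality. -/
theorem ppartQ_main {S : Finset Pq} (hdet : (qd.M S).det ≠ 0)
    (hfin : Finite (Wd S).toAffine.Point) {c t : ℕ} (hc : Odd c)
    (hC : Nat.card (Wd S).toAffine.Point = 4 * c) (ht : Odd t)
    (hT : (∏ᶠ v : HeightOneSpectrum (𝓞 K), tam (Wd S) v) *
      (if (qd.A S).b = 0 then 1 else 4) = 4 ^ (S.card + 1) * t)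
    (hsha : Nat.card (ShaP 2 (Wd S)) = 1)
    (hrat : ∃ q : ℚ, ‖LS S 1‖ ^ 2 * ‖em (dl S)‖ = (q : ℝ) * (‖Om‖ * ‖ep‖) ^ 2) :
    PPartQ 2 (Wd S) := by
  obtain ⟨g, hgd, hgs, hg⟩ := lser_main S
  obtain ⟨y, hy⟩ := dl_sub_one S
  exact ppartQ_abs (dl_squarefree S) ⟨2 * y, by rw [hy]; ring⟩ ep_cube hgd hgs hg
    (fun A hA => nu_unit hA hdet) (LS_ne hdet) hfin hc hC ht hT hsha hrat

end Pool.Agent.Lib.MP_1a91b9_ntH.C
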