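import Pool.Agent.Lib.MP_1a91b9_ntH.C.LocDefs

/-!
# JOB Half: halving a point over an algebraically closed field

Adapt Pool/Agent/Lib/MP_1a91b9_ntT/S9/EA.lean. `Q = (x₀, y₀)`; `l` a root of `l⁴ - 6 x₀ l² - 8 y₀ l - 3 x₀² = 0`,
`X = (l² - x₀)/2`, `Y = l (l² - 3 x₀)/2 - y₀`. Then `Y² = X³ + d³` (use `y₀² = x₀³ + d³`) and `3X² = 2 l Y`; `Y ≠ 0`
(else `X = 0` and `d = 0`); the tangent slope at `P = (X, Y)` is `l`, `x(2P) = l² - 2X = x₀`, `y(2P) = -(l (x₀ - X) + Y) = y₀`.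
-/

set_option autoImplicit false

namespace Pool.Agent.Lib.MP_1a91b9_ntH.C

open WeierstrassCurve WithZero NumberField IsDedekindDomain
open Pool.Agent.Lib.MP_1a91b9_ntT.S9 (pr pr_comm pr_map pr_add eq_zero_of_pr Pts Gal coc cob trivOver
  shaCoc Sha up actP)
open scoped Classical

private theorem Half_aux {F : Type*} [Field F] [CharZero F] {d : F} (hd : d ≠ 0)
    {W : Affine F} (hW : W = cv d) {x₀ y₀ : F} (h : W.Nonsingular x₀ y₀) (l : F)
    (hl : l ^ 4 - 6 * x₀ * l ^ 2 - 8 * y₀ * l - 3 * x₀ ^ 2 = 0) :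
    ∃ P : W.Point, P + P = Affine.Point.some x₀ y₀ h := by
  have a1 : W.a₁ = 0 := by rw [hW, cv]
  have a2 : W.a₂ = 0 := by rw [hW, cv]
  have a3 : W.a₃ = 0 := by rw [hW, cv]
  have a4 : W.a₄ = 0 := by rw [hW, cv]
  have a6 : W.a₆ = d ^ 3 := by rw [hW, cv]
  have h2 : (2 : F) ≠ 0 := by norm_num
  have h3 : (3 : F) ≠ 0 := by norm_num
  have h4 : (4 : F) ≠ 0 := by norm_num
  have he : y₀ ^ 2 = x₀ ^ 3 + d ^ 3 := by
    have h1 := h.1
    rw [Affine.equation_iff, a1, a2, a3, a4, a6] at h1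
    linear_combination h1
  obtain ⟨X, hX⟩ : ∃ X : F, X = (l ^ 2 - x₀) / 2 := ⟨_, rfl⟩
  obtain ⟨Y, hY⟩ : ∃ Y : F, Y = l * ((l ^ 2 - 3 * x₀) / 2) - y₀ := ⟨_, rfl⟩
  have hX' : 2 * X = l ^ 2 - x₀ := by rw [hX]; field_simp
  have hY' : 2 * Y = l ^ 3 - 3 * x₀ * l - 2 * y₀ := by
    rw [hY]; field_simp
  have e1 : Y ^ 2 = X ^ 3 + d ^ 3 := by
    have h8 : (8 : F) ≠ 0 := by norm_num
    have key : 8 * Y ^ 2 = 8 * (X ^ 3 + d ^ 3) := by
      have hx3 : 8 * X ^ 3 = (l ^ 2 - x₀) ^ 3 := by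
        rw [← hX']; ring
      have hy2 : 8 * Y ^ 2 = 2 * (l ^ 3 - 3 * x₀ * l - 2 * y₀) ^ 2 := by
        rw [← hY']; ring
      rw [mul_add, hx3, hy2]
      linear_combination (l ^ 2 - 3 * x₀) * hl + 8 * he
    exact mul_left_cancel₀ h8 key
  have e2 : 3 * X ^ 2 = l * (2 * Y) := by
    have key : 4 * (3 * X ^ 2) = 4 * (l * (2 * Y)) := by
      have hx2 : 4 * (3 * X ^ 2) = 3 * (l ^ 2 - x₀) ^ 2 := by
        rw [← hX']; ring
      rw [hx2, hY']
      linear_combination (-1) * hl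
    exact mul_left_cancel₀ h4 key
  have e3 : 2 * Y ≠ 0 := by
    intro h0
    have hX0 : X = 0 := by
      have : 3 * X ^ 2 = 0 := by rw [e2, h0, mul_zero]
      rcases mul_eq_zero.1 this with h' | h'
      · exact absurd h' h3
      · exact pow_eq_zero_iff (two_ne_zero) |>.1 h'
    have h5 : (2 * Y) ^ 2 = 4 * (X ^ 3 + d ^ 3) := by linear_combination 4 * e1
    rw [h0, hX0] at h5
    have h6 : 4 * d ^ 3 = 0 := by linear_combination (-1) * h5
    rcases mul_eq_zero.1 h6 with h' | h'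
    · exact h4 h'
    · exact hd (pow_eq_zero_iff (three_ne_zero) |>.1 h')
  have hne : Y ≠ -Y - (0 : F) * X - 0 := by
    intro h0
    apply e3
    linear_combination h0
  have hns : W.Nonsingular X Y := by
    rw [Affine.nonsingular_iff]
    refine ⟨?_, Or.inr ?_⟩
    · rw [Affine.equation_iff, a1, a2, a3, a4, a6]
      linear_combination e1
    · rw [a1, a3]
      exact hne
  have hneg : Y ≠ W.negY X Y := by
    rw [Affine.negY, a1, a3]
    exact hne
  have hsl : W.slope X X Y Y = l := by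
    rw [Affine.slope_of_Y_ne rfl hneg]
    simp only [Affine.negY]
    rw [a1, a2, a3, a4]
    have hden : Y - (-Y - 0 * X - 0) = 2 * Y := by ring
    rw [hden, div_eq_iff e3]
    linear_combination e2
  refine ⟨Affine.Point.some X Y hns, ?_⟩
  rw [Affine.Point.add_self_of_Y_ne hneg]
  have hx : W.addX X X (W.slope X X Y Y) = x₀ := by
    rw [hsl, Affine.addX, a1, a2]
    linear_combination (-1) * hX'
  have hy : W.addY X X Y (W.slope X X Y Y) = y₀ := by
    rw [Affine.addY, Affine.negAddY, hx, Affine.negY, hsl, a1, a3]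
    have : 2 * (-(l * (x₀ - X) + Y) - 0 * x₀ - 0) = 2 * y₀ := by
      linear_combination l * hX' - hY'
    exact mul_left_cancel₀ h2 this
  simp only [Affine.Point.some.injEq]
  exact ⟨hx, hy⟩

theorem exists_half_closed {F : Type*} [Field F] [IsAlgClosed F] [CharZero F] {d : F}
    (hd : d ≠ 0) {W : Affine F} (hW : W = cv d) (Q : W.Point) : ∃ P : W.Point, P + P = Q := by
  rcases Q with _ | ⟨x₀, y₀, h⟩
  · exact ⟨0, by rw [add_zero]; rfl⟩
  · obtain ⟨p, hp⟩ : ∃ p : Polynomial F, p = Polynomial.X ^ 4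
        - Polynomial.C (6 * x₀) * Polynomial.X ^ 2
        - Polynomial.C (8 * y₀) * Polynomial.X - Polynomial.C (3 * x₀ ^ 2) := ⟨_, rfl⟩
    have hdeg : p.degree = 4 := by
      rw [hp]
      compute_degree!
    obtain ⟨l, hl⟩ := IsAlgClosed.exists_root p (by rw [hdeg]; norm_num)
    refine Half_aux hd hW h l ?_
    rw [Polynomial.IsRoot, hp] at hl
    simp only [Polynomial.eval_sub, Polynomial.eval_mul, Polynomial.eval_pow, Polynomial.eval_X,
      Polynomial.eval_C] at hl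
    linear_combination hl

end Pool.Agent.Lib.MP_1a91b9_ntH.C
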