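import Pool.Agent.Lib.MP_1a91b9_ntH.C.LocDefs

/-!
# MP_1a91b9_nt (TwistDensity), part C: the local conditions at the finite places
-/

set_option autoImplicit false
set_option linter.unusedSectionVars false

namespace Pool.Agent.Lib.MP_1a91b9_ntH.C

open WithZero

variable {L : Type*} [Field L] [CharZero L] (ν : Valuation L ℤᵐ⁰)

/-! ### values -/

theorem exists_exp {g : ℤᵐ⁰} (h : g ≠ 0) : ∃ n : ℤ, g = exp n := ⟨log g, (exp_log h).symm⟩

theorem isSquare_exp {n : ℤ} : IsSquare (exp n : ℤᵐ⁰) ↔ Even n := by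
  constructor
  · rintro ⟨g, hg⟩
    have hg0 : g ≠ 0 := by rintro rfl; simp at hg
    obtain ⟨m, rfl⟩ := exists_exp hg0
    rw [← exp_add, exp_inj] at hg
    exact ⟨m, hg⟩
  · rintro ⟨m, rfl⟩
    exact ⟨exp m, exp_add _ _⟩

theorem exists_nu {u : L} (h : u ≠ 0) : ∃ n : ℤ, ν u = exp n :=
  exists_exp (ν.ne_zero_iff.2 h)

/-! ### `Sq` -/

theorem nu_one {ν : Valuation L ℤᵐ⁰} {x : L} (h4 : ν 4 ≤ 1) (h : ν (x - 1) < ν 4) : ν x = 1 := by
  have := ν.map_one_add_of_lt (lt_of_lt_of_le h h4)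
  rwa [add_sub_cancel] at this

theorem Sq.ne {ν : Valuation L ℤᵐ⁰} {u : L} (h : Sq ν u) (h4 : ν 4 ≤ 1) : u ≠ 0 := by
  rintro rfl
  obtain ⟨b, hb, h⟩ := h
  rw [zero_div, zero_sub, Valuation.map_neg, map_one] at h
  exact absurd h (not_lt.2 h4)

theorem Sq.mul {ν : Valuation L ℤᵐ⁰} {u u' : L} (h4 : ν 4 ≤ 1) (h : Sq ν u) (h' : Sq ν u') :
    Sq ν (u * u') := by
  obtain ⟨b, hb, h⟩ := h
  obtain ⟨b', hb', h'⟩ := h'
  refine ⟨b * b', mul_ne_zero hb hb', ?_⟩
  have e : u * u' / (b * b') ^ 2 - 1 = (u / b ^ 2) * (u' / b' ^ 2 - 1) + (u / b ^ 2 - 1) := by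
    field_simp
    ring
  rw [e]
  refine ν.map_add_lt ?_ h
  rw [map_mul, nu_one h4 h, one_mul]
  exact h'

theorem Sq.of_isSquare {ν : Valuation L ℤᵐ⁰} {u : L} (h : IsSquare u) (h0 : u ≠ 0) : Sq ν u := by
  obtain ⟨b, rfl⟩ := h
  have hb : b ≠ 0 := fun h => h0 (by rw [h, mul_zero])
  refine ⟨b, hb, ?_⟩
  have e : b * b / b ^ 2 - 1 = 0 := by
    field_simp
    ring
  rw [e, map_zero]
  exact ν.pos_iff.2 (by norm_num)

theorem Sq.even {ν : Valuation L ℤᵐ⁰} {u : L} (h4 : ν 4 ≤ 1) (h : Sq ν u) : IsSquare (ν u) := by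
  obtain ⟨b, hb, h⟩ := h
  refine ⟨ν b, ?_⟩
  have e : u = b * b * (u / b ^ 2) := by field_simp
  rw [e, map_mul, map_mul, nu_one h4 h, mul_one]

theorem Sq.one {ν : Valuation L ℤᵐ⁰} {u : L} (h : ν (u - 1) < ν 4) : Sq ν u :=
  ⟨1, one_ne_zero, by rwa [one_pow, div_one]⟩

theorem Sq.of_mul_sq {ν : Valuation L ℤᵐ⁰} {u s : L} (hs : s ≠ 0) (h : Sq ν (u * s ^ 2)) :
    Sq ν u := by
  obtain ⟨b, hb, h⟩ := h
  refine ⟨b / s, div_ne_zero hb hs, ?_⟩
  have e : u / (b / s) ^ 2 = u * s ^ 2 / b ^ 2 := by field_simp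
  rwa [e]

/-- if `a x` is a square and `y = x (1 + small)`, then `a y` is a square -/
theorem Sq.near {ν : Valuation L ℤᵐ⁰} {a x y : L} (h4 : ν 4 ≤ 1) (h : Sq ν (a * x))
    (hy : ν (y / x - 1) < ν 4) : Sq ν (a * y) := by
  have hx : x ≠ 0 := fun h' => h.ne h4 (by rw [h', mul_zero])
  have h2 := h.mul h4 (Sq.one hy)
  have e : a * x * (y / x) = a * y := by field_simp
  rwa [e] at h2

/-- quotients -/
theorem Sq.cancel {ν : Valuation L ℤᵐ⁰} {a x : L} (h4 : ν 4 ≤ 1) (h : Sq ν (a * x))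
    (hx : Sq ν x) : Sq ν a := by
  refine Sq.of_mul_sq (hx.ne h4) ?_
  have h2 := h.mul h4 hx
  have e : a * x * x = a * x ^ 2 := by ring
  rwa [e] at h2

/-! ### three elements with equal distances -/

theorem tri (X : Fin 3 → L) (g : ℤᵐ⁰) (h : ∀ i j, i ≠ j → ν (X i - X j) = g) :
    (∀ i j, g < ν (X i) ∧ ν (X i) = ν (X j)) ∨
      ∃ j, ν (X j) ≤ g ∧ ∀ i, i ≠ j → ν (X i) = g := by
  by_cases h1 : ∃ k, g < ν (X k)
  · left
    obtain ⟨k, hk⟩ := h1
    have h2 : ∀ i, ν (X i) = ν (X k) := by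
      intro i
      by_cases hi : i = k
      · rw [hi]
      · refine ν.map_eq_of_sub_lt ?_
        rw [h i k hi]
        exact hk
    intro i j
    rw [h2 i, h2 j]
    exact ⟨hk, rfl⟩
  · right
    push Not at h1
    by_cases h2 : ∃ j, ν (X j) < g
    · obtain ⟨j, hj⟩ := h2
      refine ⟨j, hj.le, fun i hi => ?_⟩
      have h3 := ν.map_add_eq_of_lt_left (x := X i - X j) (y := X j) (by rw [h i j hi]; exact hj)
      rwa [sub_add_cancel, h i j hi] at h3
    · push Not at h2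
      exact ⟨0, h1 0, fun i _ => le_antisymm (h1 i) (h2 i)⟩

theorem prod_ee {z d x : L} (hz : z ^ 2 + z + 1 = 0) :
    (x - ee z d 0) * (x - ee z d 1) * (x - ee z d 2) = x ^ 3 + d ^ 3 := by
  simp only [ee, Fin.val_zero, Fin.val_one, Fin.val_two, pow_zero, pow_one]
  linear_combination (x ^ 2 * d + z * d ^ 2 * x + (z - 1) * d ^ 3) * hz

theorem prod_split {M : Type*} [CommMonoid M] (f : Fin 3 → M) (j : Fin 3) :
    ∃ i k, i ≠ j ∧ k ≠ j ∧ i ≠ k ∧ (∀ l, l = i ∨ l = j ∨ l = k) ∧ f 0 * f 1 * f 2 = f j * (f i * f k) := by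
  fin_cases j
  · exact ⟨1, 2, by decide, by decide, by decide, by decide, mul_assoc _ _ _⟩
  · exact ⟨0, 2, by decide, by decide, by decide, by decide,
      (mul_assoc _ _ _).trans (mul_left_comm _ _ _)⟩
  · exact ⟨0, 1, by decide, by decide, by decide, by decide, mul_comm _ _⟩

theorem sub_ee (z d x : L) (i j : Fin 3) :
    (x - ee z d i) - (x - ee z d j) = ee z d j - ee z d i := by ring

/-- (a), (b''): the values of the differences `e j - e i` are squares. -/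
theorem loc_even {z d : L} (hz : z ^ 2 + z + 1 = 0) (hd : d ≠ 0) (h4 : ν 4 = 1) (γ : ℤ)
    (hγ : ∀ i j, i ≠ j → ν (ee z d i - ee z d j) = exp (2 * γ)) (a : Fin 3 → L) (ha : ∀ i, a i ≠ 0)
    (hp : IsSquare (a 0 * a 1 * a 2)) (h : GLoc ν z d a) (i : Fin 3) : IsSquare (ν (a i)) := by
  have hsq : ∀ {u v : ℤᵐ⁰}, v ≠ 0 → IsSquare (u * v) → IsSquare v → IsSquare u := by
    rintro u v hv ⟨r, hr⟩ ⟨s, hs⟩
    refine ⟨r / s, ?_⟩
    have hs0 : s ≠ 0 := by rintro rfl; exact hv (by rw [hs, mul_zero])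
    rw [div_mul_div_comm, ← hr, ← hs, mul_div_cancel_right₀ _ hv]
  have hg : IsSquare (exp (2 * γ) : ℤᵐ⁰) := isSquare_exp.2 (even_two_mul γ)
  rcases h with h | ⟨j, h⟩ | ⟨x, hx, h⟩
  · exact (h i).even h4.le
  · have hi : ∀ i, i ≠ j → IsSquare (ν (a i)) := by
      intro i hi
      have h1 := (h i hi).even h4.le
      rw [map_mul, hγ j i (Ne.symm hi)] at h1
      exact hsq exp_ne_zero h1 hg
    by_cases hij : i = j
    · subst hij
      obtain ⟨l, k, hl, hk, -, -, e⟩ := prod_split a i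
      rw [e] at hp
      have h1 : IsSquare (ν (a i) * ν (a l * a k)) := by
        rw [← map_mul]
        exact hp.map ν
      refine hsq ?_ h1 ?_
      · exact ν.ne_zero_iff.2 (mul_ne_zero (ha l) (ha k))
      · rw [map_mul]
        exact (hi l hl).mul (hi k hk)
    · exact hi i hij
  · obtain ⟨X, hX⟩ : ∃ X : Fin 3 → L, ∀ i, X i = x - ee z d i := ⟨fun i => x - ee z d i, fun _ => rfl⟩
    simp only [← hX] at h
    have hX0 : ∀ i, X i ≠ 0 := fun i h' => (h i).ne h4.le (by rw [h', mul_zero])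
    have hprod : X 0 * X 1 * X 2 = x ^ 3 + d ^ 3 := by rw [hX, hX, hX, prod_ee hz]
    have hpr : IsSquare (ν (X 0) * ν (X 1) * ν (X 2)) := by
      rw [← map_mul, ← map_mul, hprod]
      exact hx.even h4.le
    have key : ∀ i, IsSquare (ν (X i)) := by
      rcases tri ν X (exp (2 * γ)) (fun i j hij => by
        rw [hX, hX, sub_ee]
        exact hγ j i (Ne.symm hij)) with h1 | ⟨j, -, h1⟩
      · intro i
        rw [(h1 1 0).2, (h1 2 0).2] at hpr
        rw [(h1 i 0).2]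
        exact hsq (mul_ne_zero (ν.ne_zero_iff.2 (hX0 0)) (ν.ne_zero_iff.2 (hX0 0)))
          (by rwa [mul_assoc] at hpr) ⟨_, rfl⟩
      · intro i
        by_cases hij : i = j
        · subst hij
          obtain ⟨l, k, hl, hk, -, -, e⟩ := prod_split (fun i => ν (X i)) i
          rw [h1 l hl, h1 k hk] at e
          rw [e] at hpr
          exact hsq (mul_ne_zero exp_ne_zero exp_ne_zero) hpr ⟨_, rfl⟩
        · rw [h1 i hij]
          exact hg
    have h1 := (h i).even h4.le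
    rw [map_mul] at h1
    exact hsq (ν.ne_zero_iff.2 (hX0 i)) h1 (key i)

/-- (b), (b'): the values of the differences `e j - e i` are all equal and not squares. -/
theorem loc_bad {z d : L} (hz : z ^ 2 + z + 1 = 0) (hd : d ≠ 0) (h4 : ν 4 = 1) (γ : ℤ)
    (hγ : ∀ i j, i ≠ j → ν (ee z d i - ee z d j) = exp (2 * γ + 1)) (a : Fin 3 → L)
    (ha : ∀ i, a i ≠ 0) (hp : IsSquare (a 0 * a 1 * a 2)) (h : GLoc ν z d a) :
    (∀ i, Sq ν (a i)) ∨ ∃ j, ∀ i, i ≠ j → Sq ν (a i * (ee z d j - ee z d i)) := by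
  rcases h with h | ⟨j, h⟩ | ⟨x, hx, h⟩
  · exact Or.inl h
  · exact Or.inr ⟨j, h⟩
  · obtain ⟨X, hX⟩ : ∃ X : Fin 3 → L, ∀ i, X i = x - ee z d i := ⟨fun i => x - ee z d i, fun _ => rfl⟩
    simp only [← hX] at h
    have hX0 : ∀ i, X i ≠ 0 := fun i h' => (h i).ne h4.le (by rw [h', mul_zero])
    have hprod : X 0 * X 1 * X 2 = x ^ 3 + d ^ 3 := by rw [hX, hX, hX, prod_ee hz]
    have hdiff : ∀ i j, X i - X j = ee z d j - ee z d i := fun i j => by rw [hX, hX, sub_ee]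
    have hXd : ∀ i j, i ≠ j → ν (X i - X j) = exp (2 * γ + 1) := fun i j hij => by
      rw [hdiff]
      exact hγ j i (Ne.symm hij)
    have hpr : IsSquare (ν (X 0) * ν (X 1) * ν (X 2)) := by
      rw [← map_mul, ← map_mul, hprod]
      exact hx.even h4.le
    rcases tri ν X (exp (2 * γ + 1)) hXd with h1 | ⟨j, hj, h1⟩
    · left
      -- all `X i` are close to each other
      have hcl : ∀ i j, ν (X i / X j - 1) < ν 4 := by
        intro i j
        rw [h4]
        by_cases hij : i = j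
        · subst hij
          rw [div_self (hX0 i), sub_self, map_zero]
          exact zero_lt_one
        · have e : X i / X j - 1 = (X i - X j) / X j := by
            rw [sub_div, div_self (hX0 j)]
          rw [e, map_div₀, hXd i j hij]
          rw [div_lt_one₀ (ν.pos_iff.2 (hX0 j))]
          exact (h1 j j).1
      have h3 : Sq ν (X 0 * X 1 * X 2) := by rw [hprod]; exact hx
      have h4' : Sq ν (X 0 * X 1 * X 0) := h3.near h4.le (hcl 0 2)
      have h5 : Sq ν (X 0 * X 0 * X 1) := by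
        have e : X 0 * X 1 * X 0 = X 0 * X 0 * X 1 := by ring
        rwa [e] at h4'
      have h6 : Sq ν (X 0 * X 0 * X 0) := h5.near h4.le (hcl 0 1)
      have h7 : Sq ν (X 0) := by
        refine Sq.of_mul_sq (hX0 0) ?_
        have e : X 0 * X 0 ^ 2 = X 0 * X 0 * X 0 := by ring
        rwa [e]
      intro i
      exact ((h i).near h4.le (hcl 0 i)).cancel h4.le h7
    · right
      refine ⟨j, fun i hi => ?_⟩
      have hlt : ν (X j) < exp (2 * γ + 1) := by
        refine lt_of_le_of_ne hj fun he => ?_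
        have hall : ∀ i, ν (X i) = exp (2 * γ + 1) := fun i => by
          by_cases hij : i = j
          · rw [hij, he]
          · exact h1 i hij
        rw [hall 0, hall 1, hall 2, ← exp_add, ← exp_add, isSquare_exp] at hpr
        obtain ⟨m, hm⟩ := hpr
        omega
      refine (h i).near h4.le ?_
      rw [h4]
      have e : (ee z d j - ee z d i) / X i - 1 = -(X j / X i) := by
        rw [← hdiff i j, sub_div, div_self (hX0 i)]
        ring
      rw [e, Valuation.map_neg, map_div₀, h1 i hi, div_lt_one₀ exp_pos]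
      exact hlt

/-! ### the place above 2 -/

/-- the class of `u` is `t` (modulo squares and modulo `4`) -/
def Cl {L : Type*} [Field L] (ν : Valuation L ℤᵐ⁰) (u t : L) : Prop :=
  ∃ b : L, b ≠ 0 ∧ ν (u / b ^ 2 - (1 + 2 * t)) ≤ ν 4

theorem nu_four {ν : Valuation L ℤᵐ⁰} (h2 : ν 2 = exp (-1)) : ν 4 = exp (-2) := by
  have e : (4 : L) = 2 * 2 := by norm_num
  rw [e, map_mul, h2, ← exp_add]
  norm_num

theorem nu_two_le {ν : Valuation L ℤᵐ⁰} (h2 : ν 2 = exp (-1)) : ν 2 ≤ 1 := by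
  rw [h2, ← exp_zero, exp_le_exp]
  norm_num

theorem nu_four_le {ν : Valuation L ℤᵐ⁰} (h2 : ν 2 = exp (-1)) : ν 4 < 1 := by
  rw [nu_four h2, ← exp_zero, exp_lt_exp]
  norm_num

/-- `1 + 2 t` is a unit -/
theorem nu_one_add {ν : Valuation L ℤᵐ⁰} (h2 : ν 2 = exp (-1)) {t : L} (ht : ν t ≤ 1) :
    ν (1 + 2 * t) = 1 := by
  refine ν.map_one_add_of_lt ?_
  rw [map_mul, h2]
  calc exp (-1) * ν t ≤ exp (-1) * 1 := by gcongr
    _ < 1 := by
      rw [mul_one, ← exp_zero, exp_lt_exp]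
      norm_num

theorem Cl.mul {ν : Valuation L ℤᵐ⁰} (h2 : ν 2 = exp (-1)) {u u' t t' : L} (ht : ν t ≤ 1)
    (ht' : ν t' ≤ 1) (h : Cl ν u t) (h' : Cl ν u' t') : Cl ν (u * u') (t + t') := by
  obtain ⟨b, hb, h⟩ := h
  obtain ⟨b', hb', h'⟩ := h'
  refine ⟨b * b', mul_ne_zero hb hb', ?_⟩
  have e : u * u' / (b * b') ^ 2 - (1 + 2 * (t + t')) =
      (u / b ^ 2 - (1 + 2 * t)) * (u' / b' ^ 2) +
        ((1 + 2 * t) * (u' / b' ^ 2 - (1 + 2 * t')) + 4 * (t * t')) := by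
    field_simp
    ring
  have hU : ν (u' / b' ^ 2) ≤ 1 := by
    have e2 : u' / b' ^ 2 = (u' / b' ^ 2 - (1 + 2 * t')) + (1 + 2 * t') := by ring
    rw [e2]
    exact ν.map_add_le (h'.trans (nu_four_le h2).le) (nu_one_add h2 ht').le
  rw [e]
  refine ν.map_add_le ?_ (ν.map_add_le ?_ ?_)
  · rw [map_mul]
    calc _ ≤ ν 4 * 1 := by gcongr
      _ = ν 4 := mul_one _
  · rw [map_mul, nu_one_add h2 ht, one_mul]
    exact h'
  · rw [map_mul, map_mul]
    calc ν 4 * (ν t * ν t') ≤ ν 4 * (1 * 1) := by gcongr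
      _ = ν 4 := by rw [mul_one, mul_one]

theorem Cl.congr {ν : Valuation L ℤᵐ⁰} (h2 : ν 2 = exp (-1)) {u t t' : L} (h : Cl ν u t)
    (htt : ν (t - t') ≤ ν 2) : Cl ν u t' := by
  obtain ⟨b, hb, h⟩ := h
  refine ⟨b, hb, ?_⟩
  have e : u / b ^ 2 - (1 + 2 * t') = (u / b ^ 2 - (1 + 2 * t)) + 2 * (t - t') := by ring
  have e4 : (4 : L) = 2 * 2 := by norm_num
  rw [e]
  refine ν.map_add_le h ?_
  rw [e4, map_mul, map_mul]
  gcongr

theorem Cl.of_mul_sq {ν : Valuation L ℤᵐ⁰} {u s t : L} (hs : s ≠ 0) (h : Cl ν (u * s ^ 2) t) :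
    Cl ν u t := by
  obtain ⟨b, hb, h⟩ := h
  refine ⟨b / s, div_ne_zero hb hs, ?_⟩
  have e : u / (b / s) ^ 2 = u * s ^ 2 / b ^ 2 := by field_simp
  rwa [e]

theorem Cl.one {ν : Valuation L ℤᵐ⁰} {u : L} (h : ν (u - 1) ≤ ν 4) : Cl ν u 0 :=
  ⟨1, one_ne_zero, by rwa [one_pow, div_one, mul_zero, add_zero]⟩

theorem Sq.cl {ν : Valuation L ℤᵐ⁰} {u : L} (h : Sq ν u) : Cl ν u 0 := by
  obtain ⟨b, hb, h⟩ := h
  exact ⟨b, hb, by rw [mul_zero, add_zero]; exact h.le⟩

/-- `a x` a square, `x` of class `t`: then `a` has class `t` -/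
theorem Cl.of_sq {ν : Valuation L ℤᵐ⁰} (h2 : ν 2 = exp (-1)) {a x t : L} (h : Sq ν (a * x))
    (ht : ν t ≤ 1) (hx : Cl ν x t) : Cl ν a t := by
  have hx0 : x ≠ 0 := fun h' => h.ne (nu_four_le h2).le (by rw [h', mul_zero])
  refine Cl.of_mul_sq hx0 ?_
  have h3 := Cl.mul h2 (by rw [map_zero]; exact zero_le') ht h.cl hx
  have e : a * x * x = a * x ^ 2 := by ring
  rwa [zero_add, e] at h3

theorem Cl.near {ν : Valuation L ℤᵐ⁰} (h2 : ν 2 = exp (-1)) {x y t : L} (hx0 : x ≠ 0)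
    (ht : ν t ≤ 1) (hx : Cl ν x t) (hxy : ν (y / x - 1) ≤ ν 4) : Cl ν y t := by
  have h3 := Cl.mul h2 ht (by rw [map_zero]; exact zero_le') hx (Cl.one hxy)
  have e : x * (y / x) = y := by field_simp
  rwa [add_zero, e] at h3

/-- the differences `z ^ i - z ^ j` -/
theorem pow_diff {z : L} (hz : z ^ 2 + z + 1 = 0) (i j : Fin 3) (hij : i ≠ j) :
    z ^ (i : ℕ) - z ^ (j : ℕ) =
      (z ^ ((i : ℕ) + (j : ℕ))) ^ 2 * (1 + 2 * (z ^ (2 * (i : ℕ)) * z ^ (j : ℕ))) := by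
  fin_cases i <;> fin_cases j <;> first | exact absurd rfl hij | skip
  · simp only [Fin.zero_eta, Fin.val_zero, Fin.mk_one, Fin.val_one]
    linear_combination (1 - 2 * z) * hz
  · simp only [Fin.zero_eta, Fin.val_zero, Fin.reduceFinMk, Fin.val_two]
    linear_combination (1 - z - z ^ 2 + 2 * z ^ 3 - 2 * z ^ 4) * hz
  · simp only [Fin.zero_eta, Fin.val_zero, Fin.mk_one, Fin.val_one]
    linear_combination (-1 + 2 * z - 2 * z ^ 2) * hz
  · simp only [Fin.mk_one, Fin.val_one, Fin.reduceFinMk, Fin.val_two]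
    linear_combination (z - 2 * z ^ 2 + z ^ 3 + z ^ 4 - 2 * z ^ 5 + 2 * z ^ 7 - 2 * z ^ 8) * hz
  · simp only [Fin.zero_eta, Fin.val_zero, Fin.reduceFinMk, Fin.val_two]
    linear_combination (-1 + z + z ^ 2 - 2 * z ^ 3 + 2 * z ^ 5 - 2 * z ^ 6) * hz
  · simp only [Fin.mk_one, Fin.val_one, Fin.reduceFinMk, Fin.val_two]
    linear_combination (-z + 2 * z ^ 2 - z ^ 3 - z ^ 4 + 2 * z ^ 5 - 2 * z ^ 6 + 2 * z ^ 8 -
      2 * z ^ 9) * hz

theorem nu_z {z : L} (hz : z ^ 2 + z + 1 = 0) : ν z = 1 := by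
  have h3 : z ^ 3 = 1 := by linear_combination (z - 1) * hz
  have h := congrArg ν h3
  rw [map_pow, map_one] at h
  exact (pow_eq_one_iff_of_nonneg zero_le' (by norm_num)).1 h

theorem nu_zpow {z : L} (hz : z ^ 2 + z + 1 = 0) (n : ℕ) : ν (z ^ n) = 1 := by
  rw [map_pow, nu_z ν hz, one_pow]

/-- the third class from the two others -/
theorem cl_third {ν : Valuation L ℤᵐ⁰} (h2 : ν 2 = exp (-1)) {z : L} (hz : z ^ 2 + z + 1 = 0)
    (a : Fin 3 → L) (ha : ∀ i, a i ≠ 0) (hp : IsSquare (a 0 * a 1 * a 2)) {c : L} (hc : ν c ≤ 1)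
    (j : Fin 3) (h : ∀ i, i ≠ j → Cl ν (a i) (z ^ (2 * (i : ℕ)) * c)) (i : Fin 3) :
    Cl ν (a i) (z ^ (2 * (i : ℕ)) * c) := by
  by_cases hij : i = j
  · subst hij
    obtain ⟨l, k, hl, hk, hlk, hall, e⟩ := prod_split a i
    rw [e] at hp
    obtain ⟨s, hs⟩ := hp
    have hlk0 : a l * a k ≠ 0 := mul_ne_zero (ha l) (ha k)
    have hs0 : s ≠ 0 := by
      rintro rfl
      rw [mul_zero] at hs
      exact mul_ne_zero (ha i) hlk0 hs
    have hle : ∀ m : Fin 3, ν (z ^ (2 * (m : ℕ)) * c) ≤ 1 := fun m => by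
      rw [map_mul, nu_zpow ν hz, one_mul]
      exact hc
    have h1 := Cl.mul h2 (hle l) (hle k) (h l hl) (h k hk)
    have h3 : Cl ν (a i) (z ^ (2 * (l : ℕ)) * c + z ^ (2 * (k : ℕ)) * c) := by
      refine Cl.of_mul_sq (s := (a l * a k) / s) (div_ne_zero hlk0 hs0) ?_
      have e2 : a i * (a l * a k / s) ^ 2 = a l * a k := by
        rw [div_pow, ← mul_div_assoc, div_eq_iff (pow_ne_zero 2 hs0), sq s, ← hs]
        ring
      rwa [e2]
    refine h3.congr h2 ?_
    have hsum : z ^ (2 * (l : ℕ)) + z ^ (2 * (k : ℕ)) = -z ^ (2 * (i : ℕ)) := by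
      clear h h1 h3 e hs hlk0 hle
      fin_cases i <;> fin_cases l <;> first | exact absurd rfl hl | skip
      all_goals fin_cases k <;> first | exact absurd rfl hk | exact absurd rfl hlk | skip
      all_goals simp only [Fin.zero_eta, Fin.val_zero, Fin.reduceFinMk, Fin.val_two, Fin.mk_one,
        Fin.val_one]
      all_goals linear_combination (z ^ 2 - z + 1) * hz
    have e3 : z ^ (2 * (l : ℕ)) * c + z ^ (2 * (k : ℕ)) * c - z ^ (2 * (i : ℕ)) * c =
        2 * -(z ^ (2 * (i : ℕ)) * c) := by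
      linear_combination c * hsum
    rw [e3, map_mul, Valuation.map_neg]
    calc ν 2 * ν (z ^ (2 * (i : ℕ)) * c) ≤ ν 2 * 1 := by
          gcongr
          exact hle i
      _ = ν 2 := mul_one _
  · exact h i hij

/-- (c): the place above `2`; `d = 1` modulo `4`. -/
theorem loc_two {z d : L} (hz : z ^ 2 + z + 1 = 0) (h2 : ν 2 = exp (-1)) (hd : ν (d - 1) ≤ ν 4)
    (hres : ∀ x : L, ν x = 1 → ∃ j : Fin 3, ν (x - z ^ (j : ℕ)) < 1) (a : Fin 3 → L)
    (ha : ∀ i, a i ≠ 0) (hp : IsSquare (a 0 * a 1 * a 2)) (h : GLoc ν z d a) :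
    ∃ c : L, ν c ≤ 1 ∧ ∀ i : Fin 3, ∃ b : L, b ≠ 0 ∧
      ν (a i / b ^ 2 - (1 + 2 * z ^ (2 * (i : ℕ)) * c)) ≤ ν 4 := by
  have h4 := nu_four h2
  have h4l := nu_four_le h2
  have hz0 : z ≠ 0 := by
    rintro rfl
    simp at hz
  have hd1 : ν d = 1 := by
    have := ν.map_one_add_of_lt (lt_of_le_of_lt hd h4l)
    rwa [add_sub_cancel] at this
  have hd0 : d ≠ 0 := by
    rintro rfl
    rw [map_zero] at hd1
    exact zero_ne_one hd1
  have hzz : ∀ i j : Fin 3, ν (z ^ (2 * (i : ℕ)) * z ^ (j : ℕ)) ≤ 1 := fun i j => by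
    rw [map_mul, nu_zpow ν hz, nu_zpow ν hz, one_mul]
  -- it is enough to know two classes
  have fin : ∀ (c : L) (_ : ν c ≤ 1) (j : Fin 3),
      (∀ i, i ≠ j → Cl ν (a i) (z ^ (2 * (i : ℕ)) * c)) → ∃ c : L, ν c ≤ 1 ∧ ∀ i : Fin 3,
        ∃ b : L, b ≠ 0 ∧ ν (a i / b ^ 2 - (1 + 2 * z ^ (2 * (i : ℕ)) * c)) ≤ ν 4 := by
    intro c hc j hj
    refine ⟨c, hc, fun i => ?_⟩
    obtain ⟨b, hb, h⟩ := cl_third h2 hz a ha hp hc j hj i
    exact ⟨b, hb, by rwa [mul_assoc]⟩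
  -- the classes of the differences
  have hdiff : ∀ i j : Fin 3, i ≠ j →
      Cl ν (ee z d j - ee z d i) (z ^ (2 * (i : ℕ)) * z ^ (j : ℕ)) := by
    intro i j hij
    refine ⟨z ^ ((i : ℕ) + (j : ℕ)), pow_ne_zero _ hz0, ?_⟩
    have e : (ee z d j - ee z d i) / (z ^ ((i : ℕ) + (j : ℕ))) ^ 2 -
        (1 + 2 * (z ^ (2 * (i : ℕ)) * z ^ (j : ℕ))) =
        (d - 1) * (1 + 2 * (z ^ (2 * (i : ℕ)) * z ^ (j : ℕ))) := by
      have e1 : ee z d j - ee z d i = d * (z ^ (i : ℕ) - z ^ (j : ℕ)) := by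
        simp only [ee]
        ring
      rw [e1, pow_diff hz i j hij, mul_comm ((z ^ ((i : ℕ) + (j : ℕ))) ^ 2), ← mul_assoc,
        mul_div_assoc, div_self (pow_ne_zero _ (pow_ne_zero _ hz0))]
      ring
    rw [e, map_mul, nu_one_add h2 (hzz i j), mul_one]
    exact hd
  have hdiffv : ∀ i j : Fin 3, i ≠ j → ν (ee z d j - ee z d i) = 1 := by
    intro i j hij
    have e1 : ee z d j - ee z d i = d * (z ^ (i : ℕ) - z ^ (j : ℕ)) := by
      simp only [ee]
      ring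
    rw [e1, pow_diff hz i j hij, map_mul, map_mul, map_pow, nu_zpow ν hz,
      nu_one_add h2 (hzz i j), hd1]
    simp
  rcases h with h | ⟨j, h⟩ | ⟨x, hx, h⟩
  · refine fin 0 (by rw [map_zero]; exact zero_le') 0 fun i _ => ?_
    rw [mul_zero]
    exact (h i).cl
  · exact fin (z ^ (j : ℕ)) (nu_zpow ν hz _).le j fun i hi =>
      Cl.of_sq h2 (h i hi) (hzz i j) (hdiff i j hi)
  · obtain ⟨X, hX⟩ : ∃ X : Fin 3 → L, ∀ i, X i = x - ee z d i :=
      ⟨fun i => x - ee z d i, fun _ => rfl⟩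
    simp only [← hX] at h
    have hX0 : ∀ i, X i ≠ 0 := fun i h' => (h i).ne h4l.le (by rw [h', mul_zero])
    have hprod : X 0 * X 1 * X 2 = x ^ 3 + d ^ 3 := by rw [hX, hX, hX, prod_ee hz]
    have hdX : ∀ i j, X i - X j = ee z d j - ee z d i := fun i j => by rw [hX, hX, sub_ee]
    have hevn : IsSquare (ν (x ^ 3 + d ^ 3)) := hx.even h4l.le
    -- it is enough to know two classes of the `X i`
    suffices hs : ∃ (c : L) (_ : ν c ≤ 1) (j : Fin 3),
        ∀ i, i ≠ j → Cl ν (X i) (z ^ (2 * (i : ℕ)) * c) by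
      obtain ⟨c, hc, j, hj⟩ := hs
      refine fin c hc j fun i hi => Cl.of_sq h2 (h i) ?_ (hj i hi)
      rw [map_mul, nu_zpow ν hz, one_mul]
      exact hc
    rcases lt_trichotomy (ν x) 1 with hx1 | hx1 | hx1
    · -- `x` is divisible by `2`
      refine ⟨x / 2, ?_, 0, fun i _ => ?_⟩
      · have h5 : ν x ≤ exp (-1) := by
          by_cases hx0 : x = 0
          · rw [hx0, map_zero]
            exact zero_le'
          · obtain ⟨n, hn⟩ := exists_nu ν hx0
            rw [hn, ← exp_zero, exp_lt_exp] at hx1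
            rw [hn, exp_le_exp]
            omega
        rw [map_div₀, h2]
        exact (div_le_one₀ exp_pos).2 h5
      · refine ⟨z ^ (2 * (i : ℕ)), pow_ne_zero _ hz0, ?_⟩
        have h3 : z ^ 3 = 1 := by linear_combination (z - 1) * hz
        have hzi : (z ^ (i : ℕ)) ^ 3 = 1 := by rw [← pow_mul, mul_comm, pow_mul, h3, one_pow]
        have hzi0 : z ^ (i : ℕ) ≠ 0 := pow_ne_zero _ hz0
        have e : X i / (z ^ (2 * (i : ℕ))) ^ 2 - (1 + 2 * (z ^ (2 * (i : ℕ)) * (x / 2))) = d - 1 := by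
          rw [hX, ee, mul_comm 2 (i : ℕ), pow_mul]
          generalize z ^ (i : ℕ) = w at hzi hzi0
          have hw4 : (w ^ 2) ^ 2 = w := by linear_combination w * hzi
          rw [hw4]
          field_simp
          linear_combination (-x) * hzi
        rw [e]
        exact hd
    · -- `x` is a unit
      obtain ⟨j, hj⟩ := hres x hx1
      have hXj : ν (X j) < 1 := by
        have e : X j = (x - z ^ (j : ℕ)) + (z ^ (j : ℕ) * (d - 1) + 2 * z ^ (j : ℕ)) := by
          rw [hX, ee]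
          ring
        rw [e]
        refine ν.map_add_lt hj (ν.map_add_lt ?_ ?_)
        · rw [map_mul, nu_zpow ν hz, one_mul]
          exact lt_of_le_of_lt hd h4l
        · rw [map_mul, nu_zpow ν hz, mul_one, h2, ← exp_zero, exp_lt_exp]
          norm_num
      have hXi : ∀ i, i ≠ j → ν (X i) = 1 := by
        intro i hi
        have h5 := ν.map_add_eq_of_lt_left (x := X i - X j) (y := X j)
          (by rw [hdX, hdiffv i j hi]; exact hXj)
        rwa [sub_add_cancel, hdX, hdiffv i j hi] at h5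
      have hXj4 : ν (X j) ≤ ν 4 := by
        obtain ⟨n, hn⟩ := exists_nu ν (hX0 j)
        obtain ⟨l, k, hl, hk, hlk, hall, e⟩ := prod_split X j
        rw [← hprod, e, map_mul, map_mul, hXi l hl, hXi k hk, mul_one, mul_one, hn,
          isSquare_exp] at hevn
        rw [hn, ← exp_zero, exp_lt_exp] at hXj
        rw [hn, h4, exp_le_exp]
        obtain ⟨m, hm⟩ := hevn
        omega
      refine ⟨z ^ (j : ℕ), (nu_zpow ν hz _).le, j, fun i hi => ?_⟩
      have hne : ee z d j - ee z d i ≠ 0 := fun h' => by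
        have := hdiffv i j hi
        rw [h', map_zero] at this
        exact zero_ne_one this
      refine Cl.near h2 hne (hzz i j) (hdiff i j hi) ?_
      have e : X i / (ee z d j - ee z d i) - 1 = X j / (ee z d j - ee z d i) := by
        rw [← hdX i j] at hne ⊢
        rw [div_sub_one hne]
        congr 1
        ring
      rw [e, map_div₀, hdiffv i j hi, div_one]
      exact hXj4
    · -- `x` is not integral
      have hx0 : x ≠ 0 := by
        rintro rfl
        rw [map_zero] at hx1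
        exact not_lt_zero' hx1
      obtain ⟨n, hn⟩ := exists_nu ν hx0
      have hn0 : 0 < n := by rwa [hn, ← exp_zero, exp_lt_exp] at hx1
      have hx3 : ν (x ^ 3) = exp (3 * n) := by
        rw [map_pow, hn, ← exp_nsmul]
        norm_num
      have hd3 : ν (d ^ 3) = 1 := by rw [map_pow, hd1, one_pow]
      have hs3 : ν (x ^ 3 + d ^ 3) = exp (3 * n) := by
        rw [ν.map_add_eq_of_lt_left (by
          rw [hx3, hd3, ← exp_zero, exp_lt_exp]
          omega), hx3]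
      rw [hs3, isSquare_exp] at hevn
      obtain ⟨m, hm⟩ := hevn
      have hn2 : 2 ≤ n := by omega
      have hs0 : x ^ 3 + d ^ 3 ≠ 0 := hx.ne h4l.le
      have hxs : Sq ν x := by
        refine Sq.of_mul_sq hx0 ?_
        have h5 : Sq ν (1 * (x ^ 3 + d ^ 3)) := by rwa [one_mul]
        have h6 : Sq ν (1 * x ^ 3) := by
          refine h5.near h4l.le ?_
          have e : x ^ 3 / (x ^ 3 + d ^ 3) - 1 = -(d ^ 3 / (x ^ 3 + d ^ 3)) := by
            rw [div_sub_one hs0]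
            rw [← neg_div]
            congr 1
            ring
          rw [e, Valuation.map_neg, map_div₀, hd3, hs3, h4, one_div, ← exp_neg, exp_lt_exp]
          omega
        have e : x * x ^ 2 = 1 * x ^ 3 := by ring
        rwa [e]
      refine ⟨0, by rw [map_zero]; exact zero_le', 0, fun i _ => ?_⟩
      rw [mul_zero]
      refine Cl.near h2 hx0 (by rw [map_zero]; exact zero_le') hxs.cl ?_
      have e : X i / x - 1 = z ^ (i : ℕ) * d / x := by
        rw [hX, ee, div_sub_one hx0]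
        congr 1
        ring
      rw [e, map_div₀, map_mul, nu_zpow ν hz, hd1, one_mul, hn, h4, one_div, ← exp_neg, exp_le_exp]
      omega

end Pool.Agent.Lib.MP_1a91b9_ntH.C
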