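import Pool.Agent.Lib.MP_1a91b9_ntH.A.Base
import Pool.Agent.Lib.MP_1a91b9_ntH.C.V

/-!
# MP_1a91b9_nt (TwistDensity), part C: the hypotheses of the local theorems over `K = ℚ(√-3)`

The values of `4` and of the differences `e i - e j` at the finite places, the place `2`, the
symbols at the primary primes.
-/

set_option autoImplicit false
set_option linter.unusedSectionVars false

namespace Pool.Agent.Lib.MP_1a91b9_ntH.C

open NumberField IsDedekindDomain WithZero Finset Pool.Agent.Lib.MP_1a91b9_ntT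

noncomputable section

/-! ### generalities -/

theorem val_one {v : HeightOneSpectrum (𝓞 K)} {x : 𝓞 K} (h : x ∉ v.asIdeal) :
    v.valuation K (x : K) = 1 := v.valuation_eq_one_iff_notMem.2 h

theorem val_lt {v : HeightOneSpectrum (𝓞 K)} {x : 𝓞 K} :
    v.valuation K (x : K) < 1 ↔ x ∈ v.asIdeal := v.valuation_lt_one_iff_mem x

theorem val_le (v : HeightOneSpectrum (𝓞 K)) (x : 𝓞 K) : v.valuation K (x : K) ≤ 1 :=
  v.valuation_le_one x

/-- a place which contains a prime element is generated by it -/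
theorem ideal_eq {v : HeightOneSpectrum (𝓞 K)} {p : 𝓞 K} (hp : Prime p) (h : p ∈ v.asIdeal) :
    v.asIdeal = Ideal.span {p} := by
  have h1 : (Ideal.span {p}).IsPrime := (Ideal.span_singleton_prime hp.ne_zero).2 hp
  have h2 : Ideal.span {p} ≠ ⊥ := by
    rw [Ne, Ideal.span_singleton_eq_bot]
    exact hp.ne_zero
  have h3 : (Ideal.span {p}).IsMaximal := h1.isMaximal h2
  exact (h3.eq_of_le v.isPrime.ne_top ((Ideal.span_singleton_le_iff_mem _).2 h)).symm

theorem val_prime {v : HeightOneSpectrum (𝓞 K)} {p : 𝓞 K} (hp : Prime p) (h : p ∈ v.asIdeal) :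
    v.valuation K (p : K) = exp (-1) := by
  have h1 : v.valuation K (p : K) = v.intValuation p := v.valuation_of_algebraMap p
  rw [h1]
  exact v.intValuation_singleton hp.ne_zero (ideal_eq hp h)

/-- the elements divisible by the square of the prime -/
theorem val_le_sq {v : HeightOneSpectrum (𝓞 K)} {p : 𝓞 K} (hp : Prime p) (h : p ∈ v.asIdeal)
    {x : 𝓞 K} (n : ℕ) : v.valuation K (x : K) ≤ exp (-(n : ℤ)) ↔ p ^ n ∣ x := by
  have h1 : v.valuation K (x : K) = v.intValuation x := v.valuation_of_algebraMap x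
  rw [h1, v.intValuation_le_pow_iff_mem, ideal_eq hp h, Ideal.span_singleton_pow,
    Ideal.mem_span_singleton]

/-! ### the primes `2` and `√-3` -/

theorem nz_two : Nz (2 : 𝓞 K) = 4 := by
  have h := Nz_coords 2 0
  simp only [Int.cast_ofNat, Int.cast_zero, zero_mul, add_zero] at h
  norm_num at h
  exact_mod_cast h

theorem two_prime : Prime (2 : 𝓞 K) := by
  refine ⟨two_ne_zero, two_not_isUnit, fun a b h => ?_⟩
  rw [← red_eq_zero, map_mul, mul_eq_zero, red_eq_zero, red_eq_zero] at h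
  exact h

theorem s3_prime : Prime s3 := by
  have hpid : IsPrincipalIdealRing (𝓞 K) := IsCyclotomicExtension.Rat.three_pid K
  rw [← irreducible_iff_prime, irreducible_iff]
  refine ⟨s3_not_isUnit, fun a b h => ?_⟩
  have h1 : Nz s3 = 3 := by
    have h := Nz_coords 1 2
    have e : s3 = ((1 : ℤ) : 𝓞 K) + ((2 : ℤ) : 𝓞 K) * wO := by
      rw [s3]
      push_cast
      ring
    rw [e]
    norm_num at h ⊢
    exact_mod_cast h
  rw [h, Nz_mul] at h1
  have hu : ∀ x : 𝓞 K, Nz x = 1 → IsUnit x := by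
    intro x hx
    by_contra hc
    have hx0 : x ≠ 0 := by
      rintro rfl
      simp [Nz] at hx
    obtain ⟨p, hp, y, rfl⟩ := WfDvdMonoid.exists_irreducible_factor hc hx0
    rw [Nz_mul] at hx
    have := Nz_two_le (irreducible_iff_prime.1 hp)
    have h5 := Nat.eq_one_of_mul_eq_one_right hx
    omega
  have h2 : Nz a ∣ 3 := ⟨_, h1.symm⟩
  rcases (Nat.dvd_prime (by norm_num)).1 h2 with h3 | h3
  · exact Or.inl (hu a h3)
  · right
    apply hu b
    rw [h3] at h1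
    omega

theorem coe_two : ((2 : 𝓞 K) : K) = 2 := map_ofNat (algebraMap (𝓞 K) K) 2

theorem coe_s3 : ((s3 : 𝓞 K) : K) = 1 + 2 * om := by
  have e : ((s3 : 𝓞 K) : K) = algebraMap (𝓞 K) K (1 + 2 * wO) := rfl
  rw [e, map_add, map_mul, map_one, map_ofNat]
  rfl

/-- the value of the differences of the cube roots of unity -/
theorem val_diff (ν : Valuation K ℤᵐ⁰) (i j : Fin 3) (hij : i ≠ j) :
    ν (om ^ (i : ℕ) - om ^ (j : ℕ)) = ν (s3 : K) := by
  have hz := om_quad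
  have h1 := nu_z ν hz
  rw [coe_s3]
  fin_cases i <;> fin_cases j <;> first | exact absurd rfl hij | skip
  · have e : om ^ ((0 : Fin 3) : ℕ) - om ^ ((1 : Fin 3) : ℕ) = om ^ 2 * (1 + 2 * om) := by
      simp only [Fin.val_zero, Fin.val_one]
      linear_combination (1 - 2 * om) * hz
    change ν (om ^ ((0 : Fin 3) : ℕ) - om ^ ((1 : Fin 3) : ℕ)) = _
    rw [e, map_mul, map_pow, h1, one_pow, one_mul]
  · have e : om ^ ((0 : Fin 3) : ℕ) - om ^ ((2 : Fin 3) : ℕ) = -(om * (1 + 2 * om)) := by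
      simp only [Fin.val_zero, Fin.val_two]
      linear_combination hz
    change ν (om ^ ((0 : Fin 3) : ℕ) - om ^ ((2 : Fin 3) : ℕ)) = _
    rw [e, Valuation.map_neg, map_mul, h1, one_mul]
  · have e : om ^ ((1 : Fin 3) : ℕ) - om ^ ((0 : Fin 3) : ℕ) = -(om ^ 2 * (1 + 2 * om)) := by
      simp only [Fin.val_zero, Fin.val_one]
      linear_combination -(1 - 2 * om) * hz
    change ν (om ^ ((1 : Fin 3) : ℕ) - om ^ ((0 : Fin 3) : ℕ)) = _
    rw [e, Valuation.map_neg, map_mul, map_pow, h1, one_pow, one_mul]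
  · have e : om ^ ((1 : Fin 3) : ℕ) - om ^ ((2 : Fin 3) : ℕ) = 1 + 2 * om := by
      simp only [Fin.val_one, Fin.val_two]
      linear_combination -hz
    change ν (om ^ ((1 : Fin 3) : ℕ) - om ^ ((2 : Fin 3) : ℕ)) = _
    rw [e]
  · have e : om ^ ((2 : Fin 3) : ℕ) - om ^ ((0 : Fin 3) : ℕ) = om * (1 + 2 * om) := by
      simp only [Fin.val_zero, Fin.val_two]
      linear_combination -hz
    change ν (om ^ ((2 : Fin 3) : ℕ) - om ^ ((0 : Fin 3) : ℕ)) = _
    rw [e, map_mul, h1, one_mul]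
  · have e : om ^ ((2 : Fin 3) : ℕ) - om ^ ((1 : Fin 3) : ℕ) = -(1 + 2 * om) := by
      simp only [Fin.val_one, Fin.val_two]
      linear_combination hz
    change ν (om ^ ((2 : Fin 3) : ℕ) - om ^ ((1 : Fin 3) : ℕ)) = _
    rw [e, Valuation.map_neg]

theorem val_ee (ν : Valuation K ℤᵐ⁰) (d : K) (i j : Fin 3) (hij : i ≠ j) :
    ν (ee om d i - ee om d j) = ν d * ν (s3 : K) := by
  have e : ee om d i - ee om d j = d * (om ^ (j : ℕ) - om ^ (i : ℕ)) := by
    simp only [ee]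
    ring
  rw [e, map_mul, val_diff ν j i (Ne.symm hij)]

/-! ### the twisting element -/

theorem four_val {v : HeightOneSpectrum (𝓞 K)} (h : (2 : 𝓞 K) ∉ v.asIdeal) :
    v.valuation K 4 = 1 := by
  have e : (4 : K) = (((2 : 𝓞 K) * 2 : 𝓞 K) : K) := by
    have e1 : (((2 : 𝓞 K) * 2 : 𝓞 K) : K) = algebraMap (𝓞 K) K (2 * 2) := rfl
    rw [e1, map_mul, map_ofNat]
    norm_num
  rw [e]
  apply val_one
  intro h1
  rcases v.isPrime.mem_or_mem h1 with h2 | h2 <;> exact h h2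

theorem notMem_of_two {v : HeightOneSpectrum (𝓞 K)} (h : (2 : 𝓞 K) ∈ v.asIdeal) (q : Pq) :
    q.1 ∉ v.asIdeal := by
  intro h1
  obtain ⟨c, hc⟩ := q.2.2
  apply v.isPrime.ne_top
  rw [Ideal.eq_top_iff_one]
  have e : (1 : 𝓞 K) = q.1 - 2 * (s3 * c) := by linear_combination -hc
  rw [e]
  exact v.asIdeal.sub_mem h1 (v.asIdeal.mul_mem_right _ h)

theorem notMem_of_s3 {v : HeightOneSpectrum (𝓞 K)} (h : s3 ∈ v.asIdeal) (q : Pq) :
    q.1 ∉ v.asIdeal := by
  intro h1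
  obtain ⟨c, hc⟩ := q.2.2
  apply v.isPrime.ne_top
  rw [Ideal.eq_top_iff_one]
  have e : (1 : 𝓞 K) = q.1 - s3 * (2 * c) := by linear_combination -hc
  rw [e]
  exact v.asIdeal.sub_mem h1 (v.asIdeal.mul_mem_right _ h)

theorem s3_notMem_two {v : HeightOneSpectrum (𝓞 K)} (h : (2 : 𝓞 K) ∈ v.asIdeal) :
    s3 ∉ v.asIdeal := by
  intro h1
  apply v.isPrime.ne_top
  rw [Ideal.eq_top_iff_one]
  have e : (1 : 𝓞 K) = s3 - 2 * wO := by rw [s3]; ring
  rw [e]
  exact v.asIdeal.sub_mem h1 (v.asIdeal.mul_mem_right _ h)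

theorem two_notMem_s3 {v : HeightOneSpectrum (𝓞 K)} (h : s3 ∈ v.asIdeal) :
    (2 : 𝓞 K) ∉ v.asIdeal := fun h2 => s3_notMem_two h2 h

theorem two_notMem_q {v : HeightOneSpectrum (𝓞 K)} {q : Pq} (h : q.1 ∈ v.asIdeal) :
    (2 : 𝓞 K) ∉ v.asIdeal := fun h2 => notMem_of_two h2 q h

theorem s3_notMem_q {v : HeightOneSpectrum (𝓞 K)} {q : Pq} (h : q.1 ∈ v.asIdeal) :
    s3 ∉ v.asIdeal := fun h2 => notMem_of_s3 h2 q h

theorem eq_of_mem {v : HeightOneSpectrum (𝓞 K)} {p q : Pq} (hp : p.1 ∈ v.asIdeal)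
    (hq : q.1 ∈ v.asIdeal) : p = q := by
  apply plc_inj
  apply HeightOneSpectrum.ext
  change Ideal.span {p.1} = Ideal.span {q.1}
  rw [← ideal_eq p.2.1 hp, ← ideal_eq q.2.1 hq]

theorem val_DD (v : HeightOneSpectrum (𝓞 K)) (S : Finset Pq) :
    v.valuation K ((DD S : 𝓞 K) : K) = ∏ q ∈ S, v.valuation K ((q.1 : 𝓞 K) : K) := by
  rw [DD]
  have e : (((∏ q ∈ S, q.1 : 𝓞 K) : 𝓞 K) : K) = ∏ q ∈ S, ((q.1 : 𝓞 K) : K) :=
    map_prod (algebraMap (𝓞 K) K) _ _
  rw [e, map_prod]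

theorem val_dl (v : HeightOneSpectrum (𝓞 K)) (S : Finset Pq) :
    v.valuation K ((dl S : 𝓞 K) : K) =
      (if (qd.A S).b = 0 then 1 else v.valuation K (s3 : K)) *
        ∏ q ∈ S, v.valuation K ((q.1 : 𝓞 K) : K) := by
  rw [dl, ← val_DD]
  have e : ∀ x y z : 𝓞 K, (((x * y * z : 𝓞 K)) : K) = (x : K) * (y : K) * (z : K) := fun x y z => by
    push_cast
    rfl
  rw [e, map_mul, map_mul]
  congr 1
  have h2 : v.valuation K (((if (qd.A S).a = 0 then 1 else -1 : 𝓞 K) : 𝓞 K) : K) = 1 := by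
    split_ifs
    · simp
    · simp
  rw [h2, mul_one]
  split_ifs
  · simp
  · rfl

/-- the good places -/
theorem hyp_good (S : Finset Pq) (v : HeightOneSpectrum (𝓞 K)) (h2 : (2 : 𝓞 K) ∉ v.asIdeal)
    (h3 : s3 ∉ v.asIdeal) (hS : ∀ q ∈ S, q.1 ∉ v.asIdeal) :
    v.valuation K 4 = 1 ∧ ∀ i j, i ≠ j →
      v.valuation K (ee om ((dl S : 𝓞 K) : K) i - ee om ((dl S : 𝓞 K) : K) j) = exp (2 * 0) := by
  refine ⟨four_val h2, fun i j hij => ?_⟩
  rw [val_ee _ _ i j hij, val_dl, val_one h3, Finset.prod_eq_one fun q hq => val_one (hS q hq)]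
  simp

/-- the places which divide `D` -/
theorem hyp_bad (S : Finset Pq) (v : HeightOneSpectrum (𝓞 K)) (q : Pq) (hq : q ∈ S)
    (h : q.1 ∈ v.asIdeal) :
    v.valuation K 4 = 1 ∧ ∀ i j, i ≠ j →
      v.valuation K (ee om ((dl S : 𝓞 K) : K) i - ee om ((dl S : 𝓞 K) : K) j) =
        exp (2 * (-1) + 1) := by
  refine ⟨four_val (two_notMem_q h), fun i j hij => ?_⟩
  rw [val_ee _ _ i j hij, val_dl, val_one (s3_notMem_q h), ← Finset.mul_prod_erase _ _ hq,
    Finset.prod_eq_one fun p hp => val_one fun h1 => (Finset.ne_of_mem_erase hp) (eq_of_mem h1 h),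
    val_prime q.2.1 h]
  simp

/-- the place above `3` -/
theorem hyp_s3 (S : Finset Pq) (v : HeightOneSpectrum (𝓞 K)) (h : s3 ∈ v.asIdeal) :
    v.valuation K 4 = 1 ∧ ∀ i j, i ≠ j →
      v.valuation K (ee om ((dl S : 𝓞 K) : K) i - ee om ((dl S : 𝓞 K) : K) j) =
        exp (if (qd.A S).b = 0 then -1 else -2) := by
  refine ⟨four_val (two_notMem_s3 h), fun i j hij => ?_⟩
  rw [val_ee _ _ i j hij, val_dl, Finset.prod_eq_one fun q _ => val_one (notMem_of_s3 h q),
    val_prime s3_prime h, mul_one]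
  split_ifs
  · rw [one_mul]
  · rw [← exp_add]
    norm_num

/-! ### the class modulo 4 -/

/-- `x = 1 + 2 c` modulo `4` with `red c = t` -/
def Cr (x : 𝓞 K) (t : F4) : Prop := ∃ c : 𝓞 K, x = 1 + 2 * c ∧ red c = t

theorem Cr.mul {x y : 𝓞 K} {s t : F4} (hx : Cr x s) (hy : Cr y t) : Cr (x * y) (s + t) := by
  obtain ⟨c, rfl, rfl⟩ := hx
  obtain ⟨d, rfl, rfl⟩ := hy
  refine ⟨c + d + 2 * (c * d), by ring, ?_⟩
  rw [map_add, map_add, map_mul, map_ofNat]
  have h2 : (2 : F4) = 0 := CharTwo.two_eq_zero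
  rw [h2, zero_mul, add_zero]

theorem Cr.one : Cr 1 0 := ⟨0, by ring, map_zero _⟩

theorem Cr.neg_one : Cr (-1) 1 := ⟨-1, by ring, by
  rw [map_neg, map_one]
  exact CharTwo.neg_eq 1⟩

theorem Cr.s3 : Cr s3 F4.w := ⟨wO, rfl, red_w⟩

theorem Cr.q (q : Pq) : Cr q.1 (qd.a q) := by
  refine ⟨half q.1, half_spec ?_, rfl⟩
  exact (dvd_mul_right _ _).trans q.2.2

theorem Cr.DD (S : Finset Pq) : Cr (DD S) (qd.A S) := by
  classical
  unfold Dat.A MP_1a91b9_ntH.DD
  induction S using Finset.induction_on with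
  | empty => simpa using Cr.one
  | insert q S hq ih =>
    rw [Finset.prod_insert hq, Finset.sum_insert hq]
    exact (Cr.q q).mul ih

theorem Cr.dl (S : Finset Pq) : Cr (dl S) 0 := by
  have h : Cr (MP_1a91b9_ntH.dl S) ((if (qd.A S).b = 0 then 0 else F4.w) +
      (if (qd.A S).a = 0 then 0 else 1) + qd.A S) := by
    refine Cr.mul (Cr.mul ?_ ?_) (Cr.DD S)
    · split_ifs
      · exact Cr.one
      · exact Cr.s3
    · split_ifs
      · exact Cr.one
      · exact Cr.neg_one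
  have e : ∀ x : F4, (if x.b = 0 then 0 else F4.w) + (if x.a = 0 then 0 else 1) + x = 0 := by decide
  rwa [e] at h

theorem Cr.four {x : 𝓞 K} : Cr x 0 ↔ (4 : 𝓞 K) ∣ x - 1 := by
  constructor
  · rintro ⟨c, rfl, hc⟩
    obtain ⟨d, rfl⟩ := red_eq_zero.1 hc
    exact ⟨d, by ring⟩
  · rintro ⟨d, hd⟩
    refine ⟨2 * d, by linear_combination hd, ?_⟩
    rw [red_eq_zero]
    exact dvd_mul_right _ _

theorem dl_four' (S : Finset Pq) : (4 : 𝓞 K) ∣ dl S - 1 := Cr.four.1 (Cr.dl S)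

theorem dl_ne_zero (S : Finset Pq) : dl S ≠ 0 := by
  intro h
  have h1 := dl_four' S
  rw [h] at h1
  apply two_not_isUnit
  refine isUnit_of_dvd_one ((dvd_trans ⟨2, by norm_num⟩ h1).trans ?_)
  rw [zero_sub]
  exact ⟨-1, by ring⟩

/-! ### the place 2 -/

theorem val_four {v : HeightOneSpectrum (𝓞 K)} (h : (2 : 𝓞 K) ∈ v.asIdeal) :
    v.valuation K 2 = exp (-1) := by
  rw [← coe_two]
  exact val_prime two_prime h

theorem le_four_iff {v : HeightOneSpectrum (𝓞 K)} (h : (2 : 𝓞 K) ∈ v.asIdeal) (x : 𝓞 K) :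
    v.valuation K (x : K) ≤ v.valuation K 4 ↔ (4 : 𝓞 K) ∣ x := by
  rw [nu_four (val_four h)]
  have h1 := val_le_sq two_prime h (x := x) 2
  have e : (2 : 𝓞 K) ^ 2 = 4 := by norm_num
  rw [e] at h1
  exact h1

theorem mem_two {v : HeightOneSpectrum (𝓞 K)} (h : (2 : 𝓞 K) ∈ v.asIdeal) (x : 𝓞 K) :
    x ∈ v.asIdeal ↔ red x = 0 := by
  rw [ideal_eq two_prime h, Ideal.mem_span_singleton, red_eq_zero]

/-- approximation of an integral element by an element of `𝓞 K` -/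
theorem exists_near (v : HeightOneSpectrum (𝓞 K)) (x : K) (hx : v.valuation K x ≤ 1) :
    ∃ y : 𝓞 K, v.valuation K (x - (y : K)) < 1 := by
  obtain ⟨y, hy⟩ := v.exists_valuation_sub_lt_of_integer (K := K) hx 1
  refine ⟨y, ?_⟩
  rw [Valuation.map_sub_swap]
  simpa using hy

theorem res_two {v : HeightOneSpectrum (𝓞 K)} (h : (2 : 𝓞 K) ∈ v.asIdeal) (x : K)
    (hx : v.valuation K x = 1) : ∃ j : Fin 3, v.valuation K (x - om ^ (j : ℕ)) < 1 := by
  obtain ⟨y, hy⟩ := exists_near v x hx.le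
  have hy1 : y ∉ v.asIdeal := by
    intro h1
    have h2 := (v.valuation K).map_add_lt hy (val_lt.2 h1)
    rw [sub_add_cancel, hx] at h2
    exact lt_irrefl _ h2
  rw [mem_two h] at hy1
  have h4 : ∀ t : F4, t ≠ 0 → ∃ j : Fin 3, t = F4.w ^ (j : ℕ) := by decide
  obtain ⟨j, hj⟩ := h4 _ hy1
  refine ⟨j, ?_⟩
  have h5 : y - wO ^ (j : ℕ) ∈ v.asIdeal := by
    rw [mem_two h, map_sub, map_pow, red_w, hj, sub_self]
  have h6 := (v.valuation K).map_add_lt hy (val_lt.2 h5)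
  have e : x - (y : K) + ((y - wO ^ (j : ℕ) : 𝓞 K) : K) = x - om ^ (j : ℕ) := by
    rw [← coe_wO]
    push_cast
    ring
  rwa [e] at h6

/-- the place above `2` -/
theorem hyp_two (S : Finset Pq) (v : HeightOneSpectrum (𝓞 K)) (h : (2 : 𝓞 K) ∈ v.asIdeal) :
    v.valuation K 2 = exp (-1) ∧
      v.valuation K (((dl S : 𝓞 K) : K) - 1) ≤ v.valuation K 4 ∧
      ∀ x : K, v.valuation K x = 1 → ∃ j : Fin 3, v.valuation K (x - om ^ (j : ℕ)) < 1 := by
  refine ⟨val_four h, ?_, res_two h⟩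
  have e : ((dl S : 𝓞 K) : K) - 1 = ((dl S - 1 : 𝓞 K) : K) := by
    push_cast
    rfl
  rw [e, le_four_iff h]
  exact dl_four' S

/-! ### the symbols -/

/-- an element of `𝓞 K` prime to `q` is a local square at `q` if and only if it is a square
modulo `q` -/
theorem sq_iff {v : HeightOneSpectrum (𝓞 K)} {q : Pq} (h : q.1 ∈ v.asIdeal) {x : 𝓞 K}
    (hx : ¬ q.1 ∣ x) :
    Sq (v.valuation K) (x : K) ↔ IsSquare (Ideal.Quotient.mk (Ideal.span {q.1}) x) := by
  have hI := ideal_eq q.2.1 h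
  have hx1 : x ∉ v.asIdeal := by rwa [hI, Ideal.mem_span_singleton]
  have h4 := four_val (two_notMem_q h)
  have hvx := val_one hx1
  constructor
  · rintro ⟨b, hb, hbx⟩
    have h1 : v.valuation K ((x : K) / b ^ 2) = 1 := nu_one h4.le hbx
    have hvb : v.valuation K b = 1 := by
      rw [map_div₀, map_pow, hvx, one_div, inv_eq_one] at h1
      exact (pow_eq_one_iff_of_nonneg zero_le (by norm_num)).1 h1
    obtain ⟨y, hy⟩ := exists_near v b hvb.le
    have hvy : v.valuation K (y : K) ≤ 1 := val_le v y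
    have h2 : x - y * y ∈ v.asIdeal := by
      rw [← val_lt]
      have e : ((x - y * y : 𝓞 K) : K) = b ^ 2 * ((x : K) / b ^ 2 - 1) + (b - y) * (b + y) := by
        push_cast
        field_simp
        ring
      rw [e]
      refine (v.valuation K).map_add_lt ?_ ?_
      · rw [map_mul, map_pow, hvb, one_pow, one_mul, ← h4]
        exact hbx
      · rw [map_mul]
        have h3 : v.valuation K (b + y) ≤ 1 := (v.valuation K).map_add_le hvb.le hvy
        calc _ ≤ v.valuation K (b - y) * 1 := by gcongr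
          _ < 1 := by rw [mul_one]; exact hy
    refine ⟨Ideal.Quotient.mk _ y, ?_⟩
    rw [← map_mul, Ideal.Quotient.eq, ← hI]
    exact h2
  · rintro ⟨r, hr⟩
    obtain ⟨y, rfl⟩ := Ideal.Quotient.mk_surjective r
    rw [← map_mul, Ideal.Quotient.eq, ← hI] at hr
    have hy : y ∉ v.asIdeal := by
      intro hy
      apply hx1
      have e : x = (x - y * y) + y * y := by ring
      rw [e]
      exact v.asIdeal.add_mem hr (v.asIdeal.mul_mem_left _ hy)
    have hy0 : (y : K) ≠ 0 := by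
      intro h0
      apply hy
      have : y = 0 := RingOfIntegers.ext (by simpa using h0)
      rw [this]
      exact v.asIdeal.zero_mem
    refine ⟨y, hy0, ?_⟩
    rw [h4]
    have e : (x : K) / (y : K) ^ 2 - 1 = ((x - y * y : 𝓞 K) : K) / (y : K) ^ 2 := by
      push_cast
      field_simp
    rw [e, map_div₀, map_pow, val_one hy, one_pow, div_one]
    exact val_lt.2 hr

theorem sq_iff_qs {v : HeightOneSpectrum (𝓞 K)} {q : Pq} (h : q.1 ∈ v.asIdeal) {x : 𝓞 K}
    (hx : ¬ q.1 ∣ x) : Sq (v.valuation K) (x : K) ↔ qs q x = 1 := by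
  rw [sq_iff h hx, qs, if_neg hx]
  split_ifs with h1 <;> simp [h1]

end

end Pool.Agent.Lib.MP_1a91b9_ntH.C
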