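import Pool.Agent.Lib.MP_1a91b9_ntH.C.Tpt
import Pool.Agent.Lib.MP_1a91b9_ntH.C.LocDefs

/-!
# JOB KEx: Kummer data of a cocycle

Adapt `exists_kummer` in Pool/Agent/Lib/MP_1a91b9_ntT/S9/MA.lean (there with a field `A`, here `A = k`). For each `i` the function
`χ σ = pr (c σ) (tpt i)` is multiplicative: `c (σ τ) = c σ + σ (c τ)` (`hc.2`), `σ (tpt i) = tpt i` (`tpt_map` with `f = σ`), `pr_map`
(`Affine.Point.map_injective`), `pr_add_tpt`. It is trivial on `Gal(kbar/M)`, `M/k` finite (`S9.exists_open`). `S9.kummer` (S9/KA.lean) with `Ω = AlgebraicClosure k`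
gives `b i`; `(b i)²` is fixed by the Galois group: `S9.fixed_elem` gives `a i`.
-/

set_option autoImplicit false

namespace Pool.Agent.Lib.MP_1a91b9_ntH.C

open WeierstrassCurve WithZero NumberField IsDedekindDomain
open Pool.Agent.Lib.MP_1a91b9_ntT.S9 (pr pr_comm pr_map pr_add eq_zero_of_pr Pts Gal coc cob trivOver
  shaCoc Sha up actP)
open scoped Classical



theorem exists_kdata {k : Type*} [Field k] [CharZero k] {d : k} (hd : d ≠ 0) {z : k}
    (hz : z ^ 2 + z + 1 = 0) (c : Gal k → Pts (cv d) (AlgebraicClosure k)) (hc : c ∈ coc (cv d))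
    (h2 : ∀ σ, c σ + c σ = 0) : ∃ a b, KData hd hz c a b := by
  obtain ⟨M0, hM0, hM⟩ := Pool.Agent.Lib.MP_1a91b9_ntT.S9.exists_open (cv d) c hc
  have hone : ∀ i : Fin 3, ∃ (a : k) (b : AlgebraicClosure k), b ≠ 0 ∧
      algebraMap k (AlgebraicClosure k) a = b ^ 2 ∧
      ∀ σ : Gal k, σ b =
        (((pr (c σ) (tpt hd hz (AlgebraicClosure k) i) : ℤˣ) : ℤ) : AlgebraicClosure k) * b := by
    intro i
    set T := tpt hd hz (AlgebraicClosure k) i with hT
    have hT2 : T + T = 0 := tpt_two hd hz i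
    have hfix : ∀ σ : Gal k, actP (cv d) σ T = T := fun σ =>
      tpt_map hd hz (σ : AlgebraicClosure k →ₐ[k] AlgebraicClosure k) i
    have hinj : ∀ σ : Gal k, Function.Injective (actP (cv d) σ) := fun σ =>
      Affine.Point.map_injective _
    obtain ⟨b, hb0, hb⟩ := Pool.Agent.Lib.MP_1a91b9_ntT.S9.kummer (k := k) (Ω := AlgebraicClosure k)
      (fun σ => pr (c σ) T) (by
        intro σ τ
        have h1 : c (σ * τ) = c σ + actP (cv d) σ (c τ) := hc.2 σ τ
        have h3 : pr (actP (cv d) σ (c τ)) T = pr (c τ) T := by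
          conv_lhs => rw [← hfix σ]
          exact pr_map _ (hinj _) _ _
        show pr (c (σ * τ)) T = pr (c σ) T * pr (c τ) T
        rw [h1, hT, pr_add_tpt hd hz _ _ (h2 σ) ?_ i, ← hT, h3]
        rw [← _root_.map_add, h2, _root_.map_zero]) M0 (by
        intro σ hσ
        have h1 : c σ = 0 := hM _ hσ
        simp [h1, pr])
    have hsq : ∀ u : ℤˣ, (((u : ℤˣ) : ℤ) : AlgebraicClosure k) ^ 2 = 1 := by
      intro u
      rcases Int.units_eq_one_or u with rfl | rfl <;> simp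
    obtain ⟨a, ha⟩ := Pool.Agent.Lib.MP_1a91b9_ntT.S9.fixed_elem (b ^ 2) (by
      intro σ
      rw [_root_.map_pow, hb σ, mul_pow, hsq, one_mul])
    exact ⟨a, b, hb0, ha, hb⟩
  choose a b h using hone
  exact ⟨a, b, fun i => (h i).1, fun i => (h i).2.1, fun i σ => (h i).2.2 σ⟩

end Pool.Agent.Lib.MP_1a91b9_ntH.C
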