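import Pool.Agent.Lib.MP_1a91b9_ntH.D.Defs

/-!
# MP_1a91b9_nt (TwistDensity), part C: the linear algebra of the 2-descent (C3 of the paper)
-/

set_option autoImplicit false

namespace Pool.Agent.Lib.MP_1a91b9_ntH

open Finset

variable {ι : Type} [DecidableEq ι]

theorem F4.tr_eq (x : F4) : F4.of (F4.tr x) = x + F4.cj x := by
  revert x; decide

theorem F4.cj_cj (x : F4) : F4.cj (F4.cj x) = x := by
  revert x; decide

theorem F4.cj_add (x y : F4) : F4.cj (x + y) = F4.cj x + F4.cj y := by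
  revert x y; decide

theorem F4.cj_mul (x y : F4) : F4.cj (x * y) = F4.cj x * F4.cj y := by
  revert x y; decide

theorem F4.cj_of (x : ZMod 2) : F4.cj (F4.of x) = F4.of x := by
  revert x; decide

theorem F4.cj_zero : F4.cj 0 = 0 := by decide

theorem F4.of_add (x y : ZMod 2) : F4.of (x + y) = F4.of x + F4.of y := by
  revert x y; decide

theorem F4.add_self (x : F4) : x + x = 0 := by
  revert x; decide

theorem F4.cj_sum {α : Type*} (s : Finset α) (f : α → F4) : F4.cj (∑ i ∈ s, f i) = ∑ i ∈ s, F4.cj (f i) := by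
  classical
  induction s using Finset.induction_on with
  | empty => simp [F4.cj_zero]
  | insert a s ha ih => rw [sum_insert ha, sum_insert ha, F4.cj_add, ih]

/-- The matrix `M` on the vector `v`, written with functions on `ι`. -/
theorem Dat.M_mulVec (D : Dat ι) (S : Finset ι) (v : ι → F4) (q : S) :
    (D.M S).mulVec (fun i : S => v i) q =
      (F4.cj (D.a q) + ∑ p ∈ S.erase (q : ι), F4.of (D.s q p)) * v q +
        ∑ p ∈ S.erase (q : ι), F4.of (D.s q p) * v p := by
  have h1 : (D.M S).mulVec (fun i : S => v i) q = ∑ p : S, D.M S q p * v p := rfl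
  have h2 : ∀ p : S, D.M S q p * v p =
      (if p = q then (F4.cj (D.a q) + ∑ p ∈ S.erase (q : ι), F4.of (D.s q p)) * v q else 0) +
        (fun p : ι => if p = q then 0 else F4.of (D.s q p) * v p) p := by
    intro p
    by_cases h : p = q
    · subst h
      simp [Dat.M]
    · have h' : (p : ι) ≠ q := fun h3 => h (Subtype.ext h3)
      have h'' : ¬ q = p := fun h3 => h h3.symm
      simp [Dat.M, h, h', h'']
  rw [h1, sum_congr rfl fun p _ => h2 p, sum_add_distrib, sum_ite_eq' univ q, if_pos (mem_univ q),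
    sum_coe_sort S (fun p : ι => if p = q then 0 else F4.of (D.s q p) * v p)]
  congr 1
  rw [← sum_erase_add _ _ q.2, if_pos rfl, add_zero]
  exact sum_congr rfl fun p hp => if_neg (ne_of_mem_erase hp)

theorem Dat.lin (D : Dat ι) (hr : D.Rec) (S : Finset ι)
    (hM : ∀ v : S → F4, (D.M S).mulVec v = 0 → v = 0) (V : ι → F4) (Kk Nn : F4)
    (E2 : Nn = F4.w * F4.w * Kk + ∑ q ∈ S, F4.cj (D.a q) * V q)
    (Eq : ∀ q ∈ S, ∑ p ∈ S.erase q, F4.of (D.s p q) * V p +
      (∑ p ∈ S.erase q, F4.of (D.s q p) + F4.cj (D.a q)) * V q + F4.of (F4.tr (D.a q)) * Nn +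
        F4.of (F4.tr (F4.w * D.a q)) * Kk = 0) :
    ∃ c : F4, (∀ q ∈ S, V q = c) ∧ Kk = if F4.tr (D.A S) = 1 then 0 else c := by
  -- X = cj V, X3 = cj Kk, sig = a . X, sig' = cj a . X
  set X : ι → F4 := fun q => F4.cj (V q) with hX
  set X3 : F4 := F4.cj Kk with hX3
  set sg1 : F4 := ∑ q ∈ S, D.a q * X q with hs1
  set sg2 : F4 := ∑ q ∈ S, F4.cj (D.a q) * X q with hs2
  -- the rows
  have hrow : ∀ q ∈ S, (F4.cj (D.a q) + ∑ p ∈ S.erase q, F4.of (D.s q p)) * X q +
      ∑ p ∈ S.erase q, F4.of (D.s q p) * X p = F4.cj (D.a q) * (sg1 + X3 + sg2) := by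
    intro q hq
    have hN : F4.cj Nn = F4.w * X3 + sg1 := by
      rw [E2, F4.cj_add, F4.cj_mul, F4.cj_sum, hs1, hX3]
      congr 1
      exact sum_congr rfl fun p _ => by rw [F4.cj_mul, F4.cj_cj]
    have hE := congrArg F4.cj (Eq q hq)
    simp only [F4.cj_add, F4.cj_mul, F4.cj_sum, F4.cj_cj, F4.cj_of, F4.cj_zero, hN] at hE
    have hE' : ∑ p ∈ S.erase q, F4.of (D.s p q) * X p +
        (∑ p ∈ S.erase q, F4.of (D.s q p) + D.a q) * X q +
        F4.of (F4.tr (D.a q)) * (F4.w * X3 + sg1) + F4.of (F4.tr (F4.w * D.a q)) * X3 = 0 := hE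
    have hR : ∑ p ∈ S.erase q, F4.of (D.s p q) * X p = ∑ p ∈ S.erase q, F4.of (D.s q p) * X p +
        D.a q * (sg1 + D.a q * X q) + F4.cj (D.a q) * (sg2 + F4.cj (D.a q) * X q) := by
      have e1 : sg1 + D.a q * X q = ∑ p ∈ S.erase q, D.a p * X p := by
        rw [hs1, ← sum_erase_add _ _ hq, add_assoc, F4.add_self, add_zero]
      have e2 : sg2 + F4.cj (D.a q) * X q = ∑ p ∈ S.erase q, F4.cj (D.a p) * X p := by
        rw [hs2, ← sum_erase_add _ _ hq, add_assoc, F4.add_self, add_zero]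
      rw [e1, e2, mul_sum, mul_sum, ← sum_add_distrib, ← sum_add_distrib]
      refine sum_congr rfl fun p hp => ?_
      have h1 := hr p q (ne_of_mem_erase hp)
      have h2 : D.s p q = D.s q p + F4.tr (D.a p * D.a q) := by
        rw [← h1]
        generalize D.s p q = x
        generalize D.s q p = y
        revert x y
        decide
      rw [h2, F4.of_add, F4.tr_eq, F4.cj_mul]
      ring
    rw [F4.tr_eq, F4.tr_eq, F4.cj_mul] at hE'
    have h2 : (2 : F4) = 0 := by decide
    have ha : D.a q * D.a q = F4.cj (D.a q) := by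
      generalize D.a q = x
      revert x
      decide
    have hb : F4.cj (D.a q) * F4.cj (D.a q) = D.a q := by
      generalize D.a q = x
      revert x
      decide
    have hw : F4.w * F4.w = F4.w + 1 := by decide
    have hw' : F4.cj F4.w = F4.w * F4.w := by decide
    rw [hw'] at hE'
    generalize ∑ p ∈ S.erase q, F4.of (D.s p q) * X p = u at hE' hR ⊢
    generalize ∑ p ∈ S.erase q, F4.of (D.s q p) * X p = v at hE' hR ⊢
    generalize ∑ p ∈ S.erase q, F4.of (D.s q p) = z at hE' hR ⊢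
    linear_combination hE' - hR - X q * ha - X q * hb - F4.cj (D.a q) * X3 * hw -
      (D.a q * X q + (F4.w * D.a q + F4.w * F4.cj (D.a q) + F4.cj (D.a q)) * X3 +
        (D.a q + F4.cj (D.a q)) * sg1 + F4.cj (D.a q) * sg2) * h2
  set c : F4 := sg1 + X3 + sg2 with hc
  have hdiff : ∀ q ∈ S, X q = c := by
    have h0 := hM (fun i : S => X i + c) (by
      funext q
      have h1 := D.M_mulVec S (fun i => X i + c) q
      rw [h1]
      have h2 := hrow q q.2
      have h3 : ∑ p ∈ S.erase (q : ι), F4.of (D.s q p) * (X p + c) =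
          ∑ p ∈ S.erase (q : ι), F4.of (D.s q p) * X p +
            (∑ p ∈ S.erase (q : ι), F4.of (D.s q p)) * c := by
        rw [sum_mul, ← sum_add_distrib]
        exact sum_congr rfl fun p _ => by ring
      rw [h3]
      generalize ∑ p ∈ S.erase (q : ι), F4.of (D.s q p) * X p = u at h2 ⊢
      generalize ∑ p ∈ S.erase (q : ι), F4.of (D.s q p) = v at h2 ⊢
      have h4 : (F4.cj (D.a q) + v) * (X q + c) + (u + v * c) =
          ((F4.cj (D.a q) + v) * X q + u) + F4.cj (D.a q) * c + (v * c + v * c) := by ring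
      rw [h4, h2, F4.add_self, zero_add, F4.add_self]
      rfl)
    intro q hq
    have h1 := congrFun h0 ⟨q, hq⟩
    have h2 : X q + c = 0 := h1
    have h3 : X q = X q + c + c := by rw [add_assoc, F4.add_self, add_zero]
    rw [h3, h2, zero_add]
  have hV : ∀ q ∈ S, V q = F4.cj c := by
    intro q hq
    rw [← hdiff q hq, hX]
    exact (F4.cj_cj _).symm
  refine ⟨F4.cj c, hV, ?_⟩
  have e1 : sg1 = D.A S * c := by
    rw [hs1, Dat.A, sum_mul]
    exact sum_congr rfl fun q hq => by rw [hdiff q hq]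
  have e2 : sg2 = F4.cj (D.A S) * c := by
    rw [hs2, Dat.A, F4.cj_sum, sum_mul]
    exact sum_congr rfl fun q hq => by rw [hdiff q hq]
  have e3 : X3 = c + F4.of (F4.tr (D.A S)) * c := by
    have h5 : c = sg1 + X3 + sg2 := hc
    rw [e1, e2] at h5
    have h6 : D.A S * c + X3 + F4.cj (D.A S) * c =
        X3 + (D.A S + F4.cj (D.A S)) * c := by ring
    rw [h6, ← F4.tr_eq] at h5
    have h7 : X3 = X3 + F4.of (F4.tr (D.A S)) * c + F4.of (F4.tr (D.A S)) * c := by
      rw [add_assoc, F4.add_self, add_zero]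
    rw [← h5] at h7
    exact h7
  have e4 : Kk = F4.cj X3 := by rw [hX3, F4.cj_cj]
  rw [e4, e3]
  generalize F4.tr (D.A S) = t
  revert t
  generalize c = c'
  revert c'
  decide

end Pool.Agent.Lib.MP_1a91b9_ntH
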