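import Pool.Agent.Lib.MP_1a91b9_ntT3.S9.Pb
import Pool.Agent.Lib.MP_1a91b9_ntH.C.Curve
import Pool.Agent.Lib.MP_1a91b9_ntH.A.Base

/-!
# MP_1a91b9_nt (TwistDensity), part C, block Per: the infinite part of the period of `y² = x³ + d³`

`(2 y)² = 4 x³ + 4 d³`: the sum over the fibre of `‖2 y‖^(-2)` is `2 ‖4 x³ + 4 d³‖⁻¹`, and
`∫ ‖4 x³ + 4 d³‖⁻¹ = r⁻¹ ∫ ‖4 x³ + 1‖⁻¹`, `r³ = 4 ‖d‖³` (`integral_scale`, `integral_g`). With
`ε³ = 1 / 2`: `r = ‖d‖ / ‖ε‖²`.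
-/

set_option autoImplicit false

namespace Pool.Agent.Lib.MP_1a91b9_ntH.C

open NumberField MeasureTheory Pool.Agent.Lib.MP_1a91b9_ntT Pool.Agent.Lib.MP_1a91b9_ntT.Per

theorem pera_iff {d x y t : ℂ} (ht : t ^ 2 = 4 * x ^ 3 + 4 * d ^ 3) :
    (cv d).toAffine.Equation x y ↔ y = t / 2 ∨ y = -t / 2 := by
  rw [eqn_iff (d := d) rfl]
  constructor
  · intro h
    have h1 : (2 * y - t) * (2 * y + t) = 0 := by linear_combination 4 * h - ht
    rcases mul_eq_zero.1 h1 with h2 | h2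
    · left
      linear_combination h2 / 2
    · right
      linear_combination h2 / 2
  · rintro (rfl | rfl)
    · linear_combination ht / 4
    · linear_combination ht / 4

theorem pera_fib (d x : ℂ) :
    ∑' y : {y : ℂ // (cv d).toAffine.Equation x y},
      (‖2 * (y : ℂ) + (cv d).a₁ * x + (cv d).a₃‖ ^ 2)⁻¹ = 2 * ‖4 * x ^ 3 + 4 * d ^ 3‖⁻¹ := by
  classical
  show ∑' y : {y : ℂ // (cv d).toAffine.Equation x y}, (‖2 * (y : ℂ) + 0 * x + 0‖ ^ 2)⁻¹ = _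
  obtain ⟨t, ht⟩ := IsAlgClosed.exists_pow_nat_eq (4 * x ^ 3 + 4 * d ^ 3) (n := 2) (by norm_num)
  rw [← ht]
  rcases eq_or_ne t 0 with h0 | h0
  · have h : ∀ y : {y : ℂ // (cv d).toAffine.Equation x y},
        (‖2 * (y : ℂ) + 0 * x + 0‖ ^ 2)⁻¹ = 0 := by
      rintro ⟨y, hy⟩
      rw [pera_iff ht, h0, neg_zero, or_self] at hy
      show (‖2 * y + 0 * x + 0‖ ^ 2)⁻¹ = 0
      have e : 2 * y + 0 * x + 0 = 0 := by rw [hy]; ring
      rw [e]
      norm_num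
    rw [tsum_congr h, tsum_zero, h0]
    norm_num
  · have hne : t / 2 ≠ -t / 2 := by
      intro h
      apply h0
      have h1 : (2 : ℂ) ≠ 0 := two_ne_zero
      have h2 := (div_left_inj' h1).1 h
      have h3 : 2 * t = 0 := by linear_combination h2
      simpa using h3
    have e : {y : ℂ | (cv d).toAffine.Equation x y} =
        (({t / 2, -t / 2} : Finset ℂ) : Set ℂ) := by
      ext y
      rw [Finset.coe_pair, Set.mem_ofPred_eq, pera_iff ht]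
      rfl
    have key : ∑' y : ({y : ℂ | (cv d).toAffine.Equation x y} : Set ℂ),
        (‖2 * (y : ℂ) + 0 * x + 0‖ ^ 2)⁻¹ =
        (‖2 * (t / 2) + 0 * x + 0‖ ^ 2)⁻¹ + (‖2 * (-t / 2) + 0 * x + 0‖ ^ 2)⁻¹ := by
      rw [e, Finset.tsum_subtype' _ (fun y : ℂ => (‖2 * y + 0 * x + 0‖ ^ 2)⁻¹), Finset.sum_pair hne]
    refine Eq.trans key ?_
    have e1 : 2 * (t / 2) + 0 * x + 0 = t := by ring
    have e2 : 2 * (-t / 2) + 0 * x + 0 = -t := by ring
    rw [e1, e2, norm_neg, ← norm_pow, two_mul]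

/-- The area of `y² = x³ + d³` over `ℂ`. -/
theorem perC_cv {d ε : ℂ} (hd : d ≠ 0) (hε : ε ^ 3 = 1 / 2) :
    perC (cv d) = Real.sqrt 3 / 2 * (‖Om‖ ^ 2 * ‖ε‖ ^ 2 / ‖d‖) := by
  have hε0 : ε ≠ 0 := by
    rintro rfl
    norm_num at hε
  have hd4 : 4 * d ^ 3 ≠ 0 := mul_ne_zero (by norm_num) (pow_ne_zero 3 hd)
  have hn : 0 < ‖d‖ := norm_pos_iff.2 hd
  have hn2 : 0 < ‖ε‖ := norm_pos_iff.2 hε0
  have h6 : ‖ε‖ ^ 3 = 1 / 2 := by
    rw [← norm_pow, hε]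
    norm_num
  have hr : (‖d‖ / ‖ε‖ ^ 2) ^ 3 = ‖4 * d ^ 3‖ := by
    rw [div_pow, norm_mul, norm_pow, ← pow_mul, mul_comm 2 3, pow_mul, h6]
    norm_num
    ring
  rw [perC]
  simp only [pera_fib]
  rw [integral_const_mul, MP_1a91b9_ntT3.S9.integral_scale _ hd4 (‖d‖ / ‖ε‖ ^ 2) (by positivity) hr,
    integral_g]
  field_simp
  try ring

theorem cv_map {F G : Type*} [Field F] [Field G] (f : F →+* G) (d : F) :
    (cv d).map f = cv (f d) := by
  simp [cv, WeierstrassCurve.map]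

theorem om_quad' : om ^ 2 + om + 1 = 0 := om_quad

/-- The period at the infinite place of `K`. -/
theorem perAt_cv {d : K} {ε : ℂ} (hd : d ≠ 0) (hε : ε ^ 3 = 1 / 2) (v : InfinitePlace K) :
    perAt (cv d) v = Real.sqrt 3 * (‖Om‖ ^ 2 * ‖ε‖ ^ 2 / ‖embK d‖) := by
  rw [perAt, dif_neg (MP_1a91b9_ntT3.S9.pb_not_real om_quad v), cv_map,
    perC_cv ((map_ne_zero v.embedding).2 hd) hε]
  have h : ‖v.embedding d‖ = ‖embK d‖ := by
    have hv : Fintype.card (InfinitePlace K) = 1 := by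
      have h1 := MP_1a91b9_ntT3.S9.card_places (N := K) om_quad
      rw [finrank_K] at h1
      omega
    have h2 : v = InfinitePlace.mk embK.toRingHom :=
      (Fintype.card_le_one_iff.1 hv.le) _ _
    have h3 : ‖v.embedding d‖ = v d := by
      rw [← InfinitePlace.apply, InfinitePlace.mk_embedding]
    rw [h3, h2]
    rfl
  rw [h]
  ring

theorem prod_perAt_cv {d : K} {ε : ℂ} (hd : d ≠ 0) (hε : ε ^ 3 = 1 / 2) :
    ∏ v : InfinitePlace K, perAt (cv d) v =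
      Real.sqrt 3 * (‖Om‖ ^ 2 * ‖ε‖ ^ 2 / ‖embK d‖) := by
  simp only [perAt_cv hd hε]
  have hv : Fintype.card (InfinitePlace K) = 1 := by
    have h1 := MP_1a91b9_ntT3.S9.card_places (N := K) om_quad
    rw [finrank_K] at h1
    omega
  rw [Finset.prod_const, Finset.card_univ, hv, pow_one]

end Pool.Agent.Lib.MP_1a91b9_ntH.C
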