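import Pool.Agent.Lib.MP_1a91b9_ntH.C.SelL
import Pool.Agent.Lib.MP_1a91b9_ntH.C.Lin

/-!
# MP_1a91b9_nt (TwistDensity), part C: the Selmer group

`sel`: if the matrix `M_S` is invertible, a triple `a` of elements of `K` whose product is a square and
which satisfies the local conditions is the class of a point of order two.
-/

set_option autoImplicit false
set_option linter.unusedSectionVars false
set_option linter.unusedVariables false

namespace Pool.Agent.Lib.MP_1a91b9_ntH.C.Sel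

open NumberField Finset WithZero IsDedekindDomain Pool.Agent.Lib.MP_1a91b9_ntT
open Pool.Agent.Lib.MP_1a91b9_ntH (wO s3 Pq qd DD dl red half qs sgz)

noncomputable section

theorem val_two : (pv 2 prime_two).valuation K (2 : K) = exp (-1) := by
  have h1 : ((2 : 𝓞 K) : K) = 2 := rfl
  rw [← h1]
  exact pv_self 2 prime_two

theorem val_four2 : (pv 2 prime_two).valuation K (4 : K) = exp (-2) := by
  have h1 : (4 : K) = 2 * 2 := by norm_num
  rw [h1, map_mul, val_two, ← exp_add]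
  rfl

theorem val_le_one (v : HeightOneSpectrum (𝓞 K)) (x : 𝓞 K) : v.valuation K (x : K) ≤ 1 :=
  v.valuation_le_one x

theorem val_om (v : HeightOneSpectrum (𝓞 K)) (j : ℕ) : v.valuation K (om ^ j : K) = 1 := by
  have h1 : om ^ 3 = 1 := om_spec.pow_eq_one
  have h2 : (v.valuation K om) ^ 3 = 1 := by rw [← map_pow, h1, map_one]
  have h3 : v.valuation K om = 1 :=
    (pow_eq_one_iff_of_nonneg zero_le (by norm_num)).1 h2
  rw [map_pow, h3, one_pow]

theorem sq_one {x : F4} (h : x * x = 1) : x = 1 := by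
  revert x
  decide

theorem at_two (x : Fin 3 → 𝓞 K) (cl : Fin 3 → F4) (hcl : ∀ i, Cl (x i) (cl i)) (a m : Fin 3 → K)
    (hm : ∀ i, m i ≠ 0) (ha : ∀ i, a i = m i ^ 2 * (x i : K))
    (h : ∃ c : K, (pv 2 prime_two).valuation K c ≤ 1 ∧ ∀ i : Fin 3, ∃ b : K, b ≠ 0 ∧
      (pv 2 prime_two).valuation K (a i / b ^ 2 - (1 + 2 * om ^ (2 * (i : ℕ)) * c)) ≤
        (pv 2 prime_two).valuation K 4) :
    ∃ z : F4, ∀ i : Fin 3, cl i = F4.w ^ (2 * (i : ℕ)) * z := by
  obtain ⟨ν, hν⟩ : ∃ ν : Valuation K ℤᵐ⁰, ν = (pv 2 prime_two).valuation K := ⟨_, rfl⟩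
  have hν2 : ν 2 = exp (-1) := by rw [hν]; exact val_two
  have hν4 : ν 4 = exp (-2) := by rw [hν]; exact val_four2
  have hνle : ∀ y : 𝓞 K, ν (y : K) ≤ 1 := fun y => by rw [hν]; exact val_le_one _ y
  have hνlt : ∀ y : 𝓞 K, ν (y : K) < 1 ↔ (2 : 𝓞 K) ∣ y := fun y => by
    rw [hν]
    exact pv_lt prime_two
  have hνom : ∀ j : ℕ, ν (om ^ j) = 1 := fun j => by rw [hν]; exact val_om _ j
  have h1 : (exp (-1) : ℤᵐ⁰) < 1 := by
    rw [← exp_zero, exp_lt_exp]
    norm_num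
  have h21 : (exp (-2) : ℤᵐ⁰) ≤ exp (-1) := by
    rw [exp_le_exp]
    norm_num
  obtain ⟨c, hc, hb⟩ := h
  rw [← hν] at hc
  obtain ⟨γ, hγ⟩ := HeightOneSpectrum.exists_valuation_sub_lt_of_integer (K := K)
    (pv 2 prime_two) (x := c) (by rw [← hν]; exact hc) 1
  rw [← hν, Units.val_one] at hγ
  have hγ' : ν ((γ : K) - c) < 1 := hγ
  refine ⟨red γ, fun i => ?_⟩
  obtain ⟨y, hy, hyc⟩ := hcl i
  obtain ⟨b, hb0, hb1⟩ := hb i
  rw [← hν, hν4, ha i] at hb1
  have hxK : ((x i : 𝓞 K) : K) = 1 + 2 * (y : K) := by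
    rw [hy]
    push_cast
    rfl
  -- the element `t`
  obtain ⟨t, ht⟩ : ∃ t : K, t = m i / b := ⟨_, rfl⟩
  have hst : m i ^ 2 * (x i : K) / b ^ 2 = (x i : K) * t ^ 2 := by
    rw [ht]
    field_simp
  rw [hst] at hb1
  have hu2 : ν (2 * om ^ (2 * (i : ℕ)) * c) < 1 := by
    rw [map_mul, map_mul, hν2, hνom, mul_one]
    exact (mul_le_of_le_one_right' hc).trans_lt h1
  have hone : ν (1 + 2 * om ^ (2 * (i : ℕ)) * c) = 1 := by
    have := Valuation.map_add_eq_of_lt_left ν (x := (1 : K)) (y := 2 * om ^ (2 * (i : ℕ)) * c)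
      (by rw [map_one]; exact hu2)
    rw [this, map_one]
  have hx1 : ν (x i : K) = 1 := by
    rw [hxK]
    have := Valuation.map_add_eq_of_lt_left ν (x := (1 : K)) (y := 2 * (y : K))
      (by
        rw [map_one, map_mul, hν2]
        exact (mul_le_of_le_one_right' (hνle y)).trans_lt h1)
    rw [this, map_one]
  have hxt : ν ((x i : K) * t ^ 2) = 1 := by
    have h3 := Valuation.map_add_eq_of_lt_right ν
      (x := (x i : K) * t ^ 2 - (1 + 2 * om ^ (2 * (i : ℕ)) * c))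
      (y := 1 + 2 * om ^ (2 * (i : ℕ)) * c)
      (by
        rw [hone]
        exact (hb1.trans h21).trans_lt h1)
    rw [sub_add_cancel, hone] at h3
    exact h3
  have ht1 : ν t = 1 := by
    rw [map_mul, hx1, one_mul, map_pow] at hxt
    exact (pow_eq_one_iff_of_nonneg zero_le two_ne_zero).1 hxt
  obtain ⟨τ, hτ⟩ := HeightOneSpectrum.exists_valuation_sub_lt_of_integer (K := K)
    (pv 2 prime_two) (x := t) (by rw [← hν]; exact ht1.le) 1
  rw [← hν, Units.val_one] at hτ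
  have hτ' : ν ((τ : K) - t) < 1 := hτ
  -- `τ = 1` modulo `2`
  have hτ2 : (2 : 𝓞 K) ∣ x i * τ ^ 2 - 1 := by
    rw [← hνlt]
    have e : ((x i * τ ^ 2 - 1 : 𝓞 K) : K) =
        ((x i : K) * t ^ 2 - (1 + 2 * om ^ (2 * (i : ℕ)) * c)) +
        ((x i : K) * ((τ : K) + t)) * ((τ : K) - t) + 2 * om ^ (2 * (i : ℕ)) * c := by
      have e1 : ((x i * τ ^ 2 - 1 : 𝓞 K) : K) = (x i : K) * (τ : K) ^ 2 - 1 := by
        push_cast
        rfl
      rw [e1]
      ring
    rw [e]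
    refine Valuation.map_add_lt ν (Valuation.map_add_lt ν ((hb1.trans h21).trans_lt h1) ?_) hu2
    rw [map_mul, map_mul, hx1, one_mul]
    refine (mul_le_of_le_one_left' ?_).trans_lt hτ'
    exact Valuation.map_add_le ν (hνle τ) ht1.le
  have hredx : red (x i) = 1 := by
    have h2 : (2 : F4) = 0 := by decide
    rw [hy, map_add, map_mul, map_ofNat, h2, zero_mul, add_zero, map_one]
  have hredτ : red τ = 1 := by
    rw [← red_zero_iff, map_sub, map_mul, map_pow, hredx, map_one, one_mul, sub_eq_zero] at hτ2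
    apply sq_one
    rw [← pow_two]
    exact hτ2
  have hτ1 : ν ((τ : K) - 1) < 1 := by
    have e : ((τ : K) - 1) = ((τ - 1 : 𝓞 K) : K) := by
      push_cast
      rfl
    rw [e, hνlt, ← red_zero_iff, map_sub, hredτ, map_one, sub_self]
  have htm : ν (t - 1) ≤ exp (-1) := by
    apply lt_one_le
    have e : t - 1 = ((τ : K) - 1) - ((τ : K) - t) := by ring
    rw [e]
    exact (Valuation.map_sub ν _ _).trans_lt (max_lt hτ1 hτ')
  have htp : ν (t + 1) ≤ exp (-1) := by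
    have e : t + 1 = (t - 1) + 2 := by ring
    rw [e]
    exact Valuation.map_add_le ν htm hν2.le
  have ht2 : ν (t ^ 2 - 1) ≤ exp (-2) := by
    have e : t ^ 2 - 1 = (t - 1) * (t + 1) := by ring
    have e2 : (exp (-2) : ℤᵐ⁰) = exp (-1) * exp (-1) := by
      rw [← exp_add]
      rfl
    rw [e, map_mul, e2]
    exact mul_le_mul' htm htp
  have hfin : ν (2 * ((y : K) - om ^ (2 * (i : ℕ)) * c)) ≤ exp (-2) := by
    have e : 2 * ((y : K) - om ^ (2 * (i : ℕ)) * c) =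
        ((x i : K) * t ^ 2 - (1 + 2 * om ^ (2 * (i : ℕ)) * c)) - (x i : K) * (t ^ 2 - 1) := by
      rw [hxK]
      ring
    rw [e]
    refine (Valuation.map_sub ν _ _).trans (max_le hb1 ?_)
    rw [map_mul, hx1, one_mul]
    exact ht2
  have hyc' : ν ((y : K) - om ^ (2 * (i : ℕ)) * c) < 1 := by
    rw [map_mul, hν2] at hfin
    have e2 : (exp (-2) : ℤᵐ⁰) = exp (-1) * exp (-1) := by
      rw [← exp_add]
      rfl
    rw [e2] at hfin
    have h3 : ν ((y : K) - om ^ (2 * (i : ℕ)) * c) ≤ exp (-1) := by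
      refine le_of_mul_le_mul_left ?_ (show (0 : ℤᵐ⁰) < exp (-1) from exp_pos)
      exact hfin
    exact h3.trans_lt h1
  have hlast : (2 : 𝓞 K) ∣ y - wO ^ (2 * (i : ℕ)) * γ := by
    rw [← hνlt]
    have e : ((y - wO ^ (2 * (i : ℕ)) * γ : 𝓞 K) : K) =
        ((y : K) - om ^ (2 * (i : ℕ)) * c) - om ^ (2 * (i : ℕ)) * ((γ : K) - c) := by
      have e1 : ((y - wO ^ (2 * (i : ℕ)) * γ : 𝓞 K) : K) =
          (y : K) - om ^ (2 * (i : ℕ)) * (γ : K) := by
        push_cast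
        rfl
      rw [e1]
      ring
    rw [e]
    refine (Valuation.map_sub ν _ _).trans_lt (max_lt hyc' ?_)
    rw [map_mul, hνom, one_mul]
    exact hγ'
  rw [← red_zero_iff, map_sub, map_mul, map_pow, red_w, sub_eq_zero] at hlast
  rw [← hyc, hlast]

/-! ### classes of the points of order two -/

theorem om_rel : om ^ 2 = -1 - om := by linear_combination om_quad

theorem st_zero (S : Finset Pq) (i : Fin 3) : st S 0 i = 1 := by
  have h1 : io 0 i = 0 := by
    revert i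
    decide
  have h2 : io (F4.w * F4.w * 0) i = 0 := by
    revert i
    decide
  unfold st
  rw [h1, h2, ZMod.val_zero, pow_zero, pow_zero, one_mul]

theorem ee_st (S : Finset Pq) (j i : Fin 3) (hij : i ≠ j) : ∃ r : K, r ≠ 0 ∧
    ee om ((dl S : 𝓞 K) : K) j - ee om ((dl S : 𝓞 K) : K) i =
      ((st S (F4.w ^ (j : ℕ)) i : 𝓞 K) : K) * r ^ 2 := by
  have hom : om ≠ 0 := om_spec.ne_zero (by norm_num)
  have h1 : ((1 : ZMod 2)).val = 1 := rfl
  have h0 : ((0 : ZMod 2)).val = 0 := rfl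
  obtain ⟨D, hD⟩ : ∃ D : K, D = ((dl S : 𝓞 K) : K) := ⟨_, rfl⟩
  have k : ∀ (c : F4) (i : Fin 3) (x y : ZMod 2), io c i = x → io (F4.w * F4.w * c) i = y →
      ((st S c i : 𝓞 K) : K) = (D * (1 + 2 * om)) ^ x.val * (-1) ^ y.val := by
    intro c i x y hx hy
    unfold st
    rw [hx, hy, hD, ← coe_s3]
    push_cast
    rfl
  rw [← hD]
  unfold ee
  fin_cases j <;> fin_cases i
  · exact absurd rfl hij
  · refine ⟨om, hom, ?_⟩
    show -(om ^ 0 * D) - -(om ^ 1 * D) = ((st S (F4.w ^ 0) 1 : 𝓞 K) : K) * (om) ^ 2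
    rw [k _ _ 1 1 (by decide) (by decide)]
    simp only [h1, h0, pow_one, pow_zero]
    linear_combination (D * (2 * om - 1)) * om_quad
  · refine ⟨om ^ 2, pow_ne_zero 2 hom, ?_⟩
    show -(om ^ 0 * D) - -(om ^ 2 * D) = ((st S (F4.w ^ 0) 2 : 𝓞 K) : K) * (om ^ 2) ^ 2
    rw [k _ _ 1 0 (by decide) (by decide)]
    simp only [h1, h0, pow_one, pow_zero]
    linear_combination (D * (-2 * om ^ 3 + om ^ 2 + om - 1)) * om_quad
  · refine ⟨om, hom, ?_⟩
    show -(om ^ 1 * D) - -(om ^ 0 * D) = ((st S (F4.w ^ 1) 0 : 𝓞 K) : K) * (om) ^ 2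
    rw [k _ _ 1 0 (by decide) (by decide)]
    simp only [h1, h0, pow_one, pow_zero]
    linear_combination (D * (1 - 2 * om)) * om_quad
  · exact absurd rfl hij
  · refine ⟨1, one_ne_zero, ?_⟩
    show -(om ^ 1 * D) - -(om ^ 2 * D) = ((st S (F4.w ^ 1) 2 : 𝓞 K) : K) * (1) ^ 2
    rw [k _ _ 1 1 (by decide) (by decide)]
    simp only [h1, h0, pow_one, pow_zero]
    linear_combination (D) * om_quad
  · refine ⟨om ^ 2, pow_ne_zero 2 hom, ?_⟩
    show -(om ^ 2 * D) - -(om ^ 0 * D) = ((st S (F4.w ^ 2) 0 : 𝓞 K) : K) * (om ^ 2) ^ 2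
    rw [k _ _ 1 1 (by decide) (by decide)]
    simp only [h1, h0, pow_one, pow_zero]
    linear_combination (D * (2 * om ^ 3 - om ^ 2 - om + 1)) * om_quad
  · refine ⟨1, one_ne_zero, ?_⟩
    show -(om ^ 2 * D) - -(om ^ 1 * D) = ((st S (F4.w ^ 2) 1 : 𝓞 K) : K) * (1) ^ 2
    rw [k _ _ 1 0 (by decide) (by decide)]
    simp only [h1, h0, pow_one, pow_zero]
    linear_combination (-D) * om_quad
  · exact absurd rfl hij

end

end Pool.Agent.Lib.MP_1a91b9_ntH.C.Sel
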