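import Pool.Agent.Lib.MP_1a91b9_ntH.C.Sel

/-!
# MP_1a91b9_nt (TwistDensity), part C: the Selmer group, assembly

`sel_class`: if the matrix `M_S` is invertible, a triple `a` of elements of `K` whose product is a square
and which satisfies the local conditions is the class of a point of order two.
-/

set_option autoImplicit false
set_option linter.unusedSectionVars false
set_option linter.unusedVariables false

namespace Pool.Agent.Lib.MP_1a91b9_ntH.C.Sel

open NumberField Finset WithZero IsDedekindDomain Pool.Agent.Lib.MP_1a91b9_ntT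
open Pool.Agent.Lib.MP_1a91b9_ntH (wO s3 Pq qd DD dl red half qs sgz)

noncomputable section

theorem dlK_ne (S : Finset Pq) : ((dl S : 𝓞 K) : K) ≠ 0 := fun h => dl_ne S (RingOfIntegers.ext h)

theorem stK_ne (S : Finset Pq) (c : F4) (i : Fin 3) : ((st S c i : 𝓞 K) : K) ≠ 0 :=
  fun h => st_ne S c i (RingOfIntegers.ext h)

theorem gpK_ne (S : Finset Pq) (n k : ZMod 2) (V : Pq → ZMod 2) : ((gp S n k V : 𝓞 K) : K) ≠ 0 :=
  fun h => gp_ne S n k V (RingOfIntegers.ext h)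

theorem pow_three_sq {M : Type*} [CommMonoid M] (x : M) (a b : ZMod 2) :
    IsSquare (x ^ b.val * x ^ a.val * x ^ (a + b).val) := by
  have h0 : ∀ e : ZMod 2, e = 0 ∨ e = 1 := by decide
  have h1 : ((1 : ZMod 2)).val = 1 := rfl
  have h2 : ((0 : ZMod 2)).val = 0 := rfl
  have h3 : ((1 + 1 : ZMod 2)).val = 0 := rfl
  rcases h0 a with rfl | rfl <;> rcases h0 b with rfl | rfl
  · simp [h2]
  · simp only [zero_add, h1, h2, pow_one, pow_zero, mul_one]
    exact ⟨x, rfl⟩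
  · simp only [add_zero, h1, h2, pow_one, pow_zero, one_mul]
    exact ⟨x, rfl⟩
  · simp only [h1, h3, pow_one, pow_zero, mul_one]
    exact ⟨x, rfl⟩

theorem st_prod (S : Finset Pq) (c : F4) : IsSquare (st S c 0 * st S c 1 * st S c 2) := by
  have h1 := pow_three_sq (dl S * s3) c.a c.b
  have h2 := pow_three_sq (-1 : 𝓞 K) (F4.w * F4.w * c).a (F4.w * F4.w * c).b
  have e : st S c 0 * st S c 1 * st S c 2 =
      ((dl S * s3) ^ c.b.val * (dl S * s3) ^ c.a.val * (dl S * s3) ^ (c.a + c.b).val) *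
      ((-1) ^ (F4.w * F4.w * c).b.val * (-1) ^ (F4.w * F4.w * c).a.val *
        (-1) ^ ((F4.w * F4.w * c).a + (F4.w * F4.w * c).b).val) := by
    show ((dl S * s3) ^ c.b.val * (-1) ^ (F4.w * F4.w * c).b.val) *
      ((dl S * s3) ^ c.a.val * (-1) ^ (F4.w * F4.w * c).a.val) *
      ((dl S * s3) ^ (c.a + c.b).val * (-1) ^ ((F4.w * F4.w * c).a + (F4.w * F4.w * c).b).val) = _
    ring
  rw [e]
  exact h1.mul h2

/-- The local condition at a prime of `S`. -/
theorem bad_st (S : Finset Pq) {q : Pq} (hq : q ∈ S) (a : Fin 3 → K) (ha : ∀ i, a i ≠ 0)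
    (hp : IsSquare (a 0 * a 1 * a 2))
    (h : GLoc ((pv q.1 q.prime).valuation K) om ((dl S : 𝓞 K) : K) a) :
    ∃ c : F4, ∀ i, Sq ((pv q.1 q.prime).valuation K) (a i * ((st S c i : 𝓞 K) : K)) := by
  have hqv : q.1 ∈ (pv q.1 q.prime).asIdeal := Ideal.mem_span_singleton_self _
  obtain ⟨h4, hee⟩ := hyp_bad S (pv q.1 q.prime) q hq hqv
  rcases loc_bad ((pv q.1 q.prime).valuation K) om_quad (dlK_ne S) h4 (-1) hee a ha hp h with
    h1 | ⟨j, h1⟩
  · refine ⟨0, fun i => ?_⟩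
    have e : ((st S 0 i : 𝓞 K) : K) = 1 := by
      rw [st_zero]
      rfl
    rw [e, mul_one]
    exact h1 i
  · have key : ∀ i, i ≠ j → Sq ((pv q.1 q.prime).valuation K)
        (a i * ((st S (F4.w ^ (j : ℕ)) i : 𝓞 K) : K)) := by
      intro i hij
      obtain ⟨r, hr, he⟩ := ee_st S j i hij
      have h2 := h1 i hij
      rw [he, ← mul_assoc] at h2
      exact Sq.of_mul_sq hr h2
    refine ⟨F4.w ^ (j : ℕ), fun i => ?_⟩
    by_cases hij : i = j
    · subst hij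
      obtain ⟨f, hf⟩ : ∃ f : Fin 3 → K, ∀ l, f l = a l * ((st S (F4.w ^ (i : ℕ)) l : 𝓞 K) : K) :=
        ⟨_, fun _ => rfl⟩
      obtain ⟨k, l, hk, hl, -, -, hprod⟩ := prod_split f i
      have hfsq : IsSquare (f 0 * f 1 * f 2) := by
        obtain ⟨r, hr⟩ := hp
        obtain ⟨s, hs⟩ := st_prod S (F4.w ^ (i : ℕ))
        refine ⟨r * (s : K), ?_⟩
        have hs' : ((st S (F4.w ^ (i : ℕ)) 0 : 𝓞 K) : K) * ((st S (F4.w ^ (i : ℕ)) 1 : 𝓞 K) : K) *
            ((st S (F4.w ^ (i : ℕ)) 2 : 𝓞 K) : K) = (s : K) * (s : K) := by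
          have := congrArg (fun x : 𝓞 K => (x : K)) hs
          push_cast at this
          exact this
        rw [hf, hf, hf]
        linear_combination ((st S (F4.w ^ (i : ℕ)) 0 : 𝓞 K) : K) *
          ((st S (F4.w ^ (i : ℕ)) 1 : 𝓞 K) : K) * ((st S (F4.w ^ (i : ℕ)) 2 : 𝓞 K) : K) * hr +
          r * r * hs'
      have hf0 : ∀ l, f l ≠ 0 := fun l => by
        rw [hf]
        exact mul_ne_zero (ha l) (stK_ne _ _ _)
      have h3 : Sq ((pv q.1 q.prime).valuation K) (f i * (f k * f l)) := by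
        rw [← hprod]
        exact Sq.of_isSquare hfsq (mul_ne_zero (mul_ne_zero (hf0 0) (hf0 1)) (hf0 2))
      have h5 : Sq ((pv q.1 q.prime).valuation K) (f k * f l) :=
        Sq.mul h4.le (by rw [hf]; exact key k hk) (by rw [hf]; exact key l hl)
      have h6 := Sq.cancel h4.le h3 h5
      rw [hf] at h6
      exact h6
    · exact key i hij

/-! ### coordinates -/

theorem sum_a {S : Finset Pq} (f : Pq → F4) : (∑ q ∈ S, f q).a = ∑ q ∈ S, (f q).a := by
  classical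
  induction S using Finset.induction_on with
  | empty => rfl
  | insert a S ha ih =>
    rw [sum_insert ha, sum_insert ha, ← ih]
    rfl

theorem sum_b {S : Finset Pq} (f : Pq → F4) : (∑ q ∈ S, f q).b = ∑ q ∈ S, (f q).b := by
  classical
  induction S using Finset.induction_on with
  | empty => rfl
  | insert a S ha ih =>
    rw [sum_insert ha, sum_insert ha, ← ih]
    rfl

theorem of_mul_a (x : ZMod 2) (y : F4) : (F4.of x * y).a = x * y.a := by
  revert x y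
  decide

theorem of_mul_b (x : ZMod 2) (y : F4) : (F4.of x * y).b = x * y.b := by
  revert x y
  decide

theorem add_a (x y : F4) : (x + y).a = x.a + y.a := rfl
theorem add_b (x y : F4) : (x + y).b = x.b + y.b := rfl

theorem of_sum {S : Finset Pq} (f : Pq → ZMod 2) : F4.of (∑ q ∈ S, f q) = ∑ q ∈ S, F4.of (f q) := by
  classical
  induction S using Finset.induction_on with
  | empty => rfl
  | insert a S ha ih => rw [sum_insert ha, sum_insert ha, F4.of_add, ih]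

theorem e2_a0 (n k : ZMod 2) (z A : F4) (h : F4.of n * 1 + F4.of k * F4.w + A = 1 * z) :
    A = F4.of n + F4.of k * F4.w + z := by
  revert n k z A
  decide

theorem e2_a1 (n k : ZMod 2) (z A : F4) (h : F4.of n * 1 + F4.of k * F4.w + A = F4.w * F4.w * z) :
    A = F4.of n + F4.of k * F4.w + F4.w * F4.w * z := by
  revert n k z A
  decide

theorem e2_n (n0 k0 n1 k1 n2 k2 : ZMod 2) : ∀ z : F4,
    F4.of n2 * 1 + F4.of k2 * F4.w + (F4.of n1 + F4.of k1 * F4.w + F4.w * F4.w * z +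
      (F4.of n0 + F4.of k0 * F4.w + z)) = F4.w * z → n2 = n0 + n1 ∧ k2 = k0 + k1 := by
  revert n0 k0 n1 k1 n2 k2
  decide

theorem e2_f (n0 k0 n1 k1 : ZMod 2) : ∀ z : F4, (⟨n1, n0⟩ : F4) = F4.w * F4.w * ⟨k1, k0⟩ +
    (F4.of (F4.of n1 + F4.of k1 * F4.w + F4.w * F4.w * z).a +
      F4.of (F4.of n1 + F4.of k1 * F4.w + F4.w * F4.w * z).b +
      F4.of (F4.of n0 + F4.of k0 * F4.w + z).b +
      F4.w * (F4.of (F4.of n0 + F4.of k0 * F4.w + z).a +
        F4.of (F4.of n1 + F4.of k1 * F4.w + F4.w * F4.w * z).b)) := by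
  revert n0 k0 n1 k1
  decide

/-- The equation at `2`. -/
theorem E2_of (S : Finset Pq) (Vf : Pq → F4) (n k : Fin 3 → ZMod 2) (z : F4)
    (h : ∀ i : Fin 3, F4.of (n i) * 1 + F4.of (k i) * F4.w +
      ∑ q ∈ S, F4.of (io (Vf q) i) * qd.a q = F4.w ^ (2 * (i : ℕ)) * z) :
    (⟨n 1, n 0⟩ : F4) = F4.w * F4.w * ⟨k 1, k 0⟩ + ∑ q ∈ S, F4.cj (qd.a q) * Vf q ∧
      n 2 = n 0 + n 1 ∧ k 2 = k 0 + k 1 := by
  -- the sums
  obtain ⟨A0, hA0⟩ : ∃ A : F4, A = ∑ q ∈ S, F4.of (Vf q).b * qd.a q := ⟨_, rfl⟩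
  obtain ⟨A1, hA1⟩ : ∃ A : F4, A = ∑ q ∈ S, F4.of (Vf q).a * qd.a q := ⟨_, rfl⟩
  have h0 := h 0
  have h1 := h 1
  have h2 := h 2
  have e0 : ∀ q, io (Vf q) 0 = (Vf q).b := fun q => rfl
  have e1 : ∀ q, io (Vf q) 1 = (Vf q).a := fun q => rfl
  have e2 : ∀ q, io (Vf q) 2 = (Vf q).a + (Vf q).b := fun q => rfl
  simp only [e0, ← hA0] at h0
  simp only [e1, ← hA1] at h1
  have e3 : ∑ q ∈ S, F4.of (io (Vf q) 2) * qd.a q = A1 + A0 := by
    rw [hA0, hA1, ← sum_add_distrib]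
    refine sum_congr rfl fun q _ => ?_
    rw [e2, F4.of_add, add_mul]
  rw [e3] at h2
  have e4 : ∑ q ∈ S, F4.cj (qd.a q) * Vf q =
      F4.of A1.a + F4.of A1.b + F4.of A0.b + F4.w * (F4.of A0.a + F4.of A1.b) := by
    have e5 : ∀ x y : F4, F4.cj x * y = F4.of (F4.of y.a * x).a + F4.of (F4.of y.a * x).b +
        F4.of (F4.of y.b * x).b + F4.w * (F4.of (F4.of y.b * x).a + F4.of (F4.of y.a * x).b) := by
      decide
    rw [sum_congr rfl fun q _ => e5 (qd.a q) (Vf q), hA0, hA1]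
    simp only [sum_add_distrib, ← mul_sum, sum_a, sum_b, of_sum]
  rw [e4]
  have hv0 : F4.w ^ (2 * ((0 : Fin 3) : ℕ)) = 1 := by decide
  have hv1 : F4.w ^ (2 * ((1 : Fin 3) : ℕ)) = F4.w * F4.w := by decide
  have hv2 : F4.w ^ (2 * ((2 : Fin 3) : ℕ)) = F4.w := by decide
  rw [hv0] at h0
  rw [hv1] at h1
  rw [hv2] at h2
  have h0' := e2_a0 _ _ _ _ h0
  have h1' := e2_a1 _ _ _ _ h1
  rw [h0', h1'] at h2
  rw [h0', h1']
  exact ⟨e2_f _ _ _ _ z, e2_n _ _ _ _ _ _ z h2⟩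

end

end Pool.Agent.Lib.MP_1a91b9_ntH.C.Sel
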