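import Pool.Agent.Lib.MP_1a91b9_ntH.C.SelV

/-!
# MP_1a91b9_nt (TwistDensity), part C: the local conditions at the primes of `S` and at `2`, as equations
-/

set_option autoImplicit false
set_option linter.unusedSectionVars false
set_option linter.unusedVariables false

namespace Pool.Agent.Lib.MP_1a91b9_ntH.C.Sel

open NumberField Finset WithZero IsDedekindDomain Pool.Agent.Lib.MP_1a91b9_ntT
open Pool.Agent.Lib.MP_1a91b9_ntH (wO s3 Pq qd DD dl red half qs sgz)

noncomputable section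

/-! ### at a prime of `S` -/

theorem val_four (q : Pq) : (pv q.1 q.prime).valuation K (4 : K) = 1 := by
  have h1 : ((4 : 𝓞 K) : K) = 4 := rfl
  rw [← h1]
  apply pv_one
  intro h
  have h2 : (4 : 𝓞 K) = 2 * 2 := by norm_num
  rw [h2] at h
  have h3 : q.1 ∣ 2 := by
    rcases q.prime.dvd_or_dvd h with h | h <;> exact h
  have h4 := isEis.assoc_of_dvd q.prime prime_two h3
  have h5 : (2 : 𝓞 K) ∣ 1 := by
    have h6 := dvd_sub h4.symm.dvd q.two_dvd
    rwa [sub_sub_cancel] at h6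
  exact prime_two.not_isUnit (isUnit_of_dvd_one h5)

theorem sq_qs (q : Pq) {x : 𝓞 K} (hx : ¬ q.1 ∣ x)
    (h : Sq ((pv q.1 q.prime).valuation K) (x : K)) : qs q x = 1 := by
  obtain ⟨b, hb, hb'⟩ := h
  rw [val_four] at hb'
  have hvx := pv_one q.prime hx
  have h1 : (pv q.1 q.prime).valuation K ((x : K) / b ^ 2) = 1 := by
    have h2 := Valuation.map_add_eq_of_lt_right ((pv q.1 q.prime).valuation K)
      (x := (x : K) / b ^ 2 - 1) (y := 1) (by rw [map_one]; exact hb')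
    rw [sub_add_cancel, map_one] at h2
    exact h2
  have hvb : (pv q.1 q.prime).valuation K b = 1 := by
    have hb0 : (pv q.1 q.prime).valuation K b ≠ 0 := (Valuation.ne_zero_iff _).2 hb
    rw [map_div₀, map_pow, hvx, div_eq_one_iff_eq (pow_ne_zero 2 hb0)] at h1
    exact (pow_eq_one_iff_of_nonneg zero_le two_ne_zero).1 h1.symm
  obtain ⟨n, ⟨d, hd⟩, hnd⟩ :=
    HeightOneSpectrum.exists_primeCompl_mul_eq_of_integer (pv q.1 q.prime) b hvb.le
  have hnd' : b * (d : K) = (n : K) := hnd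
  have hd' : ¬ q.1 ∣ d := fun hh => hd (Ideal.mem_span_singleton.2 hh)
  have hvd := pv_one q.prime hd'
  have hn : ¬ q.1 ∣ n := by
    rw [← pv_lt q.prime, ← hnd', map_mul, hvb, hvd, one_mul]
    exact lt_irrefl _
  have h2 : q.1 ∣ x * d ^ 2 - n ^ 2 := by
    rw [← pv_lt q.prime]
    have h3 : ((x * d ^ 2 - n ^ 2 : 𝓞 K) : K) = ((x : K) / b ^ 2 - 1) * (b * d) ^ 2 := by
      have e1 : ((x * d ^ 2 - n ^ 2 : 𝓞 K) : K) = (x : K) * (d : K) ^ 2 - (n : K) ^ 2 := by
        push_cast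
        rfl
      rw [e1, ← hnd']
      field_simp
    rw [h3, map_mul, map_pow, map_mul, hvb, hvd, one_mul, one_pow, mul_one]
    exact hb'
  have h3 := qs_congr h2
  rw [qs_mul, qs_sq hd', qs_sq hn, mul_one] at h3
  exact h3

/-- The indices of the class of a point of order two. -/
def io (z : F4) : Fin 3 → ZMod 2 := ![z.b, z.a, z.a + z.b]

/-- The class of a point of order two. -/
def st (S : Finset Pq) (c : F4) (i : Fin 3) : 𝓞 K :=
  (dl S * s3) ^ (io c i).val * (-1) ^ (io (F4.w * F4.w * c) i).val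

theorem dl_ne (S : Finset Pq) : dl S ≠ 0 := by
  unfold dl DD
  refine mul_ne_zero (mul_ne_zero ?_ ?_) (prod_ne_zero_iff.2 fun q _ => q.prime.ne_zero)
  · split_ifs
    · exact one_ne_zero
    · exact prime_s3.ne_zero
  · split_ifs
    · exact one_ne_zero
    · exact neg_ne_zero.2 one_ne_zero

theorem st_ne (S : Finset Pq) (c : F4) (i : Fin 3) : st S c i ≠ 0 :=
  mul_ne_zero (pow_ne_zero _ (mul_ne_zero (dl_ne S) prime_s3.ne_zero))
    (pow_ne_zero _ (neg_ne_zero.2 one_ne_zero))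

theorem dl_gp (S : Finset Pq) : dl S = gp S (qd.A S).a (qd.A S).b (fun _ => 1) := by
  unfold dl gp DD
  have h0 : ∀ x : ZMod 2, x = 0 ∨ x = 1 := by decide
  have h1 : ((1 : ZMod 2)).val = 1 := rfl
  rcases h0 (qd.A S).a with ha | ha <;> rcases h0 (qd.A S).b with hb | hb <;>
    simp only [ha, hb, ZMod.val_zero, h1, pow_zero, pow_one, if_true, one_ne_zero, if_false,
      one_mul, mul_one] <;> ring

theorem qs_pow (q : Pq) (x : 𝓞 K) (m : ℕ) : qs q (x ^ m) = qs q x ^ m := by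
  induction m with
  | zero => rw [pow_zero, pow_zero, qs_one]
  | succ m ih => rw [pow_succ, pow_succ, qs_mul, ih]

theorem sgz_pow (x e : ZMod 2) : sgz x ^ e.val = sgz (e * x) := by
  revert x e
  decide

theorem qs_gp {S : Finset Pq} {q : Pq} (hq : q ∉ S) (n k : ZMod 2) (V : Pq → ZMod 2) :
    qs q (gp S n k V) = sgz (n * F4.tr (qd.a q) + k * F4.tr (F4.w * qd.a q) +
      ∑ p ∈ S, V p * qd.s p q) := by
  unfold gp
  rw [qs_mul, qs_mul, qs_pow, qs_pow, qs_neg_one, qs_s3, sgz_pow, sgz_pow, qs_prod, sgz_add,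
    sgz_add, sgz_sum]
  congr 1
  refine prod_congr rfl fun p hp => ?_
  rw [qs_pow, qs_prime q p (fun h => hq (h ▸ hp)), sgz_pow]

theorem even_val {x y : ZMod 2} (h : Even (x.val + y.val)) : x = y := by
  revert x y
  decide

theorem exp_pow (m : ℕ) : (exp (-1) : ℤᵐ⁰) ^ m = exp (-(m : ℤ)) := by
  rw [← exp_nsmul]
  congr 1
  simp

/-- The equation at `q`. -/
theorem eq_at {S : Finset Pq} {q : Pq} (hq : q ∈ S) (n k : ZMod 2) (V : Pq → ZMod 2) (c : F4)
    (i : Fin 3) (h : Sq ((pv q.1 q.prime).valuation K) ((gp S n k V * st S c i : 𝓞 K) : K)) :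
    V q = io c i ∧ n * F4.tr (qd.a q) + k * F4.tr (F4.w * qd.a q) +
      ∑ p ∈ S.erase q, V p * qd.s p q + io c i * ((qd.A S).a * F4.tr (qd.a q) +
        ((qd.A S).b + 1) * F4.tr (F4.w * qd.a q) + ∑ p ∈ S.erase q, qd.s p q) +
      io (F4.w * F4.w * c) i * F4.tr (qd.a q) = 0 := by
  have h4 : (pv q.1 q.prime).valuation K (4 : K) ≤ 1 := (val_four q).le
  obtain ⟨t, ht⟩ : ∃ t : 𝓞 K, t = gp (S.erase q) n k V *
      (gp (S.erase q) (qd.A S).a (qd.A S).b (fun _ => 1) * s3) ^ (io c i).val *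
        (-1) ^ (io (F4.w * F4.w * c) i).val := ⟨_, rfl⟩
  have hnt : ¬ q.1 ∣ t := by
    rw [ht]
    intro hd
    rcases q.prime.dvd_or_dvd hd with h1 | h1
    · rcases q.prime.dvd_or_dvd h1 with h2 | h2
      · exact not_dvd_gp_erase _ _ _ h2
      · rcases q.prime.dvd_or_dvd (q.prime.dvd_of_dvd_pow h2) with h3 | h3
        · exact not_dvd_gp_erase _ _ _ h3
        · exact not_dvd_s3 q h3
    · exact not_dvd_of_unit q.prime ((isUnit_one.neg).pow _) h1
  have h1 : ((1 : ZMod 2)).val = 1 := rfl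
  have hfac : gp S n k V * st S c i = q.1 ^ ((V q).val + (io c i).val) * t := by
    rw [ht, gp_erase hq, st, dl_gp, gp_erase hq (qd.A S).a, h1, pow_one]
    ring
  have hval : (pv q.1 q.prime).valuation K ((gp S n k V * st S c i : 𝓞 K) : K) =
      exp (-(((V q).val + (io c i).val : ℕ) : ℤ)) := by
    rw [hfac]
    push_cast
    rw [map_mul, map_pow, pv_self, pv_one q.prime hnt, mul_one, exp_pow]
    push_cast
    rfl
  have hev := h.even h4
  rw [hval] at hev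
  have hev2 := exp_odd hev
  rw [even_neg, Int.even_coe_nat] at hev2
  have hVc := even_val hev2
  refine ⟨hVc, ?_⟩
  have hsq : Sq ((pv q.1 q.prime).valuation K) (t : K) := by
    have hqK : (q.1 : K) ≠ 0 := fun h0 => q.prime.ne_zero (RingOfIntegers.ext h0)
    have h5 := h.mul h4 (Sq.of_isSquare (ν := (pv q.1 q.prime).valuation K)
      (u := (1 / (q.1 : K) ^ (V q).val) ^ 2) ⟨1 / (q.1 : K) ^ (V q).val, by ring⟩
      (pow_ne_zero 2 (div_ne_zero one_ne_zero (pow_ne_zero _ hqK))))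
    have h6 : ((gp S n k V * st S c i : 𝓞 K) : K) * (1 / (q.1 : K) ^ (V q).val) ^ 2 = (t : K) := by
      rw [hfac, ← hVc]
      push_cast
      rw [← two_mul, pow_mul']
      field_simp
    rw [h6] at h5
    exact h5
  have hqs := sq_qs q hnt hsq
  have hnq : q ∉ S.erase q := notMem_erase q S
  rw [ht, qs_mul, qs_mul, qs_pow, qs_mul, qs_gp hnq, qs_gp hnq, qs_s3, qs_pow, qs_neg_one,
    sgz_pow, ← sgz_add, sgz_pow, ← sgz_add, ← sgz_add] at hqs
  have h7 : sgz 0 = 1 := rfl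
  rw [← h7] at hqs
  have h8 := sgz_inj hqs
  simp only [one_mul] at h8
  rw [← h8]
  ring

/-! ### the class modulo `4` of an element which is `1` modulo `2` -/

/-- `x = 1 + 2 y` with `y = c` modulo `2`. -/
def Cl (x : 𝓞 K) (c : F4) : Prop := ∃ y : 𝓞 K, x = 1 + 2 * y ∧ red y = c

theorem Cl.mul {x y : 𝓞 K} {c d : F4} (h : Cl x c) (h' : Cl y d) : Cl (x * y) (c + d) := by
  obtain ⟨a, rfl, rfl⟩ := h
  obtain ⟨b, rfl, rfl⟩ := h'
  refine ⟨a + b + 2 * (a * b), by ring, ?_⟩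
  have h2 : (2 : F4) = 0 := by decide
  rw [map_add, map_add, map_mul, map_ofNat, h2, zero_mul, add_zero]

theorem Cl.one : Cl 1 0 := ⟨0, by ring, by rw [map_zero]⟩

theorem Cl.neg_one : Cl (-1) 1 := ⟨-1, by ring, by rw [map_neg, map_one]; decide⟩

theorem Cl.s3 : Cl s3 F4.w := ⟨wO, rfl, red_w⟩

theorem Cl.prime (q : Pq) : Cl q.1 (qd.a q) := ⟨half q.1, half_spec q.two_dvd, rfl⟩

theorem Cl.pow {x : 𝓞 K} {c : F4} (h : Cl x c) (e : ZMod 2) : Cl (x ^ e.val) (F4.of e * c) := by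
  have h0 : ∀ e : ZMod 2, e = 0 ∨ e = 1 := by decide
  rcases h0 e with rfl | rfl
  · rw [ZMod.val_zero, pow_zero]
    have h1 : F4.of 0 * c = 0 := by
      revert c
      intro c _
      generalize c = c'
      revert c'
      decide
    rw [h1]
    exact Cl.one
  · have h1 : ((1 : ZMod 2)).val = 1 := rfl
    rw [h1, pow_one]
    have h2 : F4.of 1 * c = c := one_mul c
    rw [h2]
    exact h

theorem Cl.prod {S : Finset Pq} {f : Pq → 𝓞 K} {g : Pq → F4} (h : ∀ q ∈ S, Cl (f q) (g q)) :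
    Cl (∏ q ∈ S, f q) (∑ q ∈ S, g q) := by
  classical
  induction S using Finset.induction_on with
  | empty => exact Cl.one
  | insert a S ha ih =>
    rw [prod_insert ha, sum_insert ha]
    exact (h a (mem_insert_self a S)).mul (ih fun q hq => h q (mem_insert_of_mem hq))

theorem Cl.gp (S : Finset Pq) (n k : ZMod 2) (V : Pq → ZMod 2) :
    Cl (gp S n k V) (F4.of n * 1 + F4.of k * F4.w + ∑ q ∈ S, F4.of (V q) * qd.a q) :=
  ((Cl.neg_one.pow n).mul (Cl.s3.pow k)).mul (Cl.prod fun q _ => (Cl.prime q).pow _)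

/-- `dl S` is `1` modulo `4`. -/
theorem four_dvd_dl (S : Finset Pq) : (4 : 𝓞 K) ∣ dl S - 1 := by
  have h := Cl.gp S (qd.A S).a (qd.A S).b (fun _ => 1)
  rw [← dl_gp] at h
  have h1 : ∑ q ∈ S, F4.of 1 * qd.a q = qd.A S := by
    unfold Dat.A
    exact sum_congr rfl fun q _ => one_mul _
  rw [h1] at h
  have h2 : F4.of (qd.A S).a * 1 + F4.of (qd.A S).b * F4.w + qd.A S = 0 := by
    generalize qd.A S = x
    revert x
    decide
  rw [h2] at h
  obtain ⟨y, hy, hy0⟩ := h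
  have h3 := (eq_cp y)
  have h4 : red y = ⟨((cp y).1 : ZMod 2), ((cp y).2 : ZMod 2)⟩ := rfl
  rw [h4] at hy0
  have h5 : (((cp y).1 : ℤ) : ZMod 2) = 0 := congrArg F4.a hy0
  have h6 : (((cp y).2 : ℤ) : ZMod 2) = 0 := congrArg F4.b hy0
  rw [ZMod.intCast_zmod_eq_zero_iff_dvd] at h5 h6
  obtain ⟨s, hs⟩ := h5
  obtain ⟨t, ht⟩ := h6
  refine ⟨s + t * wO, ?_⟩
  rw [hy, h3, hs, ht]
  push_cast
  ring

theorem red_zero_iff {y : 𝓞 K} : red y = 0 ↔ (2 : 𝓞 K) ∣ y := by
  constructor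
  · intro hy0
    have h3 := (eq_cp y)
    have h4 : red y = ⟨((cp y).1 : ZMod 2), ((cp y).2 : ZMod 2)⟩ := rfl
    rw [h4] at hy0
    have h5 : (((cp y).1 : ℤ) : ZMod 2) = 0 := congrArg F4.a hy0
    have h6 : (((cp y).2 : ℤ) : ZMod 2) = 0 := congrArg F4.b hy0
    rw [ZMod.intCast_zmod_eq_zero_iff_dvd] at h5 h6
    obtain ⟨s, hs⟩ := h5
    obtain ⟨t, ht⟩ := h6
    refine ⟨s + t * wO, ?_⟩
    rw [h3, hs, ht]
    push_cast
    ring
  · rintro ⟨y, rfl⟩
    have h2 : (2 : F4) = 0 := by decide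
    rw [map_mul, map_ofNat, h2, zero_mul]

theorem lt_one_le {x : ℤᵐ⁰} (h : x < 1) : x ≤ exp (-1) := by
  by_cases h0 : x = 0
  · rw [h0]
    exact zero_le
  · obtain ⟨m, rfl⟩ : ∃ m : ℤ, x = exp m := ⟨log x, (exp_log h0).symm⟩
    rw [← exp_zero, exp_lt_exp] at h
    rw [exp_le_exp]
    omega

end

end Pool.Agent.Lib.MP_1a91b9_ntH.C.Sel
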