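import Pool.Agent.Lib.MP_1a91b9_ntH.R.Qd
import Pool.Agent.Lib.MP_1a91b9_ntH.C.Hyp

/-!
# MP_1a91b9_nt (TwistDensity), part C: elements of `K` with even valuations; classes modulo 4
-/

set_option autoImplicit false
set_option linter.unusedSectionVars false
set_option linter.unusedVariables false

namespace Pool.Agent.Lib.MP_1a91b9_ntH.C.Sel

open NumberField Finset WithZero IsDedekindDomain Pool.Agent.Lib.MP_1a91b9_ntT
open Pool.Agent.Lib.MP_1a91b9_ntH (wO s3 Pq qd DD dl red half)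

noncomputable section

instance pidO : IsPrincipalIdealRing (𝓞 K) := IsCyclotomicExtension.Rat.three_pid K

/-- The prime ideal of a prime element. -/
def pv (π : 𝓞 K) (h : Prime π) : HeightOneSpectrum (𝓞 K) where
  asIdeal := Ideal.span {π}
  isPrime := (Ideal.span_singleton_prime h.ne_zero).2 h
  ne_bot := by
    rw [Ne, Ideal.span_singleton_eq_bot]
    exact h.ne_zero

theorem val_O (v : HeightOneSpectrum (𝓞 K)) (x : 𝓞 K) :
    v.valuation K (x : K) = v.intValuation x := v.valuation_of_algebraMap x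

theorem pv_self (π : 𝓞 K) (h : Prime π) : (pv π h).valuation K (π : K) = exp (-1) := by
  rw [val_O]
  exact (pv π h).intValuation_singleton h.ne_zero rfl

theorem pv_one {π x : 𝓞 K} (h : Prime π) (hx : ¬ π ∣ x) : (pv π h).valuation K (x : K) = 1 := by
  rw [val_O, HeightOneSpectrum.intValuation_eq_one_iff]
  intro h1
  exact hx (Ideal.mem_span_singleton.1 h1)

theorem pv_lt {π x : 𝓞 K} (h : Prime π) : (pv π h).valuation K (x : K) < 1 ↔ π ∣ x := by
  rw [val_O, HeightOneSpectrum.intValuation_lt_one_iff_mem]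
  exact Ideal.mem_span_singleton

/-- Every place is the place of a prime element. -/
theorem exists_pv (v : HeightOneSpectrum (𝓞 K)) : ∃ (π : 𝓞 K) (h : Prime π), v = pv π h := by
  obtain ⟨π, hπ⟩ := (IsPrincipalIdealRing.principal v.asIdeal).principal
  have hs : v.asIdeal = Ideal.span {π} := hπ
  have h0 : π ≠ 0 := by
    intro h
    apply v.ne_bot
    rw [hs, h, Ideal.span_singleton_eq_bot]
  have hp : Prime π := by
    rw [← Ideal.span_singleton_prime h0, ← hs]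
    exact v.isPrime
  exact ⟨π, hp, HeightOneSpectrum.ext hs⟩

theorem exp_odd {k : ℤ} (h : IsSquare (exp k : ℤᵐ⁰)) : Even k := by
  obtain ⟨b, hb⟩ := h
  have hb0 : b ≠ 0 := by
    intro h0
    rw [h0, mul_zero] at hb
    exact exp_ne_zero hb
  obtain ⟨m, rfl⟩ : ∃ m : ℤ, b = exp m := ⟨log b, (exp_log hb0).symm⟩
  rw [← exp_add, exp_inj] at hb
  exact ⟨m, hb⟩

/-- squares times a square -/
theorem isSquare_mul_sq {x y : ℤᵐ⁰} (hy : y ≠ 0) : IsSquare (x * y ^ 2) ↔ IsSquare x := by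
  constructor
  · rintro ⟨b, hb⟩
    refine ⟨b / y, ?_⟩
    rw [div_mul_div_comm, eq_div_iff (mul_ne_zero hy hy), ← hb, pow_two]
  · rintro ⟨b, rfl⟩
    exact ⟨b * y, by rw [pow_two, mul_mul_mul_comm]⟩

theorem exists_sq_sqfree (z : 𝓞 K) : z ≠ 0 → ∃ m r : 𝓞 K, z = m ^ 2 * r ∧ Squarefree r := by
  induction z using UniqueFactorizationMonoid.induction_on_prime with
  | h₁ => exact fun h => absurd rfl h
  | h₂ x hx => exact fun _ => ⟨1, x, by ring, hx.squarefree⟩
  | h₃ a p ha hp ih =>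
    intro _
    obtain ⟨m, r, h1, h2⟩ := ih ha
    by_cases hd : p ∣ r
    · obtain ⟨r', rfl⟩ := hd
      refine ⟨p * m, r', by rw [h1]; ring, h2.of_mul_right⟩
    · refine ⟨m, p * r, by rw [h1]; ring, ?_⟩
      rw [squarefree_mul_iff]
      refine ⟨?_, hp.irreducible.squarefree, h2⟩
      intro d hd1 hd2
      rcases hp.irreducible.dvd_iff.1 hd1 with h3 | h3
      · exact h3
      · exact absurd (h3.dvd.trans hd2) hd

/-- The units are squares up to the sign. -/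
theorem unit_sq (u : 𝓞 K) (hu : IsUnit u) : ∃ m : 𝓞 K, m ≠ 0 ∧ (u = m ^ 2 ∨ u = -m ^ 2) := by
  obtain ⟨p, rfl⟩ := exists_coords u
  have h1 := (isEis.isUnit_iff p.1 p.2).1 hu
  unfold R.nm at h1
  have hw := wO_quad
  have hw0 : wO ≠ 0 := by
    intro h
    rw [h] at hw
    norm_num at hw
  have h2 : (2 * p.1 - p.2) ^ 2 + 3 * p.2 ^ 2 = 4 := by linear_combination 4 * h1
  have h3 : p.2 ≤ 1 := by nlinarith [sq_nonneg (2 * p.1 - p.2)]
  have h4 : -1 ≤ p.2 := by nlinarith [sq_nonneg (2 * p.1 - p.2)]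
  have h5 : (2 * p.2 - p.1) ^ 2 + 3 * p.1 ^ 2 = 4 := by linear_combination 4 * h1
  have h6 : p.1 ≤ 1 := by nlinarith [sq_nonneg (2 * p.2 - p.1)]
  have h7 : -1 ≤ p.1 := by nlinarith [sq_nonneg (2 * p.2 - p.1)]
  have hp1 : p.1 = -1 ∨ p.1 = 0 ∨ p.1 = 1 := by omega
  have hp2 : p.2 = -1 ∨ p.2 = 0 ∨ p.2 = 1 := by omega
  have hw1 : wO ^ 2 = -1 - wO := by linear_combination hw
  have hw4 : (wO ^ 2) ^ 2 = wO := by linear_combination (wO ^ 2 - wO) * hw
  rcases hp1 with e1 | e1 | e1 <;> rcases hp2 with e2 | e2 | e2 <;> rw [e1, e2] at h1 ⊢ <;>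
    norm_num at h1
  · refine ⟨wO, hw0, Or.inl ?_⟩
    push_cast
    linear_combination -hw
  · refine ⟨1, one_ne_zero, Or.inr ?_⟩
    push_cast
    ring
  · refine ⟨wO ^ 2, pow_ne_zero 2 hw0, Or.inr ?_⟩
    push_cast
    linear_combination hw4
  · refine ⟨wO ^ 2, pow_ne_zero 2 hw0, Or.inl ?_⟩
    push_cast
    linear_combination -hw4
  · refine ⟨1, one_ne_zero, Or.inl ?_⟩
    push_cast
    ring
  · refine ⟨wO, hw0, Or.inr ?_⟩
    push_cast
    linear_combination hw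

/-- An element all of whose valuations are even is a square up to the sign. -/
theorem sq_of_even (a : K) (ha : a ≠ 0)
    (h : ∀ v : HeightOneSpectrum (𝓞 K), IsSquare (v.valuation K a)) :
    ∃ m : K, m ≠ 0 ∧ (a = m ^ 2 ∨ a = -m ^ 2) := by
  obtain ⟨x, y, hy, hxy⟩ := IsFractionRing.div_surjective (A := 𝓞 K) a
  have hy0 : y ≠ 0 := nonZeroDivisors.ne_zero hy
  have hyK : (y : K) ≠ 0 := by
    intro h0
    exact hy0 (RingOfIntegers.ext h0)
  have hx0 : x ≠ 0 := by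
    rintro rfl
    rw [map_zero, zero_div] at hxy
    exact ha hxy.symm
  have hz : ((x * y : 𝓞 K) : K) = a * (y : K) ^ 2 := by
    rw [← hxy]
    push_cast
    field_simp
  obtain ⟨m, r, hmr, hr⟩ := exists_sq_sqfree (x * y) (mul_ne_zero hx0 hy0)
  have hm0 : m ≠ 0 := by
    rintro rfl
    rw [zero_pow two_ne_zero, zero_mul] at hmr
    exact mul_ne_zero hx0 hy0 hmr
  have hmK : (m : K) ≠ 0 := fun h0 => hm0 (RingOfIntegers.ext h0)
  have hu : IsUnit r := by
    by_contra hu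
    have hr0 : r ≠ 0 := by
      rintro rfl
      rw [mul_zero] at hmr
      exact mul_ne_zero hx0 hy0 hmr
    obtain ⟨π, hπ, hd⟩ := WfDvdMonoid.exists_irreducible_factor hu hr0
    have hp : Prime π := hπ.prime
    obtain ⟨r', rfl⟩ := hd
    have hnd : ¬ π ∣ r' := by
      rintro ⟨t, rfl⟩
      exact hπ.not_isUnit (hr π ⟨t, by ring⟩)
    have h1 := h (pv π hp)
    have h2 : (pv π hp).valuation K ((x * y : 𝓞 K) : K) =
        exp (-1) * ((pv π hp).valuation K (m : K)) ^ 2 := by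
      rw [hmr]
      push_cast
      rw [map_mul, map_mul, map_pow, pv_self, pv_one hp hnd, mul_one, mul_comm]
    have hvy : (pv π hp).valuation K (y : K) ≠ 0 := (Valuation.ne_zero_iff _).2 hyK
    have hvm : (pv π hp).valuation K (m : K) ≠ 0 := (Valuation.ne_zero_iff _).2 hmK
    rw [hz, map_mul, map_pow] at h2
    rw [← isSquare_mul_sq hvy, h2, isSquare_mul_sq hvm] at h1
    have h3 := exp_odd h1
    exact absurd h3 (by decide)
  obtain ⟨t, ht0, ht⟩ := unit_sq r hu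
  have htK : (t : K) ≠ 0 := fun h0 => ht0 (RingOfIntegers.ext h0)
  refine ⟨(m : K) * t / y, div_ne_zero (mul_ne_zero hmK htK) hyK, ?_⟩
  have h4 : a = ((x * y : 𝓞 K) : K) / (y : K) ^ 2 := by
    rw [hz]
    field_simp
  rcases ht with ht | ht
  · left
    rw [h4, hmr, ht]
    push_cast
    field_simp
  · right
    rw [h4, hmr, ht]
    push_cast
    field_simp

/-! ### the products `± √-3 ^ k ∏ q ^ V q` -/

theorem prime_s3 : Prime s3 := by
  have hs : s3 = ((1 : ℤ) : 𝓞 K) + ((2 : ℤ) : 𝓞 K) * wO := by unfold s3; push_cast; rfl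
  rw [hs]
  exact isEis.prime_of_nm (p := 3) (by norm_num) (by norm_num [R.nm])

theorem prime_two : Prime (2 : 𝓞 K) := by
  have h := isEis.prime_of_inert (q := 2) (by norm_num) (by norm_num)
  have h2 : (((2 : ℕ) : ℤ) : 𝓞 K) = 2 := by norm_num
  rwa [h2] at h

theorem not_dvd_of_unit {π x : 𝓞 K} (h : Prime π) (hx : IsUnit x) : ¬ π ∣ x :=
  fun hd => h.not_isUnit (isUnit_of_dvd_unit hd hx)

/-- The product `(-1)^n √-3 ^ k ∏ q ^ V q`. -/
def gp (S : Finset Pq) (n k : ZMod 2) (V : Pq → ZMod 2) : 𝓞 K :=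
  (-1) ^ n.val * s3 ^ k.val * ∏ q ∈ S, q.1 ^ (V q).val

theorem gp_ne (S : Finset Pq) (n k : ZMod 2) (V : Pq → ZMod 2) : gp S n k V ≠ 0 := by
  unfold gp
  refine mul_ne_zero (mul_ne_zero (pow_ne_zero _ (by norm_num)) (pow_ne_zero _ prime_s3.ne_zero)) ?_
  exact prod_ne_zero_iff.2 fun q _ => pow_ne_zero _ q.prime.ne_zero

/-- The product without the factor `q`. -/
theorem gp_erase {S : Finset Pq} {q : Pq} (hq : q ∈ S) (n k : ZMod 2) (V : Pq → ZMod 2) :
    gp S n k V = q.1 ^ (V q).val * gp (S.erase q) n k V := by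
  unfold gp
  rw [← mul_prod_erase S _ hq]
  ring

theorem not_dvd_gp {S : Finset Pq} {π : 𝓞 K} (h : Prime π) (h3 : ¬ π ∣ s3)
    (hS : ∀ q ∈ S, ¬ π ∣ q.1) (n k : ZMod 2) (V : Pq → ZMod 2) : ¬ π ∣ gp S n k V := by
  unfold gp
  intro hd
  rcases h.dvd_or_dvd hd with h1 | h1
  · rcases h.dvd_or_dvd h1 with h2 | h2
    · exact not_dvd_of_unit h ((isUnit_one.neg).pow _) h2
    · exact h3 (h.dvd_of_dvd_pow h2)
  · obtain ⟨q, hq, h2⟩ := h.exists_mem_finset_dvd h1
    exact hS q hq (h.dvd_of_dvd_pow h2)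

theorem not_dvd_gp_erase {S : Finset Pq} {q : Pq} (n k : ZMod 2) (V : Pq → ZMod 2) :
    ¬ q.1 ∣ gp (S.erase q) n k V :=
  not_dvd_gp q.prime (not_dvd_s3 q) (fun p hp => Pq.not_dvd (ne_of_mem_erase hp).symm) _ _ _

theorem not_dvd_gp_s3 {S : Finset Pq} (n : ZMod 2) (V : Pq → ZMod 2) : ¬ s3 ∣ gp S n 0 V := by
  unfold gp
  have h := prime_s3
  rw [ZMod.val_zero, pow_zero, mul_one]
  intro hd
  rcases h.dvd_or_dvd hd with h2 | h1
  · exact not_dvd_of_unit h ((isUnit_one.neg).pow _) h2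
  · obtain ⟨q, hq, h2⟩ := h.exists_mem_finset_dvd h1
    have h3 := h.dvd_of_dvd_pow h2
    have h4 := dvd_sub h3 q.s3_dvd
    rw [sub_sub_cancel] at h4
    exact h.not_isUnit (isUnit_of_dvd_one h4)

theorem gp_s3 (S : Finset Pq) (n k : ZMod 2) (V : Pq → ZMod 2) :
    gp S n k V = s3 ^ k.val * gp S n 0 V := by
  unfold gp
  rw [ZMod.val_zero, pow_zero]
  ring

theorem exists_par (x : ℤᵐ⁰) (hx : x ≠ 0) : ∃ e : ZMod 2, IsSquare (x * exp (-1) ^ e.val) := by
  obtain ⟨m, rfl⟩ : ∃ m : ℤ, x = exp m := ⟨log x, (exp_log hx).symm⟩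
  rcases Int.even_or_odd m with ⟨t, ht⟩ | ⟨t, ht⟩
  · refine ⟨0, exp t, ?_⟩
    rw [ZMod.val_zero, pow_zero, mul_one, ← exp_add, ht]
  · refine ⟨1, exp t, ?_⟩
    have h1 : ((1 : ZMod 2)).val = 1 := rfl
    rw [h1, pow_one, ← exp_add, ← exp_add]
    congr 1
    omega

theorem pv_eq {π π' : 𝓞 K} (h : Prime π) (h' : Prime π') (hd : π ∣ π') : pv π h = pv π' h' := by
  apply HeightOneSpectrum.ext
  exact Ideal.span_singleton_eq_span_singleton.2 (isEis.assoc_of_dvd h h' hd)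

/-- An element of `K` whose valuations outside `√-3` and `S` are even. -/
theorem decomp (S : Finset Pq) (a : K) (ha : a ≠ 0)
    (h : ∀ (π : 𝓞 K) (hπ : Prime π), ¬ π ∣ s3 → (∀ q ∈ S, ¬ π ∣ q.1) →
      IsSquare ((pv π hπ).valuation K a)) :
    ∃ (n k : ZMod 2) (V : Pq → ZMod 2) (m : K), m ≠ 0 ∧ a = m ^ 2 * (gp S n k V : K) := by
  classical
  -- the exponents
  obtain ⟨k, hk⟩ : ∃ k : ZMod 2, IsSquare ((pv s3 prime_s3).valuation K a * exp (-1) ^ k.val) :=
    exists_par _ ((Valuation.ne_zero_iff _).2 ha)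
  have hV : ∀ q : Pq, ∃ e : ZMod 2,
      IsSquare ((pv q.1 q.prime).valuation K a * exp (-1) ^ e.val) :=
    fun q => exists_par _ ((Valuation.ne_zero_iff _).2 ha)
  choose V hV using hV
  have h1 : ∀ v : HeightOneSpectrum (𝓞 K),
      IsSquare (v.valuation K (a * (gp S 0 k V : K))) := by
    intro v
    obtain ⟨π, hπ, rfl⟩ := exists_pv v
    rw [map_mul]
    by_cases h3 : π ∣ s3
    · rw [pv_eq hπ prime_s3 h3, gp_s3]
      push_cast
      rw [map_mul, map_pow, pv_self, pv_one prime_s3 (not_dvd_gp_s3 _ _), mul_one]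
      exact hk
    · by_cases hq : ∃ q ∈ S, π ∣ q.1
      · obtain ⟨q, hqS, hd⟩ := hq
        rw [pv_eq hπ q.prime hd, gp_erase hqS]
        push_cast
        rw [map_mul, map_pow, pv_self, pv_one q.prime (not_dvd_gp_erase _ _ _), mul_one]
        exact hV q
      · push Not at hq
        rw [pv_one hπ (not_dvd_gp hπ h3 hq _ _ _), mul_one]
        exact h π hπ h3 hq
  have hg : ((gp S 0 k V : 𝓞 K) : K) ≠ 0 := fun h0 => gp_ne S 0 k V (RingOfIntegers.ext h0)
  obtain ⟨m, hm, hm'⟩ := sq_of_even _ (mul_ne_zero ha hg) h1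
  have hneg : gp S 1 k V = -gp S 0 k V := by
    have h1 : ((1 : ZMod 2)).val = 1 := rfl
    unfold gp
    rw [h1, ZMod.val_zero]
    ring
  rcases hm' with hm' | hm'
  · refine ⟨0, k, V, m / (gp S 0 k V : K), div_ne_zero hm hg, ?_⟩
    field_simp
    linear_combination hm'
  · refine ⟨1, k, V, m / (gp S 0 k V : K), div_ne_zero hm hg, ?_⟩
    rw [hneg]
    push_cast
    field_simp
    linear_combination hm'

end

end Pool.Agent.Lib.MP_1a91b9_ntH.C.Sel
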