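import Pool.Agent.Lib.MP_1a91b9_ntH.C.TamDefs
import Pool.Agent.Lib.MP_1a91b9_ntT.CT.Lb
import Pool.Agent.Lib.MP_1a91b9_ntT.CT.La

/-!
# MP_1a91b9_nt (TwistDensity), block C-tam: the places of good reduction
-/

set_option autoImplicit false

namespace Pool.Agent.Lib.MP_1a91b9_ntH.C

open NumberField IsDedekindDomain WithZero WeierstrassCurve
open Pool.Agent.Lib.MP_1a91b9_ntT.S9 (tam nonsing minModel minChange minModel_isMinimal)
open Pool.Agent.Lib.MP_1a91b9_ntT.CT (min_int min_le ns_unit unit_min ns)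
open scoped Classical

variable {N : Type*} [Field N] [NumberField N] (v : HeightOneSpectrum (𝓞 N))

namespace TamOne

theorem of_unit {d : N} (I : WeierstrassCurve (v.adicCompletionIntegers N))
    (C₁ : VariableChange (v.adicCompletion N))
    (hI : C₁ • cv (algebraMap N (v.adicCompletion N) d) = I.baseChange (v.adicCompletion N))
    (hΔ : Valued.v (C₁ • cv (algebraMap N (v.adicCompletion N) d)).Δ = 1) :
    tam (cv d) v = 1 := by
  rw [tam_def]
  have hm := minModel_isMinimal (cv d) v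
  unfold minModel at hm ⊢
  have e : (cv d).baseChange (v.adicCompletion N) = cv (algebraMap N (v.adicCompletion N) d) :=
    cv_bc (v.adicCompletion N) d
  rw [e] at hm ⊢
  generalize minChange (cv d) v = C at hm ⊢
  generalize cv (algebraMap N (v.adicCompletion N) d) = W at *
  have h2 : C • W = (C * C₁⁻¹) • (C₁ • W) := by rw [mul_smul, inv_smul_smul]
  have hm' := hm
  rw [h2] at hm'
  obtain ⟨h3, -⟩ := unit_min (C₁ • W) I hI hΔ (C * C₁⁻¹) hm'
  obtain ⟨I', hI'⟩ := min_int (C • W) hm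
  have h4 := ns_unit (C • W) I' hI' (by rw [h2]; exact h3)
  have h5 : nsG Valued.v (C • W) = ns (C • W) := rfl
  rw [h5, h4, AddSubgroup.index_top]

theorem s3_change {k : Type*} [Field k] (s u : k) (hs : s ^ 2 = -3) (hs0 : s ≠ 0) :
    (⟨Units.mk0 s hs0, -(s * u), 0, 0⟩ : VariableChange k) • cv (s * u) =
      ⟨0, s * u, 0, -u ^ 2, 0⟩ := by
  rw [WeierstrassCurve.variableChange_def]
  have h3 : (3 : k) = -s ^ 2 := by linear_combination hs
  ext
  · simp [cv]
  · simp only [cv, Units.val_inv_eq_inv_val, Units.val_mk0]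
    rw [h3]
    field_simp
    ring
  · simp [cv]
  · simp only [cv, Units.val_inv_eq_inv_val, Units.val_mk0]
    rw [h3]
    field_simp
    ring
  · simp only [cv, Units.val_inv_eq_inv_val, Units.val_mk0]
    ring

theorem s3_disc {k : Type*} [Field k] (s u : k) (hs : s ^ 2 = -3) :
    (⟨0, s * u, 0, -u ^ 2, 0⟩ : WeierstrassCurve k).Δ = 2 ^ 4 * u ^ 6 := by
  simp only [WeierstrassCurve.Δ, WeierstrassCurve.b₂, WeierstrassCurve.b₄,
    WeierstrassCurve.b₆, WeierstrassCurve.b₈]
  linear_combination 16 * u ^ 6 * hs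

theorem val (x : N) :
    Valued.v (algebraMap N (v.adicCompletion N) x) = v.valuation N x :=
  HeightOneSpectrum.valuedAdicCompletion_eq_valuation' v x

end TamOne

open TamOne in
/-- Good reduction away from `6 d`. -/
theorem tam_unit {d : N} (h2 : v.valuation N 2 = 1) (h3 : v.valuation N 3 = 1)
    (hd : v.valuation N d = 1) : tam (cv d) v = 1 := by
  have hb : Valued.v (algebraMap N (v.adicCompletion N) d ^ 3) ≤ 1 := by
    rw [map_pow, val, hd, one_pow]
  refine of_unit v (⟨0, 0, 0, 0, ⟨algebraMap N (v.adicCompletion N) d ^ 3, hb⟩⟩) 1 ?_ ?_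
  · rw [one_smul]
    ext <;> simp [cv, WeierstrassCurve.map, WeierstrassCurve.baseChange]
  · rw [one_smul]
    have h5 : (cv (algebraMap N (v.adicCompletion N) d)).Δ =
        -(algebraMap N (v.adicCompletion N) (2 ^ 4 * 3 ^ 3 * d ^ 6)) := by
      simp only [cv, WeierstrassCurve.Δ, WeierstrassCurve.b₂, WeierstrassCurve.b₄,
        WeierstrassCurve.b₆, WeierstrassCurve.b₈, map_mul, map_pow, map_ofNat]
      ring
    rw [h5, Valuation.map_neg, val]
    simp only [map_mul, map_pow, h2, h3, hd, one_pow, one_mul]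

open TamOne in
/-- Good reduction at `√-3` of the twists divisible by `√-3`. -/
theorem tam_s3 {d s u : N} (hs : s ^ 2 = -3) (hd : d = s * u) (h2 : v.valuation N 2 = 1)
    (hsv : v.valuation N s < 1) (hu : v.valuation N u = 1) : tam (cv d) v = 1 := by
  have hs0 : s ≠ 0 := by
    rintro rfl
    rw [zero_pow two_ne_zero] at hs
    have : (3 : N) = 0 := by linear_combination hs
    exact three_ne_zero this
  set φ := algebraMap N (v.adicCompletion N) with hφ
  have hs' : φ s ^ 2 = -3 := by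
    rw [← map_pow, hs, map_neg, map_ofNat]
  have hs0' : φ s ≠ 0 := (map_ne_zero φ).2 hs0
  have vs : Valued.v (φ s) ≤ 1 := by
    rw [hφ, val]
    exact hsv.le
  have vu : Valued.v (φ u) ≤ 1 := by
    rw [hφ, val, hu]
  have va : Valued.v (φ s * φ u) ≤ 1 := by
    rw [map_mul]
    exact mul_le_one' vs vu
  have vb : Valued.v (-(φ u) ^ 2) ≤ 1 := by
    rw [Valuation.map_neg, map_pow]
    exact pow_le_one₀ zero_le vu
  have key : (⟨Units.mk0 (φ s) hs0', -(φ s * φ u), 0, 0⟩ : VariableChange (v.adicCompletion N)) •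
      cv (φ d) = ⟨0, φ s * φ u, 0, -(φ u) ^ 2, 0⟩ := by
    rw [hd, map_mul]
    exact s3_change (φ s) (φ u) hs' hs0'
  refine of_unit v (⟨0, ⟨φ s * φ u, va⟩, 0, ⟨-(φ u) ^ 2, vb⟩, 0⟩) _ (key.trans ?_) ?_
  · ext <;> simp [WeierstrassCurve.map, WeierstrassCurve.baseChange]
  · rw [key]
    have h5 : (⟨0, φ s * φ u, 0, -(φ u) ^ 2, 0⟩ : WeierstrassCurve (v.adicCompletion N)).Δ =
        φ (2 ^ 4 * u ^ 6) := by
      rw [map_mul, map_pow, map_pow, map_ofNat]
      exact s3_disc (φ s) (φ u) hs'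
    rw [h5, hφ, val, map_mul, map_pow, map_pow, h2, hu, one_pow, one_pow, one_mul]

end Pool.Agent.Lib.MP_1a91b9_ntH.C
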