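import Pool.Agent.Lib.MP_1a91b9_ntH.C.TamDefs
import Pool.Agent.Lib.MP_1a91b9_ntT.CT.La
import Pool.Agent.Lib.MP_1a91b9_nt.VcPoint

/-!
# MP_1a91b9_nt (TwistDensity), block C-tam: transport of the Tamagawa number from the minimal model

If the equation `y² = x³ + d³` is integral at `v` and its discriminant has value `> exp (-12)` then the change of
variables to the minimal model of the definition of `tam` has integral coefficients and a unit scaling factor, hence it
maps the points with nonsingular reduction of the minimal model onto those of `y² = x³ + d³`.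
-/

set_option autoImplicit false

namespace Pool.Agent.Lib.MP_1a91b9_ntH.C

open NumberField IsDedekindDomain WithZero WeierstrassCurve
open Pool.Agent.Lib.MP_1a91b9_ntT.S9 (tam nonsing minModel minChange minModel_isMinimal)
open Pool.Agent.Lib.MP_1a91b9_ntT.CT (min_int min_le)
open scoped Classical

namespace TamT

section
variable {L : Type*} [Field L] (V : Valuation L ℤᵐ⁰)

/-- integral coefficients -/
structure Itg (W : WeierstrassCurve L) : Prop where
  a1 : V W.a₁ ≤ 1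
  a2 : V W.a₂ ≤ 1
  a3 : V W.a₃ ≤ 1
  a4 : V W.a₄ ≤ 1
  a6 : V W.a₆ ≤ 1

theorem v_y {W : WeierstrassCurve L} (hW : Itg V W) {x y : L} (h : W.toAffine.Equation x y)
    (hx : V x ≤ 1) : V y ≤ 1 := by
  rw [Affine.equation_iff] at h
  by_contra hc
  rw [not_le] at hc
  have hy0 : y ≠ 0 := by
    rintro rfl
    rw [map_zero] at hc
    exact absurd hc (not_lt.2 zero_le_one)
  have hyi : V y⁻¹ ≤ 1 := by
    rw [map_inv₀]
    exact inv_le_one_of_one_le₀ hc.le
  have e : y = (x ^ 3 + W.a₂ * x ^ 2 + W.a₄ * x + W.a₆) * y⁻¹ - W.a₁ * x - W.a₃ := by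
    field_simp
    linear_combination h
  have hmem : ∀ z : L, z ∈ V.integer ↔ V z ≤ 1 := fun z => Valuation.mem_integer_iff _ _
  have : y ∈ V.integer := by
    rw [e]
    have m1 := (hmem _).2 hW.a1
    have m2 := (hmem _).2 hW.a2
    have m3 := (hmem _).2 hW.a3
    have m4 := (hmem _).2 hW.a4
    have m6 := (hmem _).2 hW.a6
    have mx := (hmem _).2 hx
    have my := (hmem _).2 hyi
    exact sub_mem (sub_mem (mul_mem (add_mem (add_mem (add_mem (pow_mem mx 3)
      (mul_mem m2 (pow_mem mx 2))) (mul_mem m4 mx)) m6) my) (mul_mem m1 mx)) m3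
  exact absurd ((hmem _).1 this) (not_le.2 hc)

variable {V}

/-- membership in the generating set of an integral equation, for integral points -/
theorem v_AB {W : WeierstrassCurve L} (hW : Itg V W) {x y : L} (h : W.toAffine.Equation x y)
    (hx : V x ≤ 1) : V (2 * y + W.a₁ * x + W.a₃) ≤ 1 ∧
      V (3 * x ^ 2 + 2 * W.a₂ * x + W.a₄ - W.a₁ * y) ≤ 1 := by
  have hmem : ∀ z : L, z ∈ V.integer ↔ V z ≤ 1 := fun z => Valuation.mem_integer_iff _ _
  have m1 := (hmem _).2 hW.a1
  have m2 := (hmem _).2 hW.a2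
  have m3 := (hmem _).2 hW.a3
  have m4 := (hmem _).2 hW.a4
  have mx := (hmem _).2 hx
  have my := (hmem _).2 (v_y V hW h hx)
  have n2 : (2 : L) ∈ V.integer := by
    have : (2 : L) = 1 + 1 := by norm_num
    rw [this]
    exact add_mem (one_mem _) (one_mem _)
  have n3 : (3 : L) ∈ V.integer := by
    have : (3 : L) = 1 + 1 + 1 := by norm_num
    rw [this]
    exact add_mem (add_mem (one_mem _) (one_mem _)) (one_mem _)
  exact ⟨(hmem _).1 (add_mem (add_mem (mul_mem n2 my) (mul_mem m1 mx)) m3),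
    (hmem _).1 (sub_mem (add_mem (add_mem (mul_mem n3 (pow_mem mx 2)) (mul_mem (mul_mem n2 m2) mx)) m4)
      (mul_mem m1 my))⟩

/-- the coordinates -/
theorem mem_iff {W : WeierstrassCurve L} {C : VariableChange L} (hW' : Itg V (C • W)) (hu : V (C.u : L) = 1) (hr : V C.r ≤ 1) (hs : V C.s ≤ 1) {x y X Y : L}
    (h' : (C • W).toAffine.Equation x y)
    (hX : X = (C.u : L) ^ 2 * x + C.r) (hY : Y = (C.u : L) ^ 3 * y + (C.u : L) ^ 2 * C.s * x + C.t) :
    (1 < V x ∨ V (2 * y + (C • W).a₁ * x + (C • W).a₃) = 1 ∨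
      V (3 * x ^ 2 + 2 * (C • W).a₂ * x + (C • W).a₄ - (C • W).a₁ * y) = 1) ↔
    (1 < V X ∨ V (2 * Y + W.a₁ * X + W.a₃) = 1 ∨
      V (3 * X ^ 2 + 2 * W.a₂ * X + W.a₄ - W.a₁ * Y) = 1) := by
  have hu0 : (C.u : L) ≠ 0 := C.u.ne_zero
  have hui : ((C.u⁻¹ : Lˣ) : L) = (C.u : L)⁻¹ := by simp
  have eA : 2 * Y + W.a₁ * X + W.a₃ = (C.u : L) ^ 3 * (2 * y + (C • W).a₁ * x + (C • W).a₃) := by
    rw [hX, hY, variableChange_a₁, variableChange_a₃, hui]
    field_simp
    ring
  have eB : 3 * X ^ 2 + 2 * W.a₂ * X + W.a₄ - W.a₁ * Y =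
      (C.u : L) ^ 4 * (3 * x ^ 2 + 2 * (C • W).a₂ * x + (C • W).a₄ - (C • W).a₁ * y) +
        C.s * ((C.u : L) ^ 3 * (2 * y + (C • W).a₁ * x + (C • W).a₃)) := by
    rw [hX, hY, variableChange_a₁, variableChange_a₂, variableChange_a₃, variableChange_a₄, hui]
    field_simp
    ring
  have hx : V X ≤ 1 ↔ V x ≤ 1 := by
    have e1 : V ((C.u : L) ^ 2 * x) = V x := by rw [map_mul, map_pow, hu, one_pow, one_mul]
    constructor
    · intro h1
      rw [← e1]
      have e2 : (C.u : L) ^ 2 * x = X - C.r := by rw [hX]; ring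
      rw [e2]
      exact (Valuation.map_sub _ _ _).trans (max_le h1 hr)
    · intro h1
      rw [hX]
      exact (Valuation.map_add _ _ _).trans (max_le (by rwa [e1]) hr)
  by_cases h1 : V x ≤ 1
  · have h2 := hx.2 h1
    obtain ⟨p1, p2⟩ := v_AB hW' h' h1
    have n1 : ¬ 1 < V x := not_lt.2 h1
    have n2 : ¬ 1 < V X := not_lt.2 h2
    rw [eA, eB]
    simp only [n1, n2, false_or]
    set A := 2 * y + (C • W).a₁ * x + (C • W).a₃ with hA
    set B := 3 * x ^ 2 + 2 * (C • W).a₂ * x + (C • W).a₄ - (C • W).a₁ * y with hB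
    have q1 : V ((C.u : L) ^ 3 * A) = V A := by rw [map_mul, map_pow, hu, one_pow, one_mul]
    have q2 : V ((C.u : L) ^ 4 * B) = V B := by rw [map_mul, map_pow, hu, one_pow, one_mul]
    rw [q1]
    rcases p1.lt_or_eq with h3 | h3
    · have q3 : V (C.s * ((C.u : L) ^ 3 * A)) < 1 := by
        rw [map_mul, q1]
        exact (mul_le_of_le_one_left' hs).trans_lt h3
      rcases p2.lt_or_eq with h4 | h4
      · have : V ((C.u : L) ^ 4 * B + C.s * ((C.u : L) ^ 3 * A)) < 1 :=
          Valuation.map_add_lt _ (by rwa [q2]) q3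
        simp [h4.ne, this.ne]
      · have : V ((C.u : L) ^ 4 * B + C.s * ((C.u : L) ^ 3 * A)) = 1 := by
          rw [Valuation.map_add_eq_of_lt_left, q2, h4]
          rwa [q2, h4]
        simp [h4, this]
    · simp [h3]
  · have h2 : ¬ V X ≤ 1 := fun h => h1 (hx.1 h)
    rw [not_le] at h1 h2
    simp [h1, h2]

/-- the transport -/
theorem index_smul {W : WeierstrassCurve L} {C : VariableChange L} (hW' : Itg V (C • W)) (hu : V (C.u : L) = 1) (hr : V C.r ≤ 1) (hs : V C.s ≤ 1) :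
    (nsG V (C • W)).index = (nsG V W).index := by
  obtain ⟨e, he⟩ := MP_1a91b9_nt.exists_point_equiv W C
  have key : (nsG V (C • W)).map (e : (C • W).toAffine.Point →+ W.toAffine.Point) = nsG V W := by
    rw [nsG, nsG, AddMonoidHom.map_closure]
    congr 1
    ext P
    constructor
    · rintro ⟨Q, hQ, rfl⟩
      rcases hQ with rfl | ⟨x, y, h, rfl, hxy⟩
      · exact Or.inl (map_zero e)
      · obtain ⟨h', hh⟩ := he x y h
        refine Or.inr ⟨_, _, h', hh, ?_⟩
        exact (mem_iff hW' hu hr hs h.1 rfl rfl).1 hxy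
    · intro hP
      rcases hP with rfl | ⟨X, Y, H, rfl, hXY⟩
      · exact ⟨0, Or.inl rfl, map_zero e⟩
      · obtain ⟨Q, hQ⟩ := e.surjective (Affine.Point.some X Y H)
        refine ⟨Q, ?_, hQ⟩
        rcases Q with _ | ⟨x, y, h⟩
        · exact Or.inl rfl
        · obtain ⟨h', hh⟩ := he x y h
          rw [hh, Affine.Point.some.injEq] at hQ
          refine Or.inr ⟨x, y, h, rfl, ?_⟩
          exact (mem_iff hW' hu hr hs h.1 hQ.1.symm hQ.2.symm).2 hXY
  rw [← key]
  exact (AddSubgroup.index_map_equiv (nsG V (C • W)) e).symm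

/-- the coefficients of the change of variables are integral -/
theorem coef {b : L} {C : VariableChange L} (hb : V b ≤ 1) (hu : V (C.u : L) = 1)
    (hM : Itg V (C • (⟨0, 0, 0, 0, b⟩ : WeierstrassCurve L))) :
    V C.r ≤ 1 ∧ V C.s ≤ 1 ∧ V C.t ≤ 1 := by
  have hui : V ((C.u⁻¹ : Lˣ) : L) = 1 := by
    rw [Units.val_inv_eq_inv_val, map_inv₀, hu, inv_one]
  obtain ⟨h1, h2, h3, h4, h6⟩ := hM
  rw [variableChange_a₁] at h1
  rw [variableChange_a₂] at h2
  rw [variableChange_a₃] at h3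
  rw [variableChange_a₄] at h4
  rw [variableChange_a₆] at h6
  simp only [map_mul, map_pow, hui, one_pow, one_mul] at h1 h2 h3 h4 h6
  have k1 : V (2 * C.s) ≤ 1 := by
    rw [map_mul]
    convert h1 using 2
    simp
  have k2 : V (3 * C.r - C.s ^ 2) ≤ 1 := by
    convert h2 using 2
    ring
  have k3 : V (2 * C.t) ≤ 1 := by
    convert h3 using 2
    ring
  have k4 : V (3 * C.r ^ 2 - 2 * C.s * C.t) ≤ 1 := by
    convert h4 using 2
    ring
  have k6 : V (C.r ^ 3 - C.t ^ 2) ≤ 1 := by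
    have e : C.r ^ 3 - C.t ^ 2 = (b + C.r * 0 + C.r ^ 2 * 0 + C.r ^ 3 - C.t * 0 - C.t ^ 2 -
      C.r * C.t * 0) - b := by ring
    rw [e]
    exact (Valuation.map_sub _ _ _).trans (max_le h6 hb)
  have sq : ∀ z : L, V (z ^ 2) ≤ 1 → V z ≤ 1 := by
    intro z hz
    rw [map_pow] at hz
    exact (pow_le_one_iff_of_nonneg zero_le two_ne_zero).1 hz
  have i2 : V (2 : L) ≤ 1 := by
    have : (2 : L) = 1 + 1 := by norm_num
    rw [this]
    exact (Valuation.map_add _ _ _).trans (max_le (map_one V).le (map_one V).le)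
  rcases i2.lt_or_eq with v2 | v2
  · have v3 : V (3 : L) = 1 := by
      have : (3 : L) = 2 + 1 := by norm_num
      rw [this, Valuation.map_add_eq_of_lt_right, map_one]
      rwa [map_one]
    have hr : V C.r ≤ 1 := by
      by_contra hc
      rw [not_le] at hc
      have e1 : V (3 * C.r) = V C.r := by rw [map_mul, v3, one_mul]
      have e2 : V C.s ^ 2 = V C.r := by
        have : C.s ^ 2 = 3 * C.r - (3 * C.r - C.s ^ 2) := by ring
        rw [← map_pow, this, Valuation.map_sub_eq_of_lt_left, e1]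
        rw [e1]
        exact k2.trans_lt hc
      have hc3 : 1 < V C.r ^ 3 := one_lt_pow₀ hc (by norm_num)
      have e3 : V C.t ^ 2 = V C.r ^ 3 := by
        have : C.t ^ 2 = C.r ^ 3 - (C.r ^ 3 - C.t ^ 2) := by ring
        rw [← map_pow, this, Valuation.map_sub_eq_of_lt_left, map_pow]
        rw [map_pow]
        exact k6.trans_lt hc3
      have e4 : V C.s * V C.t = V C.r ^ 2 := by
        have h5 : (V C.s * V C.t) ^ 2 = (V C.r ^ 2) ^ 2 := by
          rw [mul_pow, e2, e3, ← pow_succ', ← pow_mul]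
        exact (pow_left_inj₀ zero_le zero_le two_ne_zero).1 h5
      have hr0 : (0 : ℤᵐ⁰) < V C.r := zero_lt_one.trans hc
      have e5 : V (2 * C.s * C.t) < V C.r ^ 2 := by
        rw [mul_assoc, map_mul, map_mul, e4]
        calc V 2 * V C.r ^ 2 < 1 * V C.r ^ 2 := mul_lt_mul_of_pos_right v2 (pow_pos hr0 2)
          _ = V C.r ^ 2 := one_mul _
      have e6 : V (3 * C.r ^ 2) = V C.r ^ 2 := by rw [map_mul, v3, one_mul, map_pow]
      have e7 : V (3 * C.r ^ 2 - 2 * C.s * C.t) = V C.r ^ 2 := by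
        rw [Valuation.map_sub_eq_of_lt_left, e6]
        rwa [e6]
      rw [e7] at k4
      exact absurd k4 (not_le.2 (one_lt_pow₀ hc (by norm_num)))
    refine ⟨hr, sq _ ?_, sq _ ?_⟩
    · have : C.s ^ 2 = 3 * C.r - (3 * C.r - C.s ^ 2) := by ring
      rw [this]
      refine (Valuation.map_sub _ _ _).trans (max_le ?_ k2)
      rwa [map_mul, v3, one_mul]
    · have : C.t ^ 2 = C.r ^ 3 - (C.r ^ 3 - C.t ^ 2) := by ring
      rw [this]
      refine (Valuation.map_sub _ _ _).trans (max_le ?_ k6)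
      rw [map_pow]
      exact pow_le_one₀ zero_le hr
  · rw [map_mul, v2, one_mul] at k1 k3
    refine ⟨?_, k1, k3⟩
    have h7 : V (C.r ^ 3) ≤ 1 := by
      have : C.r ^ 3 = (C.r ^ 3 - C.t ^ 2) + C.t ^ 2 := by ring
      rw [this]
      refine (Valuation.map_add _ _ _).trans (max_le k6 ?_)
      rw [map_pow]
      exact pow_le_one₀ zero_le k3
    rw [map_pow] at h7
    exact (pow_le_one_iff_of_nonneg zero_le three_ne_zero).1 h7

end

theorem Itg_bc {N : Type*} [Field N] [NumberField N] {v : HeightOneSpectrum (𝓞 N)}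
    {M : WeierstrassCurve (v.adicCompletion N)}
    (h : ∃ I : WeierstrassCurve (v.adicCompletionIntegers N), M = I.baseChange (v.adicCompletion N)) :
    Itg (Valued.v : Valuation (v.adicCompletion N) ℤᵐ⁰) M := by
  obtain ⟨I, rfl⟩ := h
  exact ⟨I.a₁.2, I.a₂.2, I.a₃.2, I.a₄.2, I.a₆.2⟩

/-- the scaling factor -/
theorem unit {N : Type*} [Field N] [NumberField N] {v : HeightOneSpectrum (𝓞 N)}
    (W₀ : WeierstrassCurve (v.adicCompletion N))
    (hI : ∃ I : WeierstrassCurve (v.adicCompletionIntegers N), W₀ = I.baseChange (v.adicCompletion N))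
    (hD : exp (-12 : ℤ) < Valued.v W₀.Δ) (C : VariableChange (v.adicCompletion N))
    (hm : IsMinimal (v.adicCompletionIntegers N) (C • W₀)) :
    Valued.v (C.u : v.adicCompletion N) = (1 : ℤᵐ⁰) := by
  obtain ⟨I, hI⟩ := hI
  have h1 : Valued.v (C • W₀).Δ ≤ (1 : ℤᵐ⁰) := by
    obtain ⟨r, hr⟩ := Δ_integral_of_isIntegral (v.adicCompletionIntegers N) (C • W₀)
    rw [← hr]
    exact r.2
  have h2 := min_le W₀ I hI C hm
  have e : (C • W₀).Δ = ((C.u⁻¹ : (v.adicCompletion N)ˣ) : v.adicCompletion N) ^ 12 * W₀.Δ := by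
    rw [WeierstrassCurve.variableChange_Δ]
  have hD0 : (0 : ℤᵐ⁰) < Valued.v W₀.Δ := exp_pos.trans hD
  obtain ⟨g, hg⟩ : ∃ g : ℤᵐ⁰, g = Valued.v (C.u : v.adicCompletion N) := ⟨_, rfl⟩
  have hg0 : g ≠ 0 := by
    rw [hg]
    exact (Valuation.ne_zero_iff _).2 C.u.ne_zero
  have hgi : Valued.v ((C.u⁻¹ : (v.adicCompletion N)ˣ) : v.adicCompletion N) = g⁻¹ := by
    rw [Units.val_inv_eq_inv_val, map_inv₀, hg]
  rw [e, map_mul, map_pow, hgi] at h1 h2
  have h3 : Valued.v W₀.Δ ≤ g ^ 12 := by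
    rw [inv_pow, inv_mul_le_iff₀ (pow_pos (zero_lt_iff.2 hg0) 12), mul_one] at h1
    exact h1
  have h4 : g ^ 12 ≤ 1 := by
    have h5 : 1 ≤ g⁻¹ ^ 12 := le_of_mul_le_mul_right (by rwa [one_mul]) hD0
    rw [inv_pow] at h5
    exact (one_le_inv₀ (pow_pos (zero_lt_iff.2 hg0) 12)).1 h5
  rw [← hg]
  have h6 : exp (-12 : ℤ) < g ^ 12 := hD.trans_le h3
  rw [← exp_log hg0] at h4 h6 ⊢
  rw [← exp_nsmul] at h4 h6
  rw [← exp_zero, exp_le_exp] at h4
  rw [exp_lt_exp] at h6
  rw [← exp_zero, exp_inj]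
  simp only [nsmul_eq_mul, Nat.cast_ofNat] at h4 h6
  omega

end TamT

open TamT in
/-- **Transport of the Tamagawa number.** -/
theorem tam_cv {N : Type*} [Field N] [NumberField N] (v : HeightOneSpectrum (𝓞 N)) {d : N}
    (_hd : d ≠ 0) (h1 : v.valuation N d ≤ 1)
    (hD : exp (-12 : ℤ) < v.valuation N (2 ^ 4 * 3 ^ 3 * d ^ 6)) :
    tam (cv d) v = (nsG (Valued.v : Valuation (v.adicCompletion N) ℤᵐ⁰)
      (cv (algebraMap N (v.adicCompletion N) d))).index := by
  have hval : ∀ x : N, Valued.v (algebraMap N (v.adicCompletion N) x) = v.valuation N x := fun x =>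
    HeightOneSpectrum.valuedAdicCompletion_eq_valuation' v x
  rw [tam_def]
  have hm := minModel_isMinimal (cv d) v
  unfold minModel at hm ⊢
  have e : (cv d).baseChange (v.adicCompletion N) = cv (algebraMap N (v.adicCompletion N) d) :=
    cv_bc (v.adicCompletion N) d
  rw [e] at hm ⊢
  generalize minChange (cv d) v = C at hm ⊢
  have hd' : Valued.v (algebraMap N (v.adicCompletion N) d) ≤ (1 : ℤᵐ⁰) := by rwa [hval]
  have hb : Valued.v (algebraMap N (v.adicCompletion N) d ^ 3) ≤ (1 : ℤᵐ⁰) := by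
    rw [map_pow]
    exact pow_le_one₀ zero_le hd'
  have hI : ∃ I : WeierstrassCurve (v.adicCompletionIntegers N),
      cv (algebraMap N (v.adicCompletion N) d) = I.baseChange (v.adicCompletion N) := by
    refine ⟨⟨0, 0, 0, 0, ⟨algebraMap N (v.adicCompletion N) d ^ 3, hb⟩⟩, ?_⟩
    ext <;> simp [cv, WeierstrassCurve.map, WeierstrassCurve.baseChange]
  have hΔ : exp (-12 : ℤ) < Valued.v (cv (algebraMap N (v.adicCompletion N) d)).Δ := by
    have h5 : (cv (algebraMap N (v.adicCompletion N) d)).Δ =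
        -(algebraMap N (v.adicCompletion N) (2 ^ 4 * 3 ^ 3 * d ^ 6)) := by
      simp only [cv, WeierstrassCurve.Δ, WeierstrassCurve.b₂, WeierstrassCurve.b₄,
        WeierstrassCurve.b₆, WeierstrassCurve.b₈, map_mul, map_pow, map_ofNat]
      ring
    rw [h5, Valuation.map_neg, hval]
    exact hD
  have hu := unit _ hI hΔ C hm
  have hM := Itg_bc (min_int _ hm)
  obtain ⟨hr, hs, -⟩ := coef hb hu hM
  exact index_smul hM hu hr hs

end Pool.Agent.Lib.MP_1a91b9_ntH.C
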