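import Pool.Agent.Lib.MP_1a91b9_ntH.C.TamDefs
import Pool.Agent.Lib.MP_1a91b9_ntT.PL.TamA

/-!
# TwistDensity, part C, file TamTwo: the Tamagawa number at `2`

The index of the subgroup of the points with nonsingular reduction of `y² = x³ + b`, `b` a unit, over an unramified
extension of `ℚ_2`, is odd.
-/

set_option autoImplicit false

namespace Pool.Agent.Lib.MP_1a91b9_ntH.C

open NumberField IsDedekindDomain WeierstrassCurve WithZero
open scoped Classical

namespace TamTwo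

/-- the curve `y² = x³ + b` -/
def tc {k : Type*} [Field k] (b : k) : WeierstrassCurve k := ⟨0, 0, 0, 0, b⟩

section
variable {k : Type*} [Field k] {b : k}

theorem tc_eq {x y : k} (h : (tc b).toAffine.Nonsingular x y) : y ^ 2 = x ^ 3 + b := by
  have h1 := h.1
  rw [Affine.equation_iff] at h1
  simp only [tc] at h1
  linear_combination h1

theorem tc_negY (x y : k) : (tc b).toAffine.negY x y = -y := by
  simp [Affine.negY, tc]

/-- the slope of the line through two points -/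
theorem tc_slope {x₁ x₂ y₁ y₂ : k} (h₁ : (tc b).toAffine.Nonsingular x₁ y₁)
    (h₂ : (tc b).toAffine.Nonsingular x₂ y₂)
    (hxy : ¬ (x₁ = x₂ ∧ y₁ = (tc b).toAffine.negY x₂ y₂)) :
    2 * (tc b).toAffine.slope x₁ x₂ y₁ y₂ * y₁ =
      x₁ ^ 2 + x₁ * x₂ + x₂ ^ 2 + ((tc b).toAffine.slope x₁ x₂ y₁ y₂) ^ 2 * (x₁ - x₂) := by
  have e1 := tc_eq h₁
  have e2 := tc_eq h₂
  by_cases hx : x₁ = x₂
  · subst hx
    have hy : y₁ ≠ (tc b).toAffine.negY x₁ y₂ := fun h => hxy ⟨rfl, h⟩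
    have hyy : y₁ = y₂ := Affine.Y_eq_of_Y_ne h₁.1 h₂.1 rfl hy
    subst hyy
    rw [tc_negY] at hy
    have h2y : y₁ - -y₁ ≠ 0 := sub_ne_zero.2 hy
    have h2y' : 2 * y₁ ≠ 0 := by
      intro h0
      apply h2y
      linear_combination h0
    have hsl : (tc b).toAffine.slope x₁ x₁ y₁ y₁ = 3 * x₁ ^ 2 / (2 * y₁) := by
      rw [Affine.slope_of_Y_ne rfl (by rw [tc_negY]; exact hy), tc_negY]
      have e : y₁ - -y₁ = 2 * y₁ := by ring
      rw [e]
      simp only [tc]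
      ring
    have h3 : 2 * (3 * x₁ ^ 2 / (2 * y₁)) * y₁ = 3 * x₁ ^ 2 := by
      have e : 2 * (3 * x₁ ^ 2 / (2 * y₁)) * y₁ = 3 * x₁ ^ 2 / (2 * y₁) * (2 * y₁) := by ring
      rw [e, div_mul_cancel₀ _ h2y']
    rw [hsl, h3]
    ring
  · rw [Affine.slope_of_X_ne hx]
    have h12 : x₁ - x₂ ≠ 0 := sub_ne_zero.2 hx
    obtain ⟨l, hl⟩ : ∃ l, l = (y₁ - y₂) / (x₁ - x₂) := ⟨_, rfl⟩
    rw [← hl]
    have hl' : l * (x₁ - x₂) = y₁ - y₂ := by rw [hl]; field_simp
    have h3 : l * (y₁ + y₂) = x₁ ^ 2 + x₁ * x₂ + x₂ ^ 2 := by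
      apply mul_right_cancel₀ h12
      linear_combination (y₁ + y₂) * hl' + e1 - e2
    linear_combination h3 + l * (-hl')

/-- the third point of intersection -/
theorem tc_third {x₁ x₂ y₁ y₂ : k} (h₁ : (tc b).toAffine.Nonsingular x₁ y₁)
    (h₂ : (tc b).toAffine.Nonsingular x₂ y₂)
    (hxy : ¬ (x₁ = x₂ ∧ y₁ = (tc b).toAffine.negY x₂ y₂)) :
    ∃ (l x₃ y₃ : k) (h₃ : (tc b).toAffine.Nonsingular x₃ (-y₃)),
      Affine.Point.some x₁ y₁ h₁ + Affine.Point.some x₂ y₂ h₂ = Affine.Point.some x₃ (-y₃) h₃ ∧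
      l = (tc b).toAffine.slope x₁ x₂ y₁ y₂ ∧
      x₃ = l ^ 2 - x₁ - x₂ ∧ (x₃ - x₁) * (x₃ - x₂) = 3 * x₃ ^ 2 - 2 * y₃ * l ∧
      y₃ ^ 2 = x₃ ^ 3 + b := by
  have hs := tc_slope h₁ h₂ hxy
  obtain ⟨l, hl⟩ : ∃ l, l = (tc b).toAffine.slope x₁ x₂ y₁ y₂ := ⟨_, rfl⟩
  rw [← hl] at hs
  have hadd := Affine.Point.add_some hxy (h₁ := h₁) (h₂ := h₂)
  have hX : (tc b).toAffine.addX x₁ x₂ ((tc b).toAffine.slope x₁ x₂ y₁ y₂) = l ^ 2 - x₁ - x₂ := by
    rw [← hl]
    simp only [Affine.addX, tc]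
    ring
  have hY : (tc b).toAffine.addY x₁ x₂ y₁ ((tc b).toAffine.slope x₁ x₂ y₁ y₂) =
      -(l * ((l ^ 2 - x₁ - x₂) - x₁) + y₁) := by
    rw [← hl]
    simp only [Affine.addY, Affine.negAddY, Affine.addX, Affine.negY, tc]
    ring
  have hns := Affine.nonsingular_add h₁ h₂ hxy
  have hns' : (tc b).toAffine.Nonsingular (l ^ 2 - x₁ - x₂) (-(l * ((l ^ 2 - x₁ - x₂) - x₁) + y₁)) := by
    rwa [hX, hY] at hns
  refine ⟨l, l ^ 2 - x₁ - x₂, l * ((l ^ 2 - x₁ - x₂) - x₁) + y₁, hns', ?_, hl, rfl, ?_, ?_⟩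
  · rw [hadd, Affine.Point.some.injEq]
    exact ⟨hX, hY⟩
  · linear_combination hs
  · have := tc_eq hns'
    linear_combination this

end

/-- the points of `y² = x³ + b` which are not near the point with abscissa `0` -/
def Fa {k : Type*} [Field k] (v : Valuation k ℤᵐ⁰) (b : k) (P : (tc b).toAffine.Point) : Prop :=
  P = 0 ∨ ∃ (x y : k) (h : (tc b).toAffine.Nonsingular x y), P = Affine.Point.some x y h ∧ 1 ≤ v x

theorem TamTwo_le {γ : ℤᵐ⁰} (h : γ < 1) : γ ≤ exp (-1 : ℤ) := by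
  rcases eq_or_ne γ 0 with rfl | h0
  · exact zero_le
  · rw [← exp_log h0] at h ⊢
    rw [← exp_zero, exp_lt_exp] at h
    rw [exp_le_exp]
    omega

theorem TamTwo_le2 {γ : ℤᵐ⁰} (h : γ < exp (-1 : ℤ)) : γ ≤ exp (-2 : ℤ) := by
  rcases eq_or_ne γ 0 with rfl | h0
  · exact zero_le
  · rw [← exp_log h0] at h ⊢
    rw [exp_lt_exp] at h
    rw [exp_le_exp]
    omega

section
variable {k : Type*} [Field k] (v : Valuation k ℤᵐ⁰) {b : k}

theorem TamTwo_y (hb : v b = 1) {x y : k} (h : y ^ 2 = x ^ 3 + b) (hx : v x < 1) : v y = 1 := by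
  have h1 : v (y ^ 2) = 1 := by
    rw [h, Valuation.map_add_eq_of_lt_right, hb]
    rw [hb, map_pow]
    exact pow_lt_one₀ zero_le hx (by norm_num)
  rw [map_pow] at h1
  exact (pow_eq_one_iff.mp h1).resolve_right (by norm_num)

theorem Fa.neg {P : (tc b).toAffine.Point} (h : Fa v b P) : Fa v b (-P) := by
  rcases h with rfl | ⟨x, y, hxy, rfl, hx⟩
  · left
    exact neg_zero
  · right
    rw [Affine.Point.neg_some]
    exact ⟨_, _, _, rfl, hx⟩

variable (h2 : v 2 = exp (-1 : ℤ)) (h3 : v 3 = 1) (hb : v b = 1)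
include h2 h3 hb

theorem Fa.add {P Q : (tc b).toAffine.Point} (hP : Fa v b P) (hQ : Fa v b Q) : Fa v b (P + Q) := by
  rcases hP with rfl | ⟨x₁, y₁, h₁, rfl, hx₁⟩
  · rw [zero_add]
    exact hQ
  rcases hQ with rfl | ⟨x₂, y₂, h₂, rfl, hx₂⟩
  · rw [add_zero]
    exact Or.inr ⟨x₁, y₁, h₁, rfl, hx₁⟩
  by_cases hxy : x₁ = x₂ ∧ y₁ = (tc b).toAffine.negY x₂ y₂
  · left
    exact Affine.Point.add_of_Y_eq hxy.1 hxy.2
  obtain ⟨l, x₃, y₃, h₃, hadd, -, hx, hprod, hy⟩ := tc_third h₁ h₂ hxy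
  rw [hadd]
  refine Or.inr ⟨x₃, -y₃, h₃, rfl, ?_⟩
  by_contra hc
  rw [not_le] at hc
  have hy1 := TamTwo_y v hb hy hc
  have e1 : v (x₃ - x₁) = v x₁ := Valuation.map_sub_eq_of_lt_right v (hc.trans_le hx₁)
  have e2 : v (x₃ - x₂) = v x₂ := Valuation.map_sub_eq_of_lt_right v (hc.trans_le hx₂)
  have hL := congrArg v hprod
  rw [map_mul, e1, e2] at hL
  have h12 : 1 ≤ v x₁ * v x₂ := one_le_mul hx₁ hx₂
  have h5 : v (3 * x₃ ^ 2) < 1 := by
    rw [map_mul, h3, one_mul, map_pow]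
    exact pow_lt_one₀ zero_le hc (by norm_num)
  have h6 : v (2 * y₃ * l) = exp (-1 : ℤ) * v l := by
    rw [map_mul, map_mul, h2, hy1, mul_one]
  have h7 : 1 ≤ exp (-1 : ℤ) * v l := by
    by_contra hcc
    rw [not_le, ← h6] at hcc
    have := Valuation.map_sub_lt v h5 hcc
    rw [← hL] at this
    exact absurd this (not_lt.2 h12)
  have h8 : v (3 * x₃ ^ 2 - 2 * y₃ * l) = exp (-1 : ℤ) * v l := by
    rw [Valuation.map_sub_eq_of_lt_right v (by rw [h6]; exact h5.trans_le h7), h6]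
  rw [h8] at hL
  have hl1 : 1 < v l := by
    by_contra hcc
    rw [not_lt] at hcc
    have h9 : exp (-1 : ℤ) * v l ≤ exp (-1 : ℤ) := mul_le_of_le_one_right' hcc
    have h10 : (exp (-1 : ℤ) : ℤᵐ⁰) < 1 := by
      rw [← exp_zero, exp_lt_exp]
      norm_num
    exact absurd (h7.trans h9) (not_le.2 h10)
  have hsum : x₁ + x₂ = l ^ 2 - x₃ := by rw [hx]; ring
  have h9 : v (x₁ + x₂) = v l ^ 2 := by
    rw [hsum, Valuation.map_sub_eq_of_lt_left, map_pow]
    rw [map_pow]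
    exact hc.trans (one_lt_pow₀ hl1 (by norm_num))
  have h10 : v l ^ 2 ≤ max (v x₁) (v x₂) := by
    rw [← h9]
    exact Valuation.map_add _ _ _
  have h11 : v l ^ 2 ≤ v x₁ * v x₂ := by
    refine h10.trans (max_le ?_ ?_)
    · exact le_mul_of_one_le_right' hx₂
    · exact le_mul_of_one_le_left' hx₁
  rw [hL, pow_two] at h11
  have h12 : exp (-1 : ℤ) * v l < v l * v l := by
    refine mul_lt_mul_of_pos_right ?_ (zero_lt_one.trans hl1)
    refine lt_trans ?_ hl1
    rw [← exp_zero, exp_lt_exp]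
    norm_num
  exact absurd h12 (not_lt.2 h11)

theorem Fa.two {P : (tc b).toAffine.Point} (hP : ¬ Fa v b P) : ¬ Fa v b (P + P) := by
  rcases P with _ | ⟨x, y, h⟩
  · exact absurd (Or.inl rfl) hP
  have hx : v x < 1 := by
    by_contra hc
    exact hP (Or.inr ⟨x, y, h, rfl, not_lt.1 hc⟩)
  have hy := TamTwo_y v hb (tc_eq h) hx
  have h2y : v (2 * y) = exp (-1 : ℤ) := by rw [map_mul, h2, hy, mul_one]
  have h2y0 : 2 * y ≠ 0 := by
    intro h0
    rw [h0, map_zero] at h2y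
    exact exp_ne_zero h2y.symm
  have hxy : ¬ (x = x ∧ y = (tc b).toAffine.negY x y) := by
    rintro ⟨-, h5⟩
    rw [tc_negY] at h5
    apply h2y0
    linear_combination h5
  obtain ⟨l, x₃, y₃, h₃, hadd, hl, hx3, -, -⟩ := tc_third h h hxy
  have hs := tc_slope h h hxy
  rw [← hl] at hs
  have hs' : l * (2 * y) = 3 * x ^ 2 := by linear_combination hs
  have hv := congrArg v hs'
  rw [map_mul, h2y, map_mul, h3, one_mul, map_pow] at hv
  have hx1 := TamTwo_le hx
  have hvl : v l < 1 := by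
    by_contra hc
    rw [not_lt] at hc
    have h5 : exp (-1 : ℤ) ≤ v l * exp (-1 : ℤ) := le_mul_of_one_le_left' hc
    rw [hv] at h5
    have h6 : v x ^ 2 ≤ exp (-1 : ℤ) ^ 2 := pow_le_pow_left₀ zero_le hx1 2
    have h7 : (exp (-1 : ℤ) : ℤᵐ⁰) ^ 2 < exp (-1 : ℤ) := by
      rw [← exp_nsmul, exp_lt_exp]
      norm_num
    exact absurd (h5.trans h6) (not_le.2 h7)
  have hx3' : v x₃ < 1 := by
    rw [hx3]
    refine Valuation.map_sub_lt _ (Valuation.map_sub_lt _ ?_ hx) hx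
    rw [map_pow]
    exact pow_lt_one₀ zero_le hvl (by norm_num)
  rintro (h0 | ⟨X, Y, hXY, he, hX⟩)
  · have h0' : Affine.Point.some x₃ (-y₃) h₃ = 0 := hadd.symm.trans h0
    exact absurd h0' (Affine.Point.some_ne_zero _)
  · have he' : Affine.Point.some x₃ (-y₃) h₃ = Affine.Point.some X Y hXY := hadd.symm.trans he
    rw [Affine.Point.some.injEq] at he'
    rw [← he'.1] at hX
    exact absurd hx3' (not_lt.2 hX)

theorem Fa.or {P Q : (tc b).toAffine.Point} (hP : ¬ Fa v b P) (hQ : ¬ Fa v b Q) :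
    Fa v b (P - Q) ∨ Fa v b (P + Q) := by
  rcases P with _ | ⟨x₁, y₁, h₁⟩
  · exact absurd (Or.inl rfl) hP
  rcases Q with _ | ⟨x₂, y₂, h₂⟩
  · exact absurd (Or.inl rfl) hQ
  have hx₁ : v x₁ < 1 := by
    by_contra hc
    exact hP (Or.inr ⟨x₁, y₁, h₁, rfl, not_lt.1 hc⟩)
  have hx₂ : v x₂ < 1 := by
    by_contra hc
    exact hQ (Or.inr ⟨x₂, y₂, h₂, rfl, not_lt.1 hc⟩)
  have e1 := tc_eq h₁
  have e2 := tc_eq h₂
  have hy₁ := TamTwo_y v hb e1 hx₁
  have g1 := TamTwo_le hx₁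
  have g2 := TamTwo_le hx₂
  have h2y : v (2 * y₁) = exp (-1 : ℤ) := by rw [map_mul, h2, hy₁, mul_one]
  have hnear : v (y₁ - y₂) < exp (-1 : ℤ) ∨ v (y₁ + y₂) < exp (-1 : ℤ) := by
    by_contra hc
    rw [not_or, not_lt, not_lt] at hc
    have h5 : exp (-1 : ℤ) * exp (-1 : ℤ) ≤ v ((y₁ - y₂) * (y₁ + y₂)) := by
      rw [map_mul]
      exact mul_le_mul' hc.1 hc.2
    have e3 : (y₁ - y₂) * (y₁ + y₂) = x₁ ^ 3 - x₂ ^ 3 := by linear_combination e1 - e2
    have h6 : v (x₁ ^ 3 - x₂ ^ 3) ≤ exp (-3 : ℤ) := by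
      have hc3 : ∀ z : k, v z ≤ exp (-1 : ℤ) → v (z ^ 3) ≤ exp (-3 : ℤ) := by
        intro z hz
        rw [map_pow]
        refine (pow_le_pow_left₀ zero_le hz 3).trans ?_
        rw [← exp_nsmul, exp_le_exp]
        norm_num
      exact (Valuation.map_sub _ _ _).trans (max_le (hc3 _ g1) (hc3 _ g2))
    rw [e3, ← exp_add] at h5
    have h7 := h5.trans h6
    rw [exp_le_exp] at h7
    norm_num at h7
  have key : ∀ (y₂' : k) (h₂' : (tc b).toAffine.Nonsingular x₂ y₂'), v (y₁ - y₂') < exp (-1 : ℤ) →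
      Fa v b (Affine.Point.some x₁ y₁ h₁ - Affine.Point.some x₂ y₂' h₂') := by
    intro y₂' h₂' hy
    have e2' := tc_eq h₂'
    have hs : v (y₁ + y₂') = exp (-1 : ℤ) := by
      have e : y₁ + y₂' = 2 * y₁ - (y₁ - y₂') := by ring
      rw [e, Valuation.map_sub_eq_of_lt_left, h2y]
      rw [h2y]
      exact hy
    by_cases hx : x₁ = x₂
    · left
      have h5 : (y₁ - y₂') * (y₁ + y₂') = 0 := by
        have : y₁ ^ 2 = y₂' ^ 2 := by rw [e1, e2', hx]
        linear_combination this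
      rcases mul_eq_zero.1 h5 with h6 | h6
      · have h7 : y₁ = y₂' := sub_eq_zero.1 h6
        subst hx
        subst h7
        exact sub_self _
      · exfalso
        rw [h6, map_zero] at hs
        exact exp_ne_zero hs.symm
    · have hns : (tc b).toAffine.Nonsingular x₂ (-y₂') := by
        rw [← tc_negY (b := b) x₂ y₂']
        exact (Affine.nonsingular_neg ..).2 h₂'
      have hsub : Affine.Point.some x₁ y₁ h₁ - Affine.Point.some x₂ y₂' h₂' =
          Affine.Point.some x₁ y₁ h₁ + Affine.Point.some x₂ (-y₂') hns := by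
        rw [sub_eq_add_neg, Affine.Point.neg_some]
        congr 1
        rw [Affine.Point.some.injEq]
        exact ⟨rfl, tc_negY _ _⟩
      have hxy : ¬ (x₁ = x₂ ∧ y₁ = (tc b).toAffine.negY x₂ (-y₂')) := fun h => hx h.1
      obtain ⟨l, x₃, y₃, h₃, hadd, hl, hx3, -, -⟩ := tc_third h₁ hns hxy
      rw [hsub, hadd]
      refine Or.inr ⟨_, _, _, rfl, ?_⟩
      have hl' : l * (x₁ - x₂) = y₁ + y₂' := by
        rw [hl, Affine.slope_of_X_ne hx, sub_neg_eq_add]
        exact div_mul_cancel₀ _ (sub_ne_zero.2 hx)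
      have hv := congrArg v hl'
      rw [map_mul, hs] at hv
      have hd : v (x₁ - x₂) ≤ exp (-1 : ℤ) := (Valuation.map_sub _ _ _).trans (max_le g1 g2)
      have hvl : 1 ≤ v l := by
        by_contra hc
        rw [not_le] at hc
        have h6 : v l * v (x₁ - x₂) < exp (-1 : ℤ) := by
          calc v l * v (x₁ - x₂) ≤ v l * exp (-1 : ℤ) := by gcongr
            _ < 1 * exp (-1 : ℤ) := mul_lt_mul_of_pos_right hc exp_pos
            _ = exp (-1 : ℤ) := one_mul _
        exact absurd hv h6.ne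
      have hl2 : 1 ≤ v (l ^ 2) := by
        rw [map_pow]
        exact one_le_pow₀ hvl
      rw [hx3]
      have h7 : v (l ^ 2 - x₁ - x₂) = v (l ^ 2) := by
        have e : l ^ 2 - x₁ - x₂ = l ^ 2 - (x₁ + x₂) := by ring
        rw [e, Valuation.map_sub_eq_of_lt_left]
        exact (Valuation.map_add_lt _ hx₁ hx₂).trans_le hl2
      rw [h7]
      exact hl2
  rcases hnear with h | h
  · exact Or.inl (key y₂ h₂ h)
  · right
    have hns : (tc b).toAffine.Nonsingular x₂ (-y₂) := by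
      rw [← tc_negY (b := b) x₂ y₂]
      exact (Affine.nonsingular_neg ..).2 h₂
    have h7 := key (-y₂) hns (by rwa [sub_neg_eq_add])
    have e : Affine.Point.some x₁ y₁ h₁ - Affine.Point.some x₂ (-y₂) hns =
        Affine.Point.some x₁ y₁ h₁ + Affine.Point.some x₂ y₂ h₂ := by
      rw [sub_eq_add_neg, Affine.Point.neg_some]
      congr 1
      rw [Affine.Point.some.injEq]
      refine ⟨rfl, ?_⟩
      rw [tc_negY, neg_neg]
    rw [← e]
    exact h7

/-- the subgroup of the far points has odd index -/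
theorem TamTwo_index (H : AddSubgroup (tc b).toAffine.Point) (hH : ∀ P, P ∈ H ↔ Fa v b P) :
    Odd H.index := by
  obtain ⟨i1, i2⟩ := MP_1a91b9_ntT.PL.index_le_three H fun P Q hP hQ => by
    rw [hH] at hP hQ
    rw [hH, hH]
    exact Fa.or v h2 h3 hb hP hQ
  have i3 : H.index ≠ 2 := by
    intro h
    have hne : H ≠ ⊤ := by
      intro ht
      rw [ht, AddSubgroup.index_top] at h
      norm_num at h
    obtain ⟨P, hP⟩ : ∃ P, P ∉ H := by
      by_contra hc
      push Not at hc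
      exact hne (eq_top_iff.2 fun x _ => hc x)
    have h5 : P + P ∈ H := by
      have h6 := AddSubgroup.nsmul_index_mem H P
      rw [h, two_nsmul] at h6
      exact h6
    rw [hH] at hP h5
    exact Fa.two v h2 h3 hb hP h5
  have : H.index = 1 ∨ H.index = 3 := by omega
  rcases this with h | h <;> rw [h]
  · exact odd_one
  · exact ⟨1, rfl⟩

end

end TamTwo

open TamTwo in
/-- **The Tamagawa number at `2`**. -/
theorem index_two {L : Type*} [Field L] (V : Valuation L ℤᵐ⁰) (d : L) (h2 : V 2 = exp (-1 : ℤ))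
    (h3 : V 3 = 1) (hd : V d = 1) : Odd (nsG V (cv d)).index := by
  have hb : V (d ^ 3) = 1 := by rw [map_pow, hd, one_pow]
  change Odd (nsG V (tc (d ^ 3))).index
  generalize d ^ 3 = b at hb
  refine TamTwo_index V h2 h3 hb _ ?_
  let H : AddSubgroup (tc b).toAffine.Point :=
    { carrier := {P | Fa V b P}
      zero_mem' := Or.inl rfl
      add_mem' := fun hP hQ => Fa.add _ h2 h3 hb hP hQ
      neg_mem' := fun hP => Fa.neg _ hP }
  have hH : nsG V (tc b) = H := by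
    refine le_antisymm ((AddSubgroup.closure_le _).2 ?_) ?_
    · rintro P (rfl | ⟨x, y, h, rfl, hP⟩)
      · exact Or.inl rfl
      · refine Or.inr ⟨x, y, h, rfl, ?_⟩
        have he := tc_eq h
        rcases hP with hP | hP | hP
        · exact hP.le
        · by_contra hc
          rw [not_le] at hc
          have hy := TamTwo_y V hb he hc
          have e : 2 * y + (tc b).a₁ * x + (tc b).a₃ = 2 * y := by
            simp only [tc]
            ring
          rw [e, map_mul, h2, hy, mul_one, ← exp_zero, exp_inj] at hP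
          norm_num at hP
        · have e : 3 * x ^ 2 + 2 * (tc b).a₂ * x + (tc b).a₄ - (tc b).a₁ * y = 3 * x ^ 2 := by
            simp only [tc]
            ring
          rw [e, map_mul, h3, one_mul, map_pow] at hP
          exact ((pow_eq_one_iff.mp hP).resolve_right (by norm_num)).ge
    · rintro P (rfl | ⟨x, y, h, rfl, hx⟩)
      · exact zero_mem _
      · apply AddSubgroup.subset_closure
        refine Or.inr ⟨x, y, h, rfl, ?_⟩
        rcases hx.lt_or_eq with h5 | h5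
        · exact Or.inl h5
        · right; right
          have e : 3 * x ^ 2 + 2 * (tc b).a₂ * x + (tc b).a₄ - (tc b).a₁ * y = 3 * x ^ 2 := by
            simp only [tc]
            ring
          rw [e, map_mul, h3, one_mul, map_pow, ← h5, one_pow]
  intro P
  rw [hH]
  rfl

end Pool.Agent.Lib.MP_1a91b9_ntH.C
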