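import Pool.Agent.Lib.MP_1a91b9_ntH.C.TamFour
import Pool.Agent.Lib.MP_1a91b9_ntH.C.TamTwo
import Pool.Agent.Lib.MP_1a91b9_ntH.C.TamT
import Pool.Agent.Lib.MP_1a91b9_ntH.C.TamOne
import Pool.Agent.Lib.MP_1a91b9_ntH.C.Hyp

/-!
# MP_1a91b9_nt (TwistDensity), block C-tam: the product of the Tamagawa numbers

`δ` in `𝓞 K` with the values of `s3 ^ e * DD S` (`hval`): `tam = 4` at the places of `S` and, if
`e = 0`, at `√-3`; `tam` is odd at `2`, and `1` at the other places.
-/

set_option autoImplicit false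
set_option linter.unusedSectionVars false

namespace Pool.Agent.Lib.MP_1a91b9_ntH.C

open NumberField IsDedekindDomain WithZero WeierstrassCurve Finset Pool.Agent.Lib.MP_1a91b9_ntT
open Pool.Agent.Lib.MP_1a91b9_ntT.S9 (tam)
open scoped Classical

/-- `δ` has the values of `√-3 ^ e * DD S`; `e0` is the condition `e = 0`. -/
def HV (δ : 𝓞 K) (S : Finset Pq) (e0 : Prop) : Prop :=
  ∀ v : HeightOneSpectrum (𝓞 K), v.valuation K (δ : K) =
    (if e0 then 1 else v.valuation K (s3 : K)) * ∏ q ∈ S, v.valuation K ((q.1 : 𝓞 K) : K)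

section

variable {δ : 𝓞 K} {S : Finset Pq} {e0 : Prop}

private theorem tam_three (v : HeightOneSpectrum (𝓞 K)) :
    v.valuation K (3 : K) = v.valuation K (s3 : K) ^ 2 := by
  have e : (3 : K) = -(((s3 : 𝓞 K) : K) ^ 2) := by
    rw [coe_s3]
    linear_combination 4 * om_quad
  rw [e, Valuation.map_neg, map_pow]

private theorem tam_two_val {v : HeightOneSpectrum (𝓞 K)} (h : (2 : 𝓞 K) ∉ v.asIdeal) :
    v.valuation K (2 : K) = 1 := by
  rw [← coe_two]
  exact val_one h

private theorem tam_hval (v : HeightOneSpectrum (𝓞 K)) (x : K) :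
    (Valued.v : Valuation (v.adicCompletion K) ℤᵐ⁰) (algebraMap K (v.adicCompletion K) x) =
      v.valuation K x :=
  HeightOneSpectrum.valuedAdicCompletion_eq_valuation' v x

/-- The product `(1 + 2 om) d` of value `exp (-1)`: the Tamagawa number is four. -/
private theorem tam_four {v : HeightOneSpectrum (𝓞 K)} (h2 : (2 : 𝓞 K) ∉ v.asIdeal)
    (hd1 : v.valuation K (δ : K) ≤ 1) (hs1 : v.valuation K (s3 : K) ≤ 1)
    (hs : v.valuation K (s3 : K) * v.valuation K (δ : K) = exp (-1 : ℤ)) :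
    tam (cv (δ : K)) v = 4 := by
  have hd0 : (δ : K) ≠ 0 := by
    intro h
    rw [h, map_zero, mul_zero] at hs
    exact exp_ne_zero hs.symm
  have h2' := tam_two_val h2
  have hc0 : CharZero (v.adicCompletion K) :=
    charZero_of_injective_algebraMap (algebraMap K (v.adicCompletion K)).injective
  rw [tam_cv v hd0 hd1]
  · refine index_four (z := algebraMap K (v.adicCompletion K) om) _ ?_ ?_ ?_ ?_
    · rw [← map_pow, ← map_add, ← map_one (algebraMap K (v.adicCompletion K)), ← map_add, om_quad,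
        map_zero]
    · rw [tam_hval]; exact hd1
    · rw [← map_ofNat (algebraMap K (v.adicCompletion K)) 2, tam_hval]; exact h2'
    · have e1 : (1 + 2 * algebraMap K (v.adicCompletion K) om) *
          algebraMap K (v.adicCompletion K) (δ : K) =
          algebraMap K (v.adicCompletion K) ((s3 : K) * (δ : K)) := by
        rw [coe_s3, map_mul, map_add, map_mul, map_one, map_ofNat]
      rw [e1, tam_hval, map_mul]
      exact hs
  · rw [map_mul, map_mul, map_pow, map_pow, map_pow, h2', one_pow, one_mul, tam_three]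
    have h6 : exp (-1 : ℤ) ^ 6 ≤ (v.valuation K (s3 : K) ^ 2) ^ 3 * v.valuation K (δ : K) ^ 6 := by
      rw [← pow_mul, ← mul_pow, hs]
    refine lt_of_lt_of_le ?_ h6
    rw [← exp_nsmul, exp_lt_exp]
    norm_num

theorem tam_at_two (h : HV δ S e0) {v : HeightOneSpectrum (𝓞 K)} (h2 : (2 : 𝓞 K) ∈ v.asIdeal) :
    Odd (tam (cv (δ : K)) v) := by
  have hs3 : v.valuation K (s3 : K) = 1 := val_one (s3_notMem_two h2)
  have hd : v.valuation K (δ : K) = 1 := by
    rw [h v, hs3, ite_self, one_mul]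
    exact Finset.prod_eq_one fun q _ => val_one (notMem_of_two h2 q)
  have h2' : v.valuation K (2 : K) = exp (-1 : ℤ) := by
    rw [← coe_two]
    exact val_prime two_prime h2
  have h3 : v.valuation K (3 : K) = 1 := by rw [tam_three, hs3, one_pow]
  have hd0 : (δ : K) ≠ 0 := by
    intro h0
    rw [h0, map_zero] at hd
    exact zero_ne_one hd
  rw [tam_cv v hd0 hd.le]
  · refine index_two _ _ ?_ ?_ ?_
    · rw [← map_ofNat (algebraMap K (v.adicCompletion K)) 2, tam_hval]; exact h2'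
    · rw [← map_ofNat (algebraMap K (v.adicCompletion K)) 3, tam_hval]; exact h3
    · rw [tam_hval]; exact hd
  · rw [map_mul, map_mul, map_pow, map_pow, map_pow, h2', h3, hd, one_pow, one_pow, mul_one, mul_one,
      ← exp_nsmul, exp_lt_exp]
    norm_num

theorem tam_at_q (h : HV δ S e0) {v : HeightOneSpectrum (𝓞 K)} {q : Pq} (hq : q ∈ S)
    (hv : q.1 ∈ v.asIdeal) : tam (cv (δ : K)) v = 4 := by
  have hs3 : v.valuation K (s3 : K) = 1 := val_one (s3_notMem_q hv)
  have hd : v.valuation K (δ : K) = exp (-1 : ℤ) := by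
    rw [h v, hs3, ite_self, one_mul, ← Finset.mul_prod_erase _ _ hq,
      Finset.prod_eq_one fun p hp => val_one fun h1 => (Finset.ne_of_mem_erase hp) (eq_of_mem h1 hv),
      val_prime q.2.1 hv, mul_one]
  refine tam_four (two_notMem_q hv) ?_ hs3.le ?_
  · rw [hd]; exact (TamFour.exp_neg_one_lt).le
  · rw [hs3, one_mul, hd]

theorem tam_at_s3 (h : HV δ S e0) {v : HeightOneSpectrum (𝓞 K)} (hv : s3 ∈ v.asIdeal) :
    tam (cv (δ : K)) v = if e0 then 4 else 1 := by
  have hs3 : v.valuation K (s3 : K) = exp (-1 : ℤ) := val_prime s3_prime hv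
  have hd : v.valuation K (δ : K) = if e0 then 1 else exp (-1 : ℤ) := by
    rw [h v, hs3, Finset.prod_eq_one fun q _ => val_one (notMem_of_s3 hv q), mul_one]
  have h2 := two_notMem_s3 hv
  by_cases he : e0
  · rw [if_pos he] at hd ⊢
    refine tam_four h2 hd.le ?_ ?_
    · rw [hs3]; exact (TamFour.exp_neg_one_lt).le
    · rw [hs3, hd, mul_one]
  · rw [if_neg he] at hd ⊢
    have hs0 : ((s3 : 𝓞 K) : K) ≠ 0 := by
      intro h0
      rw [h0, map_zero] at hs3
      exact exp_ne_zero hs3.symm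
    refine tam_s3 v (s := (s3 : K)) (u := (δ : K) / (s3 : K)) ?_ ?_ (tam_two_val h2) ?_ ?_
    · rw [coe_s3]
      linear_combination 4 * om_quad
    · rw [mul_div_cancel₀ _ hs0]
    · rw [hs3]; exact TamFour.exp_neg_one_lt
    · rw [map_div₀, hd, hs3, div_self exp_ne_zero]

theorem tam_at_good (h : HV δ S e0) {v : HeightOneSpectrum (𝓞 K)} (h2 : (2 : 𝓞 K) ∉ v.asIdeal)
    (h3 : s3 ∉ v.asIdeal) (hS : ∀ q ∈ S, q.1 ∉ v.asIdeal) : tam (cv (δ : K)) v = 1 := by
  have hs3 : v.valuation K (s3 : K) = 1 := val_one h3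
  refine tam_unit v (tam_two_val h2) ?_ ?_
  · rw [tam_three, hs3, one_pow]
  · rw [h v, hs3, ite_self, one_mul]
    exact Finset.prod_eq_one fun q hq => val_one (hS q hq)

/-- **The product of the Tamagawa numbers.** -/
theorem finprod_tam (h : HV δ S e0) : ∃ t : ℕ, Odd t ∧
    (∏ᶠ v : HeightOneSpectrum (𝓞 K), tam (cv (δ : K)) v) * (if e0 then 1 else 4) =
      4 ^ (S.card + 1) * t := by
  obtain ⟨w2, hw2⟩ : ∃ v : HeightOneSpectrum (𝓞 K), (2 : 𝓞 K) ∈ v.asIdeal :=
    ⟨⟨Ideal.span {2}, (Ideal.span_singleton_prime two_prime.ne_zero).2 two_prime, by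
      rw [Ne, Ideal.span_singleton_eq_bot]
      exact two_prime.ne_zero⟩, Ideal.mem_span_singleton_self _⟩
  obtain ⟨w3, hw3⟩ : ∃ v : HeightOneSpectrum (𝓞 K), s3 ∈ v.asIdeal :=
    ⟨⟨Ideal.span {s3}, (Ideal.span_singleton_prime s3_prime.ne_zero).2 s3_prime, by
      rw [Ne, Ideal.span_singleton_eq_bot]
      exact s3_prime.ne_zero⟩, Ideal.mem_span_singleton_self _⟩
  have hplc : ∀ q : Pq, q.1 ∈ (plc q).asIdeal := fun q => Ideal.mem_span_singleton_self _
  have huniq : ∀ {p : 𝓞 K} (_ : Prime p) {v w : HeightOneSpectrum (𝓞 K)}, p ∈ v.asIdeal →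
      p ∈ w.asIdeal → v = w := by
    intro p hp v w hv hw
    apply HeightOneSpectrum.ext
    rw [ideal_eq hp hv, ideal_eq hp hw]
  have h23 : w2 ≠ w3 := by
    rintro rfl
    exact s3_notMem_two hw2 hw3
  have h2S : w2 ∉ S.image plc := by
    intro hm
    obtain ⟨q, -, rfl⟩ := Finset.mem_image.1 hm
    exact notMem_of_two hw2 q (hplc q)
  have h3S : w3 ∉ S.image plc := by
    intro hm
    obtain ⟨q, -, rfl⟩ := Finset.mem_image.1 hm
    exact notMem_of_s3 hw3 q (hplc q)
  have hsupp : (Function.mulSupport fun v : HeightOneSpectrum (𝓞 K) => tam (cv (δ : K)) v) ⊆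
      ((insert w2 (insert w3 (S.image plc)) : Finset (HeightOneSpectrum (𝓞 K))) :
        Set (HeightOneSpectrum (𝓞 K))) := by
    intro v hv
    rw [Function.mem_mulSupport] at hv
    rw [Finset.mem_coe, Finset.mem_insert, Finset.mem_insert, Finset.mem_image]
    by_contra hcon
    push Not at hcon
    obtain ⟨n2, n3, nS⟩ := hcon
    apply hv
    refine tam_at_good h (fun hm => n2 (huniq two_prime hm hw2))
      (fun hm => n3 (huniq s3_prime hm hw3)) ?_
    intro q hq hm
    exact nS q hq (huniq q.2.1 (hplc q) hm)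
  rw [finprod_eq_prod_of_mulSupport_subset _ hsupp, Finset.prod_insert, Finset.prod_insert h3S,
    Finset.prod_image (fun a _ b _ hab => plc_inj hab),
    Finset.prod_congr rfl (fun q hq => tam_at_q h hq (hplc q)), Finset.prod_const,
    tam_at_s3 h hw3]
  · refine ⟨tam (cv (δ : K)) w2, tam_at_two h hw2, ?_⟩
    split_ifs
    · ring
    · ring
  · rw [Finset.mem_insert, not_or]
    exact ⟨h23, h2S⟩

end

/-- Phase 1: `dl S`. -/
theorem finprod_tam_dl (S : Finset Pq) : ∃ t : ℕ, Odd t ∧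
    (∏ᶠ v : HeightOneSpectrum (𝓞 K), tam (cv ((dl S : 𝓞 K) : K)) v) *
      (if (qd.A S).b = 0 then 1 else 4) = 4 ^ (S.card + 1) * t := by
  have h : HV (dl S) S ((qd.A S).b = 0) := by
    intro v
    rw [val_dl v S]
    congr 1
    split_ifs <;> rfl
  obtain ⟨t, ht, h1⟩ := finprod_tam h
  refine ⟨t, ht, ?_⟩
  rw [← h1]
  congr 1
  split_ifs <;> rfl

end Pool.Agent.Lib.MP_1a91b9_ntH.C
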