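import Pool.Agent.Lib.MP_1a91b9_ntH.C.Curve

/-!
# MP_1a91b9_nt (TwistDensity), block C-tam: the subgroup of the points with non-singular reduction
-/

set_option autoImplicit false

namespace Pool.Agent.Lib.MP_1a91b9_ntH.C

open NumberField IsDedekindDomain WithZero WeierstrassCurve
open Pool.Agent.Lib.MP_1a91b9_ntT.S9 (tam nonsing minModel minChange)
open scoped Classical

/-- The set which generates the group of the points with non-singular reduction. -/
def nsSet {F : Type*} [Field F] (V : Valuation F ℤᵐ⁰) (W : WeierstrassCurve F) :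
    Set W.toAffine.Point :=
  {P | P = 0 ∨ ∃ (x y : F) (h : W.toAffine.Nonsingular x y), P = Affine.Point.some x y h ∧
    (1 < V x ∨ V (2 * y + W.a₁ * x + W.a₃) = 1 ∨
      V (3 * x ^ 2 + 2 * W.a₂ * x + W.a₄ - W.a₁ * y) = 1)}

/-- The subgroup (generated by the set) of the points with non-singular reduction. -/
noncomputable def nsG {F : Type*} [Field F] (V : Valuation F ℤᵐ⁰) (W : WeierstrassCurve F) :
    AddSubgroup W.toAffine.Point :=
  AddSubgroup.closure (nsSet V W)

theorem tam_def {N : Type*} [Field N] [NumberField N] (W : WeierstrassCurve N)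
    (v : HeightOneSpectrum (𝓞 N)) : tam W v = (nsG Valued.v (minModel W v)).index := rfl

end Pool.Agent.Lib.MP_1a91b9_ntH.C
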