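import Pool.Agent.Lib.MP_1a91b9_ntH.C.TamDefs
import Pool.Agent.Lib.MP_1a91b9_ntH.C.Tp

/-!
# MP_1a91b9_nt (TwistDensity), block C-tam: index four

`(1 + 2 z) d` has value `exp (-1)` and `2` is a unit: the group of the points of `y² = x³ + d³` with
non-singular reduction has index four (the points of order two represent the cosets).
-/

set_option autoImplicit false

namespace Pool.Agent.Lib.MP_1a91b9_ntH.C

open NumberField IsDedekindDomain WithZero WeierstrassCurve
open scoped Classical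

namespace TamFour

section

variable {L : Type*} [Field L] [CharZero L] {z d : L}

/-- `(x₁ - e) (x₂ - e) (x₃ - e)` is a square for collinear points. -/
theorem prod_sq {e : L} (he : e ^ 3 = -d ^ 3) {W : Affine L} (hW : W = cv d) {x₁ x₂ y₁ y₂ : L}
    (h₁ : W.Equation x₁ y₁) (h₂ : W.Equation x₂ y₂) (hxy : ¬(x₁ = x₂ ∧ y₁ = W.negY x₂ y₂)) :
    (x₁ - e) * (x₂ - e) * (W.addX x₁ x₂ (W.slope x₁ x₂ y₁ y₂) - e) =
      (y₁ + W.slope x₁ x₂ y₁ y₂ * (e - x₁)) ^ 2 := by
  have h := Affine.addPolynomial_slope h₁ h₂ hxy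
  have h1 := congrArg (Polynomial.eval e) h
  rw [Affine.addPolynomial_eq] at h1
  have hy := (eqn_iff hW x₁ y₁).1 h₁
  subst hW
  simp only [Cubic.toPoly, Polynomial.eval_neg, Polynomial.eval_add, Polynomial.eval_mul,
    Polynomial.eval_C, Polynomial.eval_pow, Polynomial.eval_X, Polynomial.eval_sub] at h1
  generalize (cv d).toAffine.slope x₁ x₂ y₁ y₂ = l at *
  have e1 : (cv d).toAffine.a₁ = 0 := rfl
  have e2 : (cv d).toAffine.a₂ = 0 := rfl
  have e3 : (cv d).toAffine.a₃ = 0 := rfl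
  have e4 : (cv d).toAffine.a₄ = 0 := rfl
  have e6 : (cv d).toAffine.a₆ = d ^ 3 := rfl
  rw [e1, e2, e3, e4, e6] at h1
  linear_combination -h1 - he

/-- the value of `z` -/
theorem val_z (V : Valuation L ℤᵐ⁰) (hz : z ^ 2 + z + 1 = 0) : V z = 1 := by
  have h3 : z ^ 3 = 1 := by linear_combination (z - 1) * hz
  have h1 : V z ^ 3 = 1 := by rw [← map_pow, h3, map_one]
  exact (pow_eq_one_iff.1 h1).resolve_right (by norm_num)

/-- square values -/
def SqV (t : ℤᵐ⁰) : Prop := ∃ a : ℤᵐ⁰, t = a ^ 2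

theorem not_sqV : ¬ SqV (exp (-1 : ℤ)) := by
  rintro ⟨a, ha⟩
  have ha0 : a ≠ 0 := by
    rintro rfl
    simp at ha
  obtain ⟨n, rfl⟩ : ∃ n : ℤ, a = exp n := ⟨WithZero.log a, (WithZero.exp_log ha0).symm⟩
  rw [← WithZero.exp_nsmul, WithZero.exp_inj] at ha
  simp at ha
  omega

theorem sqV_mul {a b : ℤᵐ⁰} (ha : SqV a) (hb : SqV b) : SqV (a * b) := by
  obtain ⟨x, rfl⟩ := ha
  obtain ⟨y, rfl⟩ := hb
  exact ⟨x * y, by rw [mul_pow]⟩

theorem sqV_of_mul {a b : ℤᵐ⁰} (h0 : a ≠ 0) (ha : SqV a) (hb : SqV (a * b)) : SqV b := by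
  obtain ⟨x, rfl⟩ := ha
  obtain ⟨y, hy⟩ := hb
  refine ⟨x⁻¹ * y, ?_⟩
  rw [mul_pow, ← hy, inv_pow, inv_mul_cancel_left₀ h0]

/-- The group of the points for which all `x - e` have square values. -/
noncomputable def G4 (V : Valuation L ℤᵐ⁰) (W : Affine L) (hW : W = cv d)
    (hsep : ∀ e e' : L, e ^ 3 = -d ^ 3 → e' ^ 3 = -d ^ 3 → e ≠ e' → ¬ SqV (V (e - e')))
    (hne : ∀ e : L, e ^ 3 = -d ^ 3 → ∃ e' : L, e' ^ 3 = -d ^ 3 ∧ e' ≠ e) :
    AddSubgroup W.Point where
  carrier := {P | P = 0 ∨ ∃ (x y : L) (h : W.Nonsingular x y), P = Affine.Point.some x y h ∧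
    ∀ e : L, e ^ 3 = -d ^ 3 → x ≠ e ∧ SqV (V (x - e))}
  zero_mem' := Or.inl rfl
  add_mem' := by
    rintro P Q hP hQ
    rcases hP with rfl | ⟨x₁, y₁, h₁, rfl, hP⟩
    · rw [zero_add]; exact hQ
    rcases hQ with rfl | ⟨x₂, y₂, h₂, rfl, hQ⟩
    · rw [add_zero]; exact Or.inr ⟨x₁, y₁, h₁, rfl, hP⟩
    by_cases hxy : x₁ = x₂ ∧ y₁ = W.negY x₂ y₂
    · left
      exact Affine.Point.add_of_Y_eq hxy.1 hxy.2
    right
    rw [Affine.Point.add_some hxy]
    refine ⟨_, _, _, rfl, ?_⟩
    have key : ∀ e : L, e ^ 3 = -d ^ 3 →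
        SqV (V (W.addX x₁ x₂ (W.slope x₁ x₂ y₁ y₂) - e)) := by
      intro e he
      have h := prod_sq he hW h₁.1 h₂.1 hxy
      have h2 := congrArg V h
      rw [map_mul, map_pow] at h2
      refine sqV_of_mul (a := V ((x₁ - e) * (x₂ - e))) ?_ ?_ ⟨_, h2⟩
      · rw [Valuation.ne_zero_iff]
        exact mul_ne_zero (sub_ne_zero.2 (hP e he).1) (sub_ne_zero.2 (hQ e he).1)
      · rw [map_mul]
        exact sqV_mul (hP e he).2 (hQ e he).2
    intro e he
    refine ⟨?_, key e he⟩
    intro h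
    obtain ⟨e', he', hee⟩ := hne e he
    refine hsep e e' he he' (Ne.symm hee) ?_
    have := key e' he'
    rwa [h] at this
  neg_mem' := by
    rintro P (rfl | ⟨x, y, h, rfl, hP⟩)
    · left; exact neg_zero
    · right
      rw [Affine.Point.neg_some]
      exact ⟨_, _, _, rfl, hP⟩


theorem le_exp_of_lt_one {a : ℤᵐ⁰} (h : a < 1) : a ≤ exp (-1 : ℤ) := by
  rcases eq_or_ne a 0 with rfl | h0
  · exact zero_le
  obtain ⟨n, rfl⟩ : ∃ n : ℤ, a = exp n := ⟨WithZero.log a, (WithZero.exp_log h0).symm⟩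
  rw [← WithZero.exp_zero, WithZero.exp_lt_exp] at h
  rw [WithZero.exp_le_exp]
  omega

theorem le_exp_two {a : ℤᵐ⁰} (h : a < exp (-1 : ℤ)) : a ≤ exp (-2 : ℤ) := by
  rcases eq_or_ne a 0 with rfl | h0
  · exact zero_le
  obtain ⟨n, rfl⟩ : ∃ n : ℤ, a = exp n := ⟨WithZero.log a, (WithZero.exp_log h0).symm⟩
  rw [WithZero.exp_lt_exp] at h
  rw [WithZero.exp_le_exp]
  omega

theorem exp_neg_one_lt : exp (-1 : ℤ) < (1 : ℤᵐ⁰) := by
  rw [← WithZero.exp_zero, WithZero.exp_lt_exp]
  norm_num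

/-- the roots -/
theorem roots (hz : z ^ 2 + z + 1 = 0) {e : L} (he : e ^ 3 = -d ^ 3) :
    e = -d ∨ e = z * -d ∨ e = z ^ 2 * -d := by
  have h3 : z ^ 3 = 1 := by linear_combination (z - 1) * hz
  have h : (e - -d) * ((e - z * -d) * (e - z ^ 2 * -d)) = 0 := by
    linear_combination he + (e * d ^ 2 + e ^ 2 * d) * hz + (d ^ 3 + e * d ^ 2) * h3
  rcases mul_eq_zero.1 h with h | h
  · left; exact sub_eq_zero.1 h
  · rcases mul_eq_zero.1 h with h | h
    · right; left; exact sub_eq_zero.1 h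
    · right; right; exact sub_eq_zero.1 h

theorem root_cube (hz : z ^ 2 + z + 1 = 0) {e : L} (he : e ^ 3 = -d ^ 3) :
    (z * e) ^ 3 = -d ^ 3 := by
  have h3 : z ^ 3 = 1 := by linear_combination (z - 1) * hz
  rw [mul_pow, h3, one_mul, he]

theorem root_cube2 (hz : z ^ 2 + z + 1 = 0) {e : L} (he : e ^ 3 = -d ^ 3) :
    (z ^ 2 * e) ^ 3 = -d ^ 3 := by
  have h3 : z ^ 3 = 1 := by linear_combination (z - 1) * hz
  rw [mul_pow, ← pow_mul, mul_comm 2 3, pow_mul, h3, one_pow, one_mul, he]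

theorem root_cube0 : (-d) ^ 3 = -d ^ 3 := by ring

theorem val_sep (V : Valuation L ℤᵐ⁰) (hz : z ^ 2 + z + 1 = 0) (hs : V ((1 + 2 * z) * d) = exp (-1 : ℤ))
    {e e' : L} (he : e ^ 3 = -d ^ 3) (he' : e' ^ 3 = -d ^ 3) (hee : e ≠ e') :
    V (e - e') = exp (-1 : ℤ) := by
  have hvz := val_z V hz
  have h01 : V (-d - z * -d) = exp (-1 : ℤ) := by
    have e1 : -d - z * -d = -(z ^ 2 * ((1 + 2 * z) * d)) := by
      linear_combination (2 * z - 1) * d * hz
    rw [e1, Valuation.map_neg, map_mul, map_pow, hvz, one_pow, one_mul, hs]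
  have h02 : V (-d - z ^ 2 * -d) = exp (-1 : ℤ) := by
    have e1 : -d - z ^ 2 * -d = -(z ^ 2) * (-d - z * -d) := by
      linear_combination (z - 1) * d * hz
    rw [e1, map_mul, Valuation.map_neg, map_pow, hvz, one_pow, one_mul, h01]
  have h12 : V (z * -d - z ^ 2 * -d) = exp (-1 : ℤ) := by
    have e1 : z * -d - z ^ 2 * -d = z * (-d - z * -d) := by ring
    rw [e1, map_mul, hvz, one_mul, h01]
  rcases roots hz he with rfl | rfl | rfl <;> rcases roots hz he' with rfl | rfl | rfl
  · exact absurd rfl hee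
  · exact h01
  · exact h02
  · rw [Valuation.map_sub_swap]; exact h01
  · exact absurd rfl hee
  · exact h12
  · rw [Valuation.map_sub_swap]; exact h02
  · rw [Valuation.map_sub_swap]; exact h12
  · exact absurd rfl hee

theorem val_sep_le (V : Valuation L ℤᵐ⁰) (hz : z ^ 2 + z + 1 = 0)
    (hs : V ((1 + 2 * z) * d) = exp (-1 : ℤ))
    {e e' : L} (he : e ^ 3 = -d ^ 3) (he' : e' ^ 3 = -d ^ 3) : V (e - e') ≤ exp (-1 : ℤ) := by
  by_cases hee : e = e'
  · rw [hee, sub_self, map_zero]; exact zero_le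
  · exact (val_sep V hz hs he he' hee).le

/-- the value `≥ 1` does not depend on the root -/
theorem val_root (V : Valuation L ℤᵐ⁰) (hz : z ^ 2 + z + 1 = 0)
    (hs : V ((1 + 2 * z) * d) = exp (-1 : ℤ)) {x e e' : L} (he : e ^ 3 = -d ^ 3)
    (he' : e' ^ 3 = -d ^ 3) (h : 1 ≤ V (x - e)) : V (x - e') = V (x - e) := by
  have e1 : x - e' = (x - e) + (e - e') := by ring
  rw [e1]
  refine Valuation.map_add_eq_of_lt_left V ?_
  exact (val_sep_le V hz hs he he').trans_lt (exp_neg_one_lt.trans_le h)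

theorem cubic_prod (hz : z ^ 2 + z + 1 = 0) (x : L) :
    x ^ 3 + d ^ 3 = (x - -d) * ((x - z * -d) * (x - z ^ 2 * -d)) := by
  have h3 : z ^ 3 = 1 := by linear_combination (z - 1) * hz
  linear_combination -(x * d ^ 2 + x ^ 2 * d) * hz - (d ^ 3 + x * d ^ 2) * h3

end

end TamFour

open TamFour in
/-- The index is four. -/
theorem index_four {L : Type*} [Field L] [CharZero L] {z d : L} (V : Valuation L ℤᵐ⁰) (hz : z ^ 2 + z + 1 = 0) (hd1 : V d ≤ 1) (h2 : V 2 = 1)
    (hs : V ((1 + 2 * z) * d) = exp (-1 : ℤ)) : (nsG V (cv d)).index = 4 := by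
  have hd : d ≠ 0 := by
    rintro rfl
    rw [mul_zero, map_zero] at hs
    exact WithZero.exp_ne_zero hs.symm
  have hvz := val_z V hz
  have hz0 : z ≠ 0 := by
    rintro rfl
    rw [map_zero] at hvz
    exact zero_ne_one hvz
  have c0 : (-d) ^ 3 = -d ^ 3 := by ring
  have c1 := root_cube hz c0
  have c2 := root_cube2 hz c0
  have hroot1 : ∀ e : L, e ^ 3 = -d ^ 3 → V e = V d := by
    intro e he
    rcases roots hz he with rfl | rfl | rfl
    · rw [Valuation.map_neg]
    · rw [map_mul, Valuation.map_neg, hvz, one_mul]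
    · rw [map_mul, Valuation.map_neg, map_pow, hvz, one_pow, one_mul]
  have hne : ∀ e : L, e ^ 3 = -d ^ 3 → ∃ e' : L, e' ^ 3 = -d ^ 3 ∧ e' ≠ e := by
    intro e he
    refine ⟨z * e, root_cube hz he, fun h => ?_⟩
    have he0 : e ≠ 0 := by
      rintro rfl
      apply hd
      have h3 : d ^ 3 = 0 := by linear_combination he
      exact pow_eq_zero_iff (three_ne_zero) |>.1 h3
    have h1 : (z - 1) * e = 0 := by linear_combination h
    have hz1 : z = 1 := sub_eq_zero.1 ((mul_eq_zero.1 h1).resolve_right he0)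
    rw [hz1] at hz
    norm_num at hz
  have hsep : ∀ e e' : L, e ^ 3 = -d ^ 3 → e' ^ 3 = -d ^ 3 → e ≠ e' → ¬ SqV (V (e - e')) := by
    intro e e' he he' hee
    rw [val_sep V hz hs he he' hee]
    exact not_sqV
  have h3 : V 3 * V d ^ 2 = exp (-2 : ℤ) := by
    have e1 : ((1 + 2 * z) * d) ^ 2 = -(3 * d ^ 2) := by
      linear_combination 4 * d ^ 2 * hz
    have e2 := congrArg V e1
    rw [map_pow, hs, Valuation.map_neg, map_mul, map_pow] at e2
    rw [← e2, ← WithZero.exp_nsmul]
    norm_num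
  -- the generating set
  have hset : ∀ (x y : L) (h : (cv d).toAffine.Nonsingular x y), 1 ≤ V (x - -d) →
      Affine.Point.some x y h ∈ nsSet V (cv d) := by
    intro x y h hx
    refine Or.inr ⟨x, y, h, rfl, ?_⟩
    by_cases hx1 : 1 < V x
    · exact Or.inl hx1
    right; left
    push Not at hx1
    have hle : V (x - -d) ≤ 1 := by
      refine (Valuation.map_sub _ _ _).trans (max_le hx1 ?_)
      rw [Valuation.map_neg]; exact hd1
    have he1 : V (x - -d) = 1 := le_antisymm hle hx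
    have hy := (eqn_iff rfl x y).1 h.1
    rw [cubic_prod hz] at hy
    have hy2 := congrArg V hy
    rw [map_pow, map_mul, map_mul, val_root V hz hs c0 c1 hx, val_root V hz hs c0 c2 hx, he1,
      mul_one, mul_one] at hy2
    have hy3 : V y = 1 := (pow_eq_one_iff.1 hy2).resolve_right (by norm_num)
    have e1 : 2 * y + (cv d).a₁ * x + (cv d).a₃ = 2 * y := by simp [cv]
    rw [e1, map_mul, h2, hy3, one_mul]
  have hset' : ∀ (x y : L) (h : (cv d).toAffine.Nonsingular x y),
      Affine.Point.some x y h ∈ nsSet V (cv d) → 1 ≤ V (x - -d) := by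
    intro x y h hP
    rcases hP with h0 | ⟨x', y', h', hxy, hcase⟩
    · exact absurd h0 (Affine.Point.some_ne_zero _)
    obtain ⟨rfl, rfl⟩ := (Affine.Point.some.injEq ..).mp hxy
    by_contra hlt
    push Not at hlt
    have hx1 : V x ≤ 1 := by
      have e1 : x = (x - -d) + -d := by ring
      rw [e1]
      refine (Valuation.map_add _ _ _).trans (max_le hlt.le ?_)
      rw [Valuation.map_neg]; exact hd1
    rcases hcase with h1 | h1 | h1
    · exact absurd h1 (not_lt.2 hx1)
    · have e1 : 2 * y + (cv d).a₁ * x + (cv d).a₃ = 2 * y := by simp [cv]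
      rw [e1, map_mul, h2, one_mul] at h1
      have hy := (eqn_iff rfl x y).1 h.1
      rw [cubic_prod hz] at hy
      have hy2 := congrArg V hy
      rw [map_pow, map_mul, map_mul, h1, one_pow] at hy2
      have hl : ∀ e : L, e ^ 3 = -d ^ 3 → V (x - e) < 1 := by
        intro e he
        have e2 : x - e = (x - -d) + (-d - e) := by ring
        rw [e2]
        exact (Valuation.map_add _ _ _).trans_lt
          (max_lt hlt ((val_sep_le V hz hs c0 he).trans_lt exp_neg_one_lt))
      have h4 : V (x - -d) * (V (x - z * -d) * V (x - z ^ 2 * -d)) < 1 :=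
        mul_lt_one_of_nonneg_of_lt_one_left zero_le hlt
          (mul_le_one' (hl _ c1).le (hl _ c2).le)
      rw [← hy2] at h4
      exact lt_irrefl _ h4
    · have e1 : 3 * x ^ 2 + 2 * (cv d).a₂ * x + (cv d).a₄ - (cv d).a₁ * y = 3 * x ^ 2 := by
        simp [cv]
      rw [e1, map_mul, map_pow] at h1
      have h31 : V 3 ≤ 1 := by
        have e2 : (3 : L) = 2 + 1 := by norm_num
        rw [e2]
        refine (Valuation.map_add _ _ _).trans (max_le h2.le (map_one V).le)
      have hx2 : V x ^ 2 ≤ 1 := pow_le_one' hx1 2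
      have h32 : V 3 = 1 := by
        refine le_antisymm h31 ?_
        calc (1 : ℤᵐ⁰) = V 3 * V x ^ 2 := h1.symm
          _ ≤ V 3 * 1 := mul_le_mul_right hx2 _
          _ = V 3 := mul_one _
      rw [h32, one_mul] at h1 h3
      have hx3 : V x = 1 := (pow_eq_one_iff.1 h1).resolve_right (by norm_num)
      have hd2 : V d < 1 := by
        by_contra hc
        push Not at hc
        have : V d = 1 := le_antisymm hd1 hc
        rw [this, one_pow, ← WithZero.exp_zero, WithZero.exp_inj] at h3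
        norm_num at h3
      have : V (x - -d) = 1 := by
        rw [Valuation.map_sub_eq_of_lt_left V (by rw [Valuation.map_neg, hx3]; exact hd2)]
        exact hx3
      rw [this] at hlt
      exact lt_irrefl _ hlt
  -- contained in the group G4
  have hG : nsG V (cv d) ≤ G4 V (cv d).toAffine rfl hsep hne := by
    rw [nsG, AddSubgroup.closure_le]
    intro P hP
    rcases P with _ | ⟨x, y, h⟩
    · exact Or.inl rfl
    right
    refine ⟨x, y, h, rfl, ?_⟩
    have h1 := hset' x y h hP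
    intro e he
    have h4 := val_root V hz hs c0 he h1
    refine ⟨?_, ?_⟩
    · rintro rfl
      rw [sub_self, map_zero] at h4
      rw [← h4] at h1
      exact absurd h1 (not_le.2 zero_lt_one)
    · rw [h4]
      have hy := (eqn_iff rfl x y).1 h.1
      rw [cubic_prod hz] at hy
      have hy2 := congrArg V hy
      rw [map_pow, map_mul, map_mul, val_root V hz hs c0 c1 h1, val_root V hz hs c0 c2 h1] at hy2
      have h0 : V (x - -d) ≠ 0 := (zero_lt_one.trans_le h1).ne'
      refine sqV_of_mul (a := V (x - -d) ^ 2) (pow_ne_zero 2 h0) ⟨_, rfl⟩ ⟨V y, ?_⟩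
      rw [hy2, pow_two, mul_assoc]
  have hT : ∀ (e : L) (he : e ^ 3 = -d ^ 3), tp hd rfl e he ∉ nsG V (cv d) := by
    intro e he hm
    rcases hG hm with h0 | ⟨x, y, h, hxy, hall⟩
    · exact tp_ne hd rfl e he h0
    · obtain ⟨hx, -⟩ := (Affine.Point.some.injEq ..).mp hxy
      exact (hall e he).1 hx.symm
  -- the four points
  obtain ⟨A, hA⟩ : ∃ A : (cv d).toAffine.Point, A = tp hd rfl (-d) c0 := ⟨_, rfl⟩
  obtain ⟨B, hB⟩ : ∃ B : (cv d).toAffine.Point, B = tp hd rfl (z * -d) c1 := ⟨_, rfl⟩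
  obtain ⟨C, hC⟩ : ∃ C : (cv d).toAffine.Point, C = tp hd rfl (z ^ 2 * -d) c2 := ⟨_, rfl⟩
  have hAA : A + A = 0 := by rw [hA]; exact tp_two hd rfl _ _
  have hBB : B + B = 0 := by rw [hB]; exact tp_two hd rfl _ _
  have hCC : C + C = 0 := by rw [hC]; exact tp_two hd rfl _ _
  have hAB : A + B = C := by rw [hA, hB, hC]; exact tp_add hd rfl z hz _ _ _ _
  have hAn : A ∉ nsG V (cv d) := by rw [hA]; exact hT _ _
  have hBn : B ∉ nsG V (cv d) := by rw [hB]; exact hT _ _
  have hCn : C ∉ nsG V (cv d) := by rw [hC]; exact hT _ _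
  have nA : -A = A := neg_eq_of_add_eq_zero_left hAA
  have nB : -B = B := neg_eq_of_add_eq_zero_left hBB
  have nC : -C = C := neg_eq_of_add_eq_zero_left hCC
  have hAC : A + C = B := by rw [← hAB, ← add_assoc, hAA, zero_add]
  have hBC : B + C = A := by rw [← hAB, add_comm A B, ← add_assoc, hBB, zero_add]
  have hinj : Function.Injective (fun i : Fin 4 =>
      (QuotientAddGroup.mk (![0, A, B, C] i) : (cv d).toAffine.Point ⧸ nsG V (cv d))) := by
    intro i j hij
    have hij' : -(![0, A, B, C] i) + ![0, A, B, C] j ∈ nsG V (cv d) := QuotientAddGroup.eq.1 hij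
    fin_cases i <;> fin_cases j <;>
      simp [nA, nB, nC, hAB, hAC, hBC, add_comm B A, add_comm C A, add_comm C B, hAn, hBn, hCn]
        at hij' ⊢
  have hsurj : Function.Surjective (fun i : Fin 4 =>
      (QuotientAddGroup.mk (![0, A, B, C] i) : (cv d).toAffine.Point ⧸ nsG V (cv d))) := by
    intro q
    obtain ⟨P, rfl⟩ := QuotientAddGroup.mk_surjective q
    have hred : ∀ i : Fin 4, -(![0, A, B, C] i) + P ∈ nsSet V (cv d) → ∃ i : Fin 4,
        (QuotientAddGroup.mk (![0, A, B, C] i) : (cv d).toAffine.Point ⧸ nsG V (cv d)) =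
          QuotientAddGroup.mk P := fun i hi =>
      ⟨i, QuotientAddGroup.eq.2 (AddSubgroup.subset_closure hi)⟩
    have hred2 : ∀ (e : L) (he : e ^ 3 = -d ^ 3), P + tp hd rfl e he ∈ nsSet V (cv d) →
        ∃ i : Fin 4,
        (QuotientAddGroup.mk (![0, A, B, C] i) : (cv d).toAffine.Point ⧸ nsG V (cv d)) =
          QuotientAddGroup.mk P := by
      intro e he h
      rw [add_comm] at h
      rcases roots hz he with rfl | rfl | rfl
      · refine hred 1 ?_
        change -A + P ∈ _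
        rw [nA, hA]; exact h
      · refine hred 2 ?_
        change -B + P ∈ _
        rw [nB, hB]; exact h
      · refine hred 3 ?_
        change -C + P ∈ _
        rw [nC, hC]; exact h
    rcases P with _ | ⟨x, y, h⟩
    · refine hred 0 ?_
      change -0 + 0 ∈ _
      rw [neg_zero, zero_add]
      exact Or.inl rfl
    by_cases hx : 1 ≤ V (x - -d)
    · refine hred 0 ?_
      change -0 + _ ∈ _
      rw [neg_zero, zero_add]
      exact hset x y h hx
    push Not at hx
    have hy := (eqn_iff rfl x y).1 h.1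
    -- a near root
    obtain ⟨e, he, hxe⟩ : ∃ e : L, e ^ 3 = -d ^ 3 ∧ V (x - e) ≤ exp (-2 : ℤ) := by
      by_contra hcon
      push Not at hcon
      have h0 : V (x - -d) ≤ exp (-1 : ℤ) := le_exp_of_lt_one hx
      have hl : ∀ e : L, e ^ 3 = -d ^ 3 → V (x - e) = exp (-1 : ℤ) := by
        intro e he
        refine le_antisymm ?_ ?_
        · have e2 : x - e = (x - -d) + (-d - e) := by ring
          rw [e2]
          exact (Valuation.map_add _ _ _).trans (max_le h0 (val_sep_le V hz hs c0 he))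
        · by_contra hc
          push Not at hc
          exact absurd (le_exp_two hc) (not_le.2 (hcon e he))
      have hy' := hy
      rw [cubic_prod hz] at hy'
      have hy2 := congrArg V hy'
      rw [map_pow, map_mul, map_mul, hl _ c0, hl _ c1, hl _ c2] at hy2
      have h5 : SqV (exp (-1 : ℤ)) :=
        sqV_of_mul (a := exp (-1 : ℤ) ^ 2) (pow_ne_zero 2 WithZero.exp_ne_zero) ⟨_, rfl⟩
          ⟨V y, by rw [hy2, pow_two, mul_assoc]⟩
      exact not_sqV h5
    refine hred2 e he ?_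
    by_cases hxe0 : x = e
    · subst hxe0
      have hy0 : y = 0 := by
        have : y ^ 2 = 0 := by rw [hy]; linear_combination he
        exact pow_eq_zero_iff (two_ne_zero) |>.1 this
      subst hy0
      left
      exact tp_two hd rfl x he
    · rw [tp, Affine.Point.add_of_X_ne hxe0]
      refine hset _ _ _ ?_
      have hsl : (cv d).toAffine.slope x e y 0 = y / (x - e) := by
        rw [Affine.slope_of_X_ne hxe0, sub_zero]
      have hxe1 : x - e ≠ 0 := sub_ne_zero.2 hxe0
      have hX : ((cv d).toAffine.addX x e ((cv d).toAffine.slope x e y 0) - e) * (x - e) =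
          3 * e ^ 2 := by
        rw [hsl]
        have e1 : (cv d).toAffine.addX x e (y / (x - e)) = (y / (x - e)) ^ 2 - x - e := by
          simp [Affine.addX, cv]
        rw [e1]
        have e0 : (y / (x - e)) ^ 2 * (x - e) = y ^ 2 / (x - e) := by
          field_simp
        have e2 : ((y / (x - e)) ^ 2 - x - e - e) * (x - e) =
            y ^ 2 / (x - e) - (x + 2 * e) * (x - e) := by
          linear_combination e0
        rw [e2, hy]
        have e3 : x ^ 3 + d ^ 3 = (x ^ 2 + e * x + e ^ 2) * (x - e) := by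
          linear_combination he
        rw [e3, mul_div_cancel_right₀ _ hxe1]
        ring
      have hX2 := congrArg V hX
      rw [map_mul, map_mul, map_pow, hroot1 e he, h3] at hX2
      generalize (cv d).toAffine.addX x e ((cv d).toAffine.slope x e y 0) = X at hX2 ⊢
      have hX3 : 1 ≤ V (X - e) := by
        by_contra hc
        push Not at hc
        have h5 : V (X - e) * V (x - e) ≤ V (X - e) * exp (-2 : ℤ) := mul_le_mul_right hxe _
        rw [hX2] at h5
        have h6 : V (X - e) * exp (-2 : ℤ) < 1 * exp (-2 : ℤ) :=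
          mul_lt_mul_of_pos_right hc WithZero.exp_pos
        rw [one_mul] at h6
        exact lt_irrefl _ (h5.trans_lt h6)
      rw [val_root V hz hs he c0 hX3]
      exact hX3
  have hcard : Nat.card (Fin 4) = Nat.card ((cv d).toAffine.Point ⧸ nsG V (cv d)) :=
    Nat.card_congr (Equiv.ofBijective _ ⟨hinj, hsurj⟩)
  rw [AddSubgroup.index, ← hcard, Nat.card_eq_fintype_card, Fintype.card_fin]


end Pool.Agent.Lib.MP_1a91b9_ntH.C
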